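import Pool.Agent.H48.PI.OmA
import Pool.Agent.H48.PL.Wgt

/-!
# Module Wg4A: the weight `Ph4`, simple bounds

`Ph4 v w = μ(v,w)^4 h(v_e-w_e)`, `μ = min(1, jb w/jb v)`, `h = sp a`, `|h(x)| = |x|^a`. Compare `Ph` in H48/PL/Wgt.lean (same proofs with the power 4).
* `Ph4_abs`: as `Ph_abs` (`jb w ≥ jb v`: `|V_e| ≤ 2 jb w`; `jb w < jb v`: `μ^4 ≤ μ^a`, `|V_e|^a ≤ (2 jb v)^a`). `VPh4_eq`: `mul_sp`.
* `VPh4_le`: `jb w ≤ jb v`: `(w/v)^4 (2v)^(1+a) ≤ 4 w^(1+a)`, and `≤ 4 (w/v)² v^(1+a) = 4 v^(a-1) w²`; `jb w > jb v`: `(2w)^(1+a) ≤ 4 w^(1+a)` and `w^(1+a) = w² w^(a-1) ≤ w² v^(a-1)`.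
-/

set_option autoImplicit false

open MeasureTheory Set Filter Topology Pool.Agent.H25.Kin Pool.Agent.H48.PL

namespace Pool.Agent.H48.PI

variable {d : ℕ} {a : ℝ}

private lemma wg4a_V (e : Fin d) (v w : Vec d) : |v e - w e| ≤ jb v + jb w := by
  have h1 := abs_coord_le (v - w) e
  rw [Pi.sub_apply] at h1
  linarith [len_sub_le v w, len_le_jb v, len_le_jb w]

private lemma wg4a_two {r : ℝ} {n : ℕ} (hr : r ≤ n) : (2 : ℝ) ^ r ≤ 2 ^ n := by
  have := Real.rpow_le_rpow_of_exponent_le (by norm_num : (1 : ℝ) ≤ 2) hr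
  rwa [Real.rpow_natCast] at this

private lemma wg4a_coord (e : Fin d) : Continuous fun p : Vec d × Vec d => p.1 e - p.2 e :=
  ((continuous_apply e).comp continuous_fst).sub ((continuous_apply e).comp continuous_snd)

private lemma wg4a_abs_eq (e : Fin d) (v w : Vec d) :
    |Ph4 e a v w| = min 1 (jb w / jb v) ^ 4 * |v e - w e| ^ a := by
  unfold Ph4
  rw [abs_mul, abs_sp, abs_of_nonneg (by positivity)]

private lemma wg4a_mu (v w : Vec d) : 0 ≤ min 1 (jb w / jb v) :=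
  le_min zero_le_one (div_nonneg (jb_pos w).le (jb_pos v).le)

private lemma wg4a_mu_rpow {r : ℝ} (hr0 : 0 ≤ r) (hr : r ≤ 4) (e : Fin d) (v w : Vec d) :
    min 1 (jb w / jb v) ^ 4 * |v e - w e| ^ r ≤ 2 ^ r * jb w ^ r := by
  have hv := jb_pos v
  have hw := jb_pos w
  have hV := wg4a_V e v w
  have hmu0 := wg4a_mu v w
  rcases le_total (jb v) (jb w) with h | h
  · have h1 : min 1 (jb w / jb v) ^ 4 ≤ 1 := pow_le_one₀ hmu0 (min_le_left _ _)
    have h2 : |v e - w e| ^ r ≤ 2 ^ r * jb w ^ r := by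
      rw [← Real.mul_rpow (by norm_num) hw.le]
      exact Real.rpow_le_rpow (abs_nonneg _) (by linarith) hr0
    calc min 1 (jb w / jb v) ^ 4 * |v e - w e| ^ r ≤ 1 * (2 ^ r * jb w ^ r) :=
          mul_le_mul h1 h2 (Real.rpow_nonneg (abs_nonneg _) _) zero_le_one
      _ = 2 ^ r * jb w ^ r := one_mul _
  · have hle : jb w / jb v ≤ 1 := (div_le_one hv).2 h
    have hq0 : 0 < jb w / jb v := div_pos hw hv
    rw [min_eq_right hle]
    have h1 : (jb w / jb v) ^ 4 ≤ (jb w / jb v) ^ r := by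
      have h4 : (jb w / jb v) ^ 4 = (jb w / jb v) ^ (4 : ℝ) := by
        rw [← Real.rpow_natCast]; norm_num
      rw [h4]
      exact Real.rpow_le_rpow_of_exponent_ge hq0 hle hr
    have h2 : |v e - w e| ^ r ≤ 2 ^ r * jb v ^ r := by
      rw [← Real.mul_rpow (by norm_num) hv.le]
      exact Real.rpow_le_rpow (abs_nonneg _) (by linarith) hr0
    have h3 : (jb w / jb v) ^ r * jb v ^ r = jb w ^ r := by
      rw [← Real.mul_rpow hq0.le hv.le, div_mul_cancel₀ _ hv.ne']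
    calc (jb w / jb v) ^ 4 * |v e - w e| ^ r ≤ (jb w / jb v) ^ r * (2 ^ r * jb v ^ r) :=
          mul_le_mul h1 h2 (Real.rpow_nonneg (abs_nonneg _) _) (Real.rpow_nonneg hq0.le _)
      _ = 2 ^ r * ((jb w / jb v) ^ r * jb v ^ r) := by ring
      _ = 2 ^ r * jb w ^ r := by rw [h3]

lemma Ph4_PGW (ha : 0 < a) (e : Fin d) : PGW (Ph4 e a) := by
  obtain ⟨N, hN⟩ := exists_nat_ge a
  refine ⟨?_, N, (2 * ((d : ℝ) + 1) ^ 2) ^ N, by positivity, fun v w => ?_⟩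
  · unfold Ph4
    have h1 : Continuous fun p : Vec d × Vec d => min 1 (jb p.2 / jb p.1) :=
      continuous_const.min ((jb_cont.comp continuous_snd).div (jb_cont.comp continuous_fst)
        fun p => (jb_pos p.1).ne')
    exact (h1.pow 4).mul ((sp_cont ha).comp (wg4a_coord e))
  · have hv := one_le_jb v
    have hw := one_le_jb w
    have h1 : min 1 (jb w / jb v) ^ 4 ≤ 1 := pow_le_one₀ (wg4a_mu v w) (min_le_left _ _)
    have hV := wg4a_V e v w
    have h2 : jb v + jb w ≤ 2 * (jb v * jb w) := by nlinarith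
    have h3 := jb_le_w v
    have h4 := jb_le_w w
    have h5 : jb v * jb w ≤ (((d : ℝ) + 1) * (1 + ‖v‖)) * (((d : ℝ) + 1) * (1 + ‖w‖)) :=
      mul_le_mul h3 h4 (by linarith) (by positivity)
    have h6 : 2 * (jb v * jb w) ≤ (2 * ((d : ℝ) + 1) ^ 2) * ((1 + ‖v‖) * (1 + ‖w‖)) := by
      calc 2 * (jb v * jb w) ≤ 2 * ((((d : ℝ) + 1) * (1 + ‖v‖)) * (((d : ℝ) + 1) * (1 + ‖w‖))) := by
            linarith
        _ = (2 * ((d : ℝ) + 1) ^ 2) * ((1 + ‖v‖) * (1 + ‖w‖)) := by ring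
    have h7 : 1 ≤ 2 * (jb v * jb w) := by nlinarith
    rw [wg4a_abs_eq]
    calc min 1 (jb w / jb v) ^ 4 * |v e - w e| ^ a ≤ 1 * (2 * (jb v * jb w)) ^ a :=
          mul_le_mul h1 (Real.rpow_le_rpow (abs_nonneg _) (hV.trans h2) ha.le)
            (Real.rpow_nonneg (abs_nonneg _) _) zero_le_one
      _ = (2 * (jb v * jb w)) ^ a := one_mul _
      _ ≤ (2 * (jb v * jb w)) ^ (N : ℝ) := Real.rpow_le_rpow_of_exponent_le h7 hN
      _ = (2 * (jb v * jb w)) ^ N := Real.rpow_natCast _ _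
      _ ≤ ((2 * ((d : ℝ) + 1) ^ 2) * ((1 + ‖v‖) * (1 + ‖w‖))) ^ N :=
          pow_le_pow_left₀ (by linarith) h6 N
      _ = (2 * ((d : ℝ) + 1) ^ 2) ^ N * ((1 + ‖v‖) ^ N * (1 + ‖w‖) ^ N) := by
          rw [mul_pow, mul_pow (1 + ‖v‖)]

lemma Ph4_abs (ha : 0 < a) (ha1 : a ≤ 1) (e : Fin d) (v w : Vec d) : |Ph4 e a v w| ≤ 2 * jb w ^ a := by
  rw [wg4a_abs_eq]
  refine (wg4a_mu_rpow ha.le (by linarith) e v w).trans ?_
  refine mul_le_mul_of_nonneg_right ?_ (Real.rpow_nonneg (jb_pos w).le _)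
  have := wg4a_two (r := a) (n := 1) (by push_cast; linarith)
  simpa using this

lemma VPh4_eq (ha : 0 < a) (e : Fin d) (v w : Vec d) :
    (v e - w e) * Ph4 e a v w = min 1 (jb w / jb v) ^ 4 * |v e - w e| ^ (1 + a) := by
  unfold Ph4
  rw [← mul_sp ha]
  ring

lemma VPh4_nonneg (ha : 0 < a) (e : Fin d) (v w : Vec d) : 0 ≤ (v e - w e) * Ph4 e a v w := by
  rw [VPh4_eq ha]
  exact mul_nonneg (pow_nonneg (wg4a_mu v w) 4) (Real.rpow_nonneg (abs_nonneg _) _)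

lemma VPh4_le (ha : 0 < a) (ha1 : a ≤ 1) (e : Fin d) (v w : Vec d) :
    (v e - w e) * Ph4 e a v w ≤ 4 * jb w ^ (1 + a) ∧
    (v e - w e) * Ph4 e a v w ≤ 4 * (jb v ^ (a - 1) * jb w ^ 2) := by
  have hv := jb_pos v
  have hw := jb_pos w
  have h4 : (2 : ℝ) ^ (1 + a) ≤ 4 := by
    have := wg4a_two (r := 1 + a) (n := 2) (by push_cast; linarith)
    linarith
  have hA : (v e - w e) * Ph4 e a v w ≤ 4 * jb w ^ (1 + a) := by
    rw [VPh4_eq ha]
    refine (wg4a_mu_rpow (by linarith) (by linarith) e v w).trans ?_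
    exact mul_le_mul_of_nonneg_right h4 (Real.rpow_nonneg hw.le _)
  refine ⟨hA, ?_⟩
  rcases le_total (jb v) (jb w) with h | h
  · refine hA.trans ?_
    have e1 : jb w ^ (1 + a) = jb w ^ (a - 1) * jb w ^ 2 := by
      rw [← Real.rpow_two, ← Real.rpow_add hw]
      congr 1; ring
    rw [e1]
    have e2 : jb w ^ (a - 1) ≤ jb v ^ (a - 1) :=
      Real.rpow_le_rpow_of_nonpos hv h (by linarith)
    have e3 : jb w ^ (a - 1) * jb w ^ 2 ≤ jb v ^ (a - 1) * jb w ^ 2 :=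
      mul_le_mul_of_nonneg_right e2 (by positivity)
    linarith
  · rw [VPh4_eq ha]
    have hle : jb w / jb v ≤ 1 := (div_le_one hv).2 h
    have hq0 : 0 < jb w / jb v := div_pos hw hv
    rw [min_eq_right hle]
    have hV := wg4a_V e v w
    have e1 : (jb w / jb v) ^ 4 ≤ (jb w / jb v) ^ 2 := pow_le_pow_of_le_one hq0.le hle (by norm_num)
    have e2 : |v e - w e| ^ (1 + a) ≤ 4 * jb v ^ (1 + a) := by
      calc |v e - w e| ^ (1 + a) ≤ (2 * jb v) ^ (1 + a) :=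
            Real.rpow_le_rpow (abs_nonneg _) (by linarith) (by linarith)
        _ = 2 ^ (1 + a) * jb v ^ (1 + a) := Real.mul_rpow (by norm_num) hv.le
        _ ≤ 4 * jb v ^ (1 + a) := mul_le_mul_of_nonneg_right h4 (Real.rpow_nonneg hv.le _)
    have e3 : jb v ^ (1 + a) = jb v ^ (a - 1) * jb v ^ 2 := by
      rw [← Real.rpow_two, ← Real.rpow_add hv]
      congr 1; ring
    calc (jb w / jb v) ^ 4 * |v e - w e| ^ (1 + a)
        ≤ (jb w / jb v) ^ 2 * (4 * jb v ^ (1 + a)) :=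
          mul_le_mul e1 e2 (Real.rpow_nonneg (abs_nonneg _) _) (by positivity)
      _ = 4 * (jb v ^ (a - 1) * jb w ^ 2) := by
          rw [e3]
          field_simp

end Pool.Agent.H48.PI
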