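import Pool.Agent.H48.PI.Defs

/-!
# Module BetA: the functions `bet`, `chi`

* `bet C₀ r = C₀ r/(C₀+r)`, `r ≥ 0`, `C₀ > 0`: `0 ≤ bet ≤ min r C₀`, `r - bet = r²/(C₀+r)`; derivative `(C₀/(C₀+r))²`.
* `chi R w = max 0 (min 1 (2 - jb w/R))`, `R ≥ 1`. Lipschitz: `max`, `min` are 1-Lipschitz and `jb_lip`. `min 1 x ≤ x^a` for `x ≥ 0`, `0 < a ≤ 1`.
-/

set_option autoImplicit false

open MeasureTheory Set Filter Topology Pool.Agent.H25.Kin Pool.Agent.H48.PL

namespace Pool.Agent.H48.PI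

variable {d : ℕ} {C₀ R : ℝ}

lemma bet_nonneg (hC : 0 < C₀) {r : ℝ} (hr : 0 ≤ r) : 0 ≤ bet C₀ r := by
  unfold bet
  positivity

lemma bet_le (hC : 0 < C₀) {r : ℝ} (hr : 0 ≤ r) : bet C₀ r ≤ r := by
  unfold bet
  have h : 0 < C₀ + r := by linarith
  rw [div_le_iff₀ h]
  nlinarith [mul_nonneg hr hr]

lemma bet_le_C (hC : 0 < C₀) {r : ℝ} (hr : 0 ≤ r) : bet C₀ r ≤ C₀ := by
  unfold bet
  have h : 0 < C₀ + r := by linarith
  rw [div_le_iff₀ h]
  nlinarith [mul_pos hC hC]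

lemma sub_bet (hC : 0 < C₀) {r : ℝ} (hr : 0 ≤ r) : r - bet C₀ r = r ^ 2 / (C₀ + r) := by
  unfold bet
  have h : C₀ + r ≠ 0 := by linarith
  field_simp
  ring

lemma bet'_nonneg (C₀ r : ℝ) : 0 ≤ bet' C₀ r := by
  unfold bet'
  exact sq_nonneg _

lemma bet'_le (hC : 0 < C₀) {r : ℝ} (hr : 0 ≤ r) : bet' C₀ r ≤ 1 := by
  unfold bet'
  have h : 0 < C₀ + r := by linarith
  have h1 : C₀ / (C₀ + r) ≤ 1 := by
    rw [div_le_one h]
    linarith
  exact pow_le_one₀ (by positivity) h1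

lemma bet_deriv (hC : 0 < C₀) {r : ℝ} (hr : 0 ≤ r) : HasDerivAt (bet C₀) (bet' C₀ r) r := by
  have h : C₀ + r ≠ 0 := by linarith
  have h1 : HasDerivAt (fun x : ℝ => C₀ * x) C₀ r := by
    simpa using (hasDerivAt_id r).const_mul C₀
  have h2 : HasDerivAt (fun x : ℝ => C₀ + x) 1 r := by
    simpa using (hasDerivAt_id r).const_add C₀
  have h3 := h1.div h2 h
  have h4 : bet' C₀ r = (C₀ * (C₀ + r) - C₀ * r * 1) / (C₀ + r) ^ 2 := by
    unfold bet'
    field_simp
    ring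
  rw [h4]
  exact h3

lemma bet_contDiffAt (hC : 0 < C₀) {r : ℝ} (hr : 0 ≤ r) : ContDiffAt ℝ 2 (bet C₀) r := by
  have h : C₀ + r ≠ 0 := by linarith
  have h1 : ContDiffAt ℝ 2 (fun x : ℝ => C₀ * x) r := contDiffAt_const.mul contDiffAt_id
  have h2 : ContDiffAt ℝ 2 (fun x : ℝ => C₀ + x) r := contDiffAt_const.add contDiffAt_id
  exact h1.div h2 h

lemma chi_nonneg (R : ℝ) (w : Vec d) : 0 ≤ chi R w := le_max_left _ _

lemma chi_le_one (R : ℝ) (w : Vec d) : chi R w ≤ 1 := max_le zero_le_one (min_le_left _ _)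

lemma chi_eq_one (hR : 1 ≤ R) {w : Vec d} (h : jb w ≤ R) : chi R w = 1 := by
  have hR0 : 0 < R := by linarith
  have h1 : jb w / R ≤ 1 := (div_le_one hR0).2 h
  unfold chi
  rw [min_eq_left (by linarith), max_eq_right zero_le_one]

lemma chi_eq_zero (hR : 1 ≤ R) {w : Vec d} (h : 2 * R ≤ jb w) : chi R w = 0 := by
  have hR0 : 0 < R := by linarith
  have h1 : 2 ≤ jb w / R := (le_div_iff₀ hR0).2 h
  unfold chi
  exact max_eq_left ((min_le_right _ _).trans (by linarith))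

lemma chi_cont (R : ℝ) : Continuous (chi R : Vec d → ℝ) := by
  unfold chi
  exact continuous_const.max (continuous_const.min (continuous_const.sub (jb_cont.div_const R)))

private lemma beta_clip_lip (x y : ℝ) : |max 0 (min 1 x) - max 0 (min 1 y)| ≤ |x - y| := by
  refine (abs_max_sub_max_le_max 0 (min 1 x) 0 (min 1 y)).trans ?_
  rw [sub_self, abs_zero, max_eq_right (abs_nonneg _)]
  refine (abs_min_sub_min_le_max 1 x 1 y).trans ?_
  rw [sub_self, abs_zero, max_eq_right (abs_nonneg _)]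

lemma chi_holder (hR : 1 ≤ R) {a : ℝ} (ha : 0 < a) (ha1 : a ≤ 1) (w w' : Vec d) :
    |chi R w - chi R w'| ≤ len (w - w') ^ a := by
  have hR0 : 0 < R := by linarith
  have hl := len_nonneg (w - w')
  have h1 : |chi R w - chi R w'| ≤ len (w - w') := by
    unfold chi
    refine (beta_clip_lip _ _).trans ?_
    have h2 : 2 - jb w / R - (2 - jb w' / R) = -((jb w - jb w') / R) := by ring
    rw [h2, abs_neg, abs_div, abs_of_pos hR0, div_le_iff₀ hR0]
    have h3 := jb_lip w w'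
    nlinarith
  have h4 : |chi R w - chi R w'| ≤ 1 := by
    rw [abs_le]
    have a1 := chi_nonneg R w
    have a2 := chi_nonneg R w'
    have a3 := chi_le_one R w
    have a4 := chi_le_one R w'
    constructor <;> linarith
  rcases le_or_gt 1 (len (w - w')) with h5 | h5
  · exact h4.trans (Real.one_le_rpow h5 ha.le)
  · refine h1.trans ?_
    rcases hl.eq_or_lt with h6 | h6
    · rw [← h6, Real.zero_rpow ha.ne']
    · calc len (w - w') = len (w - w') ^ (1 : ℝ) := (Real.rpow_one _).symm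
        _ ≤ len (w - w') ^ a := Real.rpow_le_rpow_of_exponent_ge h6 h5.le ha1

end Pool.Agent.H48.PI
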