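import Pool.Agent.H15.AV.Slc
import Pool.Agent.H15.AV.SlcB

/-!
# Module MassI: the total mass as an iterated integral
-/

set_option autoImplicit false

open MeasureTheory Set Filter Topology Pool.Agent.H25.Kin Pool.Agent.H15.AV

namespace Pool.Agent.H48.PI

variable {d : ℕ}

theorem mass_iter {F : Vec d → Vec d → ℝ} (hF : Slice F) :
    ∫ q, F q.2 q.1 ∂(nu d) = ∫ x in Icc (0 : Vec d) 1, ∫ v, F x v := by
  obtain ⟨C, hC⟩ := hF.decay (d + 1)
  have hm : Measurable fun q : Vec d × Vec d => F q.2 q.1 :=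
    (hF.cont.comp (continuous_snd.prodMk continuous_fst)).measurable
  have h1 : Integrable (fun q : Vec d × Vec d => F q.2 q.1) (nu d) := by
    refine integrable_nu (C := C) hm.aestronglyMeasurable fun q => ?_
    rw [abs_of_nonneg (hF.nonneg _ _)]
    unfold wt
    rw [← div_eq_mul_inv, le_div_iff₀ (pow_pos (w_pos q.1) _)]
    calc F q.2 q.1 * (1 + ‖q.1‖) ^ (d + 1) = (1 + ‖q.1‖) ^ (d + 1) * F q.2 q.1 := by ring
      _ ≤ C := hC q.2 q.1
  exact nu_integral h1

end Pool.Agent.H48.PI
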