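import Pool.Agent.H48.PI.Defs
import Pool.Agent.H82.BK.Fin

/-!
# Module HydU: hydrodynamic upper bounds from a rapid decay with given constants

Proof of `RapidUpTo.hydro` (H82/BK/Fin.lean) with the constants `U`: `∫ f ≤ U(d+1) ∫ wt`, `nsq v ≤ d (1+‖v‖)²`, `f log f ≤ f²` (`Real.log_le_self` / `log y ≤ y`), `f ≤ U 0`. The constant depends on `U` and `d` only.
-/

set_option autoImplicit false

open MeasureTheory Set Filter Topology Pool.Agent.H25.Kin Pool.Agent.H82.BK Pool.Agent.H48.PL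

namespace Pool.Agent.H48.PI

variable {d : ℕ}

theorem hydro_of_U (d : ℕ) (U : ℕ → ℝ) : ∃ M₀ : ℝ, ∀ (T : ℝ) (Q f : ℝ → Vec d → Vec d → ℝ), IsClassicalSol T Q f →
    (∀ N : ℕ, ∀ t ∈ Ico 0 T, ∀ x v, (1 + ‖v‖) ^ N * f t x v ≤ U N) → ∀ t ∈ Ico 0 T, ∀ x,
      (∫ v, f t x v ≤ M₀) ∧ (∫ v, f t x v * nsq v ≤ M₀) ∧ ∫ v, f t x v * Real.log (f t x v) ≤ M₀ := by
  have hw : Integrable (fun v : Vec d => ((1 + ‖v‖) ^ (d + 1))⁻¹) := integrable_wt
  set W := ∫ v : Vec d, ((1 + ‖v‖) ^ (d + 1))⁻¹ with hW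
  have hW0 : 0 ≤ W := integral_nonneg fun v => inv_nonneg.2 (pow_nonneg (w_pos v).le _)
  set C := U (d + 3) with hCdef
  set C' := U 0 with hC'def
  set L := Real.log (max C' 1) with hL
  have hL0 : 0 ≤ L := Real.log_nonneg (le_max_right _ _)
  refine ⟨(d + 1) * |C| * W * (1 + L), fun T Q f hf hU t ht x => ?_⟩
  have hC := hU (d + 3)
  have hC' := hU 0
  have hdec : ∀ v, f t x v ≤ |C| * ((1 + ‖v‖) ^ (d + 1))⁻¹ ∧
      f t x v * nsq v ≤ ((d + 1) * |C|) * ((1 + ‖v‖) ^ (d + 1))⁻¹ := by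
    intro v
    have h0 := hf.nonneg t ht x v
    have h1 := (hC t ht x v).trans (le_abs_self C)
    have hwp := w_pos v
    have h1w := one_le_w v
    constructor
    · rw [← div_eq_mul_inv, le_div_iff₀ (pow_pos hwp _)]
      refine le_trans ?_ h1
      rw [mul_comm]
      exact mul_le_mul_of_nonneg_right (pow_le_pow_right₀ h1w (by omega)) h0
    · rw [← div_eq_mul_inv, le_div_iff₀ (pow_pos hwp _)]
      have h2 : nsq v ≤ (d + 1) * (1 + ‖v‖) ^ 2 := by linarith [one_add_nsq_le v]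
      calc f t x v * nsq v * (1 + ‖v‖) ^ (d + 1)
          ≤ f t x v * ((d + 1) * (1 + ‖v‖) ^ 2) * (1 + ‖v‖) ^ (d + 1) := by gcongr
        _ = (d + 1) * ((1 + ‖v‖) ^ (d + 3) * f t x v) := by ring
        _ ≤ (d + 1) * |C| := mul_le_mul_of_nonneg_left h1 (by positivity)
  have hfn := fun v => hf.nonneg t ht x v
  have hmass : ∫ v, f t x v ≤ |C| * W := by
    rw [hW, ← integral_const_mul]
    exact integral_mono_of_nonneg (Eventually.of_forall hfn) (hw.const_mul _)
      (Eventually.of_forall fun v => (hdec v).1)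
  have hd0 : (0 : ℝ) ≤ d := Nat.cast_nonneg d
  have hA : 0 ≤ |C| * W := by positivity
  have hB : |C| * W ≤ (d + 1) * |C| * W := by nlinarith
  refine ⟨?_, ?_, ?_⟩
  · calc ∫ v, f t x v ≤ |C| * W := hmass
      _ ≤ (d + 1) * |C| * W := hB
      _ ≤ (d + 1) * |C| * W * (1 + L) := by nlinarith [mul_nonneg (hA.trans hB) hL0]
  · have h3 : ∫ v, f t x v * nsq v ≤ ((d + 1) * |C|) * W := by
      rw [hW, ← integral_const_mul]
      exact integral_mono_of_nonneg
        (Eventually.of_forall fun v => mul_nonneg (hfn v) (sq_nonneg' v)) (hw.const_mul _)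
        (Eventually.of_forall fun v => (hdec v).2)
    nlinarith [mul_nonneg (hA.trans hB) hL0]
  · have hpt : ∀ v, f t x v * Real.log (f t x v) ≤ L * f t x v := by
      intro v
      rcases (hfn v).eq_or_lt with h0 | h0
      · rw [← h0]; simp
      · have h1 := hC' t ht x v
        rw [pow_zero, one_mul] at h1
        have h2 : Real.log (f t x v) ≤ L := Real.log_le_log h0 (h1.trans (le_max_left _ _))
        calc f t x v * Real.log (f t x v) ≤ f t x v * L := mul_le_mul_of_nonneg_left h2 h0.le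
          _ = L * f t x v := mul_comm _ _
    have hm0 : 0 ≤ ∫ v, f t x v := integral_nonneg hfn
    have h4 : ∫ v, f t x v * Real.log (f t x v) ≤ L * ∫ v, f t x v := by
      by_cases hi : Integrable (fun v => f t x v * Real.log (f t x v))
      · have hfi : Integrable (fun v => f t x v) := hf.integrable_slice0 ht x
        rw [← integral_const_mul]
        exact integral_mono hi (hfi.const_mul L) hpt
      · rw [integral_undef hi]; positivity
    have h5 : L * ∫ v, f t x v ≤ L * (|C| * W) := mul_le_mul_of_nonneg_left hmass hL0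
    nlinarith [mul_nonneg hL0 (hA.trans hB), mul_nonneg hL0 hA, mul_nonneg hL0 (sub_nonneg.2 hB)]

/-- the total mass vanishes only for the zero solution -/
theorem zero_of_mass {T : ℝ} {Q f : ℝ → Vec d → Vec d → ℝ} (hf : IsClassicalSol T Q f) {t : ℝ} (ht : t ∈ Ico 0 T)
    (h : ∫ q, f t q.2 q.1 ∂(nu d) = 0) (x v : Vec d) : f t x v = 0 := by
  obtain ⟨C, hC⟩ := hf.decay t ht.2 (d + 1)
  obtain ⟨y₀, hy₀⟩ : ∃ y₀ : Vec d, y₀ = fun _ => (1 / 2 : ℝ) := ⟨_, rfl⟩
  obtain ⟨a, ha⟩ : ∃ a : Vec d, a = x - y₀ := ⟨_, rfl⟩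
  have hc0 : Continuous fun q : Vec d × Vec d => f t q.1 q.2 := hf.cont_slice ht
  have hcc : ∀ c : Vec d, Continuous fun q : Vec d × Vec d => f t (q.2 + c) q.1 := fun c =>
    hc0.comp (by fun_prop : Continuous fun q : Vec d × Vec d => (q.2 + c, q.1))
  have hn : ∀ (c : Vec d) (q : Vec d × Vec d), 0 ≤ f t (q.2 + c) q.1 := fun c q => hf.nonneg t ht _ _
  have hint : ∀ c : Vec d, Integrable (fun q : Vec d × Vec d => f t (q.2 + c) q.1) (nu d) := by
    intro c
    refine integrable_nu (C := C) (hcc c).aestronglyMeasurable fun q => ?_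
    rw [abs_of_nonneg (hn c q)]
    have h1 := hC t ⟨ht.1, le_rfl⟩ (q.2 + c) q.1
    have h2 : 0 < (1 + ‖q.1‖) ^ (d + 1) := pow_pos (w_pos _) _
    unfold wt
    rw [← div_eq_mul_inv, le_div_iff₀ h2, mul_comm]
    exact h1
  have hI : ∀ c : Vec d, ∫ q, f t (q.2 + c) q.1 ∂(nu d) =
      ∫ w : Vec d, ∫ y in Icc (0 : Vec d) 1, f t (y + c) w := by
    intro c
    have h1 := hint c
    unfold nu at h1 ⊢
    rw [integral_prod _ h1]
    rfl
  have h0 : ∫ q, f t (q.2 + a) q.1 ∂(nu d) = 0 := by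
    rw [hI a]
    have h1 := hI 0
    simp only [add_zero] at h1
    rw [h] at h1
    rw [h1]
    refine integral_congr_ae (Eventually.of_forall fun w => ?_)
    have h2 : Per fun y => f t y w := fun y i => hf.periodic t ht y w i
    exact h2.integral a
  have h1 : (fun q : Vec d × Vec d => f t (q.2 + a) q.1) =ᵐ[nu d] 0 :=
    (integral_eq_zero_iff_of_nonneg (hn a) (hint a)).1 h0
  obtain ⟨B, hB⟩ : ∃ B : Set (Vec d), B = Set.univ.pi fun _ : Fin d => Ioo (0 : ℝ) 1 := ⟨_, rfl⟩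
  have hBo : IsOpen B := by
    rw [hB]
    exact isOpen_set_pi finite_univ fun _ _ => isOpen_Ioo
  have hBs : B ⊆ Icc (0 : Vec d) 1 := by
    intro y hy
    rw [hB] at hy
    exact ⟨fun i => (hy i (mem_univ i)).1.le, fun i => (hy i (mem_univ i)).2.le⟩
  have hnu : nu d = (volume : Measure (Vec d × Vec d)).restrict (univ ×ˢ Icc (0 : Vec d) 1) := by
    unfold nu muD
    rw [Measure.volume_eq_prod, ← Measure.prod_restrict, Measure.restrict_univ]
  rw [hnu] at h1
  have h2 : (fun q : Vec d × Vec d => f t (q.2 + a) q.1) =ᵐ[(volume : Measure (Vec d × Vec d)).restrict (univ ×ˢ B)] 0 :=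
    ae_restrict_of_ae_restrict_of_subset (prod_mono_right hBs) h1
  have h3 := Measure.eqOn_open_of_ae_eq h2 (isOpen_univ.prod hBo) (hcc a).continuousOn continuousOn_const
  have h4 : ((v, y₀) : Vec d × Vec d) ∈ (univ : Set (Vec d)) ×ˢ B := by
    refine ⟨mem_univ _, ?_⟩
    rw [hB, hy₀]
    intro i _
    constructor <;> norm_num
  have h5 := h3 h4
  simp only [Pi.zero_apply] at h5
  rw [ha, add_sub_cancel] at h5
  exact h5

end Pool.Agent.H48.PI
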