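import Pool.Agent.H48.PI.Defs
import Pool.Agent.H48.PL.CSolP

/-!
# Module DnC: continuity of the regularized entropy production
-/

set_option autoImplicit false

open MeasureTheory Set Filter Topology Pool.Agent.H25.Kin Pool.Agent.H48.PL
open Pool.Agent.H15.AV (gau)

namespace Pool.Agent.H48.PI

variable {d : ℕ} {γ T δ : ℝ} {b : ℝ → ℝ} {f : ℝ → Vec d → Vec d → ℝ}

private lemma dn_log {y : ℝ} (hy : 0 ≤ y) (hδ : 0 < δ) (v : Vec d) :
    |Real.log (y + δ * gau v)| ≤ |Real.log δ| + nsq v + y + δ := by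
  have hn := sq_nonneg' v
  have hg : 0 < gau v := Real.exp_pos _
  have hg1 : gau v ≤ 1 := by
    unfold gau
    exact Real.exp_le_one_iff.2 (by linarith)
  have hδg : 0 < δ * gau v := mul_pos hδ hg
  have h1 : Real.log (δ * gau v) ≤ Real.log (y + δ * gau v) := Real.log_le_log hδg (by linarith)
  have h2 : Real.log (δ * gau v) = Real.log δ - nsq v := by
    rw [Real.log_mul hδ.ne' hg.ne']
    unfold gau
    rw [Real.log_exp]
    ring
  have h3 : Real.log (y + δ * gau v) ≤ y + δ * gau v - 1 := Real.log_le_sub_one_of_pos (by linarith)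
  have h4 : δ * gau v ≤ δ := mul_le_of_le_one_right hδ.le hg1
  have h5 := neg_abs_le (Real.log δ)
  have h6 := abs_nonneg (Real.log δ)
  rw [abs_le]
  constructor <;> linarith

private lemma dn_bd (hf : IsBoltzmannSol γ b T f) (hδ : 0 < δ) {T₀ T₁ : ℝ} (h0 : 0 < T₀) (h1 : T₁ < T) :
    ∃ K : ℝ, ∀ t ∈ Icc T₀ T₁, ∀ x v,
      |boltzQ γ b (f t x) v * Real.log (f t x v + δ * gau v)| ≤ K * wt d v := by
  have hf' : IsClassicalSol T (fun t x => boltzQ γ b (f t x)) f := hf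
  obtain ⟨A, hA⟩ := hf'.decay T₁ h1 0
  obtain ⟨C, hC0, hC⟩ := hf'.Q_le h0 h1 (2 + (d + 1))
  set L : ℝ := |Real.log δ| + d + |A| + δ with hL
  have hL0 : 0 ≤ L := by positivity
  refine ⟨L * C, fun t ht x v => ?_⟩
  have ht' : t ∈ Icc 0 T₁ := ⟨h0.le.trans ht.1, ht.2⟩
  have h2 : f t x v ≤ |A| := by
    have := hA t ht' x v
    rw [pow_zero, one_mul] at this
    exact this.trans (le_abs_self A)
  have h3 : 0 ≤ f t x v := hf'.nonneg t ⟨ht'.1, ht'.2.trans_lt h1⟩ x v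
  have h4 : 1 ≤ (1 + ‖v‖) ^ 2 := one_le_pow₀ (by linarith [norm_nonneg v])
  have h5 : nsq v ≤ d * (1 + ‖v‖) ^ 2 := by
    refine (sq_le v).trans (mul_le_mul_of_nonneg_left ?_ (Nat.cast_nonneg _))
    exact pow_le_pow_left₀ (norm_nonneg _) (by linarith) 2
  have h6 : |Real.log (f t x v + δ * gau v)| ≤ L * (1 + ‖v‖) ^ 2 := by
    refine (dn_log h3 hδ v).trans ?_
    have e1 : |Real.log δ| ≤ |Real.log δ| * (1 + ‖v‖) ^ 2 := le_mul_of_one_le_right (abs_nonneg _) h4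
    have e2 : f t x v ≤ |A| * (1 + ‖v‖) ^ 2 := h2.trans (le_mul_of_one_le_right (abs_nonneg _) h4)
    have e3 : δ ≤ δ * (1 + ‖v‖) ^ 2 := le_mul_of_one_le_right hδ.le h4
    rw [hL]
    nlinarith
  rw [abs_mul]
  calc |boltzQ γ b (f t x) v| * |Real.log (f t x v + δ * gau v)|
      ≤ (C * ((1 + ‖v‖) ^ (2 + (d + 1)))⁻¹) * (L * (1 + ‖v‖) ^ 2) :=
        mul_le_mul (hC t ht x v) h6 (abs_nonneg _) (mul_nonneg hC0 (inv_nonneg.2 (pow_nonneg (w_pos v).le _)))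
    _ = (L * (1 + ‖v‖) ^ 2) * (C * ((1 + ‖v‖) ^ (2 + (d + 1)))⁻¹) := mul_comm _ _
    _ = L * C * wt d v := wt_bound hL0 hC0 v 2

private noncomputable def dnI (γ : ℝ) (b : ℝ → ℝ) (δ : ℝ) (f : ℝ → Vec d → Vec d → ℝ)
    (z : ℝ × Vec d × Vec d) : ℝ :=
  boltzQ γ b (f z.1 z.2.1) z.2.2 * Real.log (f z.1 z.2.1 z.2.2 + δ * gau z.2.2)

private lemma Dn_eqI (t : ℝ) (x : Vec d) : Dn γ b δ (f t x) = -∫ v, dnI γ b δ f (t, x, v) := rfl

private lemma dn_jc (hf : IsBoltzmannSol γ b T f) (hδ : 0 < δ) :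
    ContinuousOn (dnI γ b δ f) (Ioo 0 T ×ˢ univ) := by
  unfold dnI
  have hf' : IsClassicalSol T (fun t x => boltzQ γ b (f t x)) f := hf
  have h1 := (csol_mom hf' (PG.const 1) continuous_const (p := fun _ => (1 : ℝ))).contS
  have h2 : ContinuousOn (fun z : ℝ × Vec d × Vec d => boltzQ γ b (f z.1 z.2.1) z.2.2) (Ioo 0 T ×ˢ univ) := by
    refine h1.congr fun z _ => ?_
    simp [unc]
  have h3 : ContinuousOn (fun z : ℝ × Vec d × Vec d => f z.1 z.2.1 z.2.2) (Ioo 0 T ×ˢ univ) :=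
    (show ContinuousOn (unc f) (Ico 0 T ×ˢ univ) from hf'.isCont).mono
      (prod_mono Ioo_subset_Ico_self le_rfl)
  have h4 : Continuous fun z : ℝ × Vec d × Vec d => δ * gau z.2.2 := by
    unfold gau
    exact continuous_const.mul (Real.continuous_exp.comp
      (continuous_sq.comp (by fun_prop : Continuous fun z : ℝ × Vec d × Vec d => z.2.2)).neg)
  refine h2.mul (ContinuousOn.log (h3.add h4.continuousOn) fun z hz => ?_)
  have h5 : 0 ≤ f z.1 z.2.1 z.2.2 := hf'.nonneg z.1 ⟨hz.1.1.le, hz.1.2⟩ _ _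
  have h6 : 0 < δ * gau z.2.2 := mul_pos hδ (Real.exp_pos _)
  linarith

private lemma dn_nhds {t : ℝ} (ht : t ∈ Ioo 0 T) :
    0 < t / 2 ∧ (t + T) / 2 < T ∧ t ∈ Ioo (t / 2) ((t + T) / 2) := by
  refine ⟨by linarith [ht.1], by linarith [ht.2], by linarith [ht.1], by linarith [ht.2]⟩

private lemma dn_c1 (hf : IsBoltzmannSol γ b T f) (hδ : 0 < δ) :
    ContinuousOn (fun q : ℝ × Vec d => Dn γ b δ (f q.1 q.2)) (Ioo 0 T ×ˢ univ) := by
  intro q hq
  obtain ⟨h0, h1, h2⟩ := dn_nhds (T := T) hq.1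
  obtain ⟨K, hK⟩ := dn_bd hf hδ h0 h1
  have hsub : ∀ r ∈ Icc (q.1 / 2) ((q.1 + T) / 2), r ∈ Ioo 0 T := fun r hr =>
    ⟨h0.trans_le hr.1, hr.2.trans_lt h1⟩
  have hj := dn_jc hf hδ
  have key : ContinuousOn (fun q : ℝ × Vec d => Dn γ b δ (f q.1 q.2))
      (Icc (q.1 / 2) ((q.1 + T) / 2) ×ˢ univ) := by
    simp only [Dn_eqI]
    refine ContinuousOn.neg ?_
    refine continuousOn_of_dominated (F := fun (q : ℝ × Vec d) (v : Vec d) => dnI γ b δ f (q.1, q.2, v))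
      (bound := fun v => K * wt d v) ?_ ?_ ?_ ?_
    · intro r hr
      have h3 : Continuous fun v : Vec d => ((r.1, r.2, v) : ℝ × Vec d × Vec d) := by fun_prop
      have h4 : Continuous fun v : Vec d => dnI γ b δ f (r.1, r.2, v) :=
        hj.comp_continuous h3 fun v => ⟨hsub _ hr.1, mem_univ _⟩
      exact h4.aestronglyMeasurable
    · intro r hr
      exact Eventually.of_forall fun v => hK r.1 hr.1 r.2 v
    · exact integrable_wt.const_mul K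
    · refine Eventually.of_forall fun v => ?_
      have h3 : Continuous fun r : ℝ × Vec d => ((r.1, r.2, v) : ℝ × Vec d × Vec d) := by fun_prop
      exact ContinuousOn.comp (g := dnI γ b δ f) (f := fun r : ℝ × Vec d => (r.1, r.2, v)) hj
        h3.continuousOn fun r hr => ⟨hsub _ hr.1, mem_univ _⟩
  refine (key q ⟨⟨h2.1.le, h2.2.le⟩, mem_univ _⟩).mono_of_mem_nhdsWithin ?_
  refine mem_nhdsWithin_of_mem_nhds ?_
  have : Icc (q.1 / 2) ((q.1 + T) / 2) ×ˢ (univ : Set (Vec d)) ∈ 𝓝 (q.1, q.2) :=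
    prod_mem_nhds (Icc_mem_nhds h2.1 h2.2) univ_mem
  exact this

private lemma dn_abs (hf : IsBoltzmannSol γ b T f) (hδ : 0 < δ) {T₀ T₁ : ℝ} (h0 : 0 < T₀) (h1 : T₁ < T) :
    ∃ K : ℝ, ∀ t ∈ Icc T₀ T₁, ∀ x, |Dn γ b δ (f t x)| ≤ K := by
  obtain ⟨K, hK⟩ := dn_bd hf hδ h0 h1
  refine ⟨∫ v, K * wt d v, fun t ht x => ?_⟩
  rw [Dn_eqI, abs_neg]
  exact norm_integral_le_of_norm_le (f := fun v => dnI γ b δ f (t, x, v)) (integrable_wt.const_mul K)
    (Eventually.of_forall fun v => hK t ht x v)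

private noncomputable def dnG (γ : ℝ) (b : ℝ → ℝ) (δ : ℝ) (f : ℝ → Vec d → Vec d → ℝ) (q : ℝ × Vec d) : ℝ :=
  Dn γ b δ (f q.1 q.2)

private lemma dn_c2' {G : ℝ × Vec d → ℝ} (hc : ContinuousOn G (Ioo 0 T ×ˢ univ))
    (hb : ∀ T₀ > 0, ∀ T₁ < T, ∃ K : ℝ, ∀ t ∈ Icc T₀ T₁, ∀ x, |G (t, x)| ≤ K) :
    ContinuousOn (fun t : ℝ => ∫ x, G (t, x) ∂(muD d)) (Ioo 0 T) := by
  intro t ht
  obtain ⟨h0, h1, h2⟩ := dn_nhds (T := T) ht
  obtain ⟨K, hK⟩ := hb _ h0 _ h1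
  have hsub : ∀ r ∈ Icc (t / 2) ((t + T) / 2), r ∈ Ioo 0 T := fun r hr =>
    ⟨h0.trans_le hr.1, hr.2.trans_lt h1⟩
  have key : ContinuousOn (fun t : ℝ => ∫ x, G (t, x) ∂(muD d)) (Icc (t / 2) ((t + T) / 2)) := by
    refine continuousOn_of_dominated (F := fun (r : ℝ) (x : Vec d) => G (r, x))
      (bound := fun _ => K) ?_ ?_ ?_ ?_
    · intro r hr
      have h3 : Continuous fun x : Vec d => ((r, x) : ℝ × Vec d) := by fun_prop
      have h4 : Continuous fun x : Vec d => G (r, x) :=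
        hc.comp_continuous h3 fun x => ⟨hsub _ hr, mem_univ _⟩
      exact h4.aestronglyMeasurable
    · intro r hr
      exact Eventually.of_forall fun x => hK r hr x
    · exact integrable_const K
    · refine Eventually.of_forall fun x => ?_
      have h3 : Continuous fun r : ℝ => ((r, x) : ℝ × Vec d) := by fun_prop
      exact hc.comp h3.continuousOn fun r hr => ⟨hsub _ hr, mem_univ _⟩
  refine (key t ⟨h2.1.le, h2.2.le⟩).mono_of_mem_nhdsWithin ?_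
  exact mem_nhdsWithin_of_mem_nhds (Icc_mem_nhds h2.1 h2.2)

private lemma dn_c2 (hf : IsBoltzmannSol γ b T f) (hδ : 0 < δ) :
    ContinuousOn (fun t : ℝ => ∫ x, Dn γ b δ (f t x) ∂(muD d)) (Ioo 0 T) :=
  dn_c2' (G := dnG γ b δ f) (dn_c1 hf hδ) fun _ h0 _ h1 => dn_abs hf hδ h0 h1

theorem Dn_cont' (hf : IsBoltzmannSol γ b T f) (hδ : 0 < δ) :
    ContinuousOn (fun q : ℝ × Vec d => Dn γ b δ (f q.1 q.2)) (Ioo 0 T ×ˢ univ) ∧
    ContinuousOn (fun t : ℝ => ∫ x, Dn γ b δ (f t x) ∂(muD d)) (Ioo 0 T) :=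
  ⟨dn_c1 hf hδ, dn_c2 hf hδ⟩

end Pool.Agent.H48.PI
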