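import Pool.Agent.H48.PI.Defs
import Pool.Agent.H25.Kin.BMain

/-!
# Module Shift: translation and restriction in time

`t₀ ≥ 0`. All fields of `IsClassicalSol` for `f(t₀+t)` on `[0,T-t₀)`: `isCont`: composition with `(t,x,v) ↦ (t₀+t,x,v)`, maps `[0,T-t₀) × ..` into `[0,T) × ..`; `isC2`: the same on the open sets; `decay`: `T₁ < T - t₀`, use `T₁ + t₀ < T` (and `Icc 0 T₁ + t₀ ⊆ Icc 0 (T₁+t₀)`);
`decay12`: `T₀ > 0` gives `t₀ + T₀ > 0`; the derivatives of the translated function are the translated derivatives (`fderiv_comp_add_left` on `ℝ × Vec d × Vec d`: `unc (shift f) p = unc f ((t₀,0,0) + p)`), also of second order; `solves`.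
Restriction: `T' ≤ T`, monotonicity of all fields.
-/

set_option autoImplicit false

open MeasureTheory Set Filter Topology Pool.Agent.H25.Kin Pool.Agent.H48.PL

namespace Pool.Agent.H48.PI

variable {d : ℕ} {T t₀ : ℝ} {Q f : ℝ → Vec d → Vec d → ℝ}

private lemma unc_shift (f : ℝ → Vec d → Vec d → ℝ) (t₀ : ℝ) :
    unc (fun t => f (t₀ + t)) = fun p => unc f ((t₀, (0 : Vec d), (0 : Vec d)) + p) := by
  funext p
  simp [unc]

private lemma fderiv_shift (f : ℝ → Vec d → Vec d → ℝ) (t₀ : ℝ) :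
    fderiv ℝ (unc (fun t => f (t₀ + t))) =
      fun p => fderiv ℝ (unc f) ((t₀, (0 : Vec d), (0 : Vec d)) + p) := by
  funext p
  rw [unc_shift, fderiv_comp_add_left]

private lemma derivs12_shift (f : ℝ → Vec d → Vec d → ℝ) (t₀ t : ℝ) (x v : Vec d) :
    derivs12 (fun t => f (t₀ + t)) t x v = derivs12 f (t₀ + t) x v := by
  unfold derivs12 derivs
  rw [fderiv_shift]
  rw [fderiv_comp_add_left]
  simp

theorem sol_shift (hf : IsClassicalSol T Q f) (h0 : 0 ≤ t₀) :
    IsClassicalSol (T - t₀) (fun t => Q (t₀ + t)) (fun t => f (t₀ + t)) where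
  nonneg t ht x v := hf.nonneg _ ⟨by linarith [ht.1], by linarith [ht.2]⟩ x v
  periodic t ht x v i := hf.periodic _ ⟨by linarith [ht.1], by linarith [ht.2]⟩ x v i
  isCont := by
    unfold ContOn
    rw [unc_shift]
    refine hf.isCont.comp (Continuous.continuousOn (by fun_prop)) ?_
    rintro ⟨t, x, v⟩ ⟨ht, -⟩
    refine ⟨⟨?_, ?_⟩, trivial⟩
    · have := ht.1
      simp only at this ⊢
      show 0 ≤ t₀ + t
      linarith
    · have := ht.2
      show t₀ + t < T
      simp only at this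
      linarith
  isC2 := by
    unfold C2On
    rw [unc_shift]
    refine hf.isC2.comp (ContDiff.contDiffOn (by fun_prop)) ?_
    rintro ⟨t, x, v⟩ ⟨ht, -⟩
    refine ⟨⟨?_, ?_⟩, trivial⟩
    · have := ht.1
      show 0 < t₀ + t
      simp only at this
      linarith
    · have := ht.2
      show t₀ + t < T
      simp only at this
      linarith
  decay T₁ hT₁ N := by
    obtain ⟨C, hC⟩ := hf.decay (t₀ + T₁) (by linarith) N
    exact ⟨C, fun t ht x v => hC (t₀ + t) ⟨by linarith [ht.1], by linarith [ht.2]⟩ x v⟩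
  decay12 T₀ hT₀ T₁ hT₁ N := by
    obtain ⟨C, hC⟩ := hf.decay12 (t₀ + T₀) (by linarith) (t₀ + T₁) (by linarith) N
    refine ⟨C, fun t ht x v => ?_⟩
    rw [derivs12_shift]
    exact hC (t₀ + t) ⟨by linarith [ht.1], by linarith [ht.2]⟩ x v
  solves t ht x v := by
    have h := hf.solves (t₀ + t) ⟨by linarith [ht.1], by linarith [ht.2]⟩ x v
    unfold transport at h ⊢
    rw [fderiv_shift]
    simpa using h

theorem sol_restrict (hf : IsClassicalSol T Q f) {T' : ℝ} (h : T' ≤ T) : IsClassicalSol T' Q f where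
  nonneg _ ht x v := hf.nonneg _ ⟨ht.1, lt_of_lt_of_le ht.2 h⟩ x v
  periodic _ ht x v i := hf.periodic _ ⟨ht.1, lt_of_lt_of_le ht.2 h⟩ x v i
  isCont := ContinuousOn.mono hf.isCont (prod_mono_left (Ico_subset_Ico_right h))
  isC2 := ContDiffOn.mono hf.isC2 (prod_mono_left (Ioo_subset_Ioo_right h))
  decay T₁ hT₁ N := hf.decay T₁ (lt_of_lt_of_le hT₁ h) N
  decay12 T₀ hT₀ T₁ hT₁ N := hf.decay12 T₀ hT₀ T₁ (lt_of_lt_of_le hT₁ h) N
  solves t ht x v := hf.solves t ⟨ht.1, lt_of_lt_of_le ht.2 h⟩ x v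

theorem boltz_shift {γ : ℝ} {b : ℝ → ℝ} (hf : IsBoltzmannSol γ b T f) (h0 : 0 ≤ t₀) :
    IsBoltzmannSol γ b (T - t₀) (fun t => f (t₀ + t)) := sol_shift hf h0

lemma planar_shift {e : Fin d} (hpl : Planar e T f) (h0 : 0 ≤ t₀) :
    Planar e (T - t₀) (fun t => f (t₀ + t)) := by
  intro t ht
  exact hpl (t₀ + t) ⟨by linarith [ht.1], by linarith [ht.2]⟩

end Pool.Agent.H48.PI
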