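import Pool.Agent.H48.PL.MaxW
import Pool.Agent.H82.BK.Barrier2

/-!
# Module MaxN: the maximum principle for high barriers

Copy of the proof of `max_weight` (H48/PL/MaxW.lean, with its private lemmas). The barrier `A₀ exp(∫ m + small)` is `≥ A₀ ≥ A₁` at every time (`m ≥ 0`), so at a touching point the value `f W exp(-E)` is `≥ A₁` and the hypothesis `hQ` applies.
-/

set_option autoImplicit false

open MeasureTheory Set Filter Topology Pool.Agent.H25.Kin Pool.Agent.H82.BK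

namespace Pool.Agent.H48.PI

variable {d : ℕ}

/-- reduction of the position to the unit cube -/
private lemma mn_per {F : Vec d → ℝ} (hF : Per F) (x : Vec d) :
    ∃ y ∈ Icc (0 : Vec d) 1, F y = F x := by
  refine ⟨fun i => Int.fract (x i), ⟨fun i => Int.fract_nonneg _, fun i => (Int.fract_lt_one _).le⟩, ?_⟩
  have hl : (fun i => (-(⌊x i⌋ : ℤ) : ℝ)) ∈
      Submodule.span ℤ (Set.range (Pi.basisFun ℝ (Fin d))) := by
    have e : (fun i => (-(⌊x i⌋ : ℤ) : ℝ)) = ∑ i, (-⌊x i⌋ : ℤ) • (Pi.basisFun ℝ (Fin d) i) := by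
      funext j
      rw [Finset.sum_apply]
      simp only [Pi.basisFun_apply, Pi.smul_apply, Pi.single_apply]
      rw [Finset.sum_eq_single j]
      · simp
      · intro b _ hb
        simp [Ne.symm hb]
      · intro h
        exact absurd (Finset.mem_univ _) h
    rw [e]
    exact Submodule.sum_mem _ fun i _ => Submodule.smul_mem _ _
      (Submodule.subset_span (Set.mem_range_self i))
  have h := hF.span hl x
  have e2 : (fun i => (-(⌊x i⌋ : ℤ) : ℝ)) + x = fun i => Int.fract (x i) := by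
    funext i
    simp only [Pi.add_apply, Int.fract]
    ring
  rw [e2] at h
  exact h

/-- velocities with a large value of `F` are bounded -/
private lemma mn_bdd {T : ℝ} {Q f : ℝ → Vec d → Vec d → ℝ} (hf : IsClassicalSol T Q f) (p : ℕ)
    {T₁ : ℝ} (hT₁ : T₁ < T) {β : ℝ} (hβ : 0 < β) :
    ∃ R : ℝ, ∀ t ∈ Icc 0 T₁, ∀ x v, β ≤ f t x v * (1 + nsq v) ^ p → ‖v‖ ≤ R := by
  obtain ⟨C, hC⟩ := hf.decay T₁ hT₁ (2 * p + 1)
  refine ⟨((d : ℝ) + 1) ^ p * C / β, fun t ht x v h => ?_⟩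
  have h0 : 0 ≤ f t x v := hf.nonneg t ⟨ht.1, ht.2.trans_lt hT₁⟩ x v
  have h1 := hC t ht x v
  have hn := norm_nonneg v
  have h2 : 1 + nsq v ≤ ((d : ℝ) + 1) * (1 + ‖v‖) ^ 2 := by
    have h3 := sq_le v
    have h4 : (0 : ℝ) ≤ d := Nat.cast_nonneg _
    nlinarith [mul_nonneg h4 hn]
  have h5 : (1 + nsq v) ^ p ≤ ((d : ℝ) + 1) ^ p * (1 + ‖v‖) ^ (2 * p) := by
    rw [pow_mul, ← mul_pow]
    exact pow_le_pow_left₀ (by have := sq_nonneg' v; linarith) h2 p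
  have h6 : f t x v * (1 + nsq v) ^ p ≤ f t x v * (((d : ℝ) + 1) ^ p * (1 + ‖v‖) ^ (2 * p)) :=
    mul_le_mul_of_nonneg_left h5 h0
  rw [le_div_iff₀ hβ]
  have h7 : β * (1 + ‖v‖) ≤ ((d : ℝ) + 1) ^ p * C := by
    calc β * (1 + ‖v‖) ≤ (f t x v * (((d : ℝ) + 1) ^ p * (1 + ‖v‖) ^ (2 * p))) * (1 + ‖v‖) := by
          gcongr
          exact h.trans h6
      _ = ((d : ℝ) + 1) ^ p * ((1 + ‖v‖) ^ (2 * p + 1) * f t x v) := by ring
      _ ≤ ((d : ℝ) + 1) ^ p * C := by gcongr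
  nlinarith

/-- the first touching point for a weight `G t x v` which is periodic in `x` -/
private lemma mn_touch {T : ℝ} {Q f : ℝ → Vec d → Vec d → ℝ} (hf : IsClassicalSol T Q f) (p : ℕ)
    {T₁ : ℝ} (hT₀ : 0 ≤ T₁) (hT₁ : T₁ < T) {B : ℝ → ℝ} (hB : ContinuousOn B (Icc 0 T₁))
    (hB0 : ∀ t ∈ Icc 0 T₁, 0 < B t) {G : ℝ → Vec d → Vec d → ℝ}
    (hG : ContinuousOn (unc G) (Icc 0 T₁ ×ˢ univ)) {c : ℝ} (hc : 0 < c)
    (hGp : ∀ t ∈ Icc 0 T₁, ∀ x v i, G t (x + Pi.single i 1) v = G t x v)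
    (hG1 : ∀ t ∈ Icc 0 T₁, ∀ x v, G t x v ≤ c * (1 + nsq v) ^ p)
    (h0 : ∀ x v, f 0 x v * G 0 x v < B 0)
    (hex : ∃ t ∈ Icc 0 T₁, ∃ x v, B t ≤ f t x v * G t x v) :
    ∃ t₀ ∈ Ioc 0 T₁, ∃ x₀ v₀, f t₀ x₀ v₀ * G t₀ x₀ v₀ = B t₀ ∧
      (∀ t ∈ Ico 0 t₀, ∀ x v, f t x v * G t x v < B t) ∧
      (∀ x v, f t₀ x v * G t₀ x v ≤ B t₀) := by
  obtain ⟨tm, htm, hmin⟩ := isCompact_Icc.exists_isMinOn (nonempty_Icc.2 hT₀) hB
  have hβ := hB0 tm htm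
  obtain ⟨R, hR⟩ := mn_bdd hf p hT₁ (div_pos hβ hc)
  have hsub : Icc (0 : ℝ) T₁ ⊆ Ico 0 T := fun t ht => ⟨ht.1, ht.2.trans_lt hT₁⟩
  have hper : ∀ t ∈ Icc (0 : ℝ) T₁, ∀ v : Vec d, Per fun x => f t x v * G t x v :=
    fun t ht v x i => by
      show f t (x + Pi.single i 1) v * G t (x + Pi.single i 1) v = f t x v * G t x v
      rw [hf.periodic t (hsub ht) x v i, hGp t ht x v i]
  set K : Set (ℝ × Vec d × Vec d) := Icc 0 T₁ ×ˢ (Icc (0 : Vec d) 1 ×ˢ Metric.closedBall (0 : Vec d) R)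
    with hK
  have hKc : IsCompact K := isCompact_Icc.prod (isCompact_Icc.prod (isCompact_closedBall _ _))
  have hFc : ContinuousOn (fun q : ℝ × Vec d × Vec d => unc f q * unc G q)
      (Icc 0 T₁ ×ˢ univ) :=
    ((show ContinuousOn (unc f) (Ico 0 T ×ˢ univ) from hf.isCont).mono
      fun q hq => ⟨hsub hq.1, mem_univ _⟩).mul hG
  have hGc : ContinuousOn (fun q : ℝ × Vec d × Vec d => unc f q * unc G q - B q.1) K := by
    refine (hFc.mono fun q hq => ⟨hq.1, mem_univ _⟩).sub ?_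
    exact hB.comp continuous_fst.continuousOn fun q hq => hq.1
  set S : Set (ℝ × Vec d × Vec d) :=
    K ∩ (fun q : ℝ × Vec d × Vec d => unc f q * unc G q - B q.1) ⁻¹' Ici 0 with hS
  have hSc : IsCompact S := hKc.of_isClosed_subset
    (hGc.preimage_isClosed_of_isClosed hKc.isClosed isClosed_Ici) inter_subset_left
  have hmem : ∀ t ∈ Icc (0 : ℝ) T₁, ∀ x v, B t ≤ f t x v * G t x v →
      ∃ y, (t, y, v) ∈ S := by
    intro t ht x v h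
    obtain ⟨y, hy, hyx⟩ := mn_per (hper t ht v) x
    refine ⟨y, ⟨⟨ht, hy, ?_⟩, ?_⟩⟩
    · rw [Metric.mem_closedBall, dist_zero_right]
      refine hR t ht x v ?_
      rw [div_le_iff₀ hc]
      calc B tm ≤ B t := hmin ht
        _ ≤ f t x v * G t x v := h
        _ ≤ f t x v * (c * (1 + nsq v) ^ p) :=
            mul_le_mul_of_nonneg_left (hG1 t ht x v) (hf.nonneg t (hsub ht) x v)
        _ = f t x v * (1 + nsq v) ^ p * c := by ring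
    · simp only [mem_preimage, mem_Ici, unc]
      have h2 : f t y v * G t y v = f t x v * G t x v := hyx
      linarith
  obtain ⟨t1, ht1, x1, v1, h1⟩ := hex
  obtain ⟨y1, hy1⟩ := hmem t1 ht1 x1 v1 h1
  obtain ⟨q, hqS, hq⟩ := hSc.exists_isMinOn ⟨_, hy1⟩ (f := fun q : ℝ × Vec d × Vec d => q.1)
    continuous_fst.continuousOn
  obtain ⟨t₀, x₀, v₀⟩ := q
  have ht₀ : t₀ ∈ Icc 0 T₁ := hqS.1.1
  have hge : B t₀ ≤ f t₀ x₀ v₀ * G t₀ x₀ v₀ := by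
    have := hqS.2
    simp only [mem_preimage, mem_Ici, unc] at this
    linarith
  have hlt : ∀ t ∈ Ico 0 t₀, ∀ x v, f t x v * G t x v < B t := by
    intro t ht x v
    by_contra hcon
    push Not at hcon
    obtain ⟨y, hy⟩ := hmem t ⟨ht.1, ht.2.le.trans ht₀.2⟩ x v hcon
    have h2 : t₀ ≤ t := hq hy
    exact absurd ht.2 (not_lt.2 h2)
  have hpos : 0 < t₀ := by
    rcases ht₀.1.lt_or_eq with h | h
    · exact h
    · exfalso
      subst h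
      exact absurd hge (not_le.2 (h0 x₀ v₀))
  have hle : ∀ x v, f t₀ x v * G t₀ x v ≤ B t₀ := by
    intro x v
    have hcc : ContinuousOn (fun t : ℝ => f t x v * G t x v) (Icc 0 T₁) := by
      have h3 : ContinuousOn (fun t : ℝ => (fun q : ℝ × Vec d × Vec d =>
          unc f q * unc G q) (t, x, v)) (Icc 0 T₁) := by
        refine hFc.comp (Continuous.continuousOn (by fun_prop)) fun t ht => ⟨ht, mem_univ _⟩
      exact h3
    have hne : (𝓝[Ico 0 t₀] t₀).NeBot := by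
      rw [← mem_closure_iff_nhdsWithin_neBot, closure_Ico hpos.ne]
      exact ⟨hpos.le, le_rfl⟩
    have hs : Ico 0 t₀ ⊆ Icc 0 T₁ := fun t ht => ⟨ht.1, ht.2.le.trans ht₀.2⟩
    have l1 : Tendsto (fun t : ℝ => f t x v * G t x v) (𝓝[Ico 0 t₀] t₀)
        (𝓝 (f t₀ x v * G t₀ x v)) := (hcc t₀ ht₀).mono hs
    have l2 : Tendsto B (𝓝[Ico 0 t₀] t₀) (𝓝 (B t₀)) := (hB t₀ ht₀).mono hs
    refine le_of_tendsto_of_tendsto l1 l2 ?_
    filter_upwards [self_mem_nhdsWithin] with t ht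
    exact (hlt t ht x v).le
  exact ⟨t₀, ⟨hpos, ht₀.2⟩, x₀, v₀, le_antisymm (hle x₀ v₀) hge, hlt, hle⟩

private lemma mn_deriv_nonpos {g : ℝ → ℝ} {g' : ℝ} (hg : HasDerivAt g g' 0)
    (h : ∀ᶠ τ in 𝓝[>] (0 : ℝ), g τ ≤ g 0) : g' ≤ 0 := by
  have h1 := hg.tendsto_slope_zero_right
  refine le_of_tendsto h1 ?_
  filter_upwards [h, self_mem_nhdsWithin] with τ h2 h3
  have h3' : 0 < τ := h3
  rw [zero_add, smul_eq_mul]
  exact mul_nonpos_of_nonneg_of_nonpos (inv_nonneg.2 h3'.le) (by linarith)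

private lemma mn_lt {T : ℝ} {Q f : ℝ → Vec d → Vec d → ℝ} (hf : IsClassicalSol T Q f) (p : ℕ)
    {E DE : ℝ → Vec d → Vec d → ℝ} (hEc : ContinuousOn (unc E) (Ico 0 T ×ˢ univ))
    (hEp : ∀ t ∈ Ico 0 T, ∀ x v i, E t (x + Pi.single i 1) v = E t x v)
    (hEb : ∀ T₁ < T, ∃ B : ℝ, ∀ t ∈ Icc 0 T₁, ∀ x v, |E t x v| ≤ B)
    (hED : ∀ t ∈ Ioo 0 T, ∀ x v,
      HasDerivAt (fun r => E r (x + r • v) v) (DE t (x + t • v) v) t)
    {m : ℝ → ℝ} {A₁ : ℝ}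
    (hQ : ∀ t ∈ Ioo 0 T, ∀ x v, A₁ ≤ f t x v * (1 + nsq v) ^ p * Real.exp (-E t x v) →
      (∀ u, f t x u * (1 + nsq u) ^ p * Real.exp (-E t x u) ≤
        f t x v * (1 + nsq v) ^ p * Real.exp (-E t x v)) →
      Q t x v ≤ f t x v * (DE t x v + m t))
    {T₁ : ℝ} (hT₀ : 0 < T₁) (hT₁ : T₁ < T) {B : ℝ → ℝ} (hB : ContinuousOn B (Icc 0 T₁))
    (hB0 : ∀ t ∈ Icc 0 T₁, 0 < B t) (hB1 : ∀ t ∈ Icc 0 T₁, A₁ ≤ B t)
    (h0 : ∀ x v, f 0 x v * (1 + nsq v) ^ p * Real.exp (-E 0 x v) < B 0)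
    {η : ℝ} (hη : 0 < η)
    (hinc : ∀ t₀ ∈ Ioc 0 T₁, ∀ᶠ τ in 𝓝[>] (0 : ℝ), B (t₀ - τ) * (1 + τ * (η + 1 * m t₀)) ≤ B t₀)
    (hc : ∀ t₀ ∈ Ioc 0 T₁, 0 ≤ η + 1 * m t₀) :
    ∀ t ∈ Icc 0 T₁, ∀ x v, f t x v * (1 + nsq v) ^ p * Real.exp (-E t x v) < B t := by
  by_contra hcon
  push Not at hcon
  obtain ⟨b, hb⟩ := hEb T₁ hT₁
  have hsub : Icc (0 : ℝ) T₁ ⊆ Ico 0 T := fun t ht => ⟨ht.1, ht.2.trans_lt hT₁⟩
  have hn0 : ∀ v : Vec d, 0 ≤ nsq v := fun v => Finset.sum_nonneg fun i _ => sq_nonneg _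
  have hnq : Continuous (nsq : Vec d → ℝ) := by unfold nsq; fun_prop
  set G : ℝ → Vec d → Vec d → ℝ := fun t x v => (1 + nsq v) ^ p * Real.exp (-E t x v) with hGd
  have hGc : ContinuousOn (unc G) (Icc 0 T₁ ×ˢ univ) := by
    have h1 : ContinuousOn (fun q : ℝ × Vec d × Vec d => (1 + nsq q.2.2) ^ p * Real.exp (-(unc E q)))
        (Icc 0 T₁ ×ˢ univ) := by
      refine ContinuousOn.mul ?_ ?_
      · exact ((continuous_const.add (hnq.comp (continuous_snd.comp continuous_snd))).pow p).continuousOn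
      · exact Real.continuous_exp.comp_continuousOn
          ((hEc.mono fun q hq => ⟨hsub hq.1, mem_univ _⟩).neg)
    exact h1
  obtain ⟨t₀, ht₀, x₀, v₀, heq, hlt, hle⟩ := mn_touch hf p hT₀.le hT₁ hB hB0 (G := G) hGc
    (c := Real.exp b) (Real.exp_pos b)
    (fun t ht x v i => by
      show (1 + nsq v) ^ p * Real.exp (-E t (x + Pi.single i 1) v) =
        (1 + nsq v) ^ p * Real.exp (-E t x v)
      rw [hEp t (hsub ht) x v i])
    (fun t ht x v => by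
      show (1 + nsq v) ^ p * Real.exp (-E t x v) ≤ Real.exp b * (1 + nsq v) ^ p
      have h1 : Real.exp (-E t x v) ≤ Real.exp b :=
        Real.exp_le_exp.2 (by have := (abs_le.1 (hb t ht x v)).1; linarith)
      have h2 : 0 ≤ (1 + nsq v) ^ p := by have := hn0 v; positivity
      calc (1 + nsq v) ^ p * Real.exp (-E t x v) ≤ (1 + nsq v) ^ p * Real.exp b :=
            mul_le_mul_of_nonneg_left h1 h2
        _ = Real.exp b * (1 + nsq v) ^ p := mul_comm _ _)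
    (fun x v => by
      have := h0 x v
      show f 0 x v * ((1 + nsq v) ^ p * Real.exp (-E 0 x v)) < B 0
      rwa [← mul_assoc])
    (by
      obtain ⟨t, ht, x, v, h⟩ := hcon
      refine ⟨t, ht, x, v, ?_⟩
      show B t ≤ f t x v * ((1 + nsq v) ^ p * Real.exp (-E t x v))
      rwa [← mul_assoc])
  have heq' : f t₀ x₀ v₀ * (1 + nsq v₀) ^ p * Real.exp (-E t₀ x₀ v₀) = B t₀ := by
    rw [mul_assoc]; exact heq
  have htT : t₀ ∈ Ioo 0 T := ⟨ht₀.1, ht₀.2.trans_lt hT₁⟩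
  have hd := char_deriv hf htT x₀ v₀
  set W : ℝ := (1 + nsq v₀) ^ p with hW
  have hW0 : 0 < W := by
    have := hn0 v₀
    positivity
  set c : ℝ := η + 1 * m t₀ with hcdef
  have hc0 : 0 ≤ c := hc t₀ ht₀
  have hn : HasDerivAt (fun τ : ℝ => -τ) (-1) 0 := hasDerivAt_neg' (0 : ℝ)
  have hneg : HasDerivAt (fun τ : ℝ => f (t₀ + -τ) (x₀ + (-τ) • v₀) v₀) (-(Q t₀ x₀ v₀)) 0 := by
    have hd' : HasDerivAt (fun τ : ℝ => f (t₀ + τ) (x₀ + τ • v₀) v₀) (Q t₀ x₀ v₀) (-(0 : ℝ)) := by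
      simpa using hd
    have := hd'.comp (0 : ℝ) hn
    simpa [Function.comp_def] using this
  have hEd : HasDerivAt (fun τ : ℝ => E (t₀ + -τ) (x₀ + (-τ) • v₀) v₀) (-(DE t₀ x₀ v₀)) 0 := by
    have h1 := hED t₀ htT (x₀ - t₀ • v₀) v₀
    have e : x₀ - t₀ • v₀ + t₀ • v₀ = x₀ := sub_add_cancel _ _
    rw [e] at h1
    have h2 : HasDerivAt (fun τ : ℝ => t₀ + -τ) (-1) 0 := hn.const_add t₀
    have h3 : HasDerivAt (fun r => E r (x₀ - t₀ • v₀ + r • v₀) v₀) (DE t₀ x₀ v₀) (t₀ + -0) := by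
      rw [neg_zero, add_zero]; exact h1
    have h4 := HasDerivAt.comp (0 : ℝ) h3 h2
    have e2 : ((fun r => E r (x₀ - t₀ • v₀ + r • v₀) v₀) ∘ fun τ : ℝ => t₀ + -τ) =
        fun τ : ℝ => E (t₀ + -τ) (x₀ + (-τ) • v₀) v₀ := by
      funext τ
      simp only [Function.comp_apply]
      congr 1
      rw [add_smul]
      abel
    rw [e2] at h4
    simpa using h4
  have hexp : HasDerivAt (fun τ : ℝ => Real.exp (-E (t₀ + -τ) (x₀ + (-τ) • v₀) v₀))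
      (Real.exp (-E t₀ x₀ v₀) * DE t₀ x₀ v₀) 0 := by
    have h1 := (hEd.neg).exp
    refine h1.congr_deriv ?_
    simp
  have hlin : HasDerivAt (fun τ : ℝ => 1 + τ * c) c 0 := by
    simpa using ((hasDerivAt_id (0 : ℝ)).mul_const c).const_add 1
  set e₀ : ℝ := Real.exp (-E t₀ x₀ v₀) with he₀
  have he0 : 0 < e₀ := Real.exp_pos _
  have hg : HasDerivAt (fun τ : ℝ => f (t₀ + -τ) (x₀ + (-τ) • v₀) v₀ * W *
      Real.exp (-E (t₀ + -τ) (x₀ + (-τ) • v₀) v₀) * (1 + τ * c))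
      (-(Q t₀ x₀ v₀) * W * e₀ + f t₀ x₀ v₀ * W * (e₀ * DE t₀ x₀ v₀) + f t₀ x₀ v₀ * W * e₀ * c) 0 := by
    have h1 := ((hneg.mul_const W).mul hexp).mul hlin
    refine h1.congr_deriv ?_
    simp [he₀]
  have hkey : -(Q t₀ x₀ v₀) * W * e₀ + f t₀ x₀ v₀ * W * (e₀ * DE t₀ x₀ v₀) +
      f t₀ x₀ v₀ * W * e₀ * c ≤ 0 := by
    refine mn_deriv_nonpos hg ?_
    filter_upwards [hinc t₀ ht₀, Ioo_mem_nhdsGT ht₀.1] with τ h1 h2
    have h3 : f (t₀ + -τ) (x₀ + (-τ) • v₀) v₀ * W *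
        Real.exp (-E (t₀ + -τ) (x₀ + (-τ) • v₀) v₀) < B (t₀ - τ) := by
      have h5 := hlt (t₀ - τ) ⟨by linarith [h2.2], by linarith [h2.1]⟩ (x₀ + (-τ) • v₀) v₀
      rw [mul_assoc]
      rw [sub_eq_add_neg] at h5 ⊢
      exact h5
    have h4 : 0 ≤ 1 + τ * c := by
      have := mul_nonneg h2.1.le hc0
      linarith
    calc f (t₀ + -τ) (x₀ + (-τ) • v₀) v₀ * W *
          Real.exp (-E (t₀ + -τ) (x₀ + (-τ) • v₀) v₀) * (1 + τ * c) ≤ B (t₀ - τ) * (1 + τ * c) :=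
          mul_le_mul_of_nonneg_right h3.le h4
      _ ≤ B t₀ := h1
      _ = f (t₀ + -0) (x₀ + (-(0 : ℝ)) • v₀) v₀ * W *
          Real.exp (-E (t₀ + -0) (x₀ + (-(0 : ℝ)) • v₀) v₀) * (1 + 0 * c) := by
          rw [← heq']; simp [he₀]
  have hQ1 := hQ t₀ htT x₀ v₀ (by
    rw [← hW, heq']
    exact hB1 t₀ ⟨ht₀.1.le, ht₀.2⟩) (fun u => by
    have h1 := hle x₀ u
    rw [← hW, heq', mul_assoc]
    exact h1)
  have hBpos : 0 < f t₀ x₀ v₀ * W * e₀ := by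
    rw [heq']; exact hB0 t₀ ⟨ht₀.1.le, ht₀.2⟩
  have h5 : Q t₀ x₀ v₀ * (W * e₀) ≤ f t₀ x₀ v₀ * (DE t₀ x₀ v₀ + m t₀) * (W * e₀) :=
    mul_le_mul_of_nonneg_right hQ1 (mul_pos hW0 he0).le
  have h6 : f t₀ x₀ v₀ * W * e₀ * c = f t₀ x₀ v₀ * W * e₀ * η + f t₀ x₀ v₀ * m t₀ * (W * e₀) := by
    rw [hcdef]; ring
  have h7 : 0 < f t₀ x₀ v₀ * W * e₀ * η := mul_pos hBpos hη
  nlinarith [h5, h6, h7, hkey]

theorem max_high {T : ℝ} {Q f : ℝ → Vec d → Vec d → ℝ} (hf : IsClassicalSol T Q f) (p : ℕ)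
    {E DE : ℝ → Vec d → Vec d → ℝ} (hEc : ContinuousOn (unc E) (Ico 0 T ×ˢ univ))
    (hEp : ∀ t ∈ Ico 0 T, ∀ x v i, E t (x + Pi.single i 1) v = E t x v)
    (hEb : ∀ T₁ < T, ∃ B : ℝ, ∀ t ∈ Icc 0 T₁, ∀ x v, |E t x v| ≤ B)
    (hED : ∀ t ∈ Ioo 0 T, ∀ x v,
      HasDerivAt (fun r => E r (x + r • v) v) (DE t (x + t • v) v) t)
    {m : ℝ → ℝ} (hm : IntegrableOn m (Ioo 0 T)) (hm0 : ∀ t ∈ Ioo 0 T, 0 ≤ m t) {A₁ : ℝ}
    (hQ : ∀ t ∈ Ioo 0 T, ∀ x v, A₁ ≤ f t x v * (1 + nsq v) ^ p * Real.exp (-E t x v) →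
      (∀ u, f t x u * (1 + nsq u) ^ p * Real.exp (-E t x u) ≤
        f t x v * (1 + nsq v) ^ p * Real.exp (-E t x v)) →
      Q t x v ≤ f t x v * (DE t x v + m t))
    {A₀ : ℝ} (hA : A₁ ≤ A₀) (hA₀ : ∀ x v, f 0 x v * (1 + nsq v) ^ p * Real.exp (-E 0 x v) ≤ A₀) :
    ∀ t ∈ Ico 0 T, ∀ x v, f t x v * (1 + nsq v) ^ p * Real.exp (-E t x v) ≤
      A₀ * Real.exp (∫ τ in Ioc 0 t, m τ) := by
  intro t ht x v
  rcases ht.1.eq_or_lt with h0 | hpos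
  · subst h0
    simpa using hA₀ x v
  · have hsub : Ioc 0 t ⊆ Ioo 0 T := fun s hs => ⟨hs.1, hs.2.trans_lt ht.2⟩
    have hA0' : 0 ≤ A₀ := by
      refine le_trans (mul_nonneg (mul_nonneg (hf.nonneg 0 ⟨le_refl _, hpos.trans ht.2⟩ x v) ?_)
        (Real.exp_pos _).le) (hA₀ x v)
      have : 0 ≤ nsq v := Finset.sum_nonneg fun i _ => sq_nonneg _
      positivity
    set I : ℝ := ∫ τ in Ioc 0 t, m τ with hI
    have hη : ∀ η : ℝ, 0 < η → f t x v * (1 + nsq v) ^ p * Real.exp (-E t x v) ≤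
        (A₀ + η) * Real.exp (η * t + 1 * (I + η)) := by
      intro η hη
      obtain ⟨B, hBc, hBpos, hB0, hBu, hBi, hBm⟩ := barrier_fn_mono hpos (hm.mono_set hsub)
        (fun s hs => hm0 s (hsub hs)) (zero_le_one' ℝ) hA0' hη
      have := mn_lt hf p hEc hEp hEb hED hQ hpos ht.2 hBc hBpos
        (fun s hs => by
          have h1 := hBm hs.1
          rw [hB0] at h1
          linarith)
        (fun y w => by rw [hB0]; linarith [hA₀ y w]) hη hBi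
        (fun s hs => add_nonneg hη.le (mul_nonneg zero_le_one (hm0 s (hsub hs)))) t
        ⟨hpos.le, le_refl _⟩ x v
      exact this.le.trans (hBu t ⟨hpos.le, le_refl _⟩)
    have hlim : Tendsto (fun η : ℝ => (A₀ + η) * Real.exp (η * t + 1 * (I + η))) (𝓝[>] 0)
        (𝓝 ((A₀ + 0) * Real.exp (0 * t + 1 * (I + 0)))) := by
      have : Continuous fun η : ℝ => (A₀ + η) * Real.exp (η * t + 1 * (I + η)) := by fun_prop
      exact (this.tendsto 0).mono_left nhdsWithin_le_nhds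
    have := ge_of_tendsto hlim (by
      filter_upwards [self_mem_nhdsWithin] with η h1 using hη η h1)
    simpa using this

end Pool.Agent.H48.PI
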