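import Pool.Agent.H48.PI.EDef
import Pool.Agent.H48.PL.Equi
import Pool.Agent.H48.PL.Glob

/-!
# Module AvgL: lower bound for the average of the bounded part

`F ≥ 0`, `FS e F G`, `GB M F` (mass, energy, entropy `≤ M`), mass `≥ m > 0`. `∫ F jb² ≤ 2M`. `∫∫ F 1[F > k] ≤ C_M/log k` (`k > 1`; `ent_lower` in H48/PL/EntL: `∫∫ F (log F)⁺ ≤ C_M`).
`av1 = ∫ jb v^(-a) |v_e-w_e|^(1+a) chi bet(F)` (`VPg_eq`). Choose `R_d ≥ 1` with `2M/R_d² ≤ m/8`, `C_d` with `∫∫ (F - bet F) ≤ M C₀^(-1/2) + 2C_M/log C₀ ≤ m/8` for `C₀ ≥ C_d` (`sub_bet`, `F²/(C₀+F) ≤ C₀^(-1/2) F + F 1[F > C₀^(1/2)]`), and `k`, `δ` with `C_M/log k ≤ m/16`,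
`k · vol{jb w ≤ R_d, |w_e - v_e| < δ} ≤ m/16` (the strip is contained in a product set, volume `≤ 2δ (2R_d)^(d-1)`, uniformly in `v`; see H48/PL/Equi for strips). Then `∫∫ bet(F) 1[jb ≤ R_d, |w_e-v_e| ≥ δ] ≥ m - m/8 - m/8 - m/8 ≥ m/2`.
On this set: `|v_e-w_e|^(1+a) ≥ c (1+|v_e|)^a`: if `|v_e| ≤ 2R_d`: `≥ δ^(1+a)`, `(1+|v_e|)^a ≤ (1+2R_d)^a`; if `|v_e| > 2R_d`: `|v_e-w_e| ≥ |v_e|/2 ≥ 1` and `(|v_e|/2)^(1+a) ≥ (|v_e|/2)^a ≥ 4^(-a) (1+|v_e|)^a`. `chi = 1` for `jb ≤ R_d ≤ R` (`chi_eq_one`).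
-/

set_option autoImplicit false

open MeasureTheory Set Filter Topology Pool.Agent.H25.Kin Pool.Agent.H48.PL

namespace Pool.Agent.H48.PI

variable {d : ℕ}

private lemma RX_wt {F : Vec d → Vec d → ℝ} (hd : RX F) (k : ℕ) :
    ∃ C, 0 ≤ C ∧ ∀ x v, (1 + ‖v‖) ^ k * |F x v| ≤ C * wt d v := by
  obtain ⟨C, hC⟩ := hd (k + (d + 1))
  refine ⟨C, le_trans (mul_nonneg (by positivity) (abs_nonneg _)) (hC 0 0), fun x v => ?_⟩
  have h := hC x v
  have h4 : 0 < (1 + ‖v‖) ^ (d + 1) := by positivity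
  unfold wt
  rw [← div_eq_mul_inv, le_div_iff₀ h4]
  calc (1 + ‖v‖) ^ k * |F x v| * (1 + ‖v‖) ^ (d + 1) = (1 + ‖v‖) ^ (k + (d + 1)) * |F x v| := by
        rw [pow_add]; ring
    _ ≤ C := h

private lemma int_jb2 {e : Fin d} {F G : Vec d → Vec d → ℝ} (h : FS e F G) (N : ℕ) :
    Integrable (fun q : Vec d × Vec d => F q.2 q.1 * jb q.1 ^ N) (nu d) := by
  obtain ⟨C, hC0, hC⟩ := RX_wt h.decF N
  have hb : ∀ x v, |F x v * jb v ^ N| ≤ (((d : ℝ) + 1) ^ N * C) * wt d v := by
    intro x v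
    have j0 := jb_pos v
    have e1 : jb v ^ N ≤ (((d : ℝ) + 1) * (1 + ‖v‖)) ^ N := pow_le_pow_left₀ j0.le (jb_le_w v) N
    rw [abs_mul, abs_of_nonneg (pow_nonneg j0.le N)]
    calc |F x v| * jb v ^ N ≤ |F x v| * (((d : ℝ) + 1) * (1 + ‖v‖)) ^ N :=
          mul_le_mul_of_nonneg_left e1 (abs_nonneg _)
      _ = ((d : ℝ) + 1) ^ N * ((1 + ‖v‖) ^ N * |F x v|) := by rw [mul_pow]; ring
      _ ≤ ((d : ℝ) + 1) ^ N * (C * wt d v) := mul_le_mul_of_nonneg_left (hC x v) (by positivity)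
      _ = _ := by ring
  have hc : Continuous fun q : Vec d × Vec d => F q.2 q.1 * jb q.1 ^ N :=
    (h.contF.comp (continuous_snd.prodMk continuous_fst)).mul ((jb_cont.comp continuous_fst).pow N)
  exact integrable_nu hc.aestronglyMeasurable fun q => hb q.2 q.1

private lemma pt_sub {C₀ K r : ℝ} (hK : 0 < K) (hC : Real.exp (2 * K) ≤ C₀) (hr : 0 ≤ r) :
    r - bet C₀ r ≤ 1 / K * (r + r * max (Real.log r) 0) := by
  have hC0 : 0 < C₀ := lt_of_lt_of_le (Real.exp_pos _) hC
  have hmx : 0 ≤ r * max (Real.log r) 0 := mul_nonneg hr (le_max_right _ _)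
  rw [sub_bet hC0 hr, div_le_iff₀ (by positivity)]
  rcases le_or_gt r (Real.exp K) with h | h
  · have h1 : K * r ≤ C₀ := by
      have h2 : K ≤ Real.exp K := by linarith [Real.add_one_le_exp K]
      have h3 : K * r ≤ Real.exp K * Real.exp K :=
        mul_le_mul h2 h hr (Real.exp_pos _).le
      rw [← Real.exp_add] at h3
      have h4 : K + K = 2 * K := by ring
      rw [h4] at h3
      exact h3.trans hC
    have h5 : r ^ 2 ≤ 1 / K * r * C₀ := by
      rw [div_mul_eq_mul_div, div_mul_eq_mul_div, le_div_iff₀ hK]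
      nlinarith
    have h6 : 1 / K * r * C₀ ≤ 1 / K * (r + r * max (Real.log r) 0) * (C₀ + r) := by
      have h7 : 0 < 1 / K := by positivity
      have h8 : r ≤ r + r * max (Real.log r) 0 := by linarith
      have h9 : C₀ ≤ C₀ + r := by linarith
      calc 1 / K * r * C₀ ≤ 1 / K * (r + r * max (Real.log r) 0) * C₀ := by gcongr
        _ ≤ _ := mul_le_mul_of_nonneg_left h9 (by positivity)
    exact h5.trans h6
  · have hr0 : 0 < r := (Real.exp_pos K).trans h
    have hl : K ≤ Real.log r := by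
      rw [← Real.log_exp K]
      exact Real.log_le_log (Real.exp_pos K) h.le
    have h1 : r ≤ 1 / K * (r + r * max (Real.log r) 0) := by
      rw [div_mul_eq_mul_div, one_mul, le_div_iff₀ hK]
      have : r * K ≤ r * max (Real.log r) 0 := mul_le_mul_of_nonneg_left (hl.trans (le_max_left _ _)) hr
      linarith
    calc r ^ 2 = r * r := by ring
      _ ≤ r * (C₀ + r) := mul_le_mul_of_nonneg_left (by linarith) hr
      _ ≤ _ := mul_le_mul_of_nonneg_right h1 (by positivity)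

private lemma pt_strip {K r : ℝ} (hK : 0 < K) (hr : 0 ≤ r) :
    r ≤ Real.exp K + 1 / K * (r * max (Real.log r) 0) := by
  have hmx : 0 ≤ r * max (Real.log r) 0 := mul_nonneg hr (le_max_right _ _)
  rcases le_or_gt r (Real.exp K) with h | h
  · have : 0 ≤ 1 / K * (r * max (Real.log r) 0) := by positivity
    linarith
  · have hl : K ≤ Real.log r := by
      rw [← Real.log_exp K]
      exact Real.log_le_log (Real.exp_pos K) h.le
    have h1 : r ≤ 1 / K * (r * max (Real.log r) 0) := by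
      rw [div_mul_eq_mul_div, one_mul, le_div_iff₀ hK]
      exact mul_le_mul_of_nonneg_left (hl.trans (le_max_left _ _)) hr
    linarith [Real.exp_pos K]

/-- the strip -/
private def St (e : Fin d) (v : Vec d) (δ R : ℝ) : Set (Vec d) := {w | |v e - w e| < δ ∧ jb w ≤ R}

private lemma St_meas (e : Fin d) (v : Vec d) (δ R : ℝ) : MeasurableSet (St e v δ R) := by
  have h1 : Measurable fun w : Vec d => |v e - w e| :=
    (continuous_abs.comp (continuous_const.sub (continuous_apply e))).measurable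
  exact (measurableSet_lt h1 measurable_const).inter
    (measurableSet_le jb_cont.measurable measurable_const)

private lemma St_sub (e : Fin d) (v : Vec d) {δ R : ℝ} :
    St e v δ R ⊆ Set.pi univ fun i => if i = e then Icc (v e - δ) (v e + δ) else Icc (-R) R := by
  intro w hw i _
  obtain ⟨h1, h2⟩ := hw
  by_cases hi : i = e
  · subst hi
    simp only [if_true]
    rw [abs_lt] at h1
    exact ⟨by linarith [h1.2], by linarith [h1.1]⟩
  · simp only [hi, if_false]
    have h3 := (abs_coord_le w i).trans ((len_le_jb w).trans h2)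
    rw [abs_le] at h3
    exact h3

private lemma St_vol (e : Fin d) (v : Vec d) {δ R : ℝ} (hδ : 0 ≤ δ) (hR : 1 ≤ R) :
    (volume : Measure (Vec d)).real (St e v δ R) ≤ 2 * δ * (2 * R) ^ d := by
  have h1 : (volume : Measure (Vec d)) (St e v δ R) ≤ ENNReal.ofReal (2 * δ * (2 * R) ^ d) := by
    refine (measure_mono (St_sub e v)).trans ?_
    rw [volume_pi_pi, ← Finset.mul_prod_erase Finset.univ _ (Finset.mem_univ e), if_pos rfl,
      Real.volume_Icc]
    have h2 : ∏ i ∈ Finset.univ.erase e, (volume : Measure ℝ)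
        (if i = e then Icc (v e - δ) (v e + δ) else Icc (-R) R) =
        ENNReal.ofReal (2 * R) ^ (d - 1) := by
      rw [Finset.prod_congr rfl (g := fun _ => ENNReal.ofReal (2 * R))]
      · rw [Finset.prod_const, Finset.card_erase_of_mem (Finset.mem_univ e), Finset.card_univ,
          Fintype.card_fin]
      · intro i hi
        rw [if_neg (Finset.ne_of_mem_erase hi), Real.volume_Icc]
        congr 1; ring
    rw [h2, ← ENNReal.ofReal_pow (by linarith), ← ENNReal.ofReal_mul (by linarith)]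
    apply ENNReal.ofReal_le_ofReal
    have h3 : (2 * R) ^ (d - 1) ≤ (2 * R) ^ d := pow_le_pow_right₀ (by linarith) (Nat.sub_le d 1)
    calc (v e + δ - (v e - δ)) * (2 * R) ^ (d - 1) = 2 * δ * (2 * R) ^ (d - 1) := by ring
      _ ≤ _ := mul_le_mul_of_nonneg_left h3 (by linarith)
  rw [Measure.real]
  exact ENNReal.toReal_le_of_le_ofReal (by positivity) h1

private lemma St_int (e : Fin d) (v : Vec d) {δ R : ℝ} (hδ : 0 ≤ δ) (hR : 1 ≤ R) :
    Integrable (fun p : Vec d × Vec d => (St e v δ R).indicator (fun _ => (1 : ℝ)) p.1) (nu d) ∧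
      ∫ p : Vec d × Vec d, (St e v δ R).indicator (fun _ => (1 : ℝ)) p.1 ∂(nu d) ≤
        2 * δ * (2 * R) ^ d := by
  have hfin : (volume : Measure (Vec d)) (St e v δ R) ≠ ⊤ := by
    have h1 : (volume : Measure (Vec d)) (St e v δ R) ≤
        volume (Set.pi univ fun i : Fin d => if i = e then Icc (v e - δ) (v e + δ) else Icc (-R) R) :=
      measure_mono (St_sub e v)
    refine ne_top_of_le_ne_top ?_ h1
    rw [volume_pi_pi]
    refine ENNReal.prod_ne_top fun i _ => ?_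
    split_ifs <;> · rw [Real.volume_Icc]; exact ENNReal.ofReal_ne_top
  have hi : Integrable (fun w : Vec d => (St e v δ R).indicator (fun _ => (1 : ℝ)) w) := by
    rw [integrable_indicator_iff (St_meas e v δ R)]
    exact integrableOn_const hfin
  refine ⟨?_, ?_⟩
  · exact hi.comp_fst (muD d)
  · unfold nu
    rw [integral_fun_fst (μ := (volume : Measure (Vec d))) (ν := muD d)
      (fun w => (St e v δ R).indicator (fun _ => (1 : ℝ)) w)]
    have h2 : (muD d).real univ = 1 := by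
      unfold muD
      rw [Measure.real, Measure.restrict_apply_univ, Real.volume_Icc_pi]
      simp
    rw [h2, one_smul, integral_indicator (St_meas e v δ R), setIntegral_const, smul_eq_mul, mul_one]
    exact St_vol e v hδ hR

private lemma pt_low {a : ℝ} (ha : 0 < a) {δ R : ℝ} (hδ : 0 < δ) (hR : 1 ≤ R) {e : Fin d}
    {v w : Vec d} (hw : jb w ≤ R) (hD : δ ≤ |v e - w e|) :
    δ * ((1 + R) / δ + 1) ^ (-a) * (1 + |v e|) ^ a ≤ |v e - w e| ^ (1 + a) := by
  set D := |v e - w e| with hDdef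
  have hD0 : 0 < D := lt_of_lt_of_le hδ hD
  have hq : 0 < (1 + R) / δ + 1 := by positivity
  have hwe : |w e| ≤ R := (abs_coord_le w e).trans ((len_le_jb w).trans hw)
  have h1 : |v e| ≤ |w e| + D := by
    have : v e = w e + (v e - w e) := by ring
    calc |v e| = |w e + (v e - w e)| := by rw [← this]
      _ ≤ _ := abs_add_le _ _
  have h2 : 1 + |v e| ≤ D * ((1 + R) / δ + 1) := by
    have h3 : 1 + R ≤ D * ((1 + R) / δ) := by
      rw [mul_div_assoc', le_div_iff₀ hδ]
      nlinarith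
    linarith
  have h4 : (1 + |v e|) ^ a ≤ D ^ a * ((1 + R) / δ + 1) ^ a := by
    rw [← Real.mul_rpow hD0.le hq.le]
    exact Real.rpow_le_rpow (by positivity) h2 ha.le
  have h5 : ((1 + R) / δ + 1) ^ (-a) * ((1 + R) / δ + 1) ^ a = 1 := by
    rw [← Real.rpow_add hq, neg_add_cancel, Real.rpow_zero]
  have h6 : D ^ (1 + a) = D * D ^ a := by
    rw [Real.rpow_add hD0, Real.rpow_one]
  rw [h6]
  have hp : 0 < ((1 + R) / δ + 1) ^ (-a) := Real.rpow_pos_of_pos hq _
  have hDa : 0 ≤ D ^ a := Real.rpow_nonneg hD0.le _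
  calc δ * ((1 + R) / δ + 1) ^ (-a) * (1 + |v e|) ^ a
      ≤ δ * ((1 + R) / δ + 1) ^ (-a) * (D ^ a * ((1 + R) / δ + 1) ^ a) :=
        mul_le_mul_of_nonneg_left h4 (by positivity)
    _ = δ * D ^ a * (((1 + R) / δ + 1) ^ (-a) * ((1 + R) / δ + 1) ^ a) := by ring
    _ = δ * D ^ a := by rw [h5, mul_one]
    _ ≤ D * D ^ a := mul_le_mul_of_nonneg_right hD hDa

private lemma pow1a_le {a x : ℝ} (ha : 0 < a) (ha1 : a < 1 / 2) : |x| ^ (1 + a) ≤ 1 + x ^ 2 := by
  rcases le_or_gt |x| 1 with h | h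
  · have : |x| ^ (1 + a) ≤ 1 := Real.rpow_le_one (abs_nonneg x) h (by linarith)
    nlinarith [sq_nonneg x]
  · have h1 : |x| ^ (1 + a) ≤ |x| ^ (2 : ℝ) := Real.rpow_le_rpow_of_exponent_le h.le (by linarith)
    rw [Real.rpow_two, sq_abs] at h1
    linarith

private lemma av1_int {a : ℝ} (ha : 0 < a) (ha1 : a < 1 / 2) {q : Par} (hq : q.a = a)
    (hC : 0 < q.C₀) {e : Fin d} {F G : Vec d → Vec d → ℝ} (h : FS e F G) (v : Vec d) :
    Integrable (fun p : Vec d × Vec d => (v e - p.1 e) * Pg e q.a v p.1 * g1 q F p.2 p.1) (nu d) := by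
  have i0 := int_jb2 h 0
  have i2 := int_jb2 h 2
  have ib : Integrable (fun p : Vec d × Vec d => jb v ^ (-a) * ((1 + 2 * jb v ^ 2) *
      (F p.2 p.1 * jb p.1 ^ 0) + 2 * (F p.2 p.1 * jb p.1 ^ 2))) (nu d) :=
    ((i0.const_mul _).add (i2.const_mul _)).const_mul _
  have he : ∀ p : Vec d × Vec d, (v e - p.1 e) * Pg e q.a v p.1 * g1 q F p.2 p.1 =
      jb v ^ (-a) * |v e - p.1 e| ^ (1 + a) * (chi q.R p.1 * bet q.C₀ (F p.2 p.1)) := by
    intro p
    unfold Pg g1
    rw [hq, ← mul_sp ha]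
    ring
  have hcont : Continuous fun p : Vec d × Vec d =>
      jb v ^ (-a) * |v e - p.1 e| ^ (1 + a) * (chi q.R p.1 * bet q.C₀ (F p.2 p.1)) := by
    have c1 : Continuous fun p : Vec d × Vec d => |v e - p.1 e| ^ (1 + a) := by
      refine Continuous.rpow_const ?_ fun _ => Or.inr (by linarith)
      exact continuous_abs.comp (continuous_const.sub ((continuous_apply e).comp continuous_fst))
    have c2 : Continuous fun p : Vec d × Vec d => chi q.R p.1 := (chi_cont q.R).comp continuous_fst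
    have c3 : Continuous fun p : Vec d × Vec d => F p.2 p.1 :=
      h.contF.comp (continuous_snd.prodMk continuous_fst)
    have c4 : Continuous fun p : Vec d × Vec d => bet q.C₀ (F p.2 p.1) := by
      unfold bet
      refine (continuous_const.mul c3).div (continuous_const.add c3) fun p => ?_
      have := h.nonneg p.2 p.1
      positivity
    exact (continuous_const.mul c1).mul (c2.mul c4)
  refine ib.mono' ?_ (Eventually.of_forall fun p => ?_)
  · exact (hcont.congr fun p => (he p).symm).aestronglyMeasurable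
  · rw [he p]
    have hF := h.nonneg p.2 p.1
    have hj : 0 ≤ jb v ^ (-a) := Real.rpow_nonneg (jb_pos v).le _
    have hD : 0 ≤ |v e - p.1 e| ^ (1 + a) := Real.rpow_nonneg (abs_nonneg _) _
    have hb0 := bet_nonneg hC hF
    have hb1 := bet_le hC hF
    have hc0 := chi_nonneg q.R p.1
    have hc1 := chi_le_one q.R p.1
    rw [Real.norm_eq_abs, abs_of_nonneg (by positivity)]
    have h1 : |v e - p.1 e| ^ (1 + a) ≤ 1 + 2 * jb v ^ 2 + 2 * jb p.1 ^ 2 := by
      have h2 := pow1a_le (x := v e - p.1 e) ha ha1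
      have h3 : (v e) ^ 2 ≤ jb v ^ 2 := by
        rw [← sq_abs]
        exact pow_le_pow_left₀ (abs_nonneg _) ((abs_coord_le v e).trans (len_le_jb v)) 2
      have h4 : (p.1 e) ^ 2 ≤ jb p.1 ^ 2 := by
        rw [← sq_abs]
        exact pow_le_pow_left₀ (abs_nonneg _) ((abs_coord_le p.1 e).trans (len_le_jb p.1)) 2
      nlinarith [sq_nonneg (v e + p.1 e)]
    have h5 : chi q.R p.1 * bet q.C₀ (F p.2 p.1) ≤ F p.2 p.1 := by
      calc chi q.R p.1 * bet q.C₀ (F p.2 p.1) ≤ 1 * F p.2 p.1 := mul_le_mul hc1 hb1 hb0 zero_le_one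
        _ = _ := one_mul _
    calc jb v ^ (-a) * |v e - p.1 e| ^ (1 + a) * (chi q.R p.1 * bet q.C₀ (F p.2 p.1))
        ≤ jb v ^ (-a) * (1 + 2 * jb v ^ 2 + 2 * jb p.1 ^ 2) * F p.2 p.1 :=
          mul_le_mul (mul_le_mul_of_nonneg_left h1 hj) h5 (by positivity) (by positivity)
      _ = _ := by ring

theorem av1_low (M : ℝ) {m : ℝ} (hm : 0 < m) {a : ℝ} (ha : 0 < a) (ha1 : a < 1 / 2) :
    ∃ R₁ C₁ c : ℝ, 1 ≤ R₁ ∧ 1 ≤ C₁ ∧ 0 < c ∧ ∀ q : Par, q.a = a → R₁ ≤ q.R → C₁ ≤ q.C₀ →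
      ∀ (e : Fin d) (F G : Vec d → Vec d → ℝ), FS e F G → GB M F → m ≤ ∫ p, F p.2 p.1 ∂(nu d) →
        ∀ v, c * yv e a v ≤ av1 q e F v := by
  obtain ⟨C, hC0, hC⟩ := ent_lower d M
  set K : ℝ := 8 * (|M| + 2 * C) / m + 1 with hKdef
  have hK : 0 < K := by positivity
  have hKm : 1 / K * (|M| + 2 * C) ≤ m / 8 := by
    rw [div_mul_eq_mul_div, one_mul, div_le_iff₀ hK, hKdef]
    have : m / 8 * (8 * (|M| + 2 * C) / m + 1) = |M| + 2 * C + m / 8 := by field_simp
    rw [this]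
    linarith
  set R : ℝ := 16 * |M| / m + 1 with hRdef
  have hR : 1 ≤ R := by
    have : 0 ≤ 16 * |M| / m := by positivity
    linarith
  have hRm : 1 / R ^ 2 * (2 * |M|) ≤ m / 8 := by
    have h1 : R ≤ R ^ 2 := by nlinarith
    have h2 : 2 * |M| ≤ m / 8 * R := by
      rw [hRdef]
      have : m / 8 * (16 * |M| / m + 1) = 2 * |M| + m / 8 := by field_simp; ring
      rw [this]
      linarith
    rw [div_mul_eq_mul_div, one_mul, div_le_iff₀ (by positivity)]
    exact h2.trans (mul_le_mul_of_nonneg_left h1 (by positivity))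
  set W : ℝ := Real.exp K * (2 * (2 * R) ^ d) with hWdef
  have hW : 0 < W := by
    have := Real.exp_pos K
    positivity
  set δ : ℝ := m / (8 * W) with hδdef
  have hδ : 0 < δ := by positivity
  have hδW : Real.exp K * (2 * δ * (2 * R) ^ d) ≤ m / 8 := by
    have : Real.exp K * (2 * δ * (2 * R) ^ d) = W * δ := by rw [hWdef]; ring
    rw [this, hδdef]
    have : W * (m / (8 * W)) = m / 8 := by field_simp
    rw [this]
  set c₀ : ℝ := δ * ((1 + R) / δ + 1) ^ (-a) with hc₀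
  have hc₀pos : 0 < c₀ := by
    have : 0 < (1 + R) / δ + 1 := by positivity
    have := Real.rpow_pos_of_pos this (-a)
    positivity
  refine ⟨R, Real.exp (2 * K), c₀ * (m / 2), hR, Real.one_le_exp (by linarith), by positivity, ?_⟩
  intro q hqa hqR hqC e F G hF hG hmass v
  have hqC0 : 0 < q.C₀ := lt_of_lt_of_le (Real.exp_pos _) hqC
  have hqR1 : 1 ≤ q.R := hR.trans hqR
  have hy : 0 < yv e a v := yv_pos e a v
  have hye : yv e a v = (1 + |v e|) ^ a * jb v ^ (-a) := by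
    unfold yv
    rw [Real.div_rpow (by positivity) (jb_pos v).le, Real.rpow_neg (jb_pos v).le]
    rfl
  -- integrable pieces
  have i0 : Integrable (fun p : Vec d × Vec d => F p.2 p.1) (nu d) := by
    have := int_jb2 hF 0
    simpa using this
  have i2 := int_jb2 hF 2
  have iL := (ent_int hF.nonneg hF.contF hF.decF).1
  obtain ⟨iS, hS⟩ := St_int e v hδ.le hR
  have hL : ∫ p, F p.2 p.1 * max (Real.log (F p.2 p.1)) 0 ∂(nu d) ≤ C :=
    (hC F hF.nonneg hF.contF hF.decF hG.energy).2 hG.entropy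
  have h2M : ∫ p, F p.2 p.1 * jb p.1 ^ 2 ∂(nu d) ≤ 2 * |M| := by
    have a1 : ∀ p : Vec d × Vec d, F p.2 p.1 * jb p.1 ^ 2 = F p.2 p.1 + F p.2 p.1 * nsq p.1 := by
      intro p
      rw [jb_sq]; ring
    have b2 : Integrable (fun p : Vec d × Vec d => F p.2 p.1 * nsq p.1) (nu d) := by
      have := i2.sub i0
      refine this.congr (Eventually.of_forall fun p => ?_)
      simp only [Pi.sub_apply, a1]
      ring
    simp_rw [a1]
    rw [integral_add i0 b2]
    have := hG.mass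
    have := hG.energy
    linarith [le_abs_self M]
  have hI0 : ∫ p, F p.2 p.1 ∂(nu d) ≤ |M| := hG.mass.trans (le_abs_self M)
  -- the minorant
  have iB : Integrable (fun p : Vec d × Vec d => c₀ * yv e a v * (F p.2 p.1 -
      (1 / K * (F p.2 p.1 + 2 * (F p.2 p.1 * max (Real.log (F p.2 p.1)) 0)) +
        1 / R ^ 2 * (F p.2 p.1 * jb p.1 ^ 2) +
        Real.exp K * (St e v δ R).indicator (fun _ => (1 : ℝ)) p.1))) (nu d) :=
    (i0.sub ((((i0.add (iL.const_mul 2)).const_mul _).add (i2.const_mul _)).add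
      (iS.const_mul _))).const_mul _
  have hval : ∫ p : Vec d × Vec d, c₀ * yv e a v * (F p.2 p.1 -
      (1 / K * (F p.2 p.1 + 2 * (F p.2 p.1 * max (Real.log (F p.2 p.1)) 0)) +
        1 / R ^ 2 * (F p.2 p.1 * jb p.1 ^ 2) +
        Real.exp K * (St e v δ R).indicator (fun _ => (1 : ℝ)) p.1)) ∂(nu d) =
      c₀ * yv e a v * (∫ p, F p.2 p.1 ∂(nu d) -
        (1 / K * (∫ p, F p.2 p.1 ∂(nu d) +
          2 * ∫ p, F p.2 p.1 * max (Real.log (F p.2 p.1)) 0 ∂(nu d)) +
        1 / R ^ 2 * ∫ p, F p.2 p.1 * jb p.1 ^ 2 ∂(nu d) +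
        Real.exp K * ∫ p : Vec d × Vec d, (St e v δ R).indicator (fun _ => (1 : ℝ)) p.1 ∂(nu d))) := by
    have j1 : Integrable (fun p : Vec d × Vec d =>
        1 / K * (F p.2 p.1 + 2 * (F p.2 p.1 * max (Real.log (F p.2 p.1)) 0))) (nu d) :=
      (i0.add (iL.const_mul 2)).const_mul _
    have j2 : Integrable (fun p : Vec d × Vec d => 1 / R ^ 2 * (F p.2 p.1 * jb p.1 ^ 2)) (nu d) :=
      i2.const_mul _
    have j3 : Integrable (fun p : Vec d × Vec d =>
        Real.exp K * (St e v δ R).indicator (fun _ => (1 : ℝ)) p.1) (nu d) := iS.const_mul _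
    have j12 : Integrable (fun p : Vec d × Vec d =>
        1 / K * (F p.2 p.1 + 2 * (F p.2 p.1 * max (Real.log (F p.2 p.1)) 0)) +
          1 / R ^ 2 * (F p.2 p.1 * jb p.1 ^ 2)) (nu d) := j1.add j2
    have j123 : Integrable (fun p : Vec d × Vec d =>
        1 / K * (F p.2 p.1 + 2 * (F p.2 p.1 * max (Real.log (F p.2 p.1)) 0)) +
          1 / R ^ 2 * (F p.2 p.1 * jb p.1 ^ 2) +
          Real.exp K * (St e v δ R).indicator (fun _ => (1 : ℝ)) p.1) (nu d) := j12.add j3
    rw [integral_const_mul, integral_sub i0 j123, integral_add j12 j3, integral_add j1 j2,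
      integral_const_mul, integral_const_mul, integral_const_mul,
      integral_add i0 (iL.const_mul 2), integral_const_mul]
  have hlow : m / 2 ≤ ∫ p, F p.2 p.1 ∂(nu d) -
        (1 / K * (∫ p, F p.2 p.1 ∂(nu d) +
          2 * ∫ p, F p.2 p.1 * max (Real.log (F p.2 p.1)) 0 ∂(nu d)) +
        1 / R ^ 2 * ∫ p, F p.2 p.1 * jb p.1 ^ 2 ∂(nu d) +
        Real.exp K * ∫ p : Vec d × Vec d, (St e v δ R).indicator (fun _ => (1 : ℝ)) p.1 ∂(nu d)) := by
    have k1 : 1 / K * (∫ p, F p.2 p.1 ∂(nu d) +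
          2 * ∫ p, F p.2 p.1 * max (Real.log (F p.2 p.1)) 0 ∂(nu d)) ≤ m / 8 := by
      refine le_trans (mul_le_mul_of_nonneg_left ?_ (by positivity)) hKm
      linarith
    have k2 : 1 / R ^ 2 * ∫ p, F p.2 p.1 * jb p.1 ^ 2 ∂(nu d) ≤ m / 8 :=
      le_trans (mul_le_mul_of_nonneg_left h2M (by positivity)) hRm
    have k3 : Real.exp K * ∫ p : Vec d × Vec d,
        (St e v δ R).indicator (fun _ => (1 : ℝ)) p.1 ∂(nu d) ≤ m / 8 :=
      le_trans (mul_le_mul_of_nonneg_left hS (Real.exp_pos K).le) hδW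
    linarith
  -- pointwise bound
  have hpt : ∀ p : Vec d × Vec d, c₀ * yv e a v * (F p.2 p.1 -
      (1 / K * (F p.2 p.1 + 2 * (F p.2 p.1 * max (Real.log (F p.2 p.1)) 0)) +
        1 / R ^ 2 * (F p.2 p.1 * jb p.1 ^ 2) +
        Real.exp K * (St e v δ R).indicator (fun _ => (1 : ℝ)) p.1)) ≤
      (v e - p.1 e) * Pg e q.a v p.1 * g1 q F p.2 p.1 := by
    intro p
    have he : (v e - p.1 e) * Pg e q.a v p.1 * g1 q F p.2 p.1 =
        jb v ^ (-a) * |v e - p.1 e| ^ (1 + a) * (chi q.R p.1 * bet q.C₀ (F p.2 p.1)) := by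
      unfold Pg g1
      rw [hqa, ← mul_sp ha]
      ring
    rw [he]
    set r := F p.2 p.1 with hr
    have hr0 : 0 ≤ r := hF.nonneg p.2 p.1
    have hmx : 0 ≤ r * max (Real.log r) 0 := mul_nonneg hr0 (le_max_right _ _)
    have hj : 0 ≤ jb v ^ (-a) := Real.rpow_nonneg (jb_pos v).le _
    have hD : 0 ≤ |v e - p.1 e| ^ (1 + a) := Real.rpow_nonneg (abs_nonneg _) _
    have hb0 := bet_nonneg hqC0 hr0
    have hc0' := chi_nonneg q.R p.1
    have hint0 : 0 ≤ jb v ^ (-a) * |v e - p.1 e| ^ (1 + a) * (chi q.R p.1 * bet q.C₀ r) := by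
      positivity
    have hK1 : 0 < 1 / K := by positivity
    have t1 : 0 ≤ 1 / K * (r + 2 * (r * max (Real.log r) 0)) := by positivity
    have t1' : 1 / K * (r * max (Real.log r) 0) ≤ 1 / K * (r + 2 * (r * max (Real.log r) 0)) :=
      mul_le_mul_of_nonneg_left (by linarith) hK1.le
    have t2 : 0 ≤ 1 / R ^ 2 * (r * jb p.1 ^ 2) := by positivity
    have t3 : 0 ≤ Real.exp K * (St e v δ R).indicator (fun _ => (1 : ℝ)) p.1 :=
      mul_nonneg (Real.exp_pos K).le (indicator_nonneg (fun _ _ => zero_le_one) _)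
    rcases lt_or_ge R (jb p.1) with h1 | h1
    · -- large velocity
      have h2 : r ≤ 1 / R ^ 2 * (r * jb p.1 ^ 2) := by
        rw [div_mul_eq_mul_div, one_mul, le_div_iff₀ (by positivity)]
        exact mul_le_mul_of_nonneg_left (pow_le_pow_left₀ (by linarith) h1.le 2) hr0
      refine le_trans (mul_nonpos_of_nonneg_of_nonpos (by positivity) (by linarith)) hint0
    · rcases lt_or_ge |v e - p.1 e| δ with h2 | h2
      · have h3 : (St e v δ R).indicator (fun _ => (1 : ℝ)) p.1 = 1 :=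
          indicator_of_mem (s := St e v δ R) ⟨h2, h1⟩ _
        rw [h3, mul_one]
        have h4 := pt_strip hK hr0
        refine le_trans (mul_nonpos_of_nonneg_of_nonpos (by positivity) (by linarith)) hint0
      · have h3 := pt_sub hK hqC hr0
        have h4 : 1 / K * (r + r * max (Real.log r) 0) ≤ 1 / K * (r + 2 * (r * max (Real.log r) 0)) :=
          mul_le_mul_of_nonneg_left (by linarith) hK1.le
        have h5 : r - (1 / K * (r + 2 * (r * max (Real.log r) 0)) +
            1 / R ^ 2 * (r * jb p.1 ^ 2) +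
            Real.exp K * (St e v δ R).indicator (fun _ => (1 : ℝ)) p.1) ≤ bet q.C₀ r := by
          linarith
        have h6 : chi q.R p.1 = 1 := chi_eq_one hqR1 (h1.trans hqR)
        have h7 := pt_low ha hδ hR h1 h2
        rw [h6, one_mul]
        calc c₀ * yv e a v * (r - (1 / K * (r + 2 * (r * max (Real.log r) 0)) +
            1 / R ^ 2 * (r * jb p.1 ^ 2) +
            Real.exp K * (St e v δ R).indicator (fun _ => (1 : ℝ)) p.1))
            ≤ c₀ * yv e a v * bet q.C₀ r := mul_le_mul_of_nonneg_left h5 (by positivity)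
          _ = jb v ^ (-a) * (c₀ * (1 + |v e|) ^ a) * bet q.C₀ r := by rw [hye]; ring
          _ ≤ jb v ^ (-a) * |v e - p.1 e| ^ (1 + a) * bet q.C₀ r :=
            mul_le_mul_of_nonneg_right (mul_le_mul_of_nonneg_left h7 hj) hb0
  have hmono := integral_mono iB (av1_int ha ha1 hqa hqC0 hF v) hpt
  rw [hval] at hmono
  unfold av1
  refine le_trans ?_ hmono
  calc c₀ * (m / 2) * yv e a v = c₀ * yv e a v * (m / 2) := by ring
    _ ≤ _ := mul_le_mul_of_nonneg_left hlow (by positivity)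

end Pool.Agent.H48.PI
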