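import Pool.Agent.H48.PL.Glob

/-!
# Constants independent of `T` for plane symmetric solutions: definitions (MP_c15324_an)

`γ = 1 + a`, notation of Pool/Agent/H48/PL/Defs.lean. Paper: /team-store/h48_pinf_paper.md
-/

set_option autoImplicit false

open MeasureTheory Set Filter Topology Pool.Agent.H25.Kin Pool.Agent.H48.PL
open Pool.Agent.H15.AV (gau)

namespace Pool.Agent.H48.PI

variable {d : ℕ}

/-- the weight `min(1, R/V)^(4-a)` -/
noncomputable def om (a V R : ℝ) : ℝ := min 1 (R / V) ^ (4 - a)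

/-- `∫∫_A g(v) g(w) |v-w|^γ R^a min(1,R/V)^(4-a)` -/
noncomputable def XW (a V : ℝ) (g : Vec d → ℝ) (A : Set (Vec d × Vec d)) : ℝ :=
  ∫ p in A, dens a g p * om a V (RR p.1 p.2)

/-- the weight `min(1,⟨w⟩/⟨v⟩)^4 sgn(v_e-w_e)|v_e-w_e|^a` -/
noncomputable def Ph4 (e : Fin d) (a : ℝ) (v w : Vec d) : ℝ :=
  min 1 (jb w / jb v) ^ 4 * sp a (v e - w e)

/-- the weight `⟨v⟩^(-a) sgn(v_e-w_e)|v_e-w_e|^a` -/
noncomputable def Pg (e : Fin d) (a : ℝ) (v w : Vec d) : ℝ := jb v ^ (-a) * sp a (v e - w e)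

/-- a cut-off function: `1` for `⟨w⟩ ≤ R`, `0` for `⟨w⟩ ≥ 2R` -/
noncomputable def chi (R : ℝ) (w : Vec d) : ℝ := max 0 (min 1 (2 - jb w / R))

/-- the bounded part `C₀ r/(C₀+r)` -/
noncomputable def bet (C₀ r : ℝ) : ℝ := C₀ * r / (C₀ + r)

/-- its derivative -/
noncomputable def bet' (C₀ r : ℝ) : ℝ := (C₀ / (C₀ + r)) ^ 2

/-- `((1+|v_e|)/⟨v⟩)^a` -/
noncomputable def yv (e : Fin d) (a : ℝ) (v : Vec d) : ℝ := ((1 + |v e|) / jb v) ^ a

/-- the regularized entropy production of a fiber -/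
noncomputable def Dn (γ : ℝ) (b : ℝ → ℝ) (δ : ℝ) (g : Vec d → ℝ) : ℝ :=
  -∫ v, boltzQ γ b g v * Real.log (g v + δ * gau v)

/-- the total entropy `∫∫ F log F` -/
noncomputable def Hs (F : Vec d → Vec d → ℝ) : ℝ := ∫ q, F q.2 q.1 * Real.log (F q.2 q.1) ∂(nu d)

end Pool.Agent.H48.PI
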