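import Pool.Agent.H48.PI.EDef

/-!
# Module EDer: lower bound for the derivative of the weight function, one time slice

`h : FS e F G`, `hb : FS e (bet F) (bet' F G)`. `dpot = I₁ - I₂ + I₃` (H48/PL/Defs: local term, average term, source term). `g1 = chi bet(F)`, `Psi = chi (K₀ Ph4 + A' Pg)`, everything is rapidly decaying in `w`.
`K₀ I₁[Ph4,F] - I₁[Psi,bet F] = K₀ ∫ V_e Ph4 (F - g1)(x) - A' ∫ V_e Pg g1(x)` (linearity). `I₂`: `∫ z in (-1/2,1/2)` of a planar periodic function `= ∫ dμ` (equality is needed: prove `loc e 1 B x = ∫ B dμ` for `PlF e B`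
from periodicity: `∫ z in (-1/2,1/2), b₁(x_e - z) = ∫_0^1 b₁`, `Function.Periodic.intervalIntegral_add_eq`, and `∫ B dμ = ∫_0^1 b₁` as in `pl_swap`/`loc_le`, H48/PL/PlI), so `K₀ I₂ - I₂ = K₀ av2 - A' av1` (`nu_integral`).
`|K₀ I₃ - I₃| ≤ (1/2) ∫z m (x - z e) = (1/2) ∫ m dμ` (`|kl 1 z| ≤ 1/2`).
-/

set_option autoImplicit false

open MeasureTheory Set Filter Topology Pool.Agent.H25.Kin Pool.Agent.H48.PL

namespace Pool.Agent.H48.PI

variable {d : ℕ} {q : Par} {e : Fin d} {F G : Vec d → Vec d → ℝ} {ε₂ M₂ : ℝ}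

/-- continuous planar periodic functions with rapid decay in the velocity -/
private structure EDerA (e : Fin d) (A : Vec d → Vec d → ℝ) : Prop where
  cont : Continuous fun p : Vec d × Vec d => A p.1 p.2
  dec : RX A
  per : ∀ x v i, A (x + Pi.single i 1) v = A x v
  pl : ∀ x y v, x e = y e → A x v = A y v

private lemma EDer_bd {A : Vec d → Vec d → ℝ} (hA : EDerA e A) {Φ : Vec d → Vec d → ℝ} (hΦ : PGW Φ)
    (v : Vec d) : ∃ C, ∀ x w, |Φ v w * A x w| ≤ C * wt d w := by
  obtain ⟨N, K, hK0, hK⟩ := hΦ.le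
  obtain ⟨C, hC⟩ := hA.dec (N + (d + 1))
  refine ⟨K * (1 + ‖v‖) ^ N * C, fun x w => ?_⟩
  have hw : 0 < 1 + ‖w‖ := w_pos w
  have hv : 0 < 1 + ‖v‖ := w_pos v
  have h2 := hC x w
  rw [abs_mul]
  unfold wt
  rw [← div_eq_mul_inv, le_div_iff₀ (by positivity)]
  calc |Φ v w| * |A x w| * (1 + ‖w‖) ^ (d + 1)
      ≤ (K * ((1 + ‖v‖) ^ N * (1 + ‖w‖) ^ N)) * |A x w| * (1 + ‖w‖) ^ (d + 1) := by
        have := hK v w
        gcongr
    _ = K * (1 + ‖v‖) ^ N * ((1 + ‖w‖) ^ (N + (d + 1)) * |A x w|) := by rw [pow_add]; ring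
    _ ≤ K * (1 + ‖v‖) ^ N * C := by gcongr

private lemma EDer_wc {A : Vec d → Vec d → ℝ} (hA : EDerA e A) {Φ : Vec d → Vec d → ℝ} (hΦ : PGW Φ)
    (x v : Vec d) : Continuous fun w => Φ v w * A x w :=
  (hΦ.cont.comp (by fun_prop : Continuous fun w : Vec d => (v, w))).mul
    (hA.cont.comp (by fun_prop : Continuous fun w : Vec d => (x, w)))

private lemma EDer_int {A : Vec d → Vec d → ℝ} (hA : EDerA e A) {Φ : Vec d → Vec d → ℝ} (hΦ : PGW Φ)
    (x v : Vec d) : Integrable fun w => Φ v w * A x w := by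
  obtain ⟨C, hC⟩ := EDer_bd hA hΦ v
  exact (integrable_wt.const_mul C).mono' (EDer_wc hA hΦ x v).aestronglyMeasurable
    (Eventually.of_forall fun w => hC x w)

private lemma EDer_nu {A : Vec d → Vec d → ℝ} (hA : EDerA e A) {Φ : Vec d → Vec d → ℝ} (hΦ : PGW Φ)
    (v : Vec d) : Integrable (fun p : Vec d × Vec d => Φ v p.1 * A p.2 p.1) (nu d) := by
  obtain ⟨C, hC⟩ := EDer_bd hA hΦ v
  have hc : Continuous fun p : Vec d × Vec d => Φ v p.1 * A p.2 p.1 :=
    (hΦ.cont.comp (by fun_prop : Continuous fun p : Vec d × Vec d => (v, p.1))).mul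
      (hA.cont.comp (by fun_prop : Continuous fun p : Vec d × Vec d => (p.2, p.1)))
  exact integrable_nu hc.aestronglyMeasurable fun p => hC p.2 p.1

private lemma EDer_pl {A : Vec d → Vec d → ℝ} (hA : EDerA e A) {Φ : Vec d → Vec d → ℝ} (hΦ : PGW Φ)
    (v : Vec d) : PlF e fun x => ∫ w, Φ v w * A x w := by
  obtain ⟨C, hC⟩ := EDer_bd hA hΦ v
  refine ⟨?_, ?_, ?_⟩
  · refine continuous_of_dominated (bound := fun w => C * wt d w) ?_ ?_
      (integrable_wt.const_mul _) ?_
    · intro x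
      exact (EDer_wc hA hΦ x v).aestronglyMeasurable
    · intro x
      exact Eventually.of_forall fun w => hC x w
    · refine Eventually.of_forall fun w => ?_
      exact continuous_const.mul
        (hA.cont.comp (by fun_prop : Continuous fun x : Vec d => (x, w)))
  · intro x i
    congr 1
    funext w
    rw [hA.per]
  · intro x y hxy
    congr 1
    funext w
    rw [hA.pl x y w hxy]

private lemma EDer_loc {B : Vec d → ℝ} (hB : PlF e B) (x : Vec d) :
    loc e 1 B x = ∫ y, B y ∂(muD d) := by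
  obtain ⟨C, hC⟩ := pl_bdd hB
  have hfin : IsFiniteMeasure ((volume : Measure ℝ).restrict (Ioo (-(1 / 2)) (1 / 2))) :=
    ⟨by rw [Measure.restrict_apply_univ]; exact measure_Ioo_lt_top⟩
  have hi : Integrable (fun z : ℝ => B (x - Pi.single e z))
      (volume.restrict (Ioo (-(1 / 2)) (1 / 2))) := by
    have hc : Continuous fun z : ℝ => x - (Pi.single e z : Vec d) :=
      continuous_const.sub (continuous_single (A := fun _ : Fin d => ℝ) e)
    exact Integrable.of_bound (hB.cont.comp hc).aestronglyMeasurable C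
      (Eventually.of_forall fun z => hC _)
  have hv : (∫ _z in Ioo (-(1 / 2) : ℝ) (1 / 2), C) = C := by
    rw [setIntegral_const, Real.volume_real_Ioo_of_le (by norm_num)]
    norm_num
  have hm : (∫ _y : Vec d, C ∂(muD d)) = C := by
    rw [integral_const, measureReal_def, muD_univ]
    simp
  have h1 : PlF e fun y => C - B y :=
    ⟨continuous_const.sub hB.cont, fun x i => by rw [hB.per], fun x y h => by rw [hB.pl x y h]⟩
  have h2 : PlF e fun y => C + B y :=
    ⟨continuous_const.add hB.cont, fun x i => by rw [hB.per], fun x y h => by rw [hB.pl x y h]⟩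
  have e1 := loc_le h1 (fun y => by have := (abs_le.mp (hC y)).2; linarith) one_pos le_rfl x
  have e2 := loc_le h2 (fun y => by have := (abs_le.mp (hC y)).1; linarith) one_pos le_rfl x
  unfold loc at e1 e2 ⊢
  rw [integral_sub (integrable_const _) hi, integral_sub (integrable_const _) (pl_int hB), hv,
    hm] at e1
  rw [integral_add (integrable_const _) hi, integral_add (integrable_const _) (pl_int hB), hv,
    hm] at e2
  linarith

private lemma EDer_kl {B : Vec d → ℝ} (hB : PlF e B) (x : Vec d) :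
    Integrable (fun z : ℝ => kl 1 z * B (x - Pi.single e z))
      (volume.restrict (Ioo (-(1 / 2)) (1 / 2))) := by
  obtain ⟨C, hC⟩ := pl_bdd hB
  have hfin : IsFiniteMeasure ((volume : Measure ℝ).restrict (Ioo (-(1 / 2)) (1 / 2))) :=
    ⟨by rw [Measure.restrict_apply_univ]; exact measure_Ioo_lt_top⟩
  have hc : Continuous fun z : ℝ => x - (Pi.single e z : Vec d) :=
    continuous_const.sub (continuous_single (A := fun _ : Fin d => ℝ) e)
  refine Integrable.of_bound ((kl_meas 1).aestronglyMeasurable.mul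
    (hB.cont.comp hc).aestronglyMeasurable) (1 / 2 * C) ?_
  filter_upwards [ae_restrict_mem measurableSet_Ioo] with z hz
  rw [norm_mul, Real.norm_eq_abs, Real.norm_eq_abs]
  exact mul_le_mul (kl_abs one_pos hz) (hC _) (abs_nonneg _) (by norm_num)

private lemma EDer_src {a b m : Vec d → ℝ} {K : ℝ} (hK : 0 ≤ K) (ha : PlF e a) (hb : PlF e b)
    (hm : PlF e m) (h : ∀ x, K * |a x| + |b x| ≤ m x) (x : Vec d) :
    -(1 / 2 * ∫ y, m y ∂(muD d)) ≤
      K * (∫ z in Ioo (-(1 / 2) : ℝ) (1 / 2), kl 1 z * a (x - Pi.single e z)) -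
        ∫ z in Ioo (-(1 / 2) : ℝ) (1 / 2), kl 1 z * b (x - Pi.single e z) := by
  have hc : Continuous fun z : ℝ => x - (Pi.single e z : Vec d) :=
    continuous_const.sub (continuous_single (A := fun _ : Fin d => ℝ) e)
  have hfin : IsFiniteMeasure ((volume : Measure ℝ).restrict (Ioo (-(1 / 2)) (1 / 2))) :=
    ⟨by rw [Measure.restrict_apply_univ]; exact measure_Ioo_lt_top⟩
  obtain ⟨C, hC⟩ := pl_bdd hm
  have him : Integrable (fun z : ℝ => m (x - Pi.single e z))
      (volume.restrict (Ioo (-(1 / 2)) (1 / 2))) :=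
    Integrable.of_bound (hm.cont.comp hc).aestronglyMeasurable C
      (Eventually.of_forall fun z => hC _)
  rw [← EDer_loc hm x, ← integral_const_mul, ← integral_sub ((EDer_kl ha x).const_mul K)
    (EDer_kl hb x)]
  have h1 : ‖∫ z in Ioo (-(1 / 2) : ℝ) (1 / 2), (K * (kl 1 z * a (x - Pi.single e z)) -
      kl 1 z * b (x - Pi.single e z))‖ ≤
        ∫ z in Ioo (-(1 / 2) : ℝ) (1 / 2), 1 / 2 * m (x - Pi.single e z) := by
    refine norm_integral_le_of_norm_le (him.const_mul _) ?_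
    filter_upwards [ae_restrict_mem measurableSet_Ioo] with z hz
    have h2 := h (x - Pi.single e z)
    have h3 : |kl 1 z| ≤ 1 / 2 := kl_abs one_pos hz
    have h4 : K * (kl 1 z * a (x - Pi.single e z)) - kl 1 z * b (x - Pi.single e z) =
        kl 1 z * (K * a (x - Pi.single e z) - b (x - Pi.single e z)) := by ring
    have h5 : |K * a (x - Pi.single e z) - b (x - Pi.single e z)| ≤ m (x - Pi.single e z) := by
      refine (abs_sub _ _).trans ?_
      rw [abs_mul, abs_of_nonneg hK]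
      exact h2
    rw [h4, norm_mul, Real.norm_eq_abs, Real.norm_eq_abs]
    exact mul_le_mul h3 h5 (abs_nonneg _) (by norm_num)
  rw [integral_const_mul] at h1
  have h6 := neg_le_of_abs_le h1
  exact h6

theorem EE_der (hq : q.Ok) (h : FS e F G)
    (hb : FS e (fun x v => bet q.C₀ (F x v)) (fun x v => bet' q.C₀ (F x v) * G x v)) {m : Vec d → ℝ}
    (hm : PlF e m) (v : Vec d)
    (herr : ∀ x, q.K₀ * |∫ w, Ph4 e q.a v w * G x w| +
      |∫ w, Psi e q.a q.K₀ q.A' q.R v w * (bet' q.C₀ (F x w) * G x w)| ≤ m x) (x : Vec d) :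
    (q.K₀ * ∫ w, (v e - w e) * Ph4 e q.a v w * (F x w - g1 q F x w)) -
      q.A' * (∫ w, (v e - w e) * Pg e q.a v w * g1 q F x w) - q.K₀ * av2 q e F v + q.A' * av1 q e F v -
      1 / 2 * ∫ y, m y ∂(muD d) ≤ dEE q e F G x v := by
  have aF : EDerA e F := ⟨h.contF, h.decF, h.perF, h.plF⟩
  have aG : EDerA e G := ⟨h.contG, h.decG, h.perG, h.plG⟩
  have aB : EDerA e fun x w => bet q.C₀ (F x w) := ⟨hb.contF, hb.decF, hb.perF, hb.plF⟩
  have aH : EDerA e fun x w => bet' q.C₀ (F x w) * G x w := ⟨hb.contG, hb.decG, hb.perG, hb.plG⟩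
  have a1 : EDerA e (g1 q F) := by
    refine ⟨?_, ?_, ?_, ?_⟩
    · exact ((chi_cont q.R).comp continuous_snd).mul hb.contF
    · intro N
      obtain ⟨C, hC⟩ := hb.decF N
      refine ⟨C, fun x w => le_trans ?_ (hC x w)⟩
      have hw : 0 < 1 + ‖w‖ := w_pos w
      refine mul_le_mul_of_nonneg_left ?_ (by positivity)
      unfold g1
      rw [abs_mul, abs_of_nonneg (chi_nonneg _ _)]
      exact mul_le_of_le_one_left (abs_nonneg _) (chi_le_one _ _)
    · intro x w i
      unfold g1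
      rw [h.perF]
    · intro x y w hxy
      unfold g1
      rw [h.plF x y w hxy]
  have a2 : EDerA e fun x w => F x w - g1 q F x w := by
    refine ⟨aF.cont.sub a1.cont, ?_, ?_, ?_⟩
    · intro N
      obtain ⟨C, hC⟩ := aF.dec N
      obtain ⟨C', hC'⟩ := a1.dec N
      refine ⟨C + C', fun x w => ?_⟩
      have hw : 0 < 1 + ‖w‖ := w_pos w
      calc (1 + ‖w‖) ^ N * |F x w - g1 q F x w|
          ≤ (1 + ‖w‖) ^ N * (|F x w| + |g1 q F x w|) :=
            mul_le_mul_of_nonneg_left (abs_sub _ _) (by positivity)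
        _ = (1 + ‖w‖) ^ N * |F x w| + (1 + ‖w‖) ^ N * |g1 q F x w| := by ring
        _ ≤ C + C' := add_le_add (hC x w) (hC' x w)
    · intro x w i
      simp only [aF.per, a1.per]
    · intro x y w hxy
      simp only [aF.pl x y w hxy, a1.pl x y w hxy]
  have p4 := Ph4_PGW (d := d) hq.ha e
  have pg := Pg_PGW (d := d) hq.ha e
  have pp := Psi_PGW (d := d) hq.ha e q.K₀ q.A' q.R
  have v4 := p4.vmul e
  have vg := pg.vmul e
  have vp := pp.vmul e
  -- the identity for the fluxes
  have hid : ∀ y, (q.K₀ * ∫ w, (v e - w e) * Ph4 e q.a v w * F y w) -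
      (∫ w, (v e - w e) * Psi e q.a q.K₀ q.A' q.R v w * bet q.C₀ (F y w)) =
      (q.K₀ * ∫ w, (v e - w e) * Ph4 e q.a v w * (F y w - g1 q F y w)) -
        q.A' * ∫ w, (v e - w e) * Pg e q.a v w * g1 q F y w := by
    intro y
    rw [← integral_const_mul, ← integral_const_mul, ← integral_const_mul,
      ← integral_sub ((EDer_int aF v4 y v).const_mul _) (EDer_int aB vp y v),
      ← integral_sub ((EDer_int a2 v4 y v).const_mul _) ((EDer_int a1 vg y v).const_mul _)]
    congr 1
    funext w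
    unfold g1 Psi
    ring
  have q1 := EDer_pl aF v4 v
  have q2 := EDer_pl aB vp v
  have q3 := EDer_pl a2 v4 v
  have q4 := EDer_pl a1 vg v
  have hav : q.K₀ * av2 q e F v - q.A' * av1 q e F v =
      (q.K₀ * ∫ y, (∫ w, (v e - w e) * Ph4 e q.a v w * F y w) ∂(muD d)) -
        ∫ y, (∫ w, (v e - w e) * Psi e q.a q.K₀ q.A' q.R v w * bet q.C₀ (F y w)) ∂(muD d) := by
    have e1 : av2 q e F v =
        ∫ y, (∫ w, (v e - w e) * Ph4 e q.a v w * (F y w - g1 q F y w)) ∂(muD d) :=
      Pool.Agent.H15.AV.nu_integral (EDer_nu a2 v4 v)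
    have e2 : av1 q e F v = ∫ y, (∫ w, (v e - w e) * Pg e q.a v w * g1 q F y w) ∂(muD d) :=
      Pool.Agent.H15.AV.nu_integral (EDer_nu a1 vg v)
    rw [e1, e2, ← integral_const_mul, ← integral_const_mul, ← integral_const_mul,
      ← integral_sub ((pl_int q3).const_mul _) ((pl_int q4).const_mul _),
      ← integral_sub ((pl_int q1).const_mul _) (pl_int q2)]
    congr 1
    funext y
    exact (hid y).symm
  have l1 := EDer_loc q1 x
  have l2 := EDer_loc q2 x
  have hs := EDer_src hq.hK (EDer_pl aG p4 v) (EDer_pl aH pp v) hm herr x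
  have hx := hid x
  unfold loc at l1 l2
  unfold dEE dpot
  rw [one_div_one, one_mul, one_mul, l1, l2]
  linarith

end Pool.Agent.H48.PI
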