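import Pool.Agent.H48.PI.Defs

/-!
# Module WinT: two elementary lemmas

* `touch_E`: `f u W_u exp(-E u) ≤ f v W_v exp(-E v)` for all `u` and `|E u - E v| ≤ 2δ min(1, len(u-v)/jb v)^a` (`δ ≤ 1/4`) give `Touch (4δ) a p f v`: copy of the private lemma `touch_of` in H48/PL/FinP (`exp x ≤ 1 + 2|x|` for `|x| ≤ 1`; `mm a v u = min(1,len/jb v)^a`, private lemma `fmm_eq` there).
* `high_E`: `3 N₁ ≤ g W exp(-E)`, `|E| ≤ 1/2`: `N₁ ≤ 3 N₁ exp(-1/2) ≤ g W`.
-/

set_option autoImplicit false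

open MeasureTheory Set Filter Topology Pool.Agent.H25.Kin Pool.Agent.H48.PL

namespace Pool.Agent.H48.PI

variable {d : ℕ} {a : ℝ}

private lemma winT_mm (a : ℝ) (v u : Vec d) : mm a v u = min 1 (len (u - v) / jb v) ^ a := by
  have hj := jb_pos v
  have hn : 0 ≤ nsq (u - v) := by
    unfold nsq
    exact Finset.sum_nonneg fun i _ => sq_nonneg _
  have hl : 0 ≤ len (u - v) := Real.sqrt_nonneg _
  have h1 : nsq (u - v) / (1 + nsq v) = (len (u - v) / jb v) ^ 2 := by
    rw [div_pow, jb_sq]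
    unfold len
    rw [Real.sq_sqrt hn]
  have hr : 0 ≤ len (u - v) / jb v := by positivity
  have h2 : min 1 ((len (u - v) / jb v) ^ 2) = (min 1 (len (u - v) / jb v)) ^ 2 := by
    rcases le_total (len (u - v) / jb v) 1 with h | h
    · rw [min_eq_right h, min_eq_right (by nlinarith)]
    · rw [min_eq_left h, min_eq_left (by nlinarith)]
      norm_num
  have h3 : 0 ≤ min 1 (len (u - v) / jb v) := le_min zero_le_one hr
  unfold mm
  rw [h1, h2, ← Real.rpow_natCast, ← Real.rpow_mul h3]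
  congr 1
  push_cast
  ring

private lemma winT_exp {x : ℝ} (hx : |x| ≤ 1) : Real.exp x ≤ 1 + 2 * |x| := by
  have h := Real.abs_exp_sub_one_le hx
  have h2 := le_abs_self (Real.exp x - 1)
  linarith

private lemma winT_mm01 (ha : 0 < a) (v u : Vec d) : 0 ≤ mm a v u ∧ mm a v u ≤ 1 := by
  rw [winT_mm]
  have hr : 0 ≤ min 1 (len (u - v) / jb v) :=
    le_min zero_le_one (div_nonneg (Real.sqrt_nonneg _) (jb_pos v).le)
  exact ⟨Real.rpow_nonneg hr _, Real.rpow_le_one hr (min_le_left _ _) ha.le⟩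

theorem touch_E (ha : 0 < a) {δ : ℝ} (hδ : 0 < δ) (hδ1 : δ ≤ 1 / 4) {g E : Vec d → ℝ} {p : ℕ}
    (hg : ∀ v, 0 ≤ g v) {v : Vec d}
    (hE : ∀ u, |E u - E v| ≤ 2 * δ * min 1 (len (u - v) / jb v) ^ a)
    (h : ∀ u, g u * (1 + nsq u) ^ p * Real.exp (-E u) ≤ g v * (1 + nsq v) ^ p * Real.exp (-E v)) :
    Touch (4 * δ) a p g v := by
  intro u
  have hm := winT_mm01 ha v u
  have hW : 0 ≤ g v * (1 + nsq v) ^ p := by
    have : 0 ≤ nsq v := by
      unfold nsq
      exact Finset.sum_nonneg fun i _ => sq_nonneg _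
    exact mul_nonneg (hg v) (by positivity)
  have h1 : g u * (1 + nsq u) ^ p ≤ g v * (1 + nsq v) ^ p * Real.exp (E u - E v) := by
    have h2 := mul_le_mul_of_nonneg_right (h u) (Real.exp_pos (E u)).le
    have e1 : g u * (1 + nsq u) ^ p * Real.exp (-E u) * Real.exp (E u) = g u * (1 + nsq u) ^ p := by
      rw [mul_assoc, ← Real.exp_add]
      simp
    have e2 : g v * (1 + nsq v) ^ p * Real.exp (-E v) * Real.exp (E u) =
        g v * (1 + nsq v) ^ p * Real.exp (E u - E v) := by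
      rw [mul_assoc, ← Real.exp_add]
      congr 2
      ring
    rw [e1, e2] at h2
    exact h2
  have h3 := hE u
  rw [← winT_mm] at h3
  have h5 : |E u - E v| ≤ 1 := by
    have : δ * mm a v u ≤ 1 / 4 * 1 := mul_le_mul hδ1 hm.2 hm.1 (by norm_num)
    linarith
  have h6 := winT_exp h5
  have h7 : Real.exp (E u - E v) ≤ 1 + 4 * δ * mm a v u := by linarith
  exact h1.trans (mul_le_mul_of_nonneg_left h7 hW)

lemma high_E {N₁ x E : ℝ} (hN : 0 < N₁) (hE : |E| ≤ 1 / 2) (h : 3 * N₁ ≤ x * Real.exp (-E)) : N₁ ≤ x := by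
  have h1 : 0 < x := by
    by_contra hx
    have := mul_nonpos_of_nonpos_of_nonneg (not_lt.1 hx) (Real.exp_pos (-E)).le
    linarith
  have h2 : |(-E)| ≤ 1 := by rw [abs_neg]; linarith
  have h3 := winT_exp h2
  rw [abs_neg] at h3
  have h4 : Real.exp (-E) ≤ 3 := by linarith
  have h5 := mul_le_mul_of_nonneg_left h4 h1.le
  linarith

end Pool.Agent.H48.PI
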