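import Pool.Agent.H48.PI.EDef

/-!
# Module ESli: bounds for the weight function, one time slice

`h : FS e F G`. All potentials are `∫ z in (-1/2,1/2), kl 1 z * ∫ w, ..`; `|kl 1 z| ≤ 1/2` (`kl_abs`), `EE = ∫z k ∫w [K₀ Ph4 (F - g1) - A' Pg g1]` (linearity; `g1 = chi bet(F)`, `Psi = chi (K₀ Ph4 + A' Pg)`; everything is rapidly decaying in `w`, bounded in `z`).
`∫ z in (-1/2,1/2), B (x - z e) ≤ ∫ B dμ` for planar periodic nonnegative `B` (`loc_le` in H48/PL/PlI, `loc e 1`), and `∫x ∫w = ∫ dν` (`nu_integral`).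
* `EE_abs`: `|EE| ≤ (1/2)[K₀ 2 ∫∫ (F - g1) jb^a + A' 2 ∫∫ g1 jb^a] ≤ K₀ ε₂ + A' M₂` (`Ph4_abs`, `Pg_abs`, `0 ≤ F - g1`, `jb^a ≤ jb^(1+a)`, `g1 ≤ F`, `jb^a ≤ jb²`).
* `EE_osc`: `Ph4_osc`, `Pg_osc` (factor `64/2`).
-/

set_option autoImplicit false

open MeasureTheory Set Filter Topology Pool.Agent.H25.Kin Pool.Agent.H48.PL

namespace Pool.Agent.H48.PI

variable {d : ℕ} {q : Par} {e : Fin d} {F G : Vec d → Vec d → ℝ} {ε₂ M₂ : ℝ}

private lemma es_single_cont (e : Fin d) : Continuous fun r : ℝ => (Pi.single e r : Vec d) :=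
  continuous_single (A := fun _ : Fin d => ℝ) e

/-- averages with a weight of polynomial growth -/
private lemma es_avg {Φ : Vec d → Vec d → ℝ} (hΦ : PGW Φ) {H : Vec d → Vec d → ℝ}
    (hc : Continuous fun p : Vec d × Vec d => H p.1 p.2) (hd : RX H)
    (hper : ∀ x v i, H (x + Pi.single i 1) v = H x v) (hpl : ∀ x y v, x e = y e → H x v = H y v)
    (v : Vec d) : PlF e (fun x => ∫ w, Φ v w * H x w) := by
  obtain ⟨N, C₀, hC₀, hb⟩ := hΦ.le
  obtain ⟨C, hC⟩ := hd (N + (d + 1))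
  refine ⟨?_, ?_, ?_⟩
  · refine continuous_of_dominated (bound := fun w => (C₀ * (1 + ‖v‖) ^ N * C) * wt d w) ?_ ?_
      (integrable_wt.const_mul _) ?_
    · intro x
      exact ((hΦ.cont.comp (continuous_const.prodMk continuous_id)).mul
        (hc.comp (continuous_const.prodMk continuous_id))).aestronglyMeasurable
    · intro x
      refine Eventually.of_forall fun w => ?_
      have h2 := hC x w
      rw [norm_mul, Real.norm_eq_abs, Real.norm_eq_abs]
      unfold wt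
      rw [← div_eq_mul_inv, le_div_iff₀ (by positivity)]
      calc |Φ v w| * |H x w| * (1 + ‖w‖) ^ (d + 1)
          ≤ (C₀ * ((1 + ‖v‖) ^ N * (1 + ‖w‖) ^ N)) * |H x w| * (1 + ‖w‖) ^ (d + 1) := by
            gcongr
            exact hb v w
        _ = C₀ * (1 + ‖v‖) ^ N * ((1 + ‖w‖) ^ (N + (d + 1)) * |H x w|) := by
          rw [pow_add]; ring
        _ ≤ C₀ * (1 + ‖v‖) ^ N * C := by
            refine mul_le_mul_of_nonneg_left h2 ?_
            positivity
    · refine Eventually.of_forall fun w => ?_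
      exact continuous_const.mul (hc.comp (continuous_id.prodMk continuous_const))
  · intro x i
    congr 1
    funext w
    rw [hper]
  · intro x y hxy
    congr 1
    funext w
    rw [hpl x y w hxy]

private lemma es_kint {A : Vec d → ℝ} (hA : PlF e A) {l : ℝ} (hl : 0 < l) (x : Vec d) :
    IntegrableOn (fun z => kl l z * A (x - Pi.single e z)) (Ioo (-(l / 2)) (l / 2)) := by
  obtain ⟨C, hC⟩ := pl_bdd hA
  have hC0 : 0 ≤ C := (abs_nonneg _).trans (hC 0)
  have hfin : IsFiniteMeasure ((volume : Measure ℝ).restrict (Ioo (-(l / 2)) (l / 2))) := by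
    refine ⟨?_⟩
    rw [Measure.restrict_apply_univ]
    exact measure_Ioo_lt_top
  refine Integrable.of_bound ?_ (1 / 2 * C) ?_
  · exact ((kl_meas l).aestronglyMeasurable).mul
      (hA.cont.comp (continuous_const.sub (es_single_cont e))).aestronglyMeasurable
  · refine (ae_restrict_iff' measurableSet_Ioo).2 (Eventually.of_forall fun z hz => ?_)
    rw [norm_mul, Real.norm_eq_abs, Real.norm_eq_abs]
    exact mul_le_mul (kl_abs hl hz) (hC _) (abs_nonneg _) (by norm_num)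

private lemma es_lint {A : Vec d → ℝ} (hA : PlF e A) {l : ℝ} (x : Vec d) :
    IntegrableOn (fun z => A (x - Pi.single e z)) (Ioo (-(l / 2)) (l / 2)) := by
  obtain ⟨C, hC⟩ := pl_bdd hA
  have hfin : IsFiniteMeasure ((volume : Measure ℝ).restrict (Ioo (-(l / 2)) (l / 2))) := by
    refine ⟨?_⟩
    rw [Measure.restrict_apply_univ]
    exact measure_Ioo_lt_top
  exact Integrable.of_bound (hA.cont.comp (continuous_const.sub (es_single_cont e))).aestronglyMeasurable C
    (Eventually.of_forall fun z => hC _)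

/-- the integral against the kernel -/
private lemma es_kle {A B : Vec d → ℝ} (hB : PlF e B) {c : ℝ} (hAB : ∀ x, |A x| ≤ c * B x)
    {l : ℝ} (hl : 0 < l) (x : Vec d) :
    |∫ z in Ioo (-(l / 2)) (l / 2), kl l z * A (x - Pi.single e z)| ≤ c / 2 * loc e l B x := by
  have h1 : |∫ z in Ioo (-(l / 2)) (l / 2), kl l z * A (x - Pi.single e z)| ≤
      ∫ z in Ioo (-(l / 2)) (l / 2), c / 2 * B (x - Pi.single e z) := by
    rw [← Real.norm_eq_abs]
    refine norm_integral_le_of_norm_le ((es_lint hB x).const_mul _) ?_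
    refine (ae_restrict_iff' measurableSet_Ioo).2 (Eventually.of_forall fun z hz => ?_)
    rw [norm_mul, Real.norm_eq_abs, Real.norm_eq_abs]
    have h2 := hAB (x - Pi.single e z)
    calc |kl l z| * |A (x - Pi.single e z)| ≤ 1 / 2 * (c * B (x - Pi.single e z)) :=
          mul_le_mul (kl_abs hl hz) h2 (abs_nonneg _) (by norm_num)
      _ = c / 2 * B (x - Pi.single e z) := by ring
  refine h1.trans_eq ?_
  unfold loc
  rw [integral_const_mul]

private lemma es_g1_nonneg (hq : q.Ok) (h : FS e F G) (x w : Vec d) : 0 ≤ g1 q F x w :=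
  mul_nonneg (chi_nonneg _ _) (bet_nonneg hq.hC (h.nonneg x w))

private lemma es_g1_le (hq : q.Ok) (h : FS e F G) (x w : Vec d) : g1 q F x w ≤ F x w := by
  have h1 := bet_le hq.hC (h.nonneg x w)
  have h2 := bet_nonneg hq.hC (h.nonneg x w)
  unfold g1
  exact (mul_le_of_le_one_left h2 (chi_le_one q.R w)).trans h1

private lemma es_bet_cont (hq : q.Ok) (h : FS e F G) :
    Continuous fun p : Vec d × Vec d => bet q.C₀ (F p.1 p.2) := by
  rw [continuous_iff_continuousAt]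
  intro p
  have h1 : ContinuousAt (bet q.C₀) (F p.1 p.2) := (bet_deriv hq.hC (h.nonneg p.1 p.2)).continuousAt
  exact ContinuousAt.comp (g := bet q.C₀) (f := fun p : Vec d × Vec d => F p.1 p.2) h1
    h.contF.continuousAt

private lemma es_g1_cont (hq : q.Ok) (h : FS e F G) :
    Continuous fun p : Vec d × Vec d => g1 q F p.1 p.2 :=
  ((chi_cont q.R).comp continuous_snd).mul (es_bet_cont hq h)

private lemma es_RX_of_le (h : FS e F G) {H : Vec d → Vec d → ℝ} {c : ℝ} (hc : 0 ≤ c)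
    (hH : ∀ x v, |H x v| ≤ c * F x v) : RX H := by
  intro N
  obtain ⟨C, hC⟩ := h.decF N
  refine ⟨c * C, fun x v => ?_⟩
  have h1 := hC x v
  rw [abs_of_nonneg (h.nonneg x v)] at h1
  calc (1 + ‖v‖) ^ N * |H x v| ≤ (1 + ‖v‖) ^ N * (c * F x v) := by
        gcongr
        exact hH x v
    _ = c * ((1 + ‖v‖) ^ N * F x v) := by ring
    _ ≤ c * C := mul_le_mul_of_nonneg_left h1 hc

/-- the density `K₀ (F - g1) + A' g1` -/
private noncomputable def es_D (q : Par) (F : Vec d → Vec d → ℝ) (x w : Vec d) : ℝ :=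
  q.K₀ * (F x w - g1 q F x w) + q.A' * g1 q F x w

private lemma es_D_nonneg (hq : q.Ok) (h : FS e F G) (x w : Vec d) : 0 ≤ es_D q F x w :=
  add_nonneg (mul_nonneg hq.hK (sub_nonneg.2 (es_g1_le hq h x w)))
    (mul_nonneg hq.hA (es_g1_nonneg hq h x w))

private lemma es_D_cont (hq : q.Ok) (h : FS e F G) :
    Continuous fun p : Vec d × Vec d => es_D q F p.1 p.2 :=
  (continuous_const.mul (h.contF.sub (es_g1_cont hq h))).add
    (continuous_const.mul (es_g1_cont hq h))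

private lemma es_D_RX (hq : q.Ok) (h : FS e F G) : RX (es_D q F) := by
  refine es_RX_of_le h (c := q.K₀ + q.A') (add_nonneg hq.hK hq.hA) fun x v => ?_
  rw [abs_of_nonneg (es_D_nonneg hq h x v)]
  unfold es_D
  have h1 := es_g1_le hq h x v
  have h2 := es_g1_nonneg hq h x v
  have h3 := mul_le_mul_of_nonneg_left (show F x v - g1 q F x v ≤ F x v by linarith) hq.hK
  have h4 := mul_le_mul_of_nonneg_left h1 hq.hA
  linarith

private lemma es_jb_PGW {r : ℝ} : PGW fun (_ : Vec d) (w : Vec d) => jb w ^ r := by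
  obtain ⟨N, hN⟩ := exists_nat_ge r
  have hjc : Continuous fun v : Vec d => jb v ^ r :=
    jb_cont.rpow_const fun v => Or.inl (jb_pos v).ne'
  refine ⟨hjc.comp continuous_snd, N, ((d : ℝ) + 1) ^ N, by positivity, fun v w => ?_⟩
  have hv : (1 : ℝ) ≤ (1 + ‖v‖) ^ N := one_le_pow₀ (by linarith [norm_nonneg v])
  rw [abs_of_nonneg (Real.rpow_nonneg (jb_pos w).le r)]
  calc jb w ^ r ≤ jb w ^ (N : ℝ) := Real.rpow_le_rpow_of_exponent_le (one_le_jb w) hN
    _ = jb w ^ N := Real.rpow_natCast _ _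
    _ ≤ (((d : ℝ) + 1) * (1 + ‖w‖)) ^ N := pow_le_pow_left₀ (jb_pos w).le (jb_le_w w) N
    _ = ((d : ℝ) + 1) ^ N * (1 * (1 + ‖w‖) ^ N) := by rw [mul_pow]; ring
    _ ≤ ((d : ℝ) + 1) ^ N * ((1 + ‖v‖) ^ N * (1 + ‖w‖) ^ N) := by gcongr

private lemma es_D_pl (hq : q.Ok) (h : FS e F G) :
    PlF e (fun x => ∫ w, jb w ^ q.a * es_D q F x w) := by
  refine es_avg (Φ := fun _ w => jb w ^ q.a) es_jb_PGW (es_D_cont hq h) (es_D_RX hq h) ?_ ?_ 0
  · intro x v i
    simp only [es_D, g1, h.perF]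
  · intro x y v hxy
    simp only [es_D, g1, h.plF x y v hxy]

private lemma es_wint {Φ : Vec d → Vec d → ℝ} (hΦ : PGW Φ) {H : Vec d → Vec d → ℝ}
    (hc : Continuous fun p : Vec d × Vec d => H p.1 p.2) (hd : RX H) (v x : Vec d) :
    Integrable fun w => Φ v w * H x w := by
  refine avg_int hΦ ?_ (hc.comp (continuous_const.prodMk continuous_id)) v
  intro N
  obtain ⟨C, hC⟩ := hd N
  exact ⟨C, fun w => hC x w⟩

private lemma es_nuint {H : Vec d → Vec d → ℝ} (hc : Continuous fun p : Vec d × Vec d => H p.1 p.2)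
    (hd : RX H) (r : ℝ) : Integrable (fun p : Vec d × Vec d => H p.2 p.1 * jb p.1 ^ r) (nu d) := by
  obtain ⟨N, hN⟩ := exists_nat_ge r
  obtain ⟨C, hC⟩ := hd (N + (d + 1))
  have hjc : Continuous fun v : Vec d => jb v ^ r :=
    jb_cont.rpow_const fun v => Or.inl (jb_pos v).ne'
  refine integrable_nu (C := ((d : ℝ) + 1) ^ N * C) ?_ fun p => ?_
  · exact ((hc.comp continuous_swap).mul (hjc.comp continuous_fst)).aestronglyMeasurable
  · have h1 : jb p.1 ^ r ≤ (((d : ℝ) + 1) * (1 + ‖p.1‖)) ^ N := by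
      calc jb p.1 ^ r ≤ jb p.1 ^ (N : ℝ) := Real.rpow_le_rpow_of_exponent_le (one_le_jb _) hN
        _ = jb p.1 ^ N := Real.rpow_natCast _ _
        _ ≤ _ := pow_le_pow_left₀ (jb_pos _).le (jb_le_w _) N
    have h6 := hC p.2 p.1
    rw [abs_mul, abs_of_nonneg (Real.rpow_nonneg (jb_pos p.1).le r)]
    unfold wt
    rw [← div_eq_mul_inv, le_div_iff₀ (by positivity)]
    calc |H p.2 p.1| * jb p.1 ^ r * (1 + ‖p.1‖) ^ (d + 1)
        ≤ |H p.2 p.1| * (((d : ℝ) + 1) * (1 + ‖p.1‖)) ^ N * (1 + ‖p.1‖) ^ (d + 1) := by gcongr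
      _ = ((d : ℝ) + 1) ^ N * ((1 + ‖p.1‖) ^ (N + (d + 1)) * |H p.2 p.1|) := by
        rw [mul_pow, pow_add]; ring
      _ ≤ ((d : ℝ) + 1) ^ N * C := by gcongr

/-- the total mass of the density -/
private lemma es_mass (hq : q.Ok) (h : FS e F G)
    (h2 : ∫ p, (F p.2 p.1 - g1 q F p.2 p.1) * jb p.1 ^ (1 + q.a) ∂(nu d) ≤ ε₂)
    (hM : ∫ p, F p.2 p.1 * jb p.1 ^ 2 ∂(nu d) ≤ M₂) (x : Vec d) :
    loc e 1 (fun y => ∫ w, jb w ^ q.a * es_D q F y w) x ≤ q.K₀ * ε₂ + q.A' * M₂ := by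
  have hA0 : ∀ y, 0 ≤ ∫ w, jb w ^ q.a * es_D q F y w := fun y =>
    integral_nonneg fun w => mul_nonneg (Real.rpow_nonneg (jb_pos w).le _) (es_D_nonneg hq h y w)
  refine (loc_le (es_D_pl hq h) hA0 one_pos le_rfl x).trans ?_
  have hint := es_nuint (es_D_cont hq h) (es_D_RX hq h) q.a
  have e1 : ∫ y, (∫ w, jb w ^ q.a * es_D q F y w) ∂(muD d) =
      ∫ p, es_D q F p.2 p.1 * jb p.1 ^ q.a ∂(nu d) := by
    unfold nu at hint ⊢
    rw [integral_prod_symm _ hint]
    congr 1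
    funext y
    congr 1
    funext w
    ring
  rw [e1]
  have hFg : RX fun x w => F x w - g1 q F x w := by
    refine es_RX_of_le h (c := 1) zero_le_one fun x v => ?_
    have h3 := es_g1_le hq h x v
    have h4 := es_g1_nonneg hq h x v
    rw [abs_of_nonneg (by linarith)]
    linarith
  have i1 := (es_nuint (h.contF.sub (es_g1_cont hq h)) hFg (1 + q.a)).const_mul q.K₀
  have i2' := es_nuint h.contF h.decF 2
  have i2 : Integrable (fun p : Vec d × Vec d => q.A' * (F p.2 p.1 * jb p.1 ^ 2)) (nu d) := by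
    refine (i2'.const_mul q.A').congr (Eventually.of_forall fun p => ?_)
    show q.A' * (F p.2 p.1 * jb p.1 ^ (2 : ℝ)) = q.A' * (F p.2 p.1 * jb p.1 ^ 2)
    rw [Real.rpow_two]
  calc ∫ p, es_D q F p.2 p.1 * jb p.1 ^ q.a ∂(nu d)
      ≤ ∫ p, (q.K₀ * ((F p.2 p.1 - g1 q F p.2 p.1) * jb p.1 ^ (1 + q.a)) +
          q.A' * (F p.2 p.1 * jb p.1 ^ 2)) ∂(nu d) := by
        refine integral_mono hint (i1.add i2) fun p => ?_
        show es_D q F p.2 p.1 * jb p.1 ^ q.a ≤
          q.K₀ * ((F p.2 p.1 - g1 q F p.2 p.1) * jb p.1 ^ (1 + q.a)) +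
            q.A' * (F p.2 p.1 * jb p.1 ^ 2)
        have h3 := es_g1_le hq h p.2 p.1
        have h4 := es_g1_nonneg hq h p.2 p.1
        have j1 : jb p.1 ^ q.a ≤ jb p.1 ^ (1 + q.a) :=
          Real.rpow_le_rpow_of_exponent_le (one_le_jb _) (by linarith)
        have j2 : jb p.1 ^ q.a ≤ jb p.1 ^ 2 := by
          rw [← Real.rpow_two]
          exact Real.rpow_le_rpow_of_exponent_le (one_le_jb _) (by linarith [hq.ha1])
        have j0 : 0 ≤ jb p.1 ^ q.a := Real.rpow_nonneg (jb_pos _).le _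
        have k1 : (F p.2 p.1 - g1 q F p.2 p.1) * jb p.1 ^ q.a ≤
            (F p.2 p.1 - g1 q F p.2 p.1) * jb p.1 ^ (1 + q.a) :=
          mul_le_mul_of_nonneg_left j1 (by linarith)
        have k2 : g1 q F p.2 p.1 * jb p.1 ^ q.a ≤ F p.2 p.1 * jb p.1 ^ 2 :=
          mul_le_mul h3 j2 j0 (h.nonneg _ _)
        have k3 := mul_le_mul_of_nonneg_left k1 hq.hK
        have k4 := mul_le_mul_of_nonneg_left k2 hq.hA
        unfold es_D
        linarith
    _ = q.K₀ * (∫ p, (F p.2 p.1 - g1 q F p.2 p.1) * jb p.1 ^ (1 + q.a) ∂(nu d)) +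
          q.A' * ∫ p, F p.2 p.1 * jb p.1 ^ 2 ∂(nu d) := by
        rw [integral_add i1 i2, integral_const_mul, integral_const_mul]
    _ ≤ q.K₀ * ε₂ + q.A' * M₂ :=
        add_le_add (mul_le_mul_of_nonneg_left h2 hq.hK) (mul_le_mul_of_nonneg_left hM hq.hA)

/-- the velocity integral -/
private noncomputable def es_I (q : Par) (e : Fin d) (F : Vec d → Vec d → ℝ) (v x : Vec d) : ℝ :=
  q.K₀ * (∫ w, Ph4 e q.a v w * F x w) -
    ∫ w, Psi e q.a q.K₀ q.A' q.R v w * bet q.C₀ (F x w)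

private lemma es_bet_RX (hq : q.Ok) (h : FS e F G) : RX fun x w => bet q.C₀ (F x w) := by
  refine es_RX_of_le h (c := 1) zero_le_one fun x v => ?_
  rw [abs_of_nonneg (bet_nonneg hq.hC (h.nonneg x v)), one_mul]
  exact bet_le hq.hC (h.nonneg x v)

private lemma es_I_pl (hq : q.Ok) (h : FS e F G) (v : Vec d) :
    PlF e (fun x => ∫ w, Ph4 e q.a v w * F x w) ∧
    PlF e (fun x => ∫ w, Psi e q.a q.K₀ q.A' q.R v w * bet q.C₀ (F x w)) := by
  refine ⟨es_avg (Ph4_PGW hq.ha e) h.contF h.decF h.perF h.plF v,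
    es_avg (H := fun x w => bet q.C₀ (F x w)) (Psi_PGW hq.ha e _ _ _) (es_bet_cont hq h)
      (es_bet_RX hq h) ?_ ?_ v⟩
  · intro x v i
    simp only [h.perF]
  · intro x y v hxy
    simp only [h.plF x y v hxy]

private lemma es_EE_eq (hq : q.Ok) (h : FS e F G) (x v : Vec d) :
    EE q e F x v = ∫ z in Ioo (-((1 : ℝ) / 2)) (1 / 2), kl 1 z * es_I q e F v (x - Pi.single e z) := by
  obtain ⟨p1, p2⟩ := es_I_pl hq h v
  unfold EE pot
  rw [← integral_const_mul, ← integral_sub ((es_kint p1 one_pos x).const_mul _)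
    (es_kint p2 one_pos x)]
  congr 1
  funext z
  unfold es_I
  ring

private lemma es_I_eq (hq : q.Ok) (h : FS e F G) (v x : Vec d) :
    es_I q e F v x = ∫ w, (q.K₀ * (Ph4 e q.a v w * (F x w - g1 q F x w)) -
      q.A' * (Pg e q.a v w * g1 q F x w)) := by
  have i1 := es_wint (Ph4_PGW hq.ha e) h.contF h.decF v x
  have i2 := es_wint (Psi_PGW hq.ha e q.K₀ q.A' q.R) (es_bet_cont hq h) (es_bet_RX hq h) v x
  unfold es_I
  rw [← integral_const_mul, ← integral_sub (i1.const_mul _) i2]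
  congr 1
  funext w
  unfold Psi g1
  ring

private lemma es_I_int (hq : q.Ok) (h : FS e F G) (v x : Vec d) :
    Integrable fun w => q.K₀ * (Ph4 e q.a v w * (F x w - g1 q F x w)) -
      q.A' * (Pg e q.a v w * g1 q F x w) := by
  have i1 := es_wint (Ph4_PGW hq.ha e) h.contF h.decF v x
  have i2 := es_wint (Psi_PGW hq.ha e q.K₀ q.A' q.R) (es_bet_cont hq h) (es_bet_RX hq h) v x
  refine ((i1.const_mul q.K₀).sub i2).congr (Eventually.of_forall fun w => ?_)
  simp only [Pi.sub_apply]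
  unfold Psi g1
  ring

private lemma es_Dint (hq : q.Ok) (h : FS e F G) (x : Vec d) :
    Integrable fun w => jb w ^ q.a * es_D q F x w :=
  es_wint (Φ := fun _ w => jb w ^ q.a) es_jb_PGW (es_D_cont hq h) (es_D_RX hq h) 0 x

theorem EE_abs (hq : q.Ok) (h : FS e F G)
    (h2 : ∫ p, (F p.2 p.1 - g1 q F p.2 p.1) * jb p.1 ^ (1 + q.a) ∂(nu d) ≤ ε₂)
    (hM : ∫ p, F p.2 p.1 * jb p.1 ^ 2 ∂(nu d) ≤ M₂) (x v : Vec d) :
    |EE q e F x v| ≤ q.K₀ * ε₂ + q.A' * M₂ := by
  have ha1 : q.a ≤ 1 := by linarith [hq.ha1]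
  have h1 := es_kle (A := es_I q e F v) (es_D_pl hq h) (c := 2) (fun y => ?_) one_pos x
  · rw [es_EE_eq hq h]
    refine h1.trans ?_
    rw [div_self two_ne_zero, one_mul]
    exact es_mass hq h h2 hM x
  · rw [es_I_eq hq h]
    refine abs_integral_le_integral_abs.trans ?_
    rw [← integral_const_mul]
    refine integral_mono (es_I_int hq h v y).abs ((es_Dint hq h y).const_mul 2) fun w => ?_
    show |q.K₀ * (Ph4 e q.a v w * (F y w - g1 q F y w)) - q.A' * (Pg e q.a v w * g1 q F y w)| ≤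
      2 * (jb w ^ q.a * es_D q F y w)
    have h3 := es_g1_le hq h y w
    have h4 := es_g1_nonneg hq h y w
    have b1 : |q.K₀ * (Ph4 e q.a v w * (F y w - g1 q F y w))| ≤
        q.K₀ * (2 * jb w ^ q.a * (F y w - g1 q F y w)) := by
      rw [abs_mul, abs_of_nonneg hq.hK, abs_mul, abs_of_nonneg (sub_nonneg.2 h3)]
      exact mul_le_mul_of_nonneg_left
        (mul_le_mul_of_nonneg_right (Ph4_abs hq.ha ha1 e v w) (sub_nonneg.2 h3)) hq.hK
    have b2 : |q.A' * (Pg e q.a v w * g1 q F y w)| ≤ q.A' * (2 * jb w ^ q.a * g1 q F y w) := by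
      rw [abs_mul, abs_of_nonneg hq.hA, abs_mul, abs_of_nonneg h4]
      exact mul_le_mul_of_nonneg_left
        (mul_le_mul_of_nonneg_right (Pg_abs hq.ha ha1 e v w) h4) hq.hA
    refine (abs_sub _ _).trans ((add_le_add b1 b2).trans (le_of_eq ?_))
    unfold es_D
    ring

theorem EE_osc (hq : q.Ok) (h : FS e F G)
    (h2 : ∫ p, (F p.2 p.1 - g1 q F p.2 p.1) * jb p.1 ^ (1 + q.a) ∂(nu d) ≤ ε₂)
    (hM : ∫ p, F p.2 p.1 * jb p.1 ^ 2 ∂(nu d) ≤ M₂) (x u v : Vec d) :
    |EE q e F x u - EE q e F x v| ≤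
      32 * (q.K₀ * ε₂ + q.A' * M₂) * min 1 (len (u - v) / jb v) ^ q.a := by
  have ha1 : q.a ≤ 1 := by linarith [hq.ha1]
  set μ := min 1 (len (u - v) / jb v) ^ q.a with hμ
  have hμ0 : 0 ≤ μ := Real.rpow_nonneg (le_min zero_le_one (div_nonneg (len_nonneg _) (jb_pos v).le)) _
  have h1 := es_kle (A := fun y => es_I q e F u y - es_I q e F v y) (es_D_pl hq h) (c := 64 * μ)
    (fun y => ?_) one_pos x
  · have e1 : EE q e F x u - EE q e F x v = ∫ z in Ioo (-((1 : ℝ) / 2)) (1 / 2), kl 1 z *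
        (es_I q e F u (x - Pi.single e z) - es_I q e F v (x - Pi.single e z)) := by
      have pI : ∀ v, PlF e (es_I q e F v) := by
        intro v
        obtain ⟨p1, p2⟩ := es_I_pl hq h v
        refine ⟨(continuous_const.mul p1.cont).sub p2.cont, fun y i => ?_, fun y y' hy => ?_⟩
        · have a1 := p1.per y i
          have a2 := p2.per y i
          unfold es_I
          rw [a1, a2]
        · have a1 := p1.pl y y' hy
          have a2 := p2.pl y y' hy
          unfold es_I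
          rw [a1, a2]
      rw [es_EE_eq hq h, es_EE_eq hq h, ← integral_sub (es_kint (pI u) one_pos x)
        (es_kint (pI v) one_pos x)]
      congr 1
      funext z
      ring
    rw [e1]
    refine h1.trans ?_
    have hm := mul_le_mul_of_nonneg_left (es_mass hq h h2 hM x) (show 0 ≤ 64 * μ / 2 by positivity)
    refine hm.trans (le_of_eq ?_)
    ring
  · show |es_I q e F u y - es_I q e F v y| ≤ _
    rw [es_I_eq hq h, es_I_eq hq h, ← integral_sub (es_I_int hq h u y) (es_I_int hq h v y)]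
    refine abs_integral_le_integral_abs.trans ?_
    rw [← integral_const_mul]
    refine integral_mono ((es_I_int hq h u y).sub (es_I_int hq h v y)).abs
      ((es_Dint hq h y).const_mul _) fun w => ?_
    show |(q.K₀ * (Ph4 e q.a u w * (F y w - g1 q F y w)) - q.A' * (Pg e q.a u w * g1 q F y w)) -
      (q.K₀ * (Ph4 e q.a v w * (F y w - g1 q F y w)) - q.A' * (Pg e q.a v w * g1 q F y w))| ≤
      64 * μ * (jb w ^ q.a * es_D q F y w)
    have h3 := es_g1_le hq h y w
    have h4 := es_g1_nonneg hq h y w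
    have o1 := Ph4_osc hq.ha ha1 e u v w
    have o2 := Pg_osc hq.ha ha1 e u v w
    rw [← hμ] at o1 o2
    have b1 : |q.K₀ * ((Ph4 e q.a u w - Ph4 e q.a v w) * (F y w - g1 q F y w))| ≤
        q.K₀ * (64 * (jb w ^ q.a * μ) * (F y w - g1 q F y w)) := by
      rw [abs_mul, abs_of_nonneg hq.hK, abs_mul, abs_of_nonneg (sub_nonneg.2 h3)]
      exact mul_le_mul_of_nonneg_left
        (mul_le_mul_of_nonneg_right o1 (sub_nonneg.2 h3)) hq.hK
    have b2 : |q.A' * ((Pg e q.a u w - Pg e q.a v w) * g1 q F y w)| ≤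
        q.A' * (64 * (jb w ^ q.a * μ) * g1 q F y w) := by
      rw [abs_mul, abs_of_nonneg hq.hA, abs_mul, abs_of_nonneg h4]
      exact mul_le_mul_of_nonneg_left (mul_le_mul_of_nonneg_right o2 h4) hq.hA
    have e2 : (q.K₀ * (Ph4 e q.a u w * (F y w - g1 q F y w)) - q.A' * (Pg e q.a u w * g1 q F y w)) -
      (q.K₀ * (Ph4 e q.a v w * (F y w - g1 q F y w)) - q.A' * (Pg e q.a v w * g1 q F y w)) =
      q.K₀ * ((Ph4 e q.a u w - Ph4 e q.a v w) * (F y w - g1 q F y w)) -
        q.A' * ((Pg e q.a u w - Pg e q.a v w) * g1 q F y w) := by ring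
    rw [e2]
    refine (abs_sub _ _).trans ((add_le_add b1 b2).trans (le_of_eq ?_))
    unfold es_D
    ring

end Pool.Agent.H48.PI
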