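import Pool.Agent.H48.PI.Blk
import Pool.Agent.H48.PI.ESli
import Pool.Agent.H48.PI.AvgI

/-!
# Module WinP: choice of the parameters of the weight

`K₀, c₁, δ₁` from `op_nl`; `δ = δ₁/4`. `R_d, C_d, c_a` from `av1_low M hm ha ha1`. `M₂ = 2M`. `A' = min c₁ (min (δ/(64(M₂+1))) (δ/(8 c_a)))`, `c₂ = A' c_a/4` (so `16 c₂ ≤ δ/2`). `ε₂ ≤ δ/(64(K₀+1))` and `ε₂ ≤` the value of `av_cmp` (for `K₀, c_a, A', M₂`).
-/

set_option autoImplicit false

open MeasureTheory Set Filter Topology Pool.Agent.H25.Kin Pool.Agent.H82.BK Pool.Agent.H82.CM Pool.Agent.H48.PL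

namespace Pool.Agent.H48.PI

variable {d : ℕ} {s a C Ca cb : ℝ} {b : ℝ → ℝ}

private lemma wp_jb2 {e : Fin d} {F G : Vec d → Vec d → ℝ} (h : FS e F G) {M : ℝ} (hg : GB M F) :
    ∫ p, F p.2 p.1 * jb p.1 ^ 2 ∂(nu d) ≤ 2 * M := by
  have hc : Continuous fun q : Vec d × Vec d => F q.2 q.1 :=
    h.contF.comp (continuous_snd.prodMk continuous_fst)
  have key : ∀ k : ℕ, ∃ C : ℝ, ∀ x v, F x v * (1 + ‖v‖) ^ k ≤ C * wt d v := by
    intro k
    obtain ⟨C, hC⟩ := h.decF (k + (d + 1))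
    refine ⟨C, fun x v => ?_⟩
    have h1 := hC x v
    rw [abs_of_nonneg (h.nonneg x v)] at h1
    unfold wt
    rw [← div_eq_mul_inv, le_div_iff₀ (pow_pos (w_pos v) _)]
    calc F x v * (1 + ‖v‖) ^ k * (1 + ‖v‖) ^ (d + 1) = (1 + ‖v‖) ^ (k + (d + 1)) * F x v := by
          rw [pow_add]; ring
      _ ≤ C := h1
  obtain ⟨C₁, hC₁⟩ := key 0
  obtain ⟨C₂, hC₂⟩ := key 2
  have i1 : Integrable (fun q : Vec d × Vec d => F q.2 q.1) (nu d) := by
    refine integrable_nu (C := C₁) hc.aestronglyMeasurable fun q => ?_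
    have := hC₁ q.2 q.1
    rw [pow_zero, mul_one] at this
    rw [abs_of_nonneg (h.nonneg _ _)]
    exact this
  have i2 : Integrable (fun q : Vec d × Vec d => F q.2 q.1 * nsq q.1) (nu d) := by
    refine integrable_nu (C := d * C₂)
      (hc.mul (continuous_sq.comp continuous_fst)).aestronglyMeasurable fun q => ?_
    rw [abs_of_nonneg (mul_nonneg (h.nonneg _ _) (sq_nonneg' _))]
    have h3 : nsq q.1 ≤ d * (1 + ‖q.1‖) ^ 2 := by
      refine (sq_le q.1).trans (mul_le_mul_of_nonneg_left ?_ (Nat.cast_nonneg _))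
      exact pow_le_pow_left₀ (norm_nonneg _) (by linarith) 2
    calc F q.2 q.1 * nsq q.1 ≤ F q.2 q.1 * (d * (1 + ‖q.1‖) ^ 2) :=
          mul_le_mul_of_nonneg_left h3 (h.nonneg _ _)
      _ = d * (F q.2 q.1 * (1 + ‖q.1‖) ^ 2) := by ring
      _ ≤ d * (C₂ * wt d q.1) := mul_le_mul_of_nonneg_left (hC₂ _ _) (Nat.cast_nonneg _)
      _ = d * C₂ * wt d q.1 := by ring
  have e1 : ∫ p, F p.2 p.1 * jb p.1 ^ 2 ∂(nu d) =
      ∫ p, F p.2 p.1 ∂(nu d) + ∫ p, F p.2 p.1 * nsq p.1 ∂(nu d) := by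
    rw [← integral_add i1 i2]
    refine integral_congr_ae (Eventually.of_forall fun p => ?_)
    simp only
    rw [jb_sq]
    ring
  rw [e1]
  linarith [hg.mass, hg.energy]

theorem win_par (HL : HypL d (1 + a) s b C Ca cb) (h1 : 2 * s < a) (ha : 0 < a) (ha1 : a < 1 / 2) {p : ℕ}
    (hp : (d : ℝ) + (1 + a) + 4 ≤ 2 * p) (e : Fin d) {M : ℝ} (hM : 0 ≤ M) {m : ℝ} (hm : 0 < m) :
    ∃ (q : Par) (c₁ δ c₂ N₁ : ℝ), q.Ok ∧ q.a = a ∧ q.A' ≤ c₁ ∧ 0 < δ ∧ δ ≤ 1 / 4 ∧ 0 < c₂ ∧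
      16 * c₂ ≤ δ / 2 ∧ 0 < N₁ ∧
      (∀ F G : Vec d → Vec d → ℝ, FS e F G → GB M F → m ≤ ∫ p, F p.2 p.1 ∂(nu d) →
        (∀ x v, |EE q e F x v| ≤ δ) ∧
        (∀ x u v, |EE q e F x u - EE q e F x v| ≤ δ * min 1 (len (u - v) / jb v) ^ a) ∧
        ∀ v, q.K₀ * av2 q e F v - q.A' * av1 q e F v ≤ -(c₂ * yv e a v)) ∧
      ∀ g : Vec d → ℝ, Nice g → (∀ u, 0 ≤ g u) → ∀ v, Touch (4 * δ) a p g v → N₁ ≤ g v * (1 + nsq v) ^ p →
        boltzQ (1 + a) b g v ≤ g v * (q.K₀ * (∫ w, (v e - w e) * Ph4 e a v w *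
          (g w - chi q.R w * bet q.C₀ (g w))) -
          c₁ * ∫ w, (v e - w e) * Pg e a v w * (chi q.R w * bet q.C₀ (g w))) := by
  obtain ⟨K₀, c₁, δ₁, hK₀, hc₁, hδ₁, hδ₁1, hop⟩ := op_nl HL h1 (by linarith) hp e
  obtain ⟨Rd, Cd, ca, hRd, hCd, hca, hav⟩ := av1_low (d := d) M hm ha ha1
  obtain ⟨δ, hδd⟩ : ∃ δ : ℝ, δ = δ₁ / 4 := ⟨_, rfl⟩
  have hδ : 0 < δ := by rw [hδd]; positivity
  obtain ⟨A', hA'd⟩ : ∃ A' : ℝ, A' = min c₁ (min (δ / (64 * (2 * M + 1))) (δ / (8 * ca))) := ⟨_, rfl⟩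
  have hA' : 0 < A' := by
    rw [hA'd]
    refine lt_min hc₁ (lt_min (by positivity) (by positivity))
  have hA'1 : A' ≤ c₁ := by rw [hA'd]; exact min_le_left _ _
  have hA'2 : A' * (2 * M) ≤ δ / 64 := by
    have h2 : A' ≤ δ / (64 * (2 * M + 1)) := by
      rw [hA'd]; exact (min_le_right _ _).trans (min_le_left _ _)
    rw [le_div_iff₀ (by positivity)] at h2
    nlinarith
  have hA'3 : A' * ca ≤ δ / 8 := by
    have h2 : A' ≤ δ / (8 * ca) := by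
      rw [hA'd]; exact (min_le_right _ _).trans (min_le_right _ _)
    rw [le_div_iff₀ (by positivity)] at h2
    nlinarith
  obtain ⟨ε', hε', hcmp⟩ := av_cmp ha ha1 hK₀ hca hA' (M₂ := 2 * M) (by linarith)
  obtain ⟨ε₂, hε₂d⟩ : ∃ ε₂ : ℝ, ε₂ = min ε' (δ / (64 * (K₀ + 1))) := ⟨_, rfl⟩
  have hε₂ : 0 < ε₂ := by rw [hε₂d]; exact lt_min hε' (by positivity)
  have hε₂1 : ε₂ ≤ ε' := by rw [hε₂d]; exact min_le_left _ _
  have hε₂2 : K₀ * ε₂ ≤ δ / 64 := by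
    have h2 : ε₂ ≤ δ / (64 * (K₀ + 1)) := by rw [hε₂d]; exact min_le_right _ _
    rw [le_div_iff₀ (by positivity)] at h2
    nlinarith
  obtain ⟨R₀, hR₀, hg2⟩ := g2_small (d := d) M ha ha1 hε₂
  obtain ⟨C₁, hC₁, hg2'⟩ := hg2 (max Rd R₀) (le_max_right _ _)
  have hR1 : 1 ≤ max Rd R₀ := hRd.trans (le_max_left _ _)
  have hC1 : 1 ≤ max Cd C₁ := hCd.trans (le_max_left _ _)
  obtain ⟨q, hqd⟩ : ∃ q : Par, q = ⟨a, K₀, A', max Rd R₀, max Cd C₁⟩ := ⟨_, rfl⟩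
  have qa : q.a = a := by rw [hqd]
  have qK : q.K₀ = K₀ := by rw [hqd]
  have qA : q.A' = A' := by rw [hqd]
  have qR : q.R = max Rd R₀ := by rw [hqd]
  have qC : q.C₀ = max Cd C₁ := by rw [hqd]
  have hq : q.Ok := ⟨by rw [qa]; exact ha, by rw [qa]; exact ha1, by rw [qK]; exact hK₀,
    by rw [qA]; exact hA'.le, by rw [qR]; exact hR1, by rw [qC]; linarith⟩
  obtain ⟨N₁, hN₁, hop'⟩ := hop (max Cd C₁) (2 * max Rd R₀) (by linarith) (by linarith)
  refine ⟨q, c₁, δ, A' * ca / 4, N₁, hq, qa, by rw [qA]; exact hA'1, hδ, by rw [hδd]; linarith,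
    by positivity, by linarith, hN₁, ?_, ?_⟩
  · intro F G hF hG hmass
    have h2 : ∫ p, (F p.2 p.1 - g1 q F p.2 p.1) * jb p.1 ^ (1 + q.a) ∂(nu d) ≤ ε₂ := by
      have := hg2' (max Cd C₁) (le_max_right _ _) q qa qR qC e F G hF hG
      rw [qa]
      exact this
    have h3 := wp_jb2 hF hG
    have h4 : q.K₀ * ε₂ + q.A' * (2 * M) ≤ δ / 32 := by
      rw [qK, qA]
      linarith
    refine ⟨fun x v => ?_, fun x u v => ?_, fun v => ?_⟩
    · have := EE_abs hq hF h2 h3 x v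
      linarith
    · have h5 := EE_osc hq hF h2 h3 x u v
      rw [qa] at h5
      have h6 : 0 ≤ min 1 (len (u - v) / jb v) ^ a :=
        Real.rpow_nonneg (le_min zero_le_one (div_nonneg (len_nonneg _) (jb_pos v).le)) _
      exact h5.trans (mul_le_mul_of_nonneg_right (by linarith) h6)
    · obtain ⟨h5, h6⟩ := av2_up hq hF h2 h3 v
      rw [qa] at h6
      have h7 := hcmp e v (av2 q e F v) (h5.trans (by linarith)) h6
      have h8 := hav q qa (by rw [qR]; exact le_max_left _ _) (by rw [qC]; exact le_max_left _ _) e F G hF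
        hG hmass v
      have h9 := mul_le_mul_of_nonneg_left h8 hA'.le
      have h10 := mul_nonneg (mul_nonneg hA'.le hca.le) (yv_pos e a v).le
      rw [qK, qA]
      nlinarith
  · intro g hg hg0 v ht hN
    rw [qK, qR, qC]
    have hC0 : (0 : ℝ) < max Cd C₁ := by linarith
    have e4 : 4 * δ = δ₁ := by rw [hδd]; ring
    rw [e4] at ht
    have hb0 : ∀ u, 0 ≤ bet (max Cd C₁) (g u) := fun u => bet_nonneg hC0 (hg0 u)
    have hmb : Measurable fun u : Vec d => chi (max Rd R₀) u * bet (max Cd C₁) (g u) := by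
      have m1 : Measurable (bet (max Cd C₁)) := by
        unfold bet
        exact (measurable_const.mul measurable_id).div (measurable_const.add measurable_id)
      exact (chi_cont _).measurable.mul (m1.comp hg.cont.measurable)
    refine hop' g (fun u => chi (max Rd R₀) u * bet (max Cd C₁) (g u)) hg hg0 hmb
      (fun u => mul_nonneg (chi_nonneg _ _) (hb0 u)) (fun u => ?_) (fun u => ?_) (fun u hu => ?_) v ht hN
    · calc chi (max Rd R₀) u * bet (max Cd C₁) (g u) ≤ 1 * bet (max Cd C₁) (g u) :=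
            mul_le_mul_of_nonneg_right (chi_le_one _ _) (hb0 u)
        _ = bet (max Cd C₁) (g u) := one_mul _
        _ ≤ g u := bet_le hC0 (hg0 u)
    · calc chi (max Rd R₀) u * bet (max Cd C₁) (g u) ≤ 1 * bet (max Cd C₁) (g u) :=
            mul_le_mul_of_nonneg_right (chi_le_one _ _) (hb0 u)
        _ = bet (max Cd C₁) (g u) := one_mul _
        _ ≤ max Cd C₁ := bet_le_C hC0 (hg0 u)
    · rw [chi_eq_zero hR1 hu.le, zero_mul]

end Pool.Agent.H48.PI
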