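import Pool.Agent.H48.PI.BetA

/-!
# Module BetS: `bet(f)` is again a classical solution, with source `bet'(f) Q`

Fields of `IsClassicalSol`: `nonneg` (`bet_nonneg`); `periodic`; `isCont`: `bet C₀` is continuous on `[0,∞)` (`bet_deriv`) and `f ≥ 0`; `isC2`: on `(0,T) × ..` `f ≥ 0`, `bet_contDiffAt` and composition (`ContDiffAt.comp`);
`decay`: `bet ≤ f`. `decay12`: at a point with `t ∈ [T₀,T₁]`, `F = unc f` is `C²` near the point; `D(bet∘F) = bet'(F) DF`, `D²(bet∘F) = bet'(F) D²F + bet''(F) DF ⊗ DF`, `|bet'| ≤ 1`, `|bet''(r)| = 2C₀²/(C₀+r)³ ≤ 2/C₀` for `r ≥ 0`, so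
`derivs12 (bet∘f) ≤ derivs12 f + (2/C₀) (derivs12 f)²`, rapidly decaying (`hf.decay12` with `N` and with `0`). `solves`: chain rule, `transport (bet∘f) = bet'(f) transport f`.
-/

set_option autoImplicit false

open MeasureTheory Set Filter Topology Pool.Agent.H25.Kin Pool.Agent.H48.PL

namespace Pool.Agent.H48.PI

variable {d : ℕ} {C₀ T : ℝ} {Q f : ℝ → Vec d → Vec d → ℝ}

private lemma betS_deriv' (hC : 0 < C₀) {r : ℝ} (hr : 0 ≤ r) :
    HasDerivAt (bet' C₀) (-(2 * C₀ ^ 2 / (C₀ + r) ^ 3)) r := by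
  have hp : 0 < C₀ + r := by linarith
  have h1 : HasDerivAt (fun r : ℝ => C₀ + r) 1 r := (hasDerivAt_id r).const_add C₀
  have h2 : HasDerivAt (fun r : ℝ => C₀ / (C₀ + r)) ((0 * (C₀ + r) - C₀ * 1) / (C₀ + r) ^ 2) r :=
    (hasDerivAt_const r C₀).div h1 hp.ne'
  have h3 := h2.pow 2
  have e : (((2 : ℕ) : ℝ) * (C₀ / (C₀ + r)) ^ (2 - 1) * ((0 * (C₀ + r) - C₀ * 1) / (C₀ + r) ^ 2)) =
      -(2 * C₀ ^ 2 / (C₀ + r) ^ 3) := by
    have := hp.ne'
    push_cast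
    field_simp
    ring
  rw [← e]
  exact h3

private lemma betS_le' (hC : 0 < C₀) {r : ℝ} (hr : 0 ≤ r) :
    |-(2 * C₀ ^ 2 / (C₀ + r) ^ 3)| ≤ 2 / C₀ := by
  have hp : 0 < C₀ + r := by linarith
  rw [abs_neg, abs_of_nonneg (by positivity), div_le_div_iff₀ (by positivity) hC]
  have h1 : C₀ ^ 3 ≤ (C₀ + r) ^ 3 := pow_le_pow_left₀ hC.le (by linarith) 3
  nlinarith

private lemma betS_derivs {E : Type*} [NormedAddCommGroup E] [NormedSpace ℝ E] (hC : 0 < C₀)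
    {F : E → ℝ} {s : Set E} (hs : IsOpen s) (hF : ContDiffOn ℝ 2 F s) (h0 : ∀ p ∈ s, 0 ≤ F p)
    {p : E} (hp : p ∈ s) :
    fderiv ℝ (fun q => bet C₀ (F q)) p = bet' C₀ (F p) • fderiv ℝ F p ∧
      derivs (fun q => bet C₀ (F q)) p ≤ derivs F p + 2 / C₀ * derivs F p ^ 2 := by
  have hd : ∀ q ∈ s, HasFDerivAt (fun q => bet C₀ (F q)) (bet' C₀ (F q) • fderiv ℝ F q) q := by
    intro q hq
    have h1 : ContDiffAt ℝ 2 F q := (hF q hq).contDiffAt (hs.mem_nhds hq)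
    have h2 : HasFDerivAt F (fderiv ℝ F q) q := (h1.differentiableAt (by norm_num)).hasFDerivAt
    exact (bet_deriv hC (h0 q hq)).comp_hasFDerivAt q h2
  have e1 := (hd p hp).fderiv
  refine ⟨e1, ?_⟩
  have hev : fderiv ℝ (fun q => bet C₀ (F q)) =ᶠ[𝓝 p] fun q => bet' C₀ (F q) • fderiv ℝ F q := by
    filter_upwards [hs.mem_nhds hp] with q hq using (hd q hq).fderiv
  have h1 : ContDiffAt ℝ 2 F p := (hF p hp).contDiffAt (hs.mem_nhds hp)
  have h2 : HasFDerivAt F (fderiv ℝ F p) p := (h1.differentiableAt (by norm_num)).hasFDerivAt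
  have h3 : HasFDerivAt (fderiv ℝ F) (fderiv ℝ (fderiv ℝ F) p) p := by
    have h4 : ContDiffAt ℝ 1 (fderiv ℝ F) p := h1.fderiv_right (by norm_num)
    exact (h4.differentiableAt (by norm_num)).hasFDerivAt
  have h5 : HasFDerivAt (fun q => bet' C₀ (F q))
      (-(2 * C₀ ^ 2 / (C₀ + F p) ^ 3) • fderiv ℝ F p) p :=
    (betS_deriv' hC (h0 p hp)).comp_hasFDerivAt p h2
  have h6 := h5.smul h3
  have e2 : fderiv ℝ (fderiv ℝ (fun q => bet C₀ (F q))) p =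
      bet' C₀ (F p) • fderiv ℝ (fderiv ℝ F) p +
        (-(2 * C₀ ^ 2 / (C₀ + F p) ^ 3) • fderiv ℝ F p).smulRight (fderiv ℝ F p) := by
    rw [hev.fderiv_eq]
    exact h6.fderiv
  have b1 : ‖bet' C₀ (F p)‖ ≤ 1 := by
    rw [Real.norm_eq_abs, abs_of_nonneg (bet'_nonneg C₀ (F p))]
    exact bet'_le hC (h0 p hp)
  have b2 := betS_le' hC (h0 p hp)
  have n1 : 0 ≤ ‖fderiv ℝ F p‖ := norm_nonneg _
  have n2 : 0 ≤ ‖fderiv ℝ (fderiv ℝ F) p‖ := norm_nonneg (fderiv ℝ (fderiv ℝ F) p)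
  have c1 : ‖bet' C₀ (F p) • fderiv ℝ F p‖ ≤ ‖fderiv ℝ F p‖ := by
    rw [norm_smul]
    exact mul_le_of_le_one_left n1 b1
  have c2 : ‖bet' C₀ (F p) • fderiv ℝ (fderiv ℝ F) p‖ ≤ ‖fderiv ℝ (fderiv ℝ F) p‖ :=
    (ContinuousLinearMap.opNorm_smul_le _ _).trans (mul_le_of_le_one_left n2 b1)
  have c3 : ‖(-(2 * C₀ ^ 2 / (C₀ + F p) ^ 3) • fderiv ℝ F p).smulRight (fderiv ℝ F p)‖ ≤
      2 / C₀ * ‖fderiv ℝ F p‖ * ‖fderiv ℝ F p‖ := by
    rw [ContinuousLinearMap.norm_smulRight_apply, norm_smul, Real.norm_eq_abs]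
    gcongr
  have c4 := norm_add_le (bet' C₀ (F p) • fderiv ℝ (fderiv ℝ F) p)
    ((-(2 * C₀ ^ 2 / (C₀ + F p) ^ 3) • fderiv ℝ F p).smulRight (fderiv ℝ F p))
  have hk : (0 : ℝ) ≤ 2 / C₀ := by positivity
  have c5 : 2 / C₀ * ‖fderiv ℝ F p‖ * ‖fderiv ℝ F p‖ ≤
      2 / C₀ * (‖fderiv ℝ F p‖ + ‖fderiv ℝ (fderiv ℝ F) p‖) ^ 2 := by
    rw [mul_assoc, ← pow_two]
    gcongr
    linarith
  unfold derivs
  rw [e1, e2]
  linarith

theorem bet_sol (hC : 0 < C₀) (hf : IsClassicalSol T Q f) :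
    IsClassicalSol T (fun t x v => bet' C₀ (f t x v) * Q t x v) (fun t x v => bet C₀ (f t x v)) := by
  have hs : IsOpen (Ioo (0 : ℝ) T ×ˢ (univ : Set (Vec d × Vec d))) := isOpen_Ioo.prod isOpen_univ
  have h0 : ∀ p ∈ Ioo (0 : ℝ) T ×ˢ (univ : Set (Vec d × Vec d)), 0 ≤ unc f p := by
    rintro ⟨t, x, v⟩ ⟨ht, -⟩
    exact hf.nonneg t ⟨ht.1.le, ht.2⟩ x v
  refine ⟨fun t ht x v => bet_nonneg hC (hf.nonneg t ht x v), fun t ht x v i => ?_, ?_, ?_, ?_, ?_,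
    fun t ht x v => ?_⟩
  · show bet C₀ (f t (x + Pi.single i 1) v) = bet C₀ (f t x v)
    rw [hf.periodic t ht x v i]
  · rintro ⟨t, x, v⟩ hp
    have h1 : 0 ≤ unc f (t, x, v) := hf.nonneg t hp.1 x v
    exact (bet_deriv hC h1).continuousAt.comp_continuousWithinAt (hf.isCont (t, x, v) hp)
  · rintro p hp
    exact (bet_contDiffAt hC (h0 p hp)).comp_contDiffWithinAt p (hf.isC2 p hp)
  · intro T₁ hT N
    obtain ⟨C, hCb⟩ := hf.decay T₁ hT N
    refine ⟨C, fun t ht x v => ?_⟩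
    have h1 : 0 ≤ f t x v := hf.nonneg t ⟨ht.1, lt_of_le_of_lt ht.2 hT⟩ x v
    exact (mul_le_mul_of_nonneg_left (bet_le hC h1) (by positivity)).trans (hCb t ht x v)
  · intro T₀ hT0 T₁ hT N
    obtain ⟨C, hCb⟩ := hf.decay12 T₀ hT0 T₁ hT N
    obtain ⟨D, hD⟩ := hf.decay12 T₀ hT0 T₁ hT 0
    refine ⟨C + 2 / C₀ * (C * D), fun t ht x v => ?_⟩
    have hp : (t, x, v) ∈ Ioo (0 : ℝ) T ×ˢ (univ : Set (Vec d × Vec d)) :=
      ⟨⟨lt_of_lt_of_le hT0 ht.1, lt_of_le_of_lt ht.2 hT⟩, mem_univ _⟩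
    have h1 := (betS_derivs hC hs hf.isC2 h0 hp).2
    have h2 := hCb t ht x v
    have h3 := hD t ht x v
    rw [pow_zero, one_mul] at h3
    have h4 : 0 ≤ derivs (unc f) (t, x, v) :=
      add_nonneg (norm_nonneg _) (norm_nonneg (fderiv ℝ (fderiv ℝ (unc f)) (t, x, v)))
    have h5 : derivs12 f t x v = derivs (unc f) (t, x, v) := rfl
    rw [h5] at h2 h3
    have hw : (0 : ℝ) ≤ (1 + ‖v‖) ^ N := by positivity
    have h6 : 0 ≤ C := (mul_nonneg hw h4).trans h2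
    have h7 : (1 + ‖v‖) ^ N * derivs (unc f) (t, x, v) * derivs (unc f) (t, x, v) ≤ C * D :=
      mul_le_mul h2 h3 h4 h6
    have hk : (0 : ℝ) ≤ 2 / C₀ := by positivity
    calc (1 + ‖v‖) ^ N * derivs12 (fun t x v => bet C₀ (f t x v)) t x v
        ≤ (1 + ‖v‖) ^ N * (derivs (unc f) (t, x, v) + 2 / C₀ * derivs (unc f) (t, x, v) ^ 2) :=
          mul_le_mul_of_nonneg_left h1 hw
      _ = (1 + ‖v‖) ^ N * derivs (unc f) (t, x, v) +
          2 / C₀ * ((1 + ‖v‖) ^ N * derivs (unc f) (t, x, v) * derivs (unc f) (t, x, v)) := by ring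
      _ ≤ C + 2 / C₀ * (C * D) := add_le_add h2 (mul_le_mul_of_nonneg_left h7 hk)
  · have hp : (t, x, v) ∈ Ioo (0 : ℝ) T ×ˢ (univ : Set (Vec d × Vec d)) := ⟨ht, mem_univ _⟩
    have h1 := (betS_derivs hC hs hf.isC2 h0 hp).1
    show fderiv ℝ (fun q => bet C₀ (unc f q)) (t, x, v) (1, v, 0) = bet' C₀ (f t x v) * Q t x v
    rw [h1, ← hf.solves t ht x v]
    rfl

lemma bet_planar {e : Fin d} (hpl : Planar e T f) : Planar e T fun t x v => bet C₀ (f t x v) := by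
  intro t ht x y v hxy
  show bet C₀ (f t x v) = bet C₀ (f t y v)
  rw [hpl t ht x y v hxy]

/-- the slice of `bet(f)` and its source -/
theorem bet_fs (hC : 0 < C₀) (hf : IsClassicalSol T Q f) {e : Fin d} (hpl : Planar e T f) {t : ℝ} (ht : t ∈ Ioo 0 T)
    (h : FS e (f t) (Q t)) :
    FS e (fun x v => bet C₀ (f t x v)) (fun x v => bet' C₀ (f t x v) * Q t x v) := by
  refine ⟨fun x v => bet_nonneg hC (h.nonneg x v), fun x v i => ?_, fun x v i => ?_,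
    fun x y v hxy => ?_, fun x y v hxy => ?_, ?_, ?_, ?_, ?_⟩
  · show bet C₀ (f t (x + Pi.single i 1) v) = bet C₀ (f t x v)
    rw [h.perF x v i]
  · show bet' C₀ (f t (x + Pi.single i 1) v) * Q t (x + Pi.single i 1) v =
      bet' C₀ (f t x v) * Q t x v
    rw [h.perF x v i, h.perG x v i]
  · show bet C₀ (f t x v) = bet C₀ (f t y v)
    rw [h.plF x y v hxy]
  · show bet' C₀ (f t x v) * Q t x v = bet' C₀ (f t y v) * Q t y v
    rw [h.plF x y v hxy, h.plG x y v hxy]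
  · rw [continuous_iff_continuousAt]
    intro p
    have h1 : ContinuousAt (bet C₀) (f t p.1 p.2) := (bet_deriv hC (h.nonneg p.1 p.2)).continuousAt
    exact ContinuousAt.comp (g := bet C₀) (f := fun p : Vec d × Vec d => f t p.1 p.2) h1
      h.contF.continuousAt
  · have h1 : Continuous fun p : Vec d × Vec d => bet' C₀ (f t p.1 p.2) := by
      unfold bet'
      exact (continuous_const.div (continuous_const.add h.contF)
        (fun p => ne_of_gt (add_pos_of_pos_of_nonneg hC (h.nonneg p.1 p.2)))).pow 2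
    exact h1.mul h.contG
  · intro N
    obtain ⟨C, hCb⟩ := h.decF N
    refine ⟨C, fun x v => ?_⟩
    refine le_trans (mul_le_mul_of_nonneg_left ?_ (by positivity)) (hCb x v)
    show |bet C₀ (f t x v)| ≤ |f t x v|
    rw [abs_of_nonneg (bet_nonneg hC (h.nonneg x v)), abs_of_nonneg (h.nonneg x v)]
    exact bet_le hC (h.nonneg x v)
  · intro N
    obtain ⟨C, hCb⟩ := h.decG N
    refine ⟨C, fun x v => ?_⟩
    refine le_trans (mul_le_mul_of_nonneg_left ?_ (by positivity)) (hCb x v)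
    show |bet' C₀ (f t x v) * Q t x v| ≤ |Q t x v|
    rw [abs_mul, abs_of_nonneg (bet'_nonneg C₀ _)]
    exact mul_le_of_le_one_left (abs_nonneg _) (bet'_le hC (h.nonneg x v))

end Pool.Agent.H48.PI
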