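import Pool.Agent.H48.PI.OmA
import Pool.Agent.H48.PI.BetA
import Pool.Agent.H48.PL.Wgt

/-!
# Module WgPa: the weight `Pg`

`Pg v w = jb v^(-a) h(v_e-w_e)`, `h = sp a`, `|h(x)| = |x|^a`, `|h(x)-h(y)| ≤ 2|x-y|^a` (`sp_holder`).
* `Pg_abs`: `jb v^(-a) (jb v + jb w)^a ≤ jb v^(-a) (2 jb v jb w)^a ≤ 2 jb w^a`. `VPg_le`: `jb v^(-a)(2 jb v jb w)^(1+a) ≤ 4 jb v jb w^(1+a) ≤ 4 jb v jb w²`. `VPg_eq`: `mul_sp`.
* `Pg_osc`: `len(u-v) ≥ jb v/2`: `min^a ≥ 1/2` and `Pg_abs` twice. Otherwise `jb u ∈ [jb v/2, 3jb v/2]` (`jb_lip`): `jb u^(-a) 2 len^a ≤ 4 (len/jb v)^a`; `|jb u^(-a) - jb v^(-a)| ≤ 4 jb v^(-a) len/jb v`, `|h_v| ≤ 2 jb v^a jb w^a`.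
-/

set_option autoImplicit false

open MeasureTheory Set Filter Topology Pool.Agent.H25.Kin Pool.Agent.H48.PL

namespace Pool.Agent.H48.PI

variable {d : ℕ} {a : ℝ}

private lemma absV_le (e : Fin d) (v w : Vec d) : |v e - w e| ≤ 2 * (jb v * jb w) := by
  have h1 := abs_coord_le (v - w) e
  rw [Pi.sub_apply] at h1
  have h2 := len_sub_le v w
  have h3 := len_le_jb v
  have h4 := len_le_jb w
  have h5 := one_le_jb v
  have h6 := one_le_jb w
  nlinarith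

private lemma two_le {r : ℝ} {n : ℕ} (hr : r ≤ n) : (2 : ℝ) ^ r ≤ 2 ^ n := by
  have := Real.rpow_le_rpow_of_exponent_le (by norm_num : (1 : ℝ) ≤ 2) hr
  rwa [Real.rpow_natCast] at this

private lemma absVr_le {r : ℝ} (hr : 0 ≤ r) (e : Fin d) (v w : Vec d) :
    |v e - w e| ^ r ≤ 2 ^ r * (jb v ^ r * jb w ^ r) := by
  have hv := jb_pos v
  have hw := jb_pos w
  rw [← Real.mul_rpow hv.le hw.le, ← Real.mul_rpow (by norm_num) (by positivity)]
  exact Real.rpow_le_rpow (abs_nonneg _) (absV_le e v w) hr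

private lemma Pg_abs_eq (e : Fin d) (v w : Vec d) :
    |Pg e a v w| = jb v ^ (-a) * |v e - w e| ^ a := by
  unfold Pg
  rw [abs_mul, abs_sp, abs_of_nonneg (Real.rpow_nonneg (jb_pos v).le _)]

lemma Pg_PGW (ha : 0 < a) (e : Fin d) : PGW (Pg e a) := by
  obtain ⟨N, hN⟩ := exists_nat_ge a
  refine ⟨?_, N, (2 * ((d : ℝ) + 1) ^ 2) ^ N, by positivity, fun v w => ?_⟩
  · unfold Pg
    have h1 : Continuous fun p : Vec d × Vec d => jb p.1 ^ (-a) :=
      (jb_cont.comp continuous_fst).rpow_const fun p => Or.inl (jb_pos p.1).ne'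
    exact h1.mul ((sp_cont ha).comp
      (((continuous_apply e).comp continuous_fst).sub ((continuous_apply e).comp continuous_snd)))
  · have hv := one_le_jb v
    have hw := one_le_jb w
    have h1 : jb v ^ (-a) ≤ 1 := Real.rpow_le_one_of_one_le_of_nonpos hv (by linarith)
    have h3 := jb_le_w v
    have h4 := jb_le_w w
    have h5 : jb v * jb w ≤ (((d : ℝ) + 1) * (1 + ‖v‖)) * (((d : ℝ) + 1) * (1 + ‖w‖)) :=
      mul_le_mul h3 h4 (by linarith) (by positivity)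
    have h6 : 2 * (jb v * jb w) ≤ (2 * ((d : ℝ) + 1) ^ 2) * ((1 + ‖v‖) * (1 + ‖w‖)) := by
      calc 2 * (jb v * jb w) ≤ 2 * ((((d : ℝ) + 1) * (1 + ‖v‖)) * (((d : ℝ) + 1) * (1 + ‖w‖))) := by
            linarith
        _ = (2 * ((d : ℝ) + 1) ^ 2) * ((1 + ‖v‖) * (1 + ‖w‖)) := by ring
    have h7 : 1 ≤ 2 * (jb v * jb w) := by nlinarith
    rw [Pg_abs_eq]
    calc jb v ^ (-a) * |v e - w e| ^ a ≤ 1 * (2 * (jb v * jb w)) ^ a :=
          mul_le_mul h1 (Real.rpow_le_rpow (abs_nonneg _) (absV_le e v w) ha.le)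
            (Real.rpow_nonneg (abs_nonneg _) _) zero_le_one
      _ = (2 * (jb v * jb w)) ^ a := one_mul _
      _ ≤ (2 * (jb v * jb w)) ^ (N : ℝ) := Real.rpow_le_rpow_of_exponent_le h7 hN
      _ = (2 * (jb v * jb w)) ^ N := Real.rpow_natCast _ _
      _ ≤ ((2 * ((d : ℝ) + 1) ^ 2) * ((1 + ‖v‖) * (1 + ‖w‖))) ^ N :=
          pow_le_pow_left₀ (by linarith) h6 N
      _ = (2 * ((d : ℝ) + 1) ^ 2) ^ N * ((1 + ‖v‖) ^ N * (1 + ‖w‖) ^ N) := by
          rw [mul_pow, mul_pow (1 + ‖v‖)]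

lemma Pg_abs (ha : 0 < a) (ha1 : a ≤ 1) (e : Fin d) (v w : Vec d) : |Pg e a v w| ≤ 2 * jb w ^ a := by
  have hv := jb_pos v
  have hw := jb_pos w
  have hva := Real.rpow_pos_of_pos hv a
  have hwa := Real.rpow_pos_of_pos hw a
  have h1 := absVr_le ha.le e v w
  have h2 : (2 : ℝ) ^ a ≤ 2 := by
    have := two_le (r := a) (n := 1) (by push_cast; linarith)
    simpa using this
  rw [Pg_abs_eq, Real.rpow_neg hv.le]
  calc (jb v ^ a)⁻¹ * |v e - w e| ^ a ≤ (jb v ^ a)⁻¹ * (2 ^ a * (jb v ^ a * jb w ^ a)) :=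
        mul_le_mul_of_nonneg_left h1 (inv_nonneg.2 hva.le)
    _ = 2 ^ a * jb w ^ a := by field_simp
    _ ≤ 2 * jb w ^ a := mul_le_mul_of_nonneg_right h2 hwa.le

lemma VPg_eq (ha : 0 < a) (e : Fin d) (v w : Vec d) :
    (v e - w e) * Pg e a v w = jb v ^ (-a) * |v e - w e| ^ (1 + a) := by
  unfold Pg
  rw [← mul_sp ha]
  ring

lemma VPg_nonneg (ha : 0 < a) (e : Fin d) (v w : Vec d) : 0 ≤ (v e - w e) * Pg e a v w := by
  rw [VPg_eq ha]
  exact mul_nonneg (Real.rpow_nonneg (jb_pos v).le _) (Real.rpow_nonneg (abs_nonneg _) _)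

lemma VPg_le (ha : 0 < a) (ha1 : a ≤ 1) (e : Fin d) (v w : Vec d) :
    (v e - w e) * Pg e a v w ≤ 4 * (jb v * jb w ^ 2) := by
  have hv := jb_pos v
  have hw := jb_pos w
  have hva := Real.rpow_pos_of_pos hv a
  have h1 := absVr_le (by linarith : (0 : ℝ) ≤ 1 + a) e v w
  have h2 : (2 : ℝ) ^ (1 + a) ≤ 4 := by
    have := two_le (r := 1 + a) (n := 2) (by push_cast; linarith)
    linarith
  have h3 : jb w ^ (1 + a) ≤ jb w ^ 2 := by
    have := Real.rpow_le_rpow_of_exponent_le (one_le_jb w) (by linarith : 1 + a ≤ 2)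
    rwa [Real.rpow_two] at this
  rw [VPg_eq ha, Real.rpow_neg hv.le]
  calc (jb v ^ a)⁻¹ * |v e - w e| ^ (1 + a)
      ≤ (jb v ^ a)⁻¹ * (2 ^ (1 + a) * (jb v ^ (1 + a) * jb w ^ (1 + a))) :=
        mul_le_mul_of_nonneg_left h1 (inv_nonneg.2 hva.le)
    _ = 2 ^ (1 + a) * (jb v * jb w ^ (1 + a)) := by
        rw [Real.rpow_add hv, Real.rpow_one]
        field_simp
    _ ≤ 4 * (jb v * jb w ^ 2) :=
        mul_le_mul h2 (mul_le_mul_of_nonneg_left h3 hv.le)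
          (mul_nonneg hv.le (Real.rpow_nonneg hw.le _)) (by norm_num)

private lemma sp_pos_eq {x : ℝ} (hx : 0 ≤ x) : sp a x = x ^ a := by
  unfold sp
  rw [if_neg (not_lt.2 hx)]

lemma Pg_osc (ha : 0 < a) (ha1 : a ≤ 1) (e : Fin d) (u v w : Vec d) :
    |Pg e a u w - Pg e a v w| ≤ 64 * (jb w ^ a * min 1 (len (u - v) / jb v) ^ a) := by
  have hv := jb_pos v
  have hw := jb_pos w
  have hu := jb_pos u
  have hwa := Real.rpow_pos_of_pos hw a
  have hva := Real.rpow_pos_of_pos hv a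
  have hua := Real.rpow_pos_of_pos hu a
  have hw1 : 1 ≤ jb w ^ a := Real.one_le_rpow (one_le_jb w) ha.le
  have hl := len_nonneg (u - v)
  have h2a : (2 : ℝ) ^ a ≤ 2 := by
    have := two_le (r := a) (n := 1) (by push_cast; linarith)
    simpa using this
  rcases le_or_gt (jb v / 2) (len (u - v)) with h | h
  · have h1 : (1 / 2 : ℝ) ≤ min 1 (len (u - v) / jb v) := by
      refine le_min (by norm_num) ?_
      rw [le_div_iff₀ hv]
      linarith
    have h2 : (1 / 2 : ℝ) ≤ min 1 (len (u - v) / jb v) ^ a := by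
      calc (1 / 2 : ℝ) = (1 / 2 : ℝ) ^ (1 : ℝ) := (Real.rpow_one _).symm
        _ ≤ (1 / 2 : ℝ) ^ a := Real.rpow_le_rpow_of_exponent_ge (by norm_num) (by norm_num) ha1
        _ ≤ _ := Real.rpow_le_rpow (by norm_num) h1 ha.le
    have h3 := Pg_abs ha ha1 e u w
    have h4 := Pg_abs ha ha1 e v w
    have h5 := abs_sub (Pg e a u w) (Pg e a v w)
    have h6 : jb w ^ a * (1 / 2) ≤ jb w ^ a * min 1 (len (u - v) / jb v) ^ a :=
      mul_le_mul_of_nonneg_left h2 hwa.le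
    linarith
  · have hx1 : len (u - v) / jb v ≤ 1 := by
      rw [div_le_one hv]; linarith
    rw [min_eq_right hx1]
    have hx0 : 0 ≤ len (u - v) / jb v := div_nonneg hl hv.le
    have hju : jb v / 2 ≤ jb u := by
      have := (abs_le.1 (jb_lip u v)).1
      linarith
    -- `(jb u)^(-a) ≤ 2 (jb v)^(-a)`
    have hinv : (jb u ^ a)⁻¹ ≤ 2 * (jb v ^ a)⁻¹ := by
      have e1 : jb v ^ a ≤ 2 * jb u ^ a := by
        calc jb v ^ a ≤ (2 * jb u) ^ a := Real.rpow_le_rpow hv.le (by linarith) ha.le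
          _ = 2 ^ a * jb u ^ a := Real.mul_rpow (by norm_num) hu.le
          _ ≤ 2 * jb u ^ a := mul_le_mul_of_nonneg_right h2a hua.le
      rw [inv_eq_one_div, inv_eq_one_div, mul_one_div, div_le_div_iff₀ hua hva]
      linarith
    have hlen : (len (u - v) / jb v) ^ a = len (u - v) ^ a * (jb v ^ a)⁻¹ := by
      rw [Real.div_rpow hl hv.le, div_eq_mul_inv]
    have hla : 0 ≤ len (u - v) ^ a := Real.rpow_nonneg hl a
    -- first difference
    have d1 : |sp a (u e - w e) - sp a (v e - w e)| ≤ 2 * len (u - v) ^ a := by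
      refine (sp_holder ha ha1 _ _).trans ?_
      have : |u e - w e - (v e - w e)| ≤ len (u - v) := by
        have := abs_coord_le (u - v) e
        rw [Pi.sub_apply] at this
        rwa [show u e - w e - (v e - w e) = u e - v e by ring]
      exact mul_le_mul_of_nonneg_left (Real.rpow_le_rpow (abs_nonneg _) this ha.le) (by norm_num)
    -- second difference
    have d2 : |jb v ^ a - jb u ^ a| ≤ 2 * len (u - v) ^ a := by
      have h1 := sp_holder ha ha1 (jb v) (jb u)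
      rw [sp_pos_eq hv.le, sp_pos_eq hu.le] at h1
      refine h1.trans ?_
      have : |jb v - jb u| ≤ len (u - v) := by
        rw [abs_sub_comm]; exact jb_lip u v
      exact mul_le_mul_of_nonneg_left (Real.rpow_le_rpow (abs_nonneg _) this ha.le) (by norm_num)
    have d3 : |sp a (v e - w e)| ≤ 2 * (jb v ^ a * jb w ^ a) := by
      rw [abs_sp]
      exact (absVr_le ha.le e v w).trans (mul_le_mul_of_nonneg_right h2a (by positivity))
    have d4 : |(jb u ^ a)⁻¹ - (jb v ^ a)⁻¹| ≤ (jb u ^ a)⁻¹ * (2 * (len (u - v) ^ a * (jb v ^ a)⁻¹)) := by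
      have : (jb u ^ a)⁻¹ - (jb v ^ a)⁻¹ = (jb u ^ a)⁻¹ * (jb v ^ a - jb u ^ a) * (jb v ^ a)⁻¹ := by
        field_simp
      rw [this, abs_mul, abs_mul, abs_of_pos (inv_pos.2 hua), abs_of_pos (inv_pos.2 hva)]
      calc (jb u ^ a)⁻¹ * |jb v ^ a - jb u ^ a| * (jb v ^ a)⁻¹
          ≤ (jb u ^ a)⁻¹ * (2 * len (u - v) ^ a) * (jb v ^ a)⁻¹ := by gcongr
        _ = _ := by ring
    have hsplit : Pg e a u w - Pg e a v w =
        (jb u ^ a)⁻¹ * (sp a (u e - w e) - sp a (v e - w e)) +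
        ((jb u ^ a)⁻¹ - (jb v ^ a)⁻¹) * sp a (v e - w e) := by
      unfold Pg
      rw [Real.rpow_neg hu.le, Real.rpow_neg hv.le]
      ring
    have f1 : |(jb u ^ a)⁻¹ * (sp a (u e - w e) - sp a (v e - w e))| ≤
        4 * (len (u - v) ^ a * (jb v ^ a)⁻¹) := by
      rw [abs_mul, abs_of_pos (inv_pos.2 hua)]
      calc (jb u ^ a)⁻¹ * |sp a (u e - w e) - sp a (v e - w e)|
          ≤ (2 * (jb v ^ a)⁻¹) * (2 * len (u - v) ^ a) :=
            mul_le_mul hinv d1 (abs_nonneg _) (by positivity)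
        _ = _ := by ring
    have f2 : |((jb u ^ a)⁻¹ - (jb v ^ a)⁻¹) * sp a (v e - w e)| ≤
        8 * (jb w ^ a * (len (u - v) ^ a * (jb v ^ a)⁻¹)) := by
      rw [abs_mul]
      calc |(jb u ^ a)⁻¹ - (jb v ^ a)⁻¹| * |sp a (v e - w e)|
          ≤ ((2 * (jb v ^ a)⁻¹) * (2 * (len (u - v) ^ a * (jb v ^ a)⁻¹))) *
            (2 * (jb v ^ a * jb w ^ a)) := by
            refine mul_le_mul (d4.trans ?_) d3 (abs_nonneg _) (by positivity)
            exact mul_le_mul_of_nonneg_right hinv (by positivity)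
        _ = 8 * (jb w ^ a * (len (u - v) ^ a * (jb v ^ a)⁻¹)) * ((jb v ^ a)⁻¹ * jb v ^ a) := by ring
        _ = _ := by rw [inv_mul_cancel₀ hva.ne', mul_one]
    rw [hsplit, hlen]
    refine (abs_add_le _ _).trans ?_
    have hY : 0 ≤ len (u - v) ^ a * (jb v ^ a)⁻¹ := by positivity
    have f3 : len (u - v) ^ a * (jb v ^ a)⁻¹ ≤ jb w ^ a * (len (u - v) ^ a * (jb v ^ a)⁻¹) :=
      le_mul_of_one_le_left hY hw1
    have f4 : 0 ≤ jb w ^ a * (len (u - v) ^ a * (jb v ^ a)⁻¹) := by positivity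
    linarith

end Pool.Agent.H48.PI
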