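import Pool.Agent.H48.PI.XWd

/-!
# Module XWc: the integrals of `XS`, `XW` over the torus

`Zt_cont`: `XW_cont`, dominated convergence over the compact torus (`muD` finite; `(t,V)` near a point: `XW` is bounded on compact sets of `(t,x,V)`, periodic in `x`). `Zt_anti`: `om_anti`, monotonicity of `∫ dens · om` (`dens ≥ 0` integrable) and of `∫ dμ`.
`Zt_osc`: `om_osc`; `V, V' ≥ R₁`: `om a (min V V') ≤ om a R₁` (`om_anti`).
-/

set_option autoImplicit false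

open MeasureTheory Set Filter Topology Pool.Agent.H25.Kin Pool.Agent.H48.PL

namespace Pool.Agent.H48.PI

variable {d : ℕ} {a T : ℝ} {Q f : ℝ → Vec d → Vec d → ℝ}

/-- `∫_x X` at time `t` -/
noncomputable def Xt (a : ℝ) (f : ℝ → Vec d → Vec d → ℝ) (t : ℝ) : ℝ := ∫ x, XS a (f t x) univ ∂(muD d)

/-- `∫_x XW_V` at time `t` -/
noncomputable def Zt (a : ℝ) (f : ℝ → Vec d → Vec d → ℝ) (t V : ℝ) : ℝ := ∫ x, XW a V (f t x) univ ∂(muD d)

private lemma xwc_kin (ha : 0 ≤ a) (ha1 : a ≤ 1) (v w : Vec d) :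
    |len (v - w) ^ (1 + a) * RR v w ^ a| ≤
      32 * ((d : ℝ) + 1) ^ 6 * ((1 + ‖v‖) ^ 3 * (1 + ‖w‖) ^ 3) := by
  have hR := RR_pos v w
  have hR1 := one_le_RR v w
  have hl := len_nonneg (v - w)
  have h0 : 0 ≤ len (v - w) ^ (1 + a) * RR v w ^ a :=
    mul_nonneg (Real.rpow_nonneg hl _) (Real.rpow_nonneg hR.le _)
  rw [abs_of_nonneg h0]
  have h1 : len (v - w) ^ (1 + a) ≤ (2 * RR v w) ^ (2 : ℕ) := by
    calc len (v - w) ^ (1 + a) ≤ (2 * RR v w) ^ (1 + a) :=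
          Real.rpow_le_rpow hl (len_le_RR v w) (by linarith)
      _ ≤ (2 * RR v w) ^ ((2 : ℕ) : ℝ) :=
          Real.rpow_le_rpow_of_exponent_le (by linarith) (by push_cast; linarith)
      _ = (2 * RR v w) ^ (2 : ℕ) := Real.rpow_natCast _ _
  have h2 : RR v w ^ a ≤ RR v w := by
    calc RR v w ^ a ≤ RR v w ^ (1 : ℝ) := Real.rpow_le_rpow_of_exponent_le hR1 ha1
      _ = RR v w := Real.rpow_one _
  have h3 : RR v w ≤ 2 * (jb v * jb w) := by
    have h4 := RR_le v w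
    have h5 := one_le_jb v
    have h6 := one_le_jb w
    nlinarith
  have h4 : jb v * jb w ≤ (((d : ℝ) + 1) * (1 + ‖v‖)) * (((d : ℝ) + 1) * (1 + ‖w‖)) :=
    mul_le_mul (jb_le_w v) (jb_le_w w) (jb_pos w).le (by positivity)
  calc len (v - w) ^ (1 + a) * RR v w ^ a ≤ (2 * RR v w) ^ (2 : ℕ) * RR v w :=
        mul_le_mul h1 h2 (Real.rpow_nonneg hR.le _) (by positivity)
    _ = 4 * RR v w ^ 3 := by ring
    _ ≤ 4 * (2 * ((((d : ℝ) + 1) * (1 + ‖v‖)) * (((d : ℝ) + 1) * (1 + ‖w‖)))) ^ 3 := by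
        gcongr
        linarith
    _ = 32 * ((d : ℝ) + 1) ^ 6 * ((1 + ‖v‖) ^ 3 * (1 + ‖w‖) ^ 3) := by ring

private lemma xwc_dens {C : ℝ} (ha : 0 ≤ a) (ha1 : a ≤ 1) (hC : 0 ≤ C) {g : Vec d → ℝ}
    (hg : ∀ v, |g v| ≤ C * ((1 + ‖v‖) ^ (3 + (d + 1)))⁻¹) (p : Vec d × Vec d) :
    |dens a g p| ≤ 32 * ((d : ℝ) + 1) ^ 6 * (C * C) * (wt d p.1 * wt d p.2) := by
  unfold dens
  rw [abs_mul, abs_mul]
  have h1 := hg p.1
  have h2 := hg p.2
  have h3 := xwc_kin ha ha1 p.1 p.2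
  have w1 := w_pos p.1
  have w2 := w_pos p.2
  have e1 := wt_bound (d := d) (a := 1) (b := C) zero_le_one hC p.1 3
  have e2 := wt_bound (d := d) (a := 1) (b := C) zero_le_one hC p.2 3
  calc |g p.1| * |g p.2| * |len (p.1 - p.2) ^ (1 + a) * RR p.1 p.2 ^ a|
      ≤ (C * ((1 + ‖p.1‖) ^ (3 + (d + 1)))⁻¹) * (C * ((1 + ‖p.2‖) ^ (3 + (d + 1)))⁻¹) *
        (32 * ((d : ℝ) + 1) ^ 6 * ((1 + ‖p.1‖) ^ 3 * (1 + ‖p.2‖) ^ 3)) := by
        refine mul_le_mul (mul_le_mul h1 h2 (abs_nonneg _) (by positivity)) h3 (abs_nonneg _)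
          (by positivity)
    _ = 32 * ((d : ℝ) + 1) ^ 6 * (((1 * (1 + ‖p.1‖) ^ 3) * (C * ((1 + ‖p.1‖) ^ (3 + (d + 1)))⁻¹)) *
        ((1 * (1 + ‖p.2‖) ^ 3) * (C * ((1 + ‖p.2‖) ^ (3 + (d + 1)))⁻¹))) := by ring
    _ = 32 * ((d : ℝ) + 1) ^ 6 * (C * C) * (wt d p.1 * wt d p.2) := by rw [e1, e2]; ring

private lemma xwc_dens_cont (ha : 0 ≤ a) {g : Vec d → ℝ} (hg : Continuous g) :
    Continuous (dens a g) := by
  unfold dens
  have h1 : Continuous fun p : Vec d × Vec d => len (p.1 - p.2) ^ (1 + a) :=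
    (continuous_len.comp (continuous_fst.sub continuous_snd)).rpow_const
      fun _ => Or.inr (by linarith)
  have h2 : Continuous fun p : Vec d × Vec d => RR p.1 p.2 ^ a :=
    RR_cont.rpow_const fun _ => Or.inr ha
  exact ((hg.comp continuous_fst).mul (hg.comp continuous_snd)).mul (h1.mul h2)

private lemma xwc_int : Integrable fun p : Vec d × Vec d => wt d p.1 * wt d p.2 :=
  (integrable_wt (d := d)).mul_prod (integrable_wt (d := d))

private lemma xwc_slice (hf : IsClassicalSol T Q f) {t : ℝ} (ht : t ∈ Ico 0 T) (x : Vec d) :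
    Continuous (f t x) :=
  (hf.cont_slice ht).comp (by fun_prop : Continuous fun v : Vec d => (x, v))

private lemma xwc_bd (ha : 0 ≤ a) (ha1 : a ≤ 1) (hf : IsClassicalSol T Q f) {T₁ : ℝ} (h1 : T₁ < T) :
    ∃ K, 0 ≤ K ∧ ∀ t ∈ Icc 0 T₁, ∀ x, ∀ p : Vec d × Vec d,
      |dens a (f t x) p| ≤ K * (wt d p.1 * wt d p.2) := by
  obtain ⟨C, hC0, hC⟩ := hf.f_le h1 (3 + (d + 1))
  exact ⟨32 * ((d : ℝ) + 1) ^ 6 * (C * C), by positivity,
    fun t ht x p => xwc_dens ha ha1 hC0 (hC t ht x) p⟩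

private lemma xwc_di (ha : 0 ≤ a) (ha1 : a ≤ 1) (hf : IsClassicalSol T Q f) {t : ℝ} (ht : t ∈ Ico 0 T)
    (x : Vec d) : Integrable (dens a (f t x)) := by
  obtain ⟨K, hK0, hK⟩ := xwc_bd ha ha1 hf ht.2
  exact (xwc_int.const_mul K).mono' (xwc_dens_cont ha (xwc_slice hf ht x)).aestronglyMeasurable
    (Eventually.of_forall fun p => hK t ⟨ht.1, le_rfl⟩ x p)

private lemma xwc_d0 (hf : IsClassicalSol T Q f) {t : ℝ} (ht : t ∈ Ico 0 T) (x : Vec d)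
    (p : Vec d × Vec d) : 0 ≤ dens a (f t x) p :=
  dens_nonneg (hf.nonneg t ht x) p

private lemma xwc_wi (ha : 0 ≤ a) (ha1 : a ≤ 1) (hf : IsClassicalSol T Q f) {t : ℝ} (ht : t ∈ Ico 0 T)
    (x : Vec d) {V : ℝ} (hV : 0 < V) :
    Integrable fun p : Vec d × Vec d => dens a (f t x) p * om a V (RR p.1 p.2) := by
  have hm : Measurable fun p : Vec d × Vec d => om a V (RR p.1 p.2) :=
    (om_meas a V).comp RR_cont.measurable
  refine (xwc_di ha ha1 hf ht x).mono'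
    ((xwc_dens_cont ha (xwc_slice hf ht x)).aestronglyMeasurable.mul hm.aestronglyMeasurable)
    (Eventually.of_forall fun p => ?_)
  have h0 := xwc_d0 (a := a) hf ht x p
  have h1 := om_nonneg (a := a) hV (RR_pos p.1 p.2).le
  have h2 := om_le_one ha1 hV (RR_pos p.1 p.2).le
  rw [Real.norm_eq_abs, abs_of_nonneg (mul_nonneg h0 h1)]
  exact mul_le_of_le_one_right h0 h2

private lemma xwc_XW (V : ℝ) (g : Vec d → ℝ) :
    XW a V g univ = ∫ p : Vec d × Vec d, dens a g p * om a V (RR p.1 p.2) := by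
  unfold XW
  rw [Measure.restrict_univ]

private lemma xwc_le (ha : 0 ≤ a) (ha1 : a ≤ 1) (hf : IsClassicalSol T Q f) {t : ℝ} (ht : t ∈ Ico 0 T)
    (x : Vec d) {V : ℝ} (hV : 0 < V) : XW a V (f t x) univ ≤ XS a (f t x) univ := by
  unfold XW XS
  rw [Measure.restrict_univ]
  refine integral_mono (xwc_wi ha ha1 hf ht x hV) (xwc_di ha ha1 hf ht x) fun p => ?_
  exact mul_le_of_le_one_right (xwc_d0 (a := a) hf ht x p) (om_le_one ha1 hV (RR_pos p.1 p.2).le)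

private lemma xwc_anti (ha : 0 ≤ a) (ha1 : a ≤ 1) (hf : IsClassicalSol T Q f) {t : ℝ} (ht : t ∈ Ico 0 T)
    (x : Vec d) {V V' : ℝ} (hV : 0 < V) (h : V ≤ V') :
    XW a V' (f t x) univ ≤ XW a V (f t x) univ := by
  rw [xwc_XW, xwc_XW]
  refine integral_mono (xwc_wi ha ha1 hf ht x (hV.trans_le h)) (xwc_wi ha ha1 hf ht x hV) fun p => ?_
  exact mul_le_mul_of_nonneg_left (om_anti ha1 hV (RR_pos p.1 p.2).le h) (xwc_d0 (a := a) hf ht x p)

private lemma xwc_meas (ha : 0 ≤ a) (ha1 : a ≤ 1) (hf : IsClassicalSol T Q f) {t : ℝ} (ht : t ∈ Ico 0 T)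
    {V : ℝ} (hV : 0 < V) : Continuous fun x : Vec d => XW a V (f t x) univ := by
  have h1 : Continuous fun x : Vec d => (((t, x), V) : (ℝ × Vec d) × ℝ) := by fun_prop
  exact (XW_cont ha ha1 hf).comp_continuous h1 fun x => ⟨⟨ht, mem_univ _⟩, hV⟩

private lemma xwc_xi (ha : 0 ≤ a) (ha1 : a ≤ 1) (hf : IsClassicalSol T Q f) {t : ℝ} (ht : t ∈ Ico 0 T)
    {V : ℝ} (hV : 0 < V) : Integrable (fun x : Vec d => XW a V (f t x) univ) (muD d) := by
  obtain ⟨C, hC0, hC⟩ := XS_bdd ha ha1 hf ht.2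
  refine (integrable_const C).mono' (xwc_meas ha ha1 hf ht hV).aestronglyMeasurable
    (Eventually.of_forall fun x => ?_)
  rw [Real.norm_eq_abs, abs_of_nonneg (XW_nonneg ha ha1 hf ht hV x)]
  exact (xwc_le ha ha1 hf ht x hV).trans (hC t ⟨ht.1, le_rfl⟩ x univ)

lemma Zt_cont (ha : 0 ≤ a) (ha1 : a ≤ 1) (hf : IsClassicalSol T Q f) :
    ContinuousOn (fun q : ℝ × ℝ => Zt a f q.1 q.2) (Ico 0 T ×ˢ Ioi 0) := by
  intro q hq
  have hq1 : q.1 ∈ Ico 0 T := hq.1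
  have hlt : (q.1 + T) / 2 < T := by linarith [hq1.2]
  obtain ⟨C, hC0, hC⟩ := XS_bdd ha ha1 hf hlt
  have hX := XW_cont ha ha1 hf
  have hsub : ∀ r ∈ Icc 0 ((q.1 + T) / 2), r ∈ Ico 0 T := fun r hr => ⟨hr.1, hr.2.trans_lt hlt⟩
  have key : ContinuousOn (fun q : ℝ × ℝ => Zt a f q.1 q.2) (Icc 0 ((q.1 + T) / 2) ×ˢ Ioi 0) := by
    unfold Zt
    refine continuousOn_of_dominated (bound := fun _ => C) ?_ ?_ ?_ ?_
    · intro r hr
      exact (xwc_meas ha ha1 hf (hsub _ hr.1) hr.2).aestronglyMeasurable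
    · intro r hr
      refine Eventually.of_forall fun x => ?_
      rw [Real.norm_eq_abs, abs_of_nonneg (XW_nonneg ha ha1 hf (hsub _ hr.1) hr.2 x)]
      exact (xwc_le ha ha1 hf (hsub _ hr.1) x hr.2).trans (hC r.1 hr.1 x univ)
    · exact integrable_const C
    · refine Eventually.of_forall fun x => ?_
      have h1 : Continuous fun r : ℝ × ℝ => (((r.1, x), r.2) : (ℝ × Vec d) × ℝ) := by fun_prop
      exact hX.comp h1.continuousOn fun r hr => ⟨⟨hsub _ hr.1, mem_univ _⟩, hr.2⟩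
  refine (key q ⟨⟨hq1.1, by linarith [hq1.2]⟩, hq.2⟩).mono_of_mem_nhdsWithin ?_
  have hop : {r : ℝ × ℝ | r.1 < (q.1 + T) / 2} ∈ 𝓝 q :=
    (isOpen_lt continuous_fst continuous_const).mem_nhds (by
      change q.1 < (q.1 + T) / 2
      linarith [hq1.2])
  filter_upwards [mem_nhdsWithin_of_mem_nhds hop, self_mem_nhdsWithin] with r hr hr2
  exact ⟨⟨hr2.1.1, le_of_lt hr⟩, hr2.2⟩

lemma Zt_nonneg (ha : 0 ≤ a) (ha1 : a ≤ 1) (hf : IsClassicalSol T Q f) {t : ℝ} (ht : t ∈ Ico 0 T) {V : ℝ}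
    (hV : 0 < V) : 0 ≤ Zt a f t V :=
  integral_nonneg fun x => XW_nonneg ha ha1 hf ht hV x

lemma Xt_nonneg (ha : 0 ≤ a) (ha1 : a ≤ 1) (hf : IsClassicalSol T Q f) {t : ℝ} (ht : t ∈ Ico 0 T) :
    0 ≤ Xt a f t :=
  integral_nonneg fun x => XS_nonneg (hf.nonneg t ht x) univ

lemma Zt_anti (ha : 0 ≤ a) (ha1 : a ≤ 1) (hf : IsClassicalSol T Q f) {t : ℝ} (ht : t ∈ Ico 0 T) {V V' : ℝ}
    (hV : 0 < V) (h : V ≤ V') : Zt a f t V' ≤ Zt a f t V := by
  unfold Zt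
  exact integral_mono (xwc_xi ha ha1 hf ht (hV.trans_le h)) (xwc_xi ha ha1 hf ht hV)
    fun x => xwc_anti ha ha1 hf ht x hV h

private lemma xwc_osc (ha : 0 < a) (ha1 : a ≤ 1) (hf : IsClassicalSol T Q f) {t : ℝ} (ht : t ∈ Ico 0 T)
    {R₁ V V' : ℝ} (hR : 0 < R₁) (hV : R₁ ≤ V) (hV' : R₁ ≤ V') (x : Vec d) :
    |XW a V (f t x) univ - XW a V' (f t x) univ| ≤
      4 * (|V - V'| / max V V') * XW a R₁ (f t x) univ := by
  have h0V : 0 < V := hR.trans_le hV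
  have h0V' : 0 < V' := hR.trans_le hV'
  have hc : 0 ≤ 4 * (|V - V'| / max V V') :=
    mul_nonneg (by norm_num) (div_nonneg (abs_nonneg _) (h0V.le.trans (le_max_left _ _)))
  have i1 := xwc_wi ha.le ha1 hf ht x h0V
  have i2 := xwc_wi ha.le ha1 hf ht x h0V'
  have i3 := xwc_wi ha.le ha1 hf ht x hR
  rw [xwc_XW, xwc_XW, xwc_XW, ← integral_sub i1 i2, ← integral_const_mul]
  refine (abs_integral_le_integral_abs).trans ?_
  refine integral_mono (i1.sub i2).abs (i3.const_mul _) fun p => ?_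
  have hd := xwc_d0 (a := a) hf ht x p
  have hRR := (RR_pos p.1 p.2).le
  have h1 := om_osc ha ha1 h0V h0V' hRR
  have h2 : om a (min V V') (RR p.1 p.2) ≤ om a R₁ (RR p.1 p.2) :=
    om_anti ha1 hR hRR (le_min hV hV')
  show |dens a (f t x) p * om a V (RR p.1 p.2) - dens a (f t x) p * om a V' (RR p.1 p.2)| ≤
    4 * (|V - V'| / max V V') * (dens a (f t x) p * om a R₁ (RR p.1 p.2))
  rw [← mul_sub, abs_mul, abs_of_nonneg hd]
  calc dens a (f t x) p * |om a V (RR p.1 p.2) - om a V' (RR p.1 p.2)|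
      ≤ dens a (f t x) p * (4 * (|V - V'| / max V V') * om a R₁ (RR p.1 p.2)) :=
        mul_le_mul_of_nonneg_left (h1.trans (mul_le_mul_of_nonneg_left h2 hc)) hd
    _ = 4 * (|V - V'| / max V V') * (dens a (f t x) p * om a R₁ (RR p.1 p.2)) := by ring

lemma Zt_osc (ha : 0 < a) (ha1 : a ≤ 1) (hf : IsClassicalSol T Q f) {t : ℝ} (ht : t ∈ Ico 0 T)
    {R₁ V V' : ℝ} (hR : 0 < R₁) (hV : R₁ ≤ V) (hV' : R₁ ≤ V') :
    |Zt a f t V - Zt a f t V'| ≤ 4 * (|V - V'| / max V V') * Zt a f t R₁ := by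
  have i1 := xwc_xi ha.le ha1 hf ht (hR.trans_le hV)
  have i2 := xwc_xi ha.le ha1 hf ht (hR.trans_le hV')
  have i3 := xwc_xi ha.le ha1 hf ht hR
  unfold Zt
  rw [← integral_sub i1 i2, ← integral_const_mul]
  refine (abs_integral_le_integral_abs).trans ?_
  exact integral_mono (i1.sub i2).abs (i3.const_mul _) fun x => xwc_osc ha ha1 hf ht hR hV hV' x

end Pool.Agent.H48.PI
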