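import Pool.Agent.H48.PI.Blk
import Pool.Agent.H48.PI.ESli
import Pool.Agent.H48.PI.EDer
import Pool.Agent.H48.PI.XWc
import Pool.Agent.H15.AV.Slc

/-!
# Module ErrI: lower bound for the derivative of the weight

Fix `t ∈ [t₀,t₁]`, `v`. `sol_unice` on `[t₀,t₁]` gives `Cl` with `UNice Cl (f t x)`. `Q t x = boltzQ (1+a) b (f t x)`.
* `err_hold` with `ψ = Ph4 v ·`, `V₁ = jb v`, `A = 16` (`Ph4_holder`): `|∫ Ph4 Q| ≤ (1/ε) Dn + ε K 256 R₁^a om(jb v, R₁)² XS + 16 K XW_{max(jb v) R₁} + η'`; `om² ≤ om ≤ R₁^a yv` (`om_R1`, `om_le_one`).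
* `err_ren` with `ψ = Psi v ·`, `A = C_Ψ yv v ≤ 2 C_Ψ =: A₁` (`Psi_bd`, `Psi_holder`, `yv_le`): `≤ C_Ψ yv ((1/ε+K) Dn + ε K XS) + η'`, and `yv Dn ≤ 2 Dn + 2η'` (`Dn ≥ -η'`, `Dn_low`; `0 ≤ yv ≤ 2`).
* `m x = K₀(..) + (..) + η'` is a `PlF` function of `x` (`Dn_cont`, `XW_pl`; `Dn δ (f t x)` depends on `f t x` only). `EE_der` with this `m`; `(1/2) ∫ m dμ ≤ Cε ∫x Dn + ε Cy yv Xt + K₁ Zt + η`.
`K₁ = 16 K K₀`, `Cy = 256 K K₀ R₁^(2a) + K C_Ψ`, `Cε = (K₀ + 2 C_Ψ)(1/ε + K) + ..`. `fs_of`, `bet_fs` give `FS` for both slices.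
-/

set_option autoImplicit false

open MeasureTheory Set Filter Topology Pool.Agent.H25.Kin Pool.Agent.H82.BK Pool.Agent.H82.CM Pool.Agent.H48.PL

namespace Pool.Agent.H48.PI

variable {d : ℕ} {s a α C Ca cb : ℝ} {b : ℝ → ℝ}

private lemma errI_dn_pl (HL : HypL d (1 + a) s b C Ca cb) {T : ℝ} {f : ℝ → Vec d → Vec d → ℝ}
    (hf : IsBoltzmannSol (1 + a) b T f) {e : Fin d} (hpl : Planar e T f) {δ : ℝ} (hδ : 0 < δ) {t : ℝ}
    (ht : t ∈ Ioo 0 T) : PlF e (fun y => Dn (1 + a) b δ (f t y)) := by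
  have ht' : t ∈ Ico 0 T := ⟨ht.1.le, ht.2⟩
  refine ⟨?_, fun x i => ?_, fun x y h => ?_⟩
  · have h1 : Continuous fun y : Vec d => (t, y) := by fun_prop
    have h2 := (Dn_cont HL hf hδ).1
    have h3 := h2.comp_continuous h1 fun y => Set.mk_mem_prod ht (mem_univ y)
    exact h3
  · have h1 : f t (x + Pi.single i 1) = f t x := by
      funext v
      exact hf.periodic t ht' x v i
    show Dn (1 + a) b δ (f t (x + Pi.single i 1)) = Dn (1 + a) b δ (f t x)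
    rw [h1]
  · have h1 : f t x = f t y := by
      funext v
      exact hpl t ht' x y v h
    show Dn (1 + a) b δ (f t x) = Dn (1 + a) b δ (f t y)
    rw [h1]

private lemma errI_lin {e : Fin d} {A B D : Vec d → ℝ} (hA : PlF e A) (hB : PlF e B) (hD : PlF e D)
    (c₁ c₂ c₃ c₄ : ℝ) : PlF e (fun y => c₁ * A y + (c₂ * B y + (c₃ * D y + c₄))) ∧
      ∫ y, (c₁ * A y + (c₂ * B y + (c₃ * D y + c₄))) ∂(muD d) =
        c₁ * (∫ y, A y ∂(muD d)) + (c₂ * (∫ y, B y ∂(muD d)) + (c₃ * (∫ y, D y ∂(muD d)) + c₄)) := by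
  have iA := (pl_int hA).const_mul c₁
  have iB := (pl_int hB).const_mul c₂
  have iD := (pl_int hD).const_mul c₃
  have i4 : Integrable (fun _ : Vec d => c₄) (muD d) := integrable_const c₄
  have iDs : Integrable (fun y => c₃ * D y + c₄) (muD d) := iD.add i4
  have iBs : Integrable (fun y => c₂ * B y + (c₃ * D y + c₄)) (muD d) := iB.add iDs
  refine ⟨⟨?_, fun x i => ?_, fun x y h => ?_⟩, ?_⟩
  · exact (continuous_const.mul hA.cont).add ((continuous_const.mul hB.cont).add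
      ((continuous_const.mul hD.cont).add continuous_const))
  · simp only [hA.per, hB.per, hD.per]
  · simp only [hA.pl x y h, hB.pl x y h, hD.pl x y h]
  · rw [integral_add iA iBs, integral_add iB iDs, integral_add iD i4,
      integral_const_mul, integral_const_mul, integral_const_mul, integral_const]
    have h1 : (muD d).real univ = 1 := by
      rw [Measure.real, muD_univ]
      rfl
    rw [h1, one_smul]

private lemma errI_om {o R y : ℝ} (h0 : 0 ≤ o) (h1 : o ≤ 1) (h : o ≤ R * y) : o ^ 2 ≤ R * y := by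
  nlinarith

private lemma errI_yD {y D η : ℝ} (hy0 : 0 ≤ y) (hy2 : y ≤ 2) (hη : 0 ≤ η) (hD : -η ≤ D) :
    y * D ≤ 2 * D + 2 * η := by
  nlinarith [mul_nonneg hy0 hη, mul_nonneg (sub_nonneg.2 hy2) (by linarith : (0 : ℝ) ≤ D + η)]

private lemma errI_a3 {I ie D ε K o X R y W η : ℝ} (hX : 0 ≤ X) (hc : 0 ≤ ε * K * 256 * R)
    (ho : o ^ 2 ≤ R * y)
    (A1 : I ≤ ie * D + ε * K * 16 ^ 2 * R * o ^ 2 * X + K * 16 * W + η) :
    I ≤ ie * D + ε * (K * 256 * (R * R)) * y * X + K * 16 * W + η := by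
  have e1 := mul_le_mul_of_nonneg_right (mul_le_mul_of_nonneg_left ho hc) hX
  linarith

private lemma errI_sum {K₀ I1 I2 ie D e kk y X K W η₁ CP K' η : ℝ} (hK₀ : 0 ≤ K₀)
    (A3 : I1 ≤ ie * D + e * kk * y * X + K * 16 * W + η₁)
    (B2 : I2 ≤ CP * y * ((ie + K') * D + e * K' * X) + η₁)
    (B3 : y * D ≤ 2 * D + 2 * η₁) (hc : 0 ≤ CP * (ie + K'))
    (hfin : K₀ * η₁ + (η₁ + CP * (ie + K') * (2 * η₁)) = η) :
    K₀ * I1 + I2 ≤ (K₀ * ie + 2 * (CP * (ie + K'))) * D +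
      (e * (K₀ * kk + CP * K') * y * X + (16 * K * K₀ * W + η)) := by
  have B4 := mul_le_mul_of_nonneg_left B3 hc
  have A4 := mul_le_mul_of_nonneg_left A3 hK₀
  linarith

private lemma errI_end {L A B D η ε q₁ q₂ y K K₀ : ℝ} (hη : 0 ≤ η) :
    L - (q₁ / 2 * A + ε * (q₂ / 2) * y * B + 8 * K * K₀ * D + η) ≤
      L - 1 / 2 * (q₁ * A + (ε * q₂ * y * B + (16 * K * K₀ * D + η))) := by
  linarith

private lemma errI_eta {K₀ c D η₁ η : ℝ} (hD : D = K₀ + 1 + 2 * c) (h : D * η₁ = η) :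
    K₀ * η₁ + (η₁ + c * (2 * η₁)) = η := by
  rw [← h, hD]
  ring

theorem dEE_low (HL : HypL d (1 + a) s b C Ca cb) (h1 : 2 * s < a) (ha1 : a < 1 / 2) {K₀ : ℝ} (hK₀ : 0 ≤ K₀) :
    ∃ K₁ : ℝ, 0 ≤ K₁ ∧ ∀ q : Par, q.Ok → q.a = a → q.K₀ = K₀ → ∀ R₁ : ℝ, 1 ≤ R₁ → ∃ Cy : ℝ, 0 ≤ Cy ∧
    ∀ ε : ℝ, 0 < ε → ε ≤ 1 → ∃ Cε : ℝ, 0 ≤ Cε ∧ ∀ (e : Fin d) (T : ℝ) (f : ℝ → Vec d → Vec d → ℝ),
      IsBoltzmannSol (1 + a) b T f → Planar e T f → ∀ t₀ t₁ : ℝ, 0 < t₀ → t₀ ≤ t₁ → t₁ < T → ∀ η > 0,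
      ∃ δ₀ > 0, ∀ δ ∈ Ioc (0 : ℝ) δ₀, ∀ t ∈ Icc t₀ t₁, ∀ x v : Vec d,
      (K₀ * ∫ w, (v e - w e) * Ph4 e a v w * (f t x w - g1 q (f t) x w)) -
        q.A' * (∫ w, (v e - w e) * Pg e a v w * g1 q (f t) x w) - K₀ * av2 q e (f t) v +
        q.A' * av1 q e (f t) v -
        (Cε * (∫ y, Dn (1 + a) b δ (f t y) ∂(muD d)) + ε * Cy * yv e a v * Xt a f t +
          K₁ * Zt a f t (max (jb v) R₁) + η) ≤
        dEE q e (f t) (fun y => boltzQ (1 + a) b (f t y)) x v := by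
  have hs := HL.H.hs
  have ha : 0 < a := by linarith
  have ha1' : a ≤ 1 := by linarith
  obtain ⟨K, hK, hErr⟩ := err_hold HL h1 ha1'
  obtain ⟨K', hK', hRen⟩ := err_ren HL h1 ha1'
  refine ⟨8 * K * K₀, by positivity, fun q hq hqa hqK R₁ hR₁ => ?_⟩
  subst hqa hqK
  obtain ⟨Cp, hCp, hPb⟩ := Psi_bd (d := d) (R := q.R) ha ha1' hK₀ hq.hA hq.hR
  obtain ⟨Ch, hCh, hPh⟩ := Psi_holder (d := d) (R := q.R) ha ha1' hK₀ hq.hA hq.hR
  set CP : ℝ := max Cp Ch with hCPdef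
  have hCP : 0 ≤ CP := hCp.trans (le_max_left _ _)
  have hR₁0 : 0 < R₁ := by linarith
  have hRa : 0 ≤ R₁ ^ q.a := Real.rpow_nonneg hR₁0.le _
  refine ⟨(q.K₀ * (K * 256 * (R₁ ^ q.a * R₁ ^ q.a)) + CP * K') / 2, by positivity, fun ε hε hε1 => ?_⟩
  have hεi : 0 ≤ 1 / ε := by positivity
  refine ⟨(q.K₀ * (1 / ε) + 2 * (CP * (1 / ε + K'))) / 2, by positivity, ?_⟩
  intro e T f hf hpl t₀ t₁ ht₀ ht₀₁ ht₁ η hη
  obtain ⟨Cl, hCl⟩ := Pool.Agent.H15.AV.sol_unice hf ht₀ ht₁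
  set D : ℝ := q.K₀ + 1 + 2 * (CP * (1 / ε + K')) with hD
  have hD0 : 0 < D := by positivity
  set η₁ : ℝ := η / D with hη₁def
  have hη₁ : 0 < η₁ := div_pos hη hD0
  have hηD : D * η₁ = η := by
    rw [hη₁def]
    field_simp
  obtain ⟨δ₁, hδ₁, H1⟩ := hErr R₁ hR₁ ε hε hε1 16 Cl η₁ hη₁
  obtain ⟨δ₂, hδ₂, H2⟩ := hRen ε hε hε1 (2 * CP) q.C₀ Cl hq.hC η₁ hη₁
  obtain ⟨δ₃, hδ₃, H3⟩ := Dn_low HL Cl hη₁
  refine ⟨min δ₁ (min δ₂ δ₃), lt_min hδ₁ (lt_min hδ₂ hδ₃), fun δ hδ t ht x v => ?_⟩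
  have hδ1 : δ ∈ Ioc (0 : ℝ) δ₁ := ⟨hδ.1, hδ.2.trans (min_le_left _ _)⟩
  have hδ2 : δ ∈ Ioc (0 : ℝ) δ₂ := ⟨hδ.1, hδ.2.trans ((min_le_right _ _).trans (min_le_left _ _))⟩
  have hδ3 : δ ∈ Ioc (0 : ℝ) δ₃ := ⟨hδ.1, hδ.2.trans ((min_le_right _ _).trans (min_le_right _ _))⟩
  have htt : t ∈ Ioo 0 T := ⟨ht₀.trans_le ht.1, ht.2.trans_lt ht₁⟩
  have htt' : t ∈ Ico 0 T := ⟨htt.1.le, htt.2⟩
  have hfs := fs_of hf hpl htt
  have hbs := bet_fs hq.hC hf hpl htt hfs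
  have hjb := one_le_jb v
  have hV : 0 < max (jb v) R₁ := lt_of_lt_of_le hR₁0 (le_max_right _ _)
  have hXW := XW_pl ha.le ha1' hf hpl htt' hV
  have hDn := errI_dn_pl HL hf hpl hδ.1 htt
  have hy0 : 0 ≤ yv e q.a v := (yv_pos e q.a v).le
  have hy2 : yv e q.a v ≤ 2 := yv_le ha ha1' e v
  obtain ⟨hm, hmi⟩ := errI_lin hDn hXW.2 hXW.1 (q.K₀ * (1 / ε) + 2 * (CP * (1 / ε + K')))
    (ε * (q.K₀ * (K * 256 * (R₁ ^ q.a * R₁ ^ q.a)) + CP * K') * yv e q.a v) (16 * K * q.K₀) η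
  have hcc : 0 ≤ ε * K * 256 * R₁ ^ q.a := by positivity
  have hcp : 0 ≤ CP * (1 / ε + K') := by positivity
  have hyCP : CP * yv e q.a v ≤ 2 * CP := by
    rw [mul_comm 2 CP]
    exact mul_le_mul_of_nonneg_left hy2 hCP
  have hfin : q.K₀ * η₁ + (η₁ + CP * (1 / ε + K') * (2 * η₁)) = η := errI_eta hD hηD
  have hjR : 0 < jb v := lt_of_lt_of_le one_pos hjb
  have herr : ∀ y, q.K₀ * |∫ w, Ph4 e q.a v w * boltzQ (1 + q.a) b (f t y) w| +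
      |∫ w, Psi e q.a q.K₀ q.A' q.R v w *
        (bet' q.C₀ (f t y w) * boltzQ (1 + q.a) b (f t y) w)| ≤
      (q.K₀ * (1 / ε) + 2 * (CP * (1 / ε + K'))) * Dn (1 + q.a) b δ (f t y) +
      (ε * (q.K₀ * (K * 256 * (R₁ ^ q.a * R₁ ^ q.a)) + CP * K') * yv e q.a v * XS q.a (f t y) univ +
      (16 * K * q.K₀ * XW q.a (max (jb v) R₁) (f t y) univ + η)) := by
    intro y
    have hu := hCl t ht y
    have hX0 : 0 ≤ XS q.a (f t y) univ := by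
      unfold XS
      refine integral_nonneg fun p => ?_
      unfold dens
      have e1 := hf.nonneg t htt' y p.1
      have e2 := hf.nonneg t htt' y p.2
      have e3 := Real.rpow_nonneg (len_nonneg (p.1 - p.2)) (1 + q.a)
      have e4 := Real.rpow_nonneg (RR_pos p.1 p.2).le q.a
      positivity
    have hD3 := H3 δ hδ3 (f t y) hu
    -- the Holder part
    have A1 := H1 δ hδ1 (f t y) hu (jb v) hjb 16 (by norm_num) le_rfl (Ph4 e q.a v)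
      (fun w w' => Ph4_holder ha ha1' e v w w')
    have hom0 : 0 ≤ om q.a (jb v) R₁ := om_nonneg hjR hR₁0.le
    have hom1 : om q.a (jb v) R₁ ≤ 1 := om_le_one ha1' hjR hR₁0.le
    have hom2 : om q.a (jb v) R₁ ^ 2 ≤ R₁ ^ q.a * yv e q.a v :=
      errI_om hom0 hom1 (om_R1 ha ha1' e hR₁ v)
    have A3 : |∫ w, Ph4 e q.a v w * boltzQ (1 + q.a) b (f t y) w| ≤
        1 / ε * Dn (1 + q.a) b δ (f t y) +
        ε * (K * 256 * (R₁ ^ q.a * R₁ ^ q.a)) * yv e q.a v * XS q.a (f t y) univ +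
        K * 16 * XW q.a (max (jb v) R₁) (f t y) univ + η₁ := by
      have e1 : ∫ w, Ph4 e q.a v w * boltzQ (1 + q.a) b (f t y) w =
          ∫ w, boltzQ (1 + q.a) b (f t y) w * Ph4 e q.a v w := by
        refine integral_congr_ae (Eventually.of_forall fun w => ?_)
        exact mul_comm _ _
      rw [e1]
      exact errI_a3 hX0 hcc hom2 A1
    -- the renormalized part
    have B1 := H2 δ hδ2 (f t y) hu (CP * yv e q.a v) (mul_nonneg hCP hy0)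
      (hyCP) (Psi e q.a q.K₀ q.A' q.R v)
      (fun w => (hPb e v w).trans (mul_le_mul_of_nonneg_right (le_max_left _ _) hy0))
      (fun w w' => (hPh e v w w').trans (mul_le_mul_of_nonneg_right
        (mul_le_mul_of_nonneg_right (le_max_right _ _) hy0) (Real.rpow_nonneg (len_nonneg _) _)))
    have B2 : |∫ w, Psi e q.a q.K₀ q.A' q.R v w *
        (bet' q.C₀ (f t y w) * boltzQ (1 + q.a) b (f t y) w)| ≤
        CP * yv e q.a v * ((1 / ε + K') * Dn (1 + q.a) b δ (f t y) +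
          ε * K' * XS q.a (f t y) univ) + η₁ := by
      have e1 : ∫ w, Psi e q.a q.K₀ q.A' q.R v w *
          (bet' q.C₀ (f t y w) * boltzQ (1 + q.a) b (f t y) w) =
          ∫ w, bet' q.C₀ (f t y w) * boltzQ (1 + q.a) b (f t y) w *
            Psi e q.a q.K₀ q.A' q.R v w := by
        refine integral_congr_ae (Eventually.of_forall fun w => ?_)
        exact mul_comm _ _
      rw [e1]
      exact B1
    have B3 : yv e q.a v * Dn (1 + q.a) b δ (f t y) ≤ 2 * Dn (1 + q.a) b δ (f t y) + 2 * η₁ :=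
      errI_yD hy0 hy2 hη₁.le hD3
    exact errI_sum hK₀ A3 B2 B3 hcp hfin
  have hfinal := EE_der hq hfs hbs hm v herr x
  rw [hmi] at hfinal
  refine le_trans ?_ hfinal
  unfold Xt Zt
  exact errI_end hη.le

end Pool.Agent.H48.PI
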