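import Pool.Agent.H48.PI.Shift
import Pool.Agent.H48.PL.FinP

/-!
# Module BadW: arbitrary windows of length at most one; monotonicity and bounds of the entropy

* `any_window`: `planar_bound` for the shifted solution (`boltz_shift`, `planar_shift`), `GB M (f t₀)` by `glob_bounds`; `K' = max 1 (K exp K)`; `A ≥ 0` because `f ≥ 0`.
* `Hs_anti`: `entropy_le` (H15/AV/Ent; used in `glob_bounds`) for the shifted solution. `Hs_low`: `ent_lower` (H48/PL/EntL) with `glob_bounds`; `Hs` is `∫ F log F dν` by definition.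
-/

set_option autoImplicit false

open MeasureTheory Set Filter Topology Pool.Agent.H25.Kin Pool.Agent.H82.BK Pool.Agent.H82.CM Pool.Agent.H48.PL

namespace Pool.Agent.H48.PI

variable {d : ℕ} {s a α C Ca cb : ℝ} {b : ℝ → ℝ}

theorem any_window (HL : HypL d (1 + a) s b C Ca cb) (P : PP s a α) (e : Fin d) {p : ℕ}
    (hp : (d : ℝ) + (1 + a) + 4 ≤ 2 * p) (M : ℝ) :
    ∃ K' : ℝ, 1 ≤ K' ∧ ∀ (T : ℝ) (f : ℝ → Vec d → Vec d → ℝ), IsBoltzmannSol (1 + a) b T f →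
      Planar e T f → GB M (f 0) → ∀ t₀ t : ℝ, 0 ≤ t₀ → t₀ ≤ t → t ≤ t₀ + 1 → t < T → ∀ A : ℝ,
      (∀ x v, f t₀ x v * (1 + nsq v) ^ p ≤ A) → ∀ x v, f t x v * (1 + nsq v) ^ p ≤ K' * A := by
  obtain ⟨K, hK0, hK⟩ := planar_bound HL P e hp M
  refine ⟨max 1 (K * Real.exp K), le_max_left _ _, ?_⟩
  intro T f hf hpl h0 t₀ t ht0 htt ht1 htT A hA x v
  have ht₀ : t₀ ∈ Ico 0 T := ⟨ht0, htt.trans_lt htT⟩
  have hg : GB M (f t₀) := glob_bounds HL.H hf h0 ht₀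
  have hb := hK (T - t₀) (fun r => f (t₀ + r)) (boltz_shift hf ht0) (planar_shift hpl ht0)
    (by simpa using hg) A (by simpa using hA) (t - t₀) ⟨by linarith, by linarith⟩ x v
  have e : t₀ + (t - t₀) = t := by ring
  simp only [e] at hb
  have hA0 : 0 ≤ A := by
    have h1 := hA 0 0
    have h2 : 0 ≤ f t₀ 0 0 := hf.nonneg t₀ ht₀ 0 0
    have h3 : 0 ≤ nsq (0 : Vec d) := sq_nonneg' _
    have h4 : 0 ≤ f t₀ 0 0 * (1 + nsq (0 : Vec d)) ^ p := mul_nonneg h2 (by positivity)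
    linarith
  have h5 : Real.exp (K * (t - t₀)) ≤ Real.exp K := by
    apply Real.exp_le_exp.mpr
    nlinarith
  calc f t x v * (1 + nsq v) ^ p ≤ K * A * Real.exp (K * (t - t₀)) := hb
    _ ≤ K * A * Real.exp K := mul_le_mul_of_nonneg_left h5 (mul_nonneg hK0 hA0)
    _ = K * Real.exp K * A := by ring
    _ ≤ max 1 (K * Real.exp K) * A := mul_le_mul_of_nonneg_right (le_max_right _ _) hA0

theorem Hs_anti (HL : HypL d (1 + a) s b C Ca cb) {T : ℝ} {f : ℝ → Vec d → Vec d → ℝ}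
    (hf : IsBoltzmannSol (1 + a) b T f) {r t : ℝ} (hr : 0 ≤ r) (hrt : r ≤ t) (ht : t < T) :
    Hs (f t) ≤ Hs (f r) := by
  have hs := boltz_shift hf hr
  have hI := boltz_HasInvariants HL.H hs
  have h1 := Pool.Agent.H15.AV.entropy_le (Q := boltzQ (1 + a) b) (Pool.Agent.H15.AV.hth_boltz HL.H) hs hI
    (t := t - r) ⟨by linarith, by linarith⟩
  have e : r + (t - r) = t := by ring
  simp only [e, add_zero] at h1
  exact h1

theorem Hs_low (HL : HypL d (1 + a) s b C Ca cb) (M : ℝ) : ∃ C₁ : ℝ, 0 ≤ C₁ ∧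
    ∀ (T : ℝ) (f : ℝ → Vec d → Vec d → ℝ), IsBoltzmannSol (1 + a) b T f → GB M (f 0) →
      ∀ t ∈ Ico 0 T, -C₁ ≤ Hs (f t) ∧ Hs (f t) ≤ M := by
  obtain ⟨C₁, hC₁, hE⟩ := ent_lower d M
  refine ⟨C₁, hC₁, fun T f hf h0 t ht => ?_⟩
  have hg : GB M (f t) := glob_bounds HL.H hf h0 ht
  have hRX : RX (f t) := by
    intro N
    obtain ⟨C, hC⟩ := hf.decay t ht.2 N
    refine ⟨C, fun x v => ?_⟩
    rw [abs_of_nonneg (hf.nonneg t ht x v)]
    exact hC t ⟨ht.1, le_rfl⟩ x v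
  exact ⟨(hE (f t) (fun x v => hf.nonneg t ht x v) (IsClassicalSol.cont_slice hf ht) hRX hg.energy).1, hg.entropy⟩

end Pool.Agent.H48.PI
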