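import Pool.Agent.H48.PI.TimW

/-!
# Module TimO: bounds for the time weight

`YY_eq`. `t ∈ [0,T)`, `V_u = max (jb u) R₁`, `V_v = max (jb v) R₁`.
* `YY_osc`: `|yv u - yv v| ≤ 16 min(1,len/jb v)^a` (`yv_osc`); `|Zt(V_u) - Zt(V_v)| ≤ 4 (|V_u-V_v|/max V_u V_v) Zt(R₁)` (`Zt_osc`), `|V_u - V_v| ≤ |jb u - jb v| ≤ len(u-v)` (`jb_lip`), `max V_u V_v ≥ jb v`, `|V_u-V_v| ≤ max V_u V_v`, so the quotient is `≤ min 1 (len(u-v)/jb v) ≤ min(..)^a`.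
  Integrate over `[0,t]` (`intervalIntegral.abs_integral_le..`, `norm_integral_le`); `Xt, Zt ≥ 0`.
* `YY_abs`: `0 < yv ≤ 2` (`yv_le`), `0 ≤ Zt(V_v) ≤ Zt(R₁)` (`Zt_anti`).
-/

set_option autoImplicit false

open MeasureTheory Set Filter Topology Pool.Agent.H25.Kin Pool.Agent.H48.PL

namespace Pool.Agent.H48.PI

variable {d : ℕ} {a T ε₁ K₁ R₁ c₂ : ℝ} {Q f : ℝ → Vec d → Vec d → ℝ} {e : Fin d}

private lemma ti_Zt (ha : 0 < a) (ha1 : a ≤ 1) (hf : IsClassicalSol T Q f) {V : ℝ} (hV : 0 < V) {t : ℝ}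
    (ht : t ∈ Ico 0 T) : IntervalIntegrable (fun τ => Zt a f τ V) volume 0 t := by
  refine ContinuousOn.intervalIntegrable ?_
  rw [uIcc_of_le ht.1]
  have h := Zt_cont ha.le ha1 hf
  refine h.comp (f := fun τ : ℝ => (τ, V)) (by fun_prop) fun τ hτ => ?_
  exact ⟨⟨hτ.1, hτ.2.trans_lt ht.2⟩, hV⟩

private lemma mem_of {t τ : ℝ} (ht : t ∈ Ico 0 T) (h : τ ∈ Icc 0 t) : τ ∈ Ico 0 T :=
  ⟨h.1, h.2.trans_lt ht.2⟩

private lemma ti_quot (ha : 0 < a) (ha1 : a ≤ 1) (u v : Vec d) :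
    |max (jb u) R₁ - max (jb v) R₁| / max (max (jb u) R₁) (max (jb v) R₁) ≤
      min 1 (len (u - v) / jb v) ^ a := by
  have hj := jb_pos v
  have hju := jb_pos u
  have hM : 0 < max (max (jb u) R₁) (max (jb v) R₁) := by
    refine lt_of_lt_of_le hju ((le_max_left _ _).trans (le_max_left _ _))
  have hMv : jb v ≤ max (max (jb u) R₁) (max (jb v) R₁) := (le_max_left _ _).trans (le_max_right _ _)
  have h1 : |max (jb u) R₁ - max (jb v) R₁| ≤ len (u - v) :=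
    (abs_max_sub_max_le_abs _ _ _).trans (jb_lip u v)
  have h2 : |max (jb u) R₁ - max (jb v) R₁| ≤ max (max (jb u) R₁) (max (jb v) R₁) := by
    have p1 : 0 ≤ max (jb u) R₁ := hju.le.trans (le_max_left _ _)
    have p2 : 0 ≤ max (jb v) R₁ := hj.le.trans (le_max_left _ _)
    have p3 : max (jb u) R₁ ≤ max (max (jb u) R₁) (max (jb v) R₁) := le_max_left _ _
    have p4 : max (jb v) R₁ ≤ max (max (jb u) R₁) (max (jb v) R₁) := le_max_right _ _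
    rw [abs_le]
    constructor <;> linarith
  have hl := len_nonneg (u - v)
  have hm0 : 0 ≤ min 1 (len (u - v) / jb v) := le_min zero_le_one (div_nonneg hl hj.le)
  have hm1 : min 1 (len (u - v) / jb v) ≤ 1 := min_le_left _ _
  have h3 : |max (jb u) R₁ - max (jb v) R₁| / max (max (jb u) R₁) (max (jb v) R₁) ≤
      min 1 (len (u - v) / jb v) := by
    refine le_min ((div_le_one hM).2 h2) ?_
    exact div_le_div₀ hl h1 hj hMv
  refine h3.trans ?_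
  have h4 := Real.rpow_le_rpow_of_exponent_ge' hm0 hm1 ha.le ha1
  rwa [Real.rpow_one] at h4

theorem YY_osc (ha : 0 < a) (ha1 : a ≤ 1) (hf : IsClassicalSol T Q f) (hR : 1 ≤ R₁) (hε : 0 ≤ ε₁)
    (hK : 0 ≤ K₁) (hc : 0 ≤ c₂) {t : ℝ} (ht : t ∈ Ico 0 T) (u v : Vec d) :
    |YY e a ε₁ K₁ R₁ c₂ f t u - YY e a ε₁ K₁ R₁ c₂ f t v| ≤
      (16 * ε₁ * (∫ τ in (0 : ℝ)..t, Xt a f τ) + 4 * K₁ * (∫ τ in (0 : ℝ)..t, Zt a f τ R₁) + 16 * c₂ * t) *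
        min 1 (len (u - v) / jb v) ^ a := by
  have hR0 : 0 < R₁ := by linarith
  have hVu : R₁ ≤ max (jb u) R₁ := le_max_right _ _
  have hVv : R₁ ≤ max (jb v) R₁ := le_max_right _ _
  rw [YY_eq ha ha1 hf hR ht, YY_eq ha ha1 hf hR ht]
  set m := min 1 (len (u - v) / jb v) ^ a with hm
  have hy := yv_osc ha ha1 e u v
  rw [← hm] at hy
  have hIX : 0 ≤ ∫ τ in (0 : ℝ)..t, Xt a f τ :=
    intervalIntegral.integral_nonneg ht.1 fun τ hτ => Xt_nonneg ha.le ha1 hf (mem_of ht hτ)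
  set IX := ∫ τ in (0 : ℝ)..t, Xt a f τ with hIXd
  have iu := ti_Zt ha ha1 hf (hR0.trans_le hVu) ht
  have iv := ti_Zt ha ha1 hf (hR0.trans_le hVv) ht
  have iR := ti_Zt ha ha1 hf hR0 ht
  have hZ : |(∫ τ in (0 : ℝ)..t, Zt a f τ (max (jb u) R₁)) -
      ∫ τ in (0 : ℝ)..t, Zt a f τ (max (jb v) R₁)| ≤ 4 * m * ∫ τ in (0 : ℝ)..t, Zt a f τ R₁ := by
    rw [← intervalIntegral.integral_sub iu iv, ← intervalIntegral.integral_const_mul]
    refine (intervalIntegral.abs_integral_le_integral_abs ht.1).trans ?_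
    refine intervalIntegral.integral_mono_on ht.1 (iu.sub iv).abs (iR.const_mul _) fun τ hτ => ?_
    have h1 := Zt_osc ha ha1 hf (mem_of ht hτ) hR0 hVu hVv
    refine h1.trans (mul_le_mul_of_nonneg_right ?_ (Zt_nonneg ha.le ha1 hf (mem_of ht hτ) hR0))
    exact mul_le_mul_of_nonneg_left (ti_quot ha ha1 u v) (by norm_num)
  set Zu := ∫ τ in (0 : ℝ)..t, Zt a f τ (max (jb u) R₁) with hZu
  set Zv := ∫ τ in (0 : ℝ)..t, Zt a f τ (max (jb v) R₁) with hZv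
  set ZR := ∫ τ in (0 : ℝ)..t, Zt a f τ R₁ with hZR
  have e1 : ε₁ * yv e a u * IX + K₁ * Zu - c₂ * yv e a u * t -
      (ε₁ * yv e a v * IX + K₁ * Zv - c₂ * yv e a v * t) =
      (ε₁ * IX) * (yv e a u - yv e a v) + K₁ * (Zu - Zv) - (c₂ * t) * (yv e a u - yv e a v) := by
    ring
  rw [e1]
  have hct : 0 ≤ c₂ * t := mul_nonneg hc ht.1
  have hεI : 0 ≤ ε₁ * IX := mul_nonneg hε hIX
  have b1 : |(ε₁ * IX) * (yv e a u - yv e a v)| ≤ (ε₁ * IX) * (16 * m) := by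
    rw [abs_mul, abs_of_nonneg hεI]
    exact mul_le_mul_of_nonneg_left hy hεI
  have b2 : |K₁ * (Zu - Zv)| ≤ K₁ * (4 * m * ZR) := by
    rw [abs_mul, abs_of_nonneg hK]
    exact mul_le_mul_of_nonneg_left hZ hK
  have b3 : |(c₂ * t) * (yv e a u - yv e a v)| ≤ (c₂ * t) * (16 * m) := by
    rw [abs_mul, abs_of_nonneg hct]
    exact mul_le_mul_of_nonneg_left hy hct
  have b4 := abs_sub ((ε₁ * IX) * (yv e a u - yv e a v) + K₁ * (Zu - Zv))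
    ((c₂ * t) * (yv e a u - yv e a v))
  have b5 := abs_add_le ((ε₁ * IX) * (yv e a u - yv e a v)) (K₁ * (Zu - Zv))
  have e2 : (16 * ε₁ * IX + 4 * K₁ * ZR + 16 * c₂ * t) * m =
      (ε₁ * IX) * (16 * m) + K₁ * (4 * m * ZR) + (c₂ * t) * (16 * m) := by ring
  rw [e2]
  linarith

theorem YY_abs (ha : 0 < a) (ha1 : a ≤ 1) (hf : IsClassicalSol T Q f) (hR : 1 ≤ R₁) (hε : 0 ≤ ε₁)
    (hK : 0 ≤ K₁) (hc : 0 ≤ c₂) {t : ℝ} (ht : t ∈ Ico 0 T) (v : Vec d) :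
    |YY e a ε₁ K₁ R₁ c₂ f t v| ≤
      2 * ε₁ * (∫ τ in (0 : ℝ)..t, Xt a f τ) + K₁ * (∫ τ in (0 : ℝ)..t, Zt a f τ R₁) + 2 * c₂ * t := by
  have hR0 : 0 < R₁ := by linarith
  have hVv : R₁ ≤ max (jb v) R₁ := le_max_right _ _
  rw [YY_eq ha ha1 hf hR ht]
  have hIX : 0 ≤ ∫ τ in (0 : ℝ)..t, Xt a f τ :=
    intervalIntegral.integral_nonneg ht.1 fun τ hτ => Xt_nonneg ha.le ha1 hf (mem_of ht hτ)
  have iv := ti_Zt ha ha1 hf (hR0.trans_le hVv) ht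
  have iR := ti_Zt ha ha1 hf hR0 ht
  have hZ0 : 0 ≤ ∫ τ in (0 : ℝ)..t, Zt a f τ (max (jb v) R₁) :=
    intervalIntegral.integral_nonneg ht.1 fun τ hτ =>
      Zt_nonneg ha.le ha1 hf (mem_of ht hτ) (hR0.trans_le hVv)
  have hZ1 : (∫ τ in (0 : ℝ)..t, Zt a f τ (max (jb v) R₁)) ≤ ∫ τ in (0 : ℝ)..t, Zt a f τ R₁ :=
    intervalIntegral.integral_mono_on ht.1 iv iR fun τ hτ =>
      Zt_anti ha.le ha1 hf (mem_of ht hτ) hR0 hVv
  have hy0 := (yv_pos e a v).le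
  have hy2 := yv_le ha ha1 e v
  have hct : 0 ≤ c₂ * t := mul_nonneg hc ht.1
  have hεI : 0 ≤ ε₁ * ∫ τ in (0 : ℝ)..t, Xt a f τ := mul_nonneg hε hIX
  have a1 := mul_le_mul_of_nonneg_left hy2 hεI
  have a2 := mul_le_mul_of_nonneg_left hy2 hct
  have a3 := mul_le_mul_of_nonneg_left hZ1 hK
  have a4 := mul_nonneg hεI hy0
  have a5 := mul_nonneg hct hy0
  have a6 := mul_nonneg hK hZ0
  rw [abs_le]
  constructor <;> nlinarith

end Pool.Agent.H48.PI
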