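import Pool.Agent.H48.PI.Blk
import Pool.Agent.H48.PI.TimO
import Pool.Agent.H48.PI.Shift
import Pool.Agent.H48.PL.Clos

/-!
# Module WinY: the time weight is small on a window with small entropy drop

`K_X` from `X_bound HL P e M`, `K_T` from `tail_X HL P e M`. `g t = f (t₀ + t)` (`boltz_shift`), a solution on `[0,T-t₀)`, `1 < T - t₀`. `Xt a g τ = Xt a f (t₀+τ)`, so (`intervalIntegral.integral_comp_add_left`) for `t ∈ [0,1]`: `0 ≤ ∫_0^t Xt a g ≤ ∫_{t₀}^{t₀+1} Xt a f ≤ 2 K_X` (`Xt ≥ 0`);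
`0 ≤ ∫_0^t Zt a g V ≤ ∫_{t₀}^{t₀+1} Zt a f V ≤ K_T (2 V^(-(1-a)) + drop)`, `drop = Hs (f t₀) - Hs (f (t₀+1)) ≤ ηw`, `V ≥ 1`.
Constants: `R₁ ≥ 1` with `8 K₁ K_T R₁^(-(1-a)) ≤ δ/8`, `2 K₁ K_T R₁^(-(1-2a)) ≤ c₂/2` (`a < 1/2`); then `ηw` with `4 K₁ K_T ηw ≤ δ/8`, `ε` with `32 ε Cy K_X ≤ δ/8`, `2 ε Cy K_X ≤ c₂/2`. `K₂ = K₁ K_T`.
* oscillation (`YY_osc` with `ε₁ = ε Cy`): `δ/8 + δ/8 + δ/8 + δ/2 ≤ δ`. `|YY|` (`YY_abs`): smaller.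
* `YY 1 v` (`YY_eq`, `V = max (jb v) R₁`): `≤ 2 ε Cy K_X yv + K₁ K_T (2 V^(-(1-a)) + drop) - c₂ yv`, `V^(-(1-a)) = V^(-(1-2a)) V^(-a) ≤ R₁^(-(1-2a)) jb v^(-a) ≤ R₁^(-(1-2a)) yv` (`yv_ge`): `≤ K₂ drop`.
-/

set_option autoImplicit false

open MeasureTheory Set Filter Topology Pool.Agent.H25.Kin Pool.Agent.H82.BK Pool.Agent.H82.CM Pool.Agent.H48.PL

namespace Pool.Agent.H48.PI

variable {d : ℕ} {s a α C Ca cb : ℝ} {b : ℝ → ℝ}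

private lemma wy_rpow {q θ : ℝ} (hq : 0 < q) (hθ : 0 < θ) : ∃ R : ℝ, 1 ≤ R ∧ R ^ (-q) ≤ θ := by
  have h := (tendsto_rpow_neg_atTop hq).eventually (gt_mem_nhds hθ)
  obtain ⟨R, h1, h2⟩ := (h.and (eventually_ge_atTop (1 : ℝ))).exists
  exact ⟨R, h2, le_of_lt h1⟩

private lemma wy_X {T t₀ K : ℝ} {Q f : ℝ → Vec d → Vec d → ℝ} (ha : 0 < a) (ha1 : a ≤ 1)
    (hg : IsClassicalSol (T - t₀) Q (fun t => f (t₀ + t))) (h1 : t₀ + 1 < T)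
    (hX : ∫ τ in t₀..(t₀ + 1), (∫ x, XS a (f τ x) univ ∂(muD d)) ≤ K * (1 + (t₀ + 1 - t₀)))
    {t : ℝ} (ht : t ∈ Icc (0 : ℝ) 1) :
    ∫ τ in (0 : ℝ)..t, Xt a (fun t => f (t₀ + t)) τ ≤ 2 * K := by
  have hlt : (1 : ℝ) < T - t₀ := by linarith
  have hc := Xt_cont ha ha1 hg
  have i1 : IntervalIntegrable (Xt a (fun t => f (t₀ + t))) volume 0 1 := by
    refine ContinuousOn.intervalIntegrable ?_
    rw [uIcc_of_le zero_le_one]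
    exact hc.mono fun τ hτ => ⟨hτ.1, hτ.2.trans_lt hlt⟩
  have h2 : ∫ τ in (0 : ℝ)..t, Xt a (fun t => f (t₀ + t)) τ ≤
      ∫ τ in (0 : ℝ)..1, Xt a (fun t => f (t₀ + t)) τ := by
    refine intervalIntegral.integral_mono_interval le_rfl ht.1 ht.2 ?_ i1
    refine (ae_restrict_iff' measurableSet_Ioc).2 (Eventually.of_forall fun τ hτ => ?_)
    exact Xt_nonneg ha.le ha1 hg ⟨hτ.1.le, hτ.2.trans_lt hlt⟩
  refine h2.trans ?_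
  have h3 : ∫ τ in (0 : ℝ)..1, Xt a (fun t => f (t₀ + t)) τ =
      ∫ τ in t₀..(t₀ + 1), (∫ x, XS a (f τ x) univ ∂(muD d)) := by
    have := intervalIntegral.integral_comp_add_left
      (fun τ => ∫ x, XS a (f τ x) univ ∂(muD d)) (a := 0) (b := 1) t₀
    rw [add_zero] at this
    exact this
  rw [h3]
  refine hX.trans (le_of_eq ?_)
  ring

private lemma wy_Z {T t₀ D V : ℝ} {Q f : ℝ → Vec d → Vec d → ℝ} (ha : 0 < a) (ha1 : a ≤ 1)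
    (hg : IsClassicalSol (T - t₀) Q (fun t => f (t₀ + t))) (h1 : t₀ + 1 < T) (hV : 0 < V)
    (hX : ∫ τ in t₀..(t₀ + 1), (∫ x, XW a V (f τ x) univ ∂(muD d)) ≤ D)
    {t : ℝ} (ht : t ∈ Icc (0 : ℝ) 1) :
    ∫ τ in (0 : ℝ)..t, Zt a (fun t => f (t₀ + t)) τ V ≤ D := by
  have hlt : (1 : ℝ) < T - t₀ := by linarith
  have hc := Zt_cont ha.le ha1 hg
  have i1 : IntervalIntegrable (fun τ => Zt a (fun t => f (t₀ + t)) τ V) volume 0 1 := by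
    refine ContinuousOn.intervalIntegrable ?_
    rw [uIcc_of_le zero_le_one]
    refine hc.comp (f := fun τ : ℝ => (τ, V)) (by fun_prop) fun τ hτ => ?_
    exact ⟨⟨hτ.1, hτ.2.trans_lt hlt⟩, hV⟩
  have h2 : ∫ τ in (0 : ℝ)..t, Zt a (fun t => f (t₀ + t)) τ V ≤
      ∫ τ in (0 : ℝ)..1, Zt a (fun t => f (t₀ + t)) τ V := by
    refine intervalIntegral.integral_mono_interval le_rfl ht.1 ht.2 ?_ i1
    refine (ae_restrict_iff' measurableSet_Ioc).2 (Eventually.of_forall fun τ hτ => ?_)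
    exact Zt_nonneg ha.le ha1 hg ⟨hτ.1.le, hτ.2.trans_lt hlt⟩ hV
  refine h2.trans ?_
  have h3 : ∫ τ in (0 : ℝ)..1, Zt a (fun t => f (t₀ + t)) τ V =
      ∫ τ in t₀..(t₀ + 1), (∫ x, XW a V (f τ x) univ ∂(muD d)) := by
    have := intervalIntegral.integral_comp_add_left
      (fun τ => ∫ x, XW a V (f τ x) univ ∂(muD d)) (a := 0) (b := 1) t₀
    rw [add_zero] at this
    exact this
  rw [h3]
  exact hX

theorem win_YY (HL : HypL d (1 + a) s b C Ca cb) (P : PP s a α) (ha : 0 < a) (ha1 : a < 1 / 2) (e : Fin d) (M : ℝ)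
    {K₁ δ c₂ : ℝ} (hK : 0 ≤ K₁) (hδ : 0 < δ) (hc : 0 < c₂) (hcδ : 16 * c₂ ≤ δ / 2) :
    ∃ R₁ K₂ : ℝ, 1 ≤ R₁ ∧ 0 ≤ K₂ ∧ ∀ Cy : ℝ, 0 ≤ Cy → ∃ ε ηw : ℝ, 0 < ε ∧ ε ≤ 1 ∧ 0 < ηw ∧
    ∀ (T : ℝ) (f : ℝ → Vec d → Vec d → ℝ), IsBoltzmannSol (1 + a) b T f → Planar e T f → GB M (f 0) →
      ∀ t₀ : ℝ, 0 < t₀ → t₀ + 1 < T → Hs (f t₀) - Hs (f (t₀ + 1)) ≤ ηw →
      (∀ t ∈ Icc (0 : ℝ) 1, ∀ u v, |YY e a (ε * Cy) K₁ R₁ c₂ (fun t => f (t₀ + t)) t u -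
        YY e a (ε * Cy) K₁ R₁ c₂ (fun t => f (t₀ + t)) t v| ≤ δ * min 1 (len (u - v) / jb v) ^ a) ∧
      (∀ t ∈ Icc (0 : ℝ) 1, ∀ v, |YY e a (ε * Cy) K₁ R₁ c₂ (fun t => f (t₀ + t)) t v| ≤ δ) ∧
      ∀ v, YY e a (ε * Cy) K₁ R₁ c₂ (fun t => f (t₀ + t)) 1 v ≤
        K₂ * (Hs (f t₀) - Hs (f (t₀ + 1))) := by
  obtain ⟨KX, hKX, hXb⟩ := X_bound HL P e M
  obtain ⟨KT, hKT, hTb⟩ := tail_X HL P e M
  have ha1' : a ≤ 1 := by linarith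
  have hKK : 0 ≤ K₁ * KT := mul_nonneg hK hKT
  set m : ℝ := min (δ / 8) (c₂ / 2) with hm
  have hm0 : 0 < m := lt_min (by linarith) (by linarith)
  have hmδ : m ≤ δ / 8 := min_le_left _ _
  have hmc : m ≤ c₂ / 2 := min_le_right _ _
  obtain ⟨R₁, hR, hRθ⟩ := wy_rpow (q := 1 - 2 * a) (θ := m / (8 * (K₁ * KT) + 1)) (by linarith)
    (by positivity)
  have hR0 : 0 < R₁ := by linarith
  have hRa : R₁ ^ (-(1 - a)) ≤ R₁ ^ (-(1 - 2 * a)) :=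
    Real.rpow_le_rpow_of_exponent_le hR (by linarith)
  have hq0 : 0 ≤ R₁ ^ (-(1 - 2 * a)) := Real.rpow_nonneg hR0.le _
  have hR8 : 8 * (K₁ * KT) * R₁ ^ (-(1 - 2 * a)) ≤ m := by
    have h1 : (8 * (K₁ * KT) + 1) * R₁ ^ (-(1 - 2 * a)) ≤ m := by
      rw [le_div_iff₀ (by positivity)] at hRθ
      linarith
    linarith
  refine ⟨R₁, K₁ * KT, hR, hKK, fun Cy hCy => ?_⟩
  have hCK : 0 ≤ Cy * KX := mul_nonneg hCy hKX
  set ε : ℝ := min 1 (m / (32 * (Cy * KX) + 1)) with hε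
  set ηw : ℝ := δ / 8 / (4 * (K₁ * KT) + 1) with hηw
  have hε0 : 0 < ε := lt_min one_pos (by positivity)
  have hε1 : ε ≤ 1 := min_le_left _ _
  have hη0 : 0 < ηw := by positivity
  have hε32 : 32 * (ε * (Cy * KX)) ≤ m := by
    have h1 : ε ≤ m / (32 * (Cy * KX) + 1) := min_le_right _ _
    rw [le_div_iff₀ (by positivity)] at h1
    linarith
  have hη4 : 4 * (K₁ * KT) * ηw ≤ δ / 8 := by
    have h1 : ηw * (4 * (K₁ * KT) + 1) = δ / 8 := by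
      rw [hηw]; field_simp
    linarith
  refine ⟨ε, ηw, hε0, hε1, hη0, fun T f hf hpl h0 t₀ ht₀ ht1 hdrop => ?_⟩
  have hg := boltz_shift hf ht₀.le
  have hlt : (1 : ℝ) < T - t₀ := by linarith
  have hmem : ∀ t ∈ Icc (0 : ℝ) 1, t ∈ Ico 0 (T - t₀) := fun t ht => ⟨ht.1, ht.2.trans_lt hlt⟩
  have hXX := hXb T f hf hpl h0 t₀ (t₀ + 1) ht₀ (by linarith) ht1
  have hIX : ∀ t ∈ Icc (0 : ℝ) 1, ∫ τ in (0 : ℝ)..t, Xt a (fun t => f (t₀ + t)) τ ≤ 2 * KX :=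
    fun t ht => wy_X ha ha1' hg ht1 hXX ht
  have hIZ : ∀ V : ℝ, 1 ≤ V → ∀ t ∈ Icc (0 : ℝ) 1,
      ∫ τ in (0 : ℝ)..t, Zt a (fun t => f (t₀ + t)) τ V ≤
        KT * (V ^ (-(1 - a)) * 2 + (Hs (f t₀) - Hs (f (t₀ + 1)))) := by
    intro V hV t ht
    refine wy_Z ha ha1' hg ht1 (by linarith) ?_ ht
    have := hTb T f hf hpl h0 V hV t₀ (t₀ + 1) ht₀ (by linarith) ht1
    have e1 : 1 + (t₀ + 1 - t₀) = (2 : ℝ) := by ring
    rwa [e1] at this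
  set D : ℝ := Hs (f t₀) - Hs (f (t₀ + 1)) with hD
  have hεC : 0 ≤ ε * Cy := mul_nonneg hε0.le hCy
  -- bounds of the three terms
  have b1 : ∀ t ∈ Icc (0 : ℝ) 1,
      ε * Cy * ∫ τ in (0 : ℝ)..t, Xt a (fun t => f (t₀ + t)) τ ≤ 2 * (ε * (Cy * KX)) := by
    intro t ht
    have := mul_le_mul_of_nonneg_left (hIX t ht) hεC
    linarith
  have b2 : ∀ t ∈ Icc (0 : ℝ) 1,
      K₁ * ∫ τ in (0 : ℝ)..t, Zt a (fun t => f (t₀ + t)) τ R₁ ≤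
        2 * (K₁ * KT) * R₁ ^ (-(1 - 2 * a)) + K₁ * KT * D := by
    intro t ht
    have h1 := mul_le_mul_of_nonneg_left (hIZ R₁ hR t ht) hK
    have h2 := mul_le_mul_of_nonneg_left hRa hKK
    linarith
  have b3 : K₁ * KT * D ≤ K₁ * KT * ηw := mul_le_mul_of_nonneg_left hdrop hKK
  refine ⟨fun t ht u v => ?_, fun t ht v => ?_, fun v => ?_⟩
  · refine (YY_osc ha ha1' hg hR hεC hK hc.le (hmem t ht) u v).trans ?_
    refine mul_le_mul_of_nonneg_right ?_ ?_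
    · have c1 := b1 t ht
      have c2 := b2 t ht
      have c3 : 16 * c₂ * t ≤ δ / 2 :=
        (mul_le_of_le_one_right (by linarith) ht.2).trans hcδ
      have c4 : 16 * (ε * Cy) * (∫ τ in (0 : ℝ)..t, Xt a (fun t => f (t₀ + t)) τ) ≤
          32 * (ε * (Cy * KX)) := by linarith
      have c5 : 4 * K₁ * (∫ τ in (0 : ℝ)..t, Zt a (fun t => f (t₀ + t)) τ R₁) ≤
          8 * (K₁ * KT) * R₁ ^ (-(1 - 2 * a)) + 4 * (K₁ * KT) * ηw := by linarith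
      linarith
    · exact Real.rpow_nonneg (le_min zero_le_one (div_nonneg (len_nonneg _) (jb_pos v).le)) _
  · refine (YY_abs ha ha1' hg hR hεC hK hc.le (hmem t ht) v).trans ?_
    have c1 := b1 t ht
    have c2 := b2 t ht
    have c3 : 2 * c₂ * t ≤ δ / 2 :=
      (mul_le_of_le_one_right (by linarith) ht.2).trans (by linarith)
    have c4 : 2 * (ε * Cy) * (∫ τ in (0 : ℝ)..t, Xt a (fun t => f (t₀ + t)) τ) ≤
        4 * (ε * (Cy * KX)) := by linarith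
    have c6 : 0 ≤ ε * (Cy * KX) := mul_nonneg hε0.le hCK
    have c7 : 0 ≤ K₁ * KT * R₁ ^ (-(1 - 2 * a)) := mul_nonneg hKK hq0
    have c8 : 0 ≤ K₁ * KT * ηw := mul_nonneg hKK hη0.le
    linarith
  · have h1 : (1 : ℝ) ∈ Icc (0 : ℝ) 1 := ⟨zero_le_one, le_rfl⟩
    rw [YY_eq ha ha1' hg hR (hmem 1 h1)]
    set V : ℝ := max (jb v) R₁ with hVd
    have hVR : R₁ ≤ V := le_max_right _ _
    have hVj : jb v ≤ V := le_max_left _ _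
    have hV1 : 1 ≤ V := hR.trans hVR
    have hV0 : 0 < V := by linarith
    have hy := yv_pos e a v
    have d1 := mul_le_mul_of_nonneg_right (b1 1 h1) hy.le
    have d2 := mul_le_mul_of_nonneg_left (hIZ V hV1 1 h1) hK
    have d3 : V ^ (-(1 - a)) ≤ R₁ ^ (-(1 - 2 * a)) * yv e a v := by
      have e1 : V ^ (-(1 - a)) = V ^ (-(1 - 2 * a)) * V ^ (-a) := by
        rw [← Real.rpow_add hV0]; congr 1; ring
      rw [e1]
      have e2 : V ^ (-(1 - 2 * a)) ≤ R₁ ^ (-(1 - 2 * a)) :=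
        Real.rpow_le_rpow_of_nonpos hR0 hVR (by linarith)
      have e3 : V ^ (-a) ≤ jb v ^ (-a) :=
        Real.rpow_le_rpow_of_nonpos (jb_pos v) hVj (by linarith)
      exact mul_le_mul e2 (e3.trans (yv_ge ha e v)) (Real.rpow_nonneg hV0.le _) hq0
    have d4 := mul_le_mul_of_nonneg_left d3 hKK
    have d5 : 2 * (ε * (Cy * KX)) * yv e a v ≤ c₂ / 2 * yv e a v := by
      refine mul_le_mul_of_nonneg_right ?_ hy.le
      have : 0 ≤ ε * (Cy * KX) := mul_nonneg hε0.le hCK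
      linarith
    have d6 : 2 * (K₁ * KT) * R₁ ^ (-(1 - 2 * a)) * yv e a v ≤ c₂ / 2 * yv e a v := by
      refine mul_le_mul_of_nonneg_right ?_ hy.le
      have : 0 ≤ K₁ * KT * R₁ ^ (-(1 - 2 * a)) := mul_nonneg hKK hq0
      linarith
    have e4 : ε * Cy * yv e a v * (∫ τ in (0 : ℝ)..1, Xt a (fun t => f (t₀ + t)) τ) =
        ε * Cy * (∫ τ in (0 : ℝ)..1, Xt a (fun t => f (t₀ + t)) τ) * yv e a v := by ring
    rw [e4]
    linarith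

end Pool.Agent.H48.PI
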