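import Pool.Agent.H48.PI.WinP
import Pool.Agent.H48.PI.WinY
import Pool.Agent.H48.PI.WinT
import Pool.Agent.H48.PI.ErrI
import Pool.Agent.H48.PI.MaxN

/-!
# Module Win: windows with small entropy drop

Constants: `q, c₁, δ, c₂, N₁` from `win_par`; `K₁` from `dEE_low` (with `K₀ = q.K₀`); `R₁, K₂` from `win_YY` (with `K₁, δ, c₂`); `Cy` from `dEE_low` (with `q, R₁`); `ε, ηw` from `win_YY` (with `Cy`); `Cε` from `dEE_low`. `N = 3 N₁`, `Cd = Cε + K₂`.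
Let `g t = f (t₀ + t)` (solution on `[0, T-t₀)`, `boltz_shift`, restricted to `[0,1)`: `sol_restrict`), mass `= m`-bound and `GB M` at all times (`mass_const`, `glob_bounds`), `FS e (g t) (boltzQ (g t))` for `t ∈ [0,1]` (`fs_of`, time `t₀ + t > 0`).
`E t x v = EE q e (g t) x v + YY t v`, `DE = dEE q e (g t) (boltzQ (g t)) x v + nt t v - c₂ yv v`: `EE_cont`, `YY_cont`, `EE_per`, `EE_char`, `YY_deriv`; `|E| ≤ 2δ ≤ 1/2`. Fix `η > 0`; `dEE_low` on `[t₀, t₀+1]` with `η`, `Dn_low` with `η` (constants `Cl` from `sol_unice`), `drop_lim` on `[t₀,t₀+1]` with `η`: one `δ' > 0` for all three.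
`D t = ∫x Dn δ' (g t x)`, `m t = Cε (D t + η) + η ≥ 0` (`Dn_low` gives `D ≥ -η`), integrable (`Dn_cont`, compact interval `[t₀,t₀+1] ⊆ (0,T)`).
Touching point with `E`-weighted height `≥ 3 N₁`: `touch_E` (sum of the two oscillations `≤ 2δ min^a`), `high_E`, `win_par` (last part), `dEE_low`, `win_par` (average part), `A' ≤ c₁` and `∫ V_e Pg g1 ≥ 0` (`VPg_nonneg`), `g ≥ 0`:
`Q ≤ g [K₀ I₂ - c₁ I₁] ≤ g [K₀ I₂ - A' I₁]` and `K₀ I₂ - A' I₁ ≤ dEE + (K₀ av2 - A' av1) + Cε D + ε Cy yv Xt + K₁ Zt + η ≤ dEE - c₂ yv + nt + Cε D + η ≤ DE + m`.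
`max_high` on `[0,1)`: for `t < 1`: `g W exp(-E) ≤ B exp(∫_0^t m) ≤ B exp(Cε (drop + 2η) + η)` (`∫_0^t m ≤ ∫_0^1 m`, `m ≥ 0`). `η → 0` (`le_of_tendsto` or `ge_of_tendsto`; `E` does not depend on `η`), then `t → 1` by continuity of `g`, `EE`, `YY` on `[0,T-t₀)`; at `t = 1` `exp(YY 1 v) ≤ exp(K₂ drop)`.
-/

set_option autoImplicit false

open MeasureTheory Set Filter Topology Pool.Agent.H25.Kin Pool.Agent.H82.BK Pool.Agent.H82.CM Pool.Agent.H48.PL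

namespace Pool.Agent.H48.PI

variable {d : ℕ} {s a α C Ca cb : ℝ} {b : ℝ → ℝ}

/-- the average of the entropy production is at least `-η` -/
private lemma win_avg (HL : HypL d (1 + a) s b C Ca cb) {T : ℝ} {f : ℝ → Vec d → Vec d → ℝ}
    (hf : IsBoltzmannSol (1 + a) b T f) {δ : ℝ} (hδ : 0 < δ) {t : ℝ} (ht : t ∈ Ioo 0 T) {η : ℝ}
    (h : ∀ y, -η ≤ Dn (1 + a) b δ (f t y)) : -η ≤ ∫ y, Dn (1 + a) b δ (f t y) ∂(muD d) := by
  have h1 : Continuous fun y : Vec d => (t, y) := by fun_prop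
  have h2 : Continuous ((fun q : ℝ × Vec d => Dn (1 + a) b δ (f q.1 q.2)) ∘ fun y : Vec d => (t, y)) :=
    ContinuousOn.comp_continuous (Dn_cont HL hf hδ).1 h1 fun y => ⟨ht, mem_univ _⟩
  have h2' : Continuous fun y : Vec d => Dn (1 + a) b δ (f t y) := h2
  have h3 : Integrable (fun y : Vec d => Dn (1 + a) b δ (f t y)) (muD d) := by
    unfold muD
    exact h2'.continuousOn.integrableOn_compact isCompact_Icc
  have h4 := integral_mono (integrable_const (-η)) h3 h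
  have h5 : (muD d).real univ = 1 := by
    rw [Measure.real, muD_univ]
    rfl
  rw [integral_const, h5, one_smul] at h4
  exact h4

/-- the integral of the error over a part of the window -/
private lemma win_m (HL : HypL d (1 + a) s b C Ca cb) {T : ℝ} {f : ℝ → Vec d → Vec d → ℝ}
    (hf : IsBoltzmannSol (1 + a) b T f) {δ : ℝ} (hδ : 0 < δ) {t₀ : ℝ} (h0 : 0 < t₀) (h1 : t₀ + 1 < T)
    {η Ce : ℝ} (hη : 0 < η) (hCe : 0 ≤ Ce) (h : ∀ t ∈ Icc t₀ (t₀ + 1), ∀ y, -η ≤ Dn (1 + a) b δ (f t y))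
    (hd : |(∫ τ in t₀..(t₀ + 1), (∫ x, Dn (1 + a) b δ (f τ x) ∂(muD d))) -
      (Hs (f t₀) - Hs (f (t₀ + 1)))| ≤ η) :
    IntegrableOn (fun t => Ce * ((∫ x, Dn (1 + a) b δ (f (t₀ + t) x) ∂(muD d)) + η) + η) (Ioo 0 1) ∧
    (∀ t ∈ Ioo (0 : ℝ) 1, 0 ≤ Ce * ((∫ x, Dn (1 + a) b δ (f (t₀ + t) x) ∂(muD d)) + η) + η) ∧
    ∀ t ∈ Ico (0 : ℝ) 1, ∫ r in Ioc 0 t, (Ce * ((∫ x, Dn (1 + a) b δ (f (t₀ + r) x) ∂(muD d)) + η) + η) ≤
      Ce * ((Hs (f t₀) - Hs (f (t₀ + 1))) + 2 * η) + η := by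
  have hcD : ContinuousOn (fun t : ℝ => ∫ x, Dn (1 + a) b δ (f (t₀ + t) x) ∂(muD d)) (Icc 0 1) := by
    have h2 := (Dn_cont HL hf hδ).2
    exact h2.comp (f := fun t : ℝ => t₀ + t) (by fun_prop) fun t ht => ⟨by linarith [ht.1], by linarith [ht.2]⟩
  have hcm : ContinuousOn (fun t : ℝ => Ce * ((∫ x, Dn (1 + a) b δ (f (t₀ + t) x) ∂(muD d)) + η) + η)
      (Icc 0 1) := by
    exact ((hcD.add continuousOn_const).const_smul Ce).add continuousOn_const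
  have hint : IntegrableOn (fun t : ℝ => Ce * ((∫ x, Dn (1 + a) b δ (f (t₀ + t) x) ∂(muD d)) + η) + η)
      (Icc 0 1) := hcm.integrableOn_compact isCompact_Icc
  have hnn : ∀ t ∈ Icc (0 : ℝ) 1, 0 ≤ Ce * ((∫ x, Dn (1 + a) b δ (f (t₀ + t) x) ∂(muD d)) + η) + η := by
    intro t ht
    have h3 := win_avg HL hf hδ (t := t₀ + t) ⟨by linarith [ht.1], by linarith [ht.2]⟩
      (h (t₀ + t) ⟨by linarith [ht.1], by linarith [ht.2]⟩)
    have h4 : 0 ≤ (∫ x, Dn (1 + a) b δ (f (t₀ + t) x) ∂(muD d)) + η := by linarith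
    have := mul_nonneg hCe h4
    linarith
  refine ⟨hint.mono_set Ioo_subset_Icc_self, fun t ht => hnn t (Ioo_subset_Icc_self ht), fun t ht => ?_⟩
  have e1 : ∫ r in Ioc 0 t, (Ce * ((∫ x, Dn (1 + a) b δ (f (t₀ + r) x) ∂(muD d)) + η) + η) ≤
      ∫ r in Ioc 0 1, (Ce * ((∫ x, Dn (1 + a) b δ (f (t₀ + r) x) ∂(muD d)) + η) + η) := by
    refine setIntegral_mono_set (hint.mono_set Ioc_subset_Icc_self) ?_ ?_
    · refine (ae_restrict_iff' measurableSet_Ioc).2 (Eventually.of_forall fun r hr => ?_)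
      exact hnn r (Ioc_subset_Icc_self hr)
    · exact (Ioc_subset_Ioc_right ht.2.le).eventuallyLE
  have hDi : IntervalIntegrable (fun t : ℝ => ∫ x, Dn (1 + a) b δ (f (t₀ + t) x) ∂(muD d)) volume 0 1 := by
    refine ContinuousOn.intervalIntegrable ?_
    rw [uIcc_of_le zero_le_one]
    exact hcD
  have e2 : ∫ r in Ioc 0 1, (Ce * ((∫ x, Dn (1 + a) b δ (f (t₀ + r) x) ∂(muD d)) + η) + η) =
      Ce * ((∫ r in (0 : ℝ)..1, (∫ x, Dn (1 + a) b δ (f (t₀ + r) x) ∂(muD d))) + η) + η := by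
    rw [← intervalIntegral.integral_of_le zero_le_one]
    rw [intervalIntegral.integral_add ((hDi.add intervalIntegrable_const).const_mul Ce)
      intervalIntegrable_const, intervalIntegral.integral_const_mul,
      intervalIntegral.integral_add hDi intervalIntegrable_const]
    simp
  have e3 : ∫ r in (0 : ℝ)..1, (∫ x, Dn (1 + a) b δ (f (t₀ + r) x) ∂(muD d)) =
      ∫ τ in t₀..(t₀ + 1), (∫ x, Dn (1 + a) b δ (f τ x) ∂(muD d)) := by
    have h5 := intervalIntegral.integral_comp_add_left (a := (0 : ℝ)) (b := 1)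
      (fun τ : ℝ => ∫ x, Dn (1 + a) b δ (f τ x) ∂(muD d)) t₀
    rw [add_zero] at h5
    exact h5
  rw [e2, e3] at e1
  refine e1.trans ?_
  have h6 := (abs_le.1 hd).2
  have h7 : (∫ τ in t₀..(t₀ + 1), (∫ x, Dn (1 + a) b δ (f τ x) ∂(muD d))) + η ≤
      (Hs (f t₀) - Hs (f (t₀ + 1))) + 2 * η := by linarith
  have h8 := mul_le_mul_of_nonneg_left h7 hCe
  linarith

/-- the limit `η → 0` -/
private lemma win_lim {X B Ce D : ℝ} (h : ∀ η : ℝ, 0 < η → X ≤ B * Real.exp (Ce * (D + 2 * η) + η)) :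
    X ≤ B * Real.exp (Ce * D) := by
  have hlim : Tendsto (fun η : ℝ => B * Real.exp (Ce * (D + 2 * η) + η)) (𝓝[>] 0)
      (𝓝 (B * Real.exp (Ce * (D + 2 * 0) + 0))) := by
    have : Continuous fun η : ℝ => B * Real.exp (Ce * (D + 2 * η) + η) := by fun_prop
    exact (this.tendsto 0).mono_left nhdsWithin_le_nhds
  have := ge_of_tendsto hlim (by
    filter_upwards [self_mem_nhdsWithin] with η h1 using h η h1)
  simpa using this

/-- the limit `t → 1` -/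
private lemma win_cl {T : ℝ} (hT : 1 < T) {g E : ℝ → Vec d → Vec d → ℝ}
    (hg : ContinuousOn (unc g) (Ico 0 T ×ˢ univ)) (hE : ContinuousOn (unc E) (Ico 0 T ×ˢ univ)) {W K : ℝ}
    {x v : Vec d} (h : ∀ t ∈ Ico (0 : ℝ) 1, g t x v * W * Real.exp (-E t x v) ≤ K) :
    g 1 x v * W * Real.exp (-E 1 x v) ≤ K := by
  have h4 : Continuous fun r : ℝ => (r, x, v) := by fun_prop
  have h1 : ContinuousOn (fun r : ℝ => g r x v) (Ico 0 T) :=
    ContinuousOn.comp (g := unc g) (f := fun r : ℝ => (r, x, v)) hg h4.continuousOn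
      (fun r hr => ⟨hr, mem_univ _⟩)
  have h2 : ContinuousOn (fun r : ℝ => E r x v) (Ico 0 T) :=
    ContinuousOn.comp (g := unc E) (f := fun r : ℝ => (r, x, v)) hE h4.continuousOn
      (fun r hr => ⟨hr, mem_univ _⟩)
  have h3 : ContinuousOn (fun r : ℝ => g r x v * W * Real.exp (-E r x v)) (Ico 0 T) :=
    (h1.mul continuousOn_const).mul (Real.continuous_exp.comp_continuousOn h2.neg)
  have hne : (𝓝[Ico (0 : ℝ) 1] 1).NeBot := by
    rw [← mem_closure_iff_nhdsWithin_neBot, closure_Ico zero_ne_one]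
    exact ⟨zero_le_one, le_rfl⟩
  have h5 : Tendsto (fun r : ℝ => g r x v * W * Real.exp (-E r x v)) (𝓝[Ico (0 : ℝ) 1] 1)
      (𝓝 (g 1 x v * W * Real.exp (-E 1 x v))) :=
    (h3 1 ⟨zero_le_one, hT⟩).mono (Ico_subset_Ico_right hT.le)
  exact le_of_tendsto h5 (eventually_nhdsWithin_of_forall h)

theorem good_window (HL : HypL d (1 + a) s b C Ca cb) (P : PP s a α) (ha1 : a < 1 / 2) (e : Fin d)
    {M : ℝ} (hM : 0 ≤ M) {m : ℝ} (hm : 0 < m) {p : ℕ} (hp : (d : ℝ) + (1 + a) + 4 ≤ 2 * p) :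
    ∃ (q : Par) (N ηw Cd : ℝ), 0 < N ∧ 0 < ηw ∧ 0 ≤ Cd ∧
      ∀ (T : ℝ) (f : ℝ → Vec d → Vec d → ℝ), IsBoltzmannSol (1 + a) b T f → Planar e T f → GB M (f 0) →
        m ≤ ∫ q, f 0 q.2 q.1 ∂(nu d) →
        (∀ t ∈ Ioo 0 T, ∀ x v, |EE q e (f t) x v| ≤ 1) ∧
        ∀ t₀ : ℝ, 0 < t₀ → t₀ + 1 < T → Hs (f t₀) - Hs (f (t₀ + 1)) ≤ ηw → ∀ B : ℝ, N ≤ B →
          (∀ x v, f t₀ x v * (1 + nsq v) ^ p * Real.exp (-EE q e (f t₀) x v) ≤ B) →
          ∀ x v, f (t₀ + 1) x v * (1 + nsq v) ^ p * Real.exp (-EE q e (f (t₀ + 1)) x v) ≤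
            B * Real.exp (Cd * (Hs (f t₀) - Hs (f (t₀ + 1)))) := by
  obtain ⟨hα0, ha, ha2, -⟩ := P.hs0
  have h1 : 2 * s < a := lt_of_lt_of_le P.hα P.hαa
  have ha1' : a ≤ 1 := by linarith
  obtain ⟨q, c₁, δ, c₂, N₁, hq, hqa, hAc, hδ, hδ4, hc₂, hc₂δ, hN₁, hsl, hop⟩ :=
    win_par HL h1 ha ha1 hp e hM hm
  obtain ⟨K₁, hK₁, hdE1⟩ := dEE_low HL h1 ha1 hq.hK
  obtain ⟨R₁, K₂, hR₁, hK₂, hY1⟩ := win_YY HL P ha ha1 e M hK₁ hδ hc₂ hc₂δ
  obtain ⟨Cy, hCy, hdE2⟩ := hdE1 q hq hqa rfl R₁ hR₁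
  obtain ⟨ε, ηw, hε, hε1, hηw, hY⟩ := hY1 Cy hCy
  obtain ⟨Ce, hCe, hdE⟩ := hdE2 ε hε hε1
  refine ⟨q, 3 * N₁, ηw, Ce + K₂, by linarith, hηw, by linarith, ?_⟩
  intro T f hf hpl hG0 hmass
  have hfc : IsClassicalSol T (fun t x => boltzQ (1 + a) b (f t x)) f := hf
  have hgb : ∀ τ ∈ Ico 0 T, GB M (f τ) := fun τ hτ => glob_bounds HL.H hf hG0 hτ
  have hfs : ∀ τ ∈ Ioo 0 T, FS e (f τ) (fun x => boltzQ (1 + a) b (f τ x)) := fun τ hτ =>
    fs_of hf hpl hτ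
  have hmc : ∀ τ ∈ Ico 0 T, m ≤ ∫ p, f τ p.2 p.1 ∂(nu d) := by
    intro τ hτ
    have h2 := Pool.Agent.H15.AV.mass_const (Q := boltzQ (1 + a) b) hf (boltz_HasInvariants HL.H hf) hτ
    rw [h2]
    exact hmass
  have hsl' := fun τ (hτ : τ ∈ Ioo 0 T) =>
    hsl (f τ) _ (hfs τ hτ) (hgb τ ⟨hτ.1.le, hτ.2⟩) (hmc τ ⟨hτ.1.le, hτ.2⟩)
  refine ⟨fun t ht x v => ((hsl' t ht).1 x v).trans (by linarith), ?_⟩
  intro t₀ ht₀ ht₁ hdrop B hB hB0 x v
  obtain ⟨g, hgd⟩ : ∃ g : ℝ → Vec d → Vec d → ℝ, g = fun t => f (t₀ + t) := ⟨_, rfl⟩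
  have hgt : ∀ t, g t = f (t₀ + t) := fun t => by rw [hgd]
  have hgs : IsBoltzmannSol (1 + a) b (T - t₀) g := by
    rw [hgd]
    exact boltz_shift hf ht₀.le
  have hgc : IsClassicalSol (T - t₀) (fun t x => boltzQ (1 + a) b (g t x)) g := hgs
  have hgpl : Planar e (T - t₀) g := by
    rw [hgd]
    exact planar_shift hpl ht₀.le
  have hT1 : 1 < T - t₀ := by linarith
  have hg1 : IsClassicalSol 1 (fun t x => boltzQ (1 + a) b (g t x)) g := sol_restrict hgc hT1.le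
  have hYY := hY T f hf hpl hG0 t₀ ht₀ ht₁ hdrop
  rw [← hgd] at hYY
  obtain ⟨hYo, hYa, hYe⟩ := hYY
  obtain ⟨E, hEd⟩ : ∃ E : ℝ → Vec d → Vec d → ℝ,
    E = fun t x v => EE q e (g t) x v + YY e a (ε * Cy) K₁ R₁ c₂ g t v := ⟨_, rfl⟩
  obtain ⟨DE, hDEd⟩ : ∃ DE : ℝ → Vec d → Vec d → ℝ, DE = fun t x v =>
    dEE q e (g t) (fun y => boltzQ (1 + a) b (g t y)) x v +
      (nt e a (ε * Cy) K₁ R₁ g t v - c₂ * yv e a v) := ⟨_, rfl⟩
  have hEc : ContinuousOn (unc E) (Ico 0 (T - t₀) ×ˢ univ) := by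
    rw [hEd]
    exact (EE_cont hq hgc e).add (YY_cont ha ha1' hgc hR₁)
  have hEc1 : ContinuousOn (unc E) (Ico 0 1 ×ˢ univ) :=
    hEc.mono fun z hz => ⟨⟨hz.1.1, hz.1.2.trans hT1⟩, hz.2⟩
  have hIoo : ∀ t ∈ Icc (0 : ℝ) 1, t₀ + t ∈ Ioo 0 T := fun t ht =>
    ⟨by linarith [ht.1], by linarith [ht.2]⟩
  have hEb : ∀ t ∈ Icc (0 : ℝ) 1, ∀ x v, |E t x v| ≤ 1 / 2 := by
    intro t ht y u
    have e1 := (hsl' (t₀ + t) (hIoo t ht)).1 y u
    rw [← hgt] at e1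
    have e2 := hYa t ht u
    simp only [hEd]
    have := abs_add_le (EE q e (g t) y u) (YY e a (ε * Cy) K₁ R₁ c₂ g t u)
    linarith
  have hEp : ∀ t ∈ Ico (0 : ℝ) 1, ∀ x v i, E t (x + Pi.single i 1) v = E t x v := by
    intro t ht y u i
    simp only [hEd]
    rw [EE_per (hg1.periodic t ht) e y u i]
  have hED : ∀ t ∈ Ioo (0 : ℝ) 1, ∀ x v,
      HasDerivAt (fun r => E r (x + r • v) v) (DE t (x + t • v) v) t := by
    intro t ht y u
    have ht' : t ∈ Ioo 0 (T - t₀) := ⟨ht.1, ht.2.trans hT1⟩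
    rw [hEd, hDEd]
    exact (EE_char hq hgc hgpl ht' y u).add (YY_deriv ha ha1' hgc hR₁ ht' u)
  -- the main estimate
  have hmain : ∀ η : ℝ, 0 < η → ∀ t ∈ Ico (0 : ℝ) 1,
      g t x v * (1 + nsq v) ^ p * Real.exp (-E t x v) ≤
        B * Real.exp (Ce * ((Hs (f t₀) - Hs (f (t₀ + 1))) + 2 * η) + η) := by
    intro η hη t ht
    obtain ⟨δa, hδa, HA⟩ := hdE e T f hf hpl t₀ (t₀ + 1) ht₀ (by linarith) ht₁ η hη
    obtain ⟨Cl, hCl⟩ := Pool.Agent.H15.AV.sol_unice hf ht₀ ht₁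
    obtain ⟨δb, hδb, HB⟩ := Dn_low HL Cl hη
    obtain ⟨δc, hδc, HC⟩ := drop_lim HL hf ht₀ (by linarith : t₀ ≤ t₀ + 1) ht₁ hη
    obtain ⟨δ', hδ', hda, hdb, hdc⟩ : ∃ δ' : ℝ, 0 < δ' ∧ δ' ≤ δa ∧ δ' ≤ δb ∧ δ' ≤ δc :=
      ⟨min δa (min δb δc), lt_min hδa (lt_min hδb hδc), min_le_left _ _,
        (min_le_right _ _).trans (min_le_left _ _), (min_le_right _ _).trans (min_le_right _ _)⟩
    have hDn : ∀ t ∈ Icc t₀ (t₀ + 1), ∀ y, -η ≤ Dn (1 + a) b δ' (f t y) := fun t ht y =>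
      HB δ' ⟨hδ', hdb⟩ (f t y) (hCl t ht y)
    obtain ⟨hmi, hm0, hmI⟩ := win_m HL hf hδ' ht₀ ht₁ hη hCe hDn (HC δ' ⟨hδ', hdc⟩)
    have hQ : ∀ t ∈ Ioo (0 : ℝ) 1, ∀ x v, 3 * N₁ ≤ g t x v * (1 + nsq v) ^ p * Real.exp (-E t x v) →
        (∀ u, g t x u * (1 + nsq u) ^ p * Real.exp (-E t x u) ≤
          g t x v * (1 + nsq v) ^ p * Real.exp (-E t x v)) →
        boltzQ (1 + a) b (g t x) v ≤ g t x v * (DE t x v +
          (Ce * ((∫ x, Dn (1 + a) b δ' (f (t₀ + t) x) ∂(muD d)) + η) + η)) := by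
      intro t ht y u hhigh htch
      have htI : t ∈ Icc (0 : ℝ) 1 := ⟨ht.1.le, ht.2.le⟩
      have ht' : t ∈ Ioo 0 (T - t₀) := ⟨ht.1, ht.2.trans hT1⟩
      have hg0 : ∀ w, 0 ≤ g t y w := hgc.nonneg t ⟨ht'.1.le, ht'.2⟩ y
      obtain ⟨-, hosc, hav⟩ := hsl' (t₀ + t) (hIoo t htI)
      rw [← hgt] at hosc hav
      have hTo : Touch (4 * δ) a p (g t y) u := by
        refine touch_E (E := E t y) ha hδ hδ4 hg0 ?_ htch
        intro w
        have e1 := hosc y w u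
        have e2 := hYo t htI w u
        simp only [hEd]
        have e3 := abs_add_le (EE q e (g t) y w - EE q e (g t) y u)
          (YY e a (ε * Cy) K₁ R₁ c₂ g t w - YY e a (ε * Cy) K₁ R₁ c₂ g t u)
        have e4 : EE q e (g t) y w - EE q e (g t) y u +
          (YY e a (ε * Cy) K₁ R₁ c₂ g t w - YY e a (ε * Cy) K₁ R₁ c₂ g t u) =
          EE q e (g t) y w + YY e a (ε * Cy) K₁ R₁ c₂ g t w -
          (EE q e (g t) y u + YY e a (ε * Cy) K₁ R₁ c₂ g t u) := by ring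
        rw [e4] at e3
        linarith
      have hHi : N₁ ≤ g t y u * (1 + nsq u) ^ p := high_E hN₁ (hEb t htI y u) hhigh
      have hQ1 := hop (g t y) (hgc.nice ht' y) hg0 u hTo hHi
      have hA := HA δ' ⟨hδ', hda⟩ (t₀ + t) ⟨by linarith [ht.1], by linarith [ht.2]⟩ y u
      rw [← hgt] at hA
      have hav' := hav u
      have hI1 : 0 ≤ ∫ w, (u e - w e) * Pg e a u w * (chi q.R w * bet q.C₀ (g t y w)) :=
        integral_nonneg fun w => mul_nonneg (VPg_nonneg ha e u w)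
          (mul_nonneg (chi_nonneg _ _) (bet_nonneg hq.hC (hg0 w)))
      have hI2 : q.A' * (∫ w, (u e - w e) * Pg e a u w * (chi q.R w * bet q.C₀ (g t y w))) ≤
          c₁ * ∫ w, (u e - w e) * Pg e a u w * (chi q.R w * bet q.C₀ (g t y w)) :=
        mul_le_mul_of_nonneg_right hAc hI1
      refine hQ1.trans (mul_le_mul_of_nonneg_left ?_ (hg0 u))
      have hA' : (q.K₀ * ∫ w, (u e - w e) * Ph4 e a u w * (g t y w - chi q.R w * bet q.C₀ (g t y w))) -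
        q.A' * (∫ w, (u e - w e) * Pg e a u w * (chi q.R w * bet q.C₀ (g t y w))) - q.K₀ * av2 q e (g t) u +
        q.A' * av1 q e (g t) u -
        (Ce * (∫ y, Dn (1 + a) b δ' (g t y) ∂(muD d)) + ε * Cy * yv e a u * Xt a f (t₀ + t) +
          K₁ * Zt a f (t₀ + t) (max (jb u) R₁) + η) ≤
        dEE q e (g t) (fun y => boltzQ (1 + a) b (g t y)) y u := hA
      have hX : Xt a f (t₀ + t) = Xt a g t := by
        unfold Xt
        rw [hgt]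
      have hZ : Zt a f (t₀ + t) (max (jb u) R₁) = Zt a g t (max (jb u) R₁) := by
        unfold Zt
        rw [hgt]
      rw [hX, hZ] at hA'
      have hCη : 0 ≤ Ce * η := mul_nonneg hCe hη.le
      rw [← hgt]
      simp only [hDEd]
      unfold nt
      linarith
    have hA₀ : ∀ x v, g 0 x v * (1 + nsq v) ^ p * Real.exp (-E 0 x v) ≤ B := by
      intro y u
      have e1 := hB0 y u
      have e2 : E 0 y u = EE q e (f t₀) y u := by
        simp only [hEd]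
        unfold YY
        rw [hgt, add_zero]
        simp
      rw [e2, hgt, add_zero]
      exact e1
    have key := max_high hg1 p hEc1 hEp (fun T₁ hT₁ => ⟨1 / 2, fun τ hτ y u =>
      hEb τ ⟨hτ.1, hτ.2.trans hT₁.le⟩ y u⟩) hED hmi hm0 hQ hB hA₀ t ht x v
    refine key.trans (mul_le_mul_of_nonneg_left (Real.exp_le_exp.2 (hmI t ht)) ?_)
    linarith
  have hlim : ∀ t ∈ Ico (0 : ℝ) 1, g t x v * (1 + nsq v) ^ p * Real.exp (-E t x v) ≤
      B * Real.exp (Ce * (Hs (f t₀) - Hs (f (t₀ + 1)))) := fun t ht =>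
    win_lim fun η hη => hmain η hη t ht
  have hend := win_cl hT1 hgc.isCont hEc hlim
  have hYv := hYe v
  have hB' : 0 ≤ B := by linarith
  rw [← hgt]
  have e1 : g 1 x v * (1 + nsq v) ^ p * Real.exp (-EE q e (g 1) x v) =
      g 1 x v * (1 + nsq v) ^ p * Real.exp (-E 1 x v) *
        Real.exp (YY e a (ε * Cy) K₁ R₁ c₂ g 1 v) := by
    have e0 : Real.exp (-EE q e (g 1) x v) =
        Real.exp (-E 1 x v) * Real.exp (YY e a (ε * Cy) K₁ R₁ c₂ g 1 v) := by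
      rw [← Real.exp_add]
      simp only [hEd]
      congr 1
      ring
    rw [e0, ← mul_assoc]
  rw [e1]
  have e2 : (Ce + K₂) * (Hs (f t₀) - Hs (f (t₀ + 1))) =
      Ce * (Hs (f t₀) - Hs (f (t₀ + 1))) + K₂ * (Hs (f t₀) - Hs (f (t₀ + 1))) := by ring
  have e3 : Hs (g 1) = Hs (f (t₀ + 1)) := by rw [hgt]
  rw [hgt 1] at hend ⊢
  rw [e2, Real.exp_add, ← mul_assoc]
  refine mul_le_mul hend (Real.exp_le_exp.2 ?_) (Real.exp_pos _).le (mul_nonneg hB' (Real.exp_pos _).le)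
  exact hYv

end Pool.Agent.H48.PI
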