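import Pool.Agent.H48.PI.Win
import Pool.Agent.H48.PI.BadW

/-!
# Module Uni: the uniform pointwise bound

`q, N, ηw, Cd` from `good_window`, `K'` from `any_window`, `C₁` from `Hs_low`. `L = log(exp 2 K') / ηw ≥ 0`, `C' = Cd + L`. For `T ≤ 1` or `t < 1`: `any_window` with `t₀ = 0`.
Claim: for natural `n ≥ 1`, `n < T`: `f n W exp(-EE) ≤ B_n := max (exp 1 K' A₀) N · exp(C' (Hs(f 1) - Hs(f n)))`. `n = 1`: `any_window` from `0` and `|EE| ≤ 1`. Step `n → n+1`, `n + 1 < T`, `drop = Hs(f n) - Hs(f (n+1)) ≥ 0` (`Hs_anti`): if `drop ≤ ηw`: `good_window` (`B_n ≥ N`), factor `exp(Cd drop) ≤ exp(C' drop)`.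
If `drop > ηw`: `f n W ≤ exp 1 B_n`, `any_window`: `f (n+1) W ≤ exp 1 K' B_n`, times `exp(-EE) ≤ exp 1`: factor `exp 2 K' = exp(L ηw) ≤ exp(L drop)`.
`Hs(f 1) - Hs(f n) ≤ M + C₁`. For `t ≥ 1`, `n = ⌊t⌋₊`: `any_window` from `n`: `f t W ≤ K' exp 1 B_n ≤ K (A₀ + 1)` with `K = K' exp 1 (exp 1 K' + N) exp(C' (M + C₁))`.
-/

set_option autoImplicit false

open MeasureTheory Set Filter Topology Pool.Agent.H25.Kin Pool.Agent.H82.BK Pool.Agent.H82.CM Pool.Agent.H48.PL

namespace Pool.Agent.H48.PI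

variable {d : ℕ} {s a α C Ca cb : ℝ} {b : ℝ → ℝ}

theorem planar_uniform (HL : HypL d (1 + a) s b C Ca cb) (P : PP s a α) (ha1 : a < 1 / 2) (e : Fin d)
    {M : ℝ} (hM : 0 ≤ M) {m : ℝ} (hm : 0 < m) {p : ℕ} (hp : (d : ℝ) + (1 + a) + 4 ≤ 2 * p) :
    ∃ K : ℝ, 0 ≤ K ∧ ∀ (T : ℝ) (f : ℝ → Vec d → Vec d → ℝ), IsBoltzmannSol (1 + a) b T f →
      Planar e T f → GB M (f 0) → m ≤ ∫ q, f 0 q.2 q.1 ∂(nu d) →
      ∀ A₀ : ℝ, (∀ x v, f 0 x v * (1 + nsq v) ^ p ≤ A₀) →
      ∀ t ∈ Ico 0 T, ∀ x v, f t x v * (1 + nsq v) ^ p ≤ K * (A₀ + 1) := by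
  obtain ⟨q, N, ηw, Cd, hN, hηw, hCd, hgood⟩ := good_window HL P ha1 e hM hm hp
  obtain ⟨K', hK', hany⟩ := any_window HL P e hp M
  obtain ⟨C₁, hC₁, hlow⟩ := Hs_low HL M
  have hK'0 : 0 < K' := by linarith
  have he1 : 1 ≤ Real.exp 1 := Real.one_le_exp zero_le_one
  have he0 : 0 < Real.exp 1 := Real.exp_pos 1
  set L : ℝ := Real.log (Real.exp 1 * Real.exp 1 * K') / ηw with hL
  have hee : 1 ≤ Real.exp 1 * Real.exp 1 * K' := by
    have h1 : 1 ≤ Real.exp 1 * Real.exp 1 := by nlinarith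
    nlinarith
  have hL0 : 0 ≤ L := div_nonneg (Real.log_nonneg hee) hηw.le
  set C' : ℝ := Cd + L with hC'
  have hC'0 : 0 ≤ C' := by linarith
  have hexp1 : 1 ≤ Real.exp (C' * (M + C₁)) := Real.one_le_exp (by positivity)
  refine ⟨K' * Real.exp 1 * (Real.exp 1 * K' + N) * Real.exp (C' * (M + C₁)), by positivity, ?_⟩
  intro T f hf hpl hG hmass A₀ hA₀ t ht x v
  have hT : 0 < T := ht.1.trans_lt ht.2
  obtain ⟨hE, hwin⟩ := hgood T f hf hpl hG hmass
  have hW : ∀ v : Vec d, 0 < (1 + nsq v) ^ p := fun v => by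
    have : 0 ≤ nsq v := Finset.sum_nonneg fun i _ => sq_nonneg _
    positivity
  have hA0 : 0 ≤ A₀ := by
    refine le_trans (mul_nonneg ?_ (hW v).le) (hA₀ x v)
    exact hf.nonneg 0 ⟨le_rfl, hT⟩ x v
  set B₁ : ℝ := Real.exp 1 * K' * A₀ + N with hB₁
  have hB₁0 : 0 < B₁ := by positivity
  have hB₁N : N ≤ B₁ := by
    have : 0 ≤ Real.exp 1 * K' * A₀ := by positivity
    linarith
  have hexpE : ∀ t ∈ Ioo 0 T, ∀ x v, Real.exp (-EE q e (f t) x v) ≤ Real.exp 1 := by
    intro t ht x v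
    refine Real.exp_le_exp.2 ?_
    have := (abs_le.1 (hE t ht x v)).1
    linarith
  have hexpE' : ∀ t ∈ Ioo 0 T, ∀ x v, Real.exp (EE q e (f t) x v) ≤ Real.exp 1 := by
    intro t ht x v
    exact Real.exp_le_exp.2 (abs_le.1 (hE t ht x v)).2
  have hmain : ∀ n : ℕ, 1 ≤ n → (n : ℝ) < T → ∀ x v,
      f n x v * (1 + nsq v) ^ p * Real.exp (-EE q e (f n) x v) ≤
        B₁ * Real.exp (C' * (Hs (f 1) - Hs (f n))) := by
    intro n hn
    induction n, hn using Nat.le_induction with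
    | base =>
      intro h1 x v
      rw [Nat.cast_one] at h1 ⊢
      have h2 := hany T f hf hpl hG 0 1 le_rfl zero_le_one (by norm_num) h1 A₀ hA₀ x v
      have h3 := hexpE 1 ⟨one_pos, h1⟩ x v
      have h4 : 0 ≤ f 1 x v * (1 + nsq v) ^ p :=
        mul_nonneg (hf.nonneg 1 ⟨zero_le_one, h1⟩ x v) (hW v).le
      rw [sub_self, mul_zero, Real.exp_zero, mul_one]
      calc f 1 x v * (1 + nsq v) ^ p * Real.exp (-EE q e (f 1) x v)
          ≤ K' * A₀ * Real.exp 1 := mul_le_mul h2 h3 (Real.exp_pos _).le (by positivity)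
        _ ≤ B₁ := by
            rw [hB₁]
            nlinarith
    | succ n hn ih =>
      intro h1 x v
      have hcast : ((n + 1 : ℕ) : ℝ) = (n : ℝ) + 1 := by push_cast; ring
      rw [hcast] at h1 ⊢
      have hn0 : (0 : ℝ) < n := by exact_mod_cast hn
      have hnT : (n : ℝ) < T := by linarith
      have ihn := ih hnT
      set B : ℝ := B₁ * Real.exp (C' * (Hs (f 1) - Hs (f n))) with hB
      have hn1 : (1 : ℝ) ≤ n := by exact_mod_cast hn
      have hdrop1 : 0 ≤ Hs (f 1) - Hs (f n) := by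
        have := Hs_anti HL hf zero_le_one hn1 hnT
        linarith
      have hBB : B₁ ≤ B := by
        rw [hB]
        have := Real.one_le_exp (mul_nonneg hC'0 hdrop1)
        nlinarith
      have hB0 : 0 < B := by linarith
      have hdrop : 0 ≤ Hs (f n) - Hs (f (n + 1)) := by
        have := Hs_anti HL hf hn0.le (by linarith : (n : ℝ) ≤ n + 1) h1
        linarith
      have hfin : ∀ z : ℝ, z ≤ B * Real.exp (C' * (Hs (f n) - Hs (f (n + 1)))) →
          z ≤ B₁ * Real.exp (C' * (Hs (f 1) - Hs (f (n + 1)))) := by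
        intro z hz
        refine hz.trans (le_of_eq ?_)
        rw [hB, mul_assoc, ← Real.exp_add]
        congr 2
        ring
      refine hfin _ ?_
      rcases le_or_gt (Hs (f n) - Hs (f (n + 1))) ηw with hc | hc
      · refine (hwin n hn0 h1 hc B (hB₁N.trans hBB) ihn x v).trans ?_
        refine mul_le_mul_of_nonneg_left (Real.exp_le_exp.2 ?_) hB0.le
        exact mul_le_mul_of_nonneg_right (by linarith) hdrop
      · have h2 : ∀ x v, f n x v * (1 + nsq v) ^ p ≤ B * Real.exp 1 := by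
          intro x v
          have h3 := ihn x v
          have h4 := hexpE' n ⟨hn0, hnT⟩ x v
          have h5 : f n x v * (1 + nsq v) ^ p = f n x v * (1 + nsq v) ^ p *
              Real.exp (-EE q e (f n) x v) * Real.exp (EE q e (f n) x v) := by
            rw [mul_assoc, ← Real.exp_add, neg_add_cancel, Real.exp_zero, mul_one]
          rw [h5]
          exact mul_le_mul h3 h4 (Real.exp_pos _).le hB0.le
        have h3 := hany T f hf hpl hG n (n + 1) hn0.le (by linarith) le_rfl h1 _ h2 x v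
        have h4 := hexpE (n + 1) ⟨by linarith, h1⟩ x v
        have h5 : Real.exp 1 * Real.exp 1 * K' ≤ Real.exp (C' * (Hs (f n) - Hs (f (n + 1)))) := by
          have h6 : Real.exp (L * ηw) = Real.exp 1 * Real.exp 1 * K' := by
            rw [hL, div_mul_cancel₀ _ hηw.ne', Real.exp_log (by positivity)]
          rw [← h6]
          refine Real.exp_le_exp.2 ?_
          calc L * ηw ≤ L * (Hs (f n) - Hs (f (n + 1))) := mul_le_mul_of_nonneg_left hc.le hL0
            _ ≤ C' * (Hs (f n) - Hs (f (n + 1))) := mul_le_mul_of_nonneg_right (by linarith) hdrop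
        calc f (n + 1) x v * (1 + nsq v) ^ p * Real.exp (-EE q e (f (n + 1)) x v)
            ≤ K' * (B * Real.exp 1) * Real.exp 1 :=
              mul_le_mul h3 h4 (Real.exp_pos _).le (by positivity)
          _ = B * (Real.exp 1 * Real.exp 1 * K') := by ring
          _ ≤ B * Real.exp (C' * (Hs (f n) - Hs (f (n + 1)))) :=
              mul_le_mul_of_nonneg_left h5 hB0.le
  have hKK : B₁ ≤ (Real.exp 1 * K' + N) * (A₀ + 1) := by
    rw [hB₁]
    have h1 : 0 ≤ N * A₀ := by positivity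
    have h2 : 0 ≤ Real.exp 1 * K' := by positivity
    nlinarith
  have hone : 1 ≤ Real.exp 1 * (Real.exp 1 * K' + N) := by
    have h1 : 1 ≤ Real.exp 1 * K' := by nlinarith
    nlinarith
  rcases lt_or_ge t 1 with h1 | h1
  · have h2 := hany T f hf hpl hG 0 t le_rfl ht.1 (by linarith) ht.2 A₀ hA₀ x v
    refine h2.trans ?_
    have h3 : 1 ≤ Real.exp 1 * (Real.exp 1 * K' + N) * Real.exp (C' * (M + C₁)) := by nlinarith
    have h4 : K' * (A₀ + 1) * 1 ≤ K' * (A₀ + 1) *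
        (Real.exp 1 * (Real.exp 1 * K' + N) * Real.exp (C' * (M + C₁))) :=
      mul_le_mul_of_nonneg_left h3 (by positivity)
    calc K' * A₀ ≤ K' * (A₀ + 1) * 1 := by nlinarith
      _ ≤ _ := h4
      _ = _ := by ring
  · have hn1 : 1 ≤ ⌊t⌋₊ := (Nat.one_le_floor_iff t).2 h1
    have hnt : ((⌊t⌋₊ : ℕ) : ℝ) ≤ t := Nat.floor_le ht.1
    have htn : t ≤ ((⌊t⌋₊ : ℕ) : ℝ) + 1 := (Nat.lt_floor_add_one t).le
    have hn1' : (1 : ℝ) ≤ ((⌊t⌋₊ : ℕ) : ℝ) := by exact_mod_cast hn1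
    set n : ℕ := ⌊t⌋₊ with hn
    have hnT : (n : ℝ) < T := hnt.trans_lt ht.2
    have hn0 : (0 : ℝ) < n := by linarith
    have h2 := hmain n hn1 hnT
    have hH1 := hlow T f hf hG 1 ⟨zero_le_one, by linarith⟩
    have hHn := hlow T f hf hG n ⟨hn0.le, hnT⟩
    have h3 : B₁ * Real.exp (C' * (Hs (f 1) - Hs (f n))) ≤ B₁ * Real.exp (C' * (M + C₁)) := by
      refine mul_le_mul_of_nonneg_left (Real.exp_le_exp.2 ?_) hB₁0.le
      exact mul_le_mul_of_nonneg_left (by linarith [hH1.2, hHn.1]) hC'0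
    have h4 : ∀ x v, f n x v * (1 + nsq v) ^ p ≤ B₁ * Real.exp (C' * (M + C₁)) * Real.exp 1 := by
      intro x v
      have h5 := (h2 x v).trans h3
      have h6 := hexpE' n ⟨hn0, hnT⟩ x v
      have h7 : f n x v * (1 + nsq v) ^ p = f n x v * (1 + nsq v) ^ p *
          Real.exp (-EE q e (f n) x v) * Real.exp (EE q e (f n) x v) := by
        rw [mul_assoc, ← Real.exp_add, neg_add_cancel, Real.exp_zero, mul_one]
      rw [h7]
      exact mul_le_mul h5 h6 (Real.exp_pos _).le (by positivity)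
    have h5 := hany T f hf hpl hG n t hn0.le hnt htn ht.2 _ h4 x v
    refine h5.trans ?_
    calc K' * (B₁ * Real.exp (C' * (M + C₁)) * Real.exp 1)
        = K' * Real.exp 1 * Real.exp (C' * (M + C₁)) * B₁ := by ring
      _ ≤ K' * Real.exp 1 * Real.exp (C' * (M + C₁)) * ((Real.exp 1 * K' + N) * (A₀ + 1)) :=
          mul_le_mul_of_nonneg_left hKK (by positivity)
      _ = _ := by ring

end Pool.Agent.H48.PI
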