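import Pool.Agent.H48.PI.WgP
import Pool.Agent.H82.CM.LowK
import Pool.Agent.H82.NT.OpN
import Pool.Agent.H25.PT.TailX
import Pool.Agent.H48.PI.DnC
import Pool.Agent.H87.PE.Hold
import Pool.Agent.H87.PE.Ren
import Pool.Agent.H87.PE.Drop

/-!
# Module Blk: the interfaces of the blocks of helper82 (nonlinear touching), helper25 (tail), helper87 (errors)

Proved in the folders of these seats; the statements here are the ones used by the modules of this folder.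
-/

set_option autoImplicit false

open MeasureTheory Set Filter Topology Pool.Agent.H25.Kin Pool.Agent.H82.BK Pool.Agent.H82.CM Pool.Agent.H48.PL
open Pool.Agent.H15.AV (UNice gau)

namespace Pool.Agent.H48.PI

variable {d : ℕ} {s a α C Ca cb : ℝ} {b : ℝ → ℝ}

/-- nonlinear touching inequality (helper82) -/
theorem op_nl (HL : HypL d (1 + a) s b C Ca cb) (h1 : 2 * s < a) (ha1 : a ≤ 1) {p : ℕ}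
    (hp : (d : ℝ) + (1 + a) + 4 ≤ 2 * p) (e : Fin d) :
    ∃ K₀ c₁ δ₁ : ℝ, 0 ≤ K₀ ∧ 0 < c₁ ∧ 0 < δ₁ ∧ δ₁ ≤ 1 ∧ ∀ C₀ R : ℝ, 0 < C₀ → 1 ≤ R →
    ∃ N₁ : ℝ, 0 < N₁ ∧ ∀ g g₁ : Vec d → ℝ, Nice g → (∀ u, 0 ≤ g u) → Measurable g₁ → (∀ u, 0 ≤ g₁ u) →
      (∀ u, g₁ u ≤ g u) → (∀ u, g₁ u ≤ C₀) → (∀ u, R < jb u → g₁ u = 0) →
      ∀ v : Vec d, Touch δ₁ a p g v → N₁ ≤ g v * (1 + nsq v) ^ p →
      boltzQ (1 + a) b g v ≤ g v * (K₀ * (∫ w, (v e - w e) * Ph4 e a v w * (g w - g₁ w)) -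
        c₁ * ∫ w, (v e - w e) * Pg e a v w * g₁ w) := by
  obtain ⟨K, κ, δ₁, hK, hκ, hδ, hδ1, h⟩ := Pool.Agent.H82.NT.op_nl HL h1 ha1 hp e
  refine ⟨K, κ, δ₁, hK, hκ, hδ, hδ1, fun C₀ R hC₀ hR => ?_⟩
  obtain ⟨N, hN, h'⟩ := h C₀ R hC₀.le (by linarith)
  exact ⟨N + 1, by linarith, fun g g₁ h2 h3 h4 h5 h6 h7 h8 v h9 h10 =>
    h' g g₁ h2 h3 h4 h5 h6 h7 h8 v h9 (by linarith)⟩

/-- the tail of the collision density (helper25) -/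
theorem tail_X (HL : HypL d (1 + a) s b C Ca cb) (P : PP s a α) (e : Fin d) (M : ℝ) :
    ∃ K : ℝ, 0 ≤ K ∧ ∀ (T : ℝ) (f : ℝ → Vec d → Vec d → ℝ), IsBoltzmannSol (1 + a) b T f →
      Planar e T f → GB M (f 0) → ∀ V : ℝ, 1 ≤ V → ∀ r t : ℝ, 0 < r → r ≤ t → t < T →
      ∫ τ in r..t, (∫ x, XW a V (f τ x) univ ∂(muD d)) ≤
        K * (V ^ (-(1 - a)) * (1 + (t - r)) + (Hs (f r) - Hs (f t))) :=
  Pool.Agent.H25.PT.tail_X HL P e M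

/-- Holder test functions (helper87) -/
theorem err_hold (HL : HypL d (1 + a) s b C Ca cb) (h1 : 2 * s < a) (ha1 : a ≤ 1) :
    ∃ K : ℝ, 0 ≤ K ∧ ∀ R₁ : ℝ, 1 ≤ R₁ → ∀ ε : ℝ, 0 < ε → ε ≤ 1 → ∀ (A₁ : ℝ) (Cl : ℕ → ℝ), ∀ η > 0,
      ∃ δ₀ > 0, ∀ δ ∈ Ioc (0 : ℝ) δ₀, ∀ g : Vec d → ℝ, UNice Cl g → ∀ V₁ : ℝ, 1 ≤ V₁ →
      ∀ A : ℝ, 0 ≤ A → A ≤ A₁ → ∀ ψ : Vec d → ℝ,
      (∀ w w', |ψ w - ψ w'| ≤ A * (om a V₁ (max (jb w) (jb w')) * len (w - w') ^ a)) →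
      |∫ w, boltzQ (1 + a) b g w * ψ w| ≤ 1 / ε * Dn (1 + a) b δ g +
        ε * K * A ^ 2 * R₁ ^ a * om a V₁ R₁ ^ 2 * XS a g univ + K * A * XW a (max V₁ R₁) g univ + η := by
  obtain ⟨K, hK, h⟩ := Pool.Agent.H87.PE.err_hold HL.H h1 ha1
  refine ⟨K, hK, fun R₁ hR₁ ε hε _ A₁ Cl η hη => ?_⟩
  obtain ⟨δ₀, hδ₀, h'⟩ := h R₁ hR₁ ε hε A₁ Cl η hη
  refine ⟨δ₀, hδ₀, fun δ hδ g hg V₁ hV₁ A hA hA₁ ψ hψ => ?_⟩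
  have h2 := h' δ hδ g hg V₁ hV₁ A hA hA₁ ψ hψ
  calc |∫ w, boltzQ (1 + a) b g w * ψ w| ≤ _ := h2
    _ = _ := by ring

/-- renormalized test functions (helper87) -/
theorem err_ren (HL : HypL d (1 + a) s b C Ca cb) (h1 : 2 * s < a) (ha1 : a ≤ 1) :
    ∃ K : ℝ, 0 ≤ K ∧ ∀ ε : ℝ, 0 < ε → ε ≤ 1 → ∀ (A₁ C₀ : ℝ) (Cl : ℕ → ℝ), 0 < C₀ → ∀ η > 0,
      ∃ δ₀ > 0, ∀ δ ∈ Ioc (0 : ℝ) δ₀, ∀ g : Vec d → ℝ, UNice Cl g →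
      ∀ A : ℝ, 0 ≤ A → A ≤ A₁ → ∀ ψ : Vec d → ℝ, (∀ w, |ψ w| ≤ A) →
      (∀ w w', |ψ w - ψ w'| ≤ A * len (w - w') ^ a) →
      |∫ w, bet' C₀ (g w) * boltzQ (1 + a) b g w * ψ w| ≤
        A * ((1 / ε + K) * Dn (1 + a) b δ g + ε * K * XS a g univ) + η := by
  obtain ⟨K, hK, h⟩ := Pool.Agent.H87.PE.err_ren HL.H h1 ha1
  exact ⟨K, hK, fun ε hε hε1 A₁ C₀ Cl hC₀ η hη => h ε hε hε1 C₀ hC₀ A₁ Cl η hη⟩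

/-- the regularized entropy production is almost nonnegative -/
theorem Dn_low (HL : HypL d (1 + a) s b C Ca cb) (Cl : ℕ → ℝ) {η : ℝ} (hη : 0 < η) :
    ∃ δ₀ > 0, ∀ δ ∈ Ioc (0 : ℝ) δ₀, ∀ g : Vec d → ℝ, UNice Cl g → -η ≤ Dn (1 + a) b δ g :=
  Pool.Agent.H87.PE.Dn_ge HL.H Cl hη

/-- its time integral is the entropy drop -/
theorem drop_lim (HL : HypL d (1 + a) s b C Ca cb) {T : ℝ} {f : ℝ → Vec d → Vec d → ℝ}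
    (hf : IsBoltzmannSol (1 + a) b T f) {r t : ℝ} (hr : 0 < r) (hrt : r ≤ t) (ht : t < T) {η : ℝ}
    (hη : 0 < η) : ∃ δ₀ > 0, ∀ δ ∈ Ioc (0 : ℝ) δ₀,
      |(∫ τ in r..t, (∫ x, Dn (1 + a) b δ (f τ x) ∂(muD d))) - (Hs (f r) - Hs (f t))| ≤ η :=
  Pool.Agent.H87.PE.drop_lim HL.H hf hr hrt ht hη

theorem Dn_cont (_ : HypL d (1 + a) s b C Ca cb) {T : ℝ} {f : ℝ → Vec d → Vec d → ℝ}
    (hf : IsBoltzmannSol (1 + a) b T f) {δ : ℝ} (hδ : 0 < δ) :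
    ContinuousOn (fun q : ℝ × Vec d => Dn (1 + a) b δ (f q.1 q.2)) (Ioo 0 T ×ˢ univ) ∧
    ContinuousOn (fun t : ℝ => ∫ x, Dn (1 + a) b δ (f t x) ∂(muD d)) (Ioo 0 T) :=
  Dn_cont' hf hδ

end Pool.Agent.H48.PI
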