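import Pool.Agent.H48.PI.WgP
import Pool.Agent.H48.PI.BetS
import Pool.Agent.H48.PL.CSolP
import Pool.Agent.H48.PL.PlI

/-!
# Module EDef: the weight function `E` and its derivative

`EE = K₀ pot[Ph4] F - pot[Psi] (bet F)`, `l = 1`; `dEE` the derivative along characteristics.
* `EE_cont`, `EE_per`, `EE_char`: `pot_cont`, `pot_per`, `pot_char` (H48/PL) for the solution `f` and for the solution `bet(f)` (`bet_sol`, `bet_planar`), weights `Ph4_PGW`, `Psi_PGW`.
-/

set_option autoImplicit false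

open MeasureTheory Set Filter Topology Pool.Agent.H25.Kin Pool.Agent.H48.PL

namespace Pool.Agent.H48.PI

variable {d : ℕ}

/-- the parameters of the weight -/
structure Par where
  a : ℝ
  K₀ : ℝ
  A' : ℝ
  R : ℝ
  C₀ : ℝ

/-- conditions on the parameters -/
structure Par.Ok (q : Par) : Prop where
  ha : 0 < q.a
  ha1 : q.a < 1 / 2
  hK : 0 ≤ q.K₀
  hA : 0 ≤ q.A'
  hR : 1 ≤ q.R
  hC : 0 < q.C₀

/-- the bounded part `chi bet(F)` -/
noncomputable def g1 (q : Par) (F : Vec d → Vec d → ℝ) (x w : Vec d) : ℝ := chi q.R w * bet q.C₀ (F x w)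

/-- the weight function -/
noncomputable def EE (q : Par) (e : Fin d) (F : Vec d → Vec d → ℝ) (x v : Vec d) : ℝ :=
  q.K₀ * pot e 1 (Ph4 e q.a) F x v -
    pot e 1 (Psi e q.a q.K₀ q.A' q.R) (fun y w => bet q.C₀ (F y w)) x v

/-- its derivative along characteristics -/
noncomputable def dEE (q : Par) (e : Fin d) (F G : Vec d → Vec d → ℝ) (x v : Vec d) : ℝ :=
  q.K₀ * dpot e 1 (Ph4 e q.a) F G x v -
    dpot e 1 (Psi e q.a q.K₀ q.A' q.R) (fun y w => bet q.C₀ (F y w))
      (fun y w => bet' q.C₀ (F y w) * G y w) x v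

/-- the average over the torus of the flux of the unbounded part -/
noncomputable def av2 (q : Par) (e : Fin d) (F : Vec d → Vec d → ℝ) (v : Vec d) : ℝ :=
  ∫ p, (v e - p.1 e) * Ph4 e q.a v p.1 * (F p.2 p.1 - g1 q F p.2 p.1) ∂(nu d)

/-- the average over the torus of the flux of the bounded part -/
noncomputable def av1 (q : Par) (e : Fin d) (F : Vec d → Vec d → ℝ) (v : Vec d) : ℝ :=
  ∫ p, (v e - p.1 e) * Pg e q.a v p.1 * g1 q F p.2 p.1 ∂(nu d)

variable {T : ℝ} {Q f : ℝ → Vec d → Vec d → ℝ} {q : Par}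

theorem EE_cont (hq : q.Ok) (hf : IsClassicalSol T Q f) (e : Fin d) :
    ContinuousOn (unc fun t x v => EE q e (f t) x v) (Ico 0 T ×ˢ univ) := by
  have h1 := pot_cont hf (Ph4_PGW hq.ha e) e one_pos
  have h2 := pot_cont (bet_sol hq.hC hf) (Psi_PGW hq.ha e q.K₀ q.A' q.R) e one_pos
  exact (continuousOn_const.mul h1).sub h2

lemma EE_per {F : Vec d → Vec d → ℝ} (hF : ∀ x v i, F (x + Pi.single i 1) v = F x v) (e : Fin d)
    (x v : Vec d) (i : Fin d) : EE q e F (x + Pi.single i 1) v = EE q e F x v := by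
  unfold EE
  rw [pot_per hF, pot_per (F := fun y w => bet q.C₀ (F y w)) (fun y w j => by
    show bet q.C₀ (F (y + Pi.single j 1) w) = bet q.C₀ (F y w)
    rw [hF])]

theorem EE_char (hq : q.Ok) (hf : IsClassicalSol T Q f) {e : Fin d} (hpl : Planar e T f) {t : ℝ}
    (ht : t ∈ Ioo 0 T) (x v : Vec d) :
    HasDerivAt (fun r => EE q e (f r) (x + r • v) v) (dEE q e (f t) (Q t) (x + t • v) v) t := by
  have h1 := pot_char hf hpl (Ph4_PGW hq.ha e) one_pos ht x v
  have h2 := pot_char (bet_sol hq.hC hf) (bet_planar hpl) (Psi_PGW hq.ha e q.K₀ q.A' q.R) one_pos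
    ht x v
  exact (h1.const_mul q.K₀).sub h2

end Pool.Agent.H48.PI
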