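import Pool.Agent.H48.PI.YvA

/-!
# Module OmA: the weight `om`

`om a V R = min(1,R/V)^(4-a)`, `0 < a < 1`, `V, R > 0`.
* `om_osc`: `V < V'`, `t = V/V' < 1`: `min(1,R/V') ≥ t min(1,R/V)`, so `0 ≤ om V - om V' ≤ om V (1 - t^(4-a))` and `1 - t^(4-a) ≤ (4-a)(1-t) ≤ 4 (V'-V)/V'` (`1 - t^e ≤ e (1-t)`, Bernoulli / `one_add_mul_self_le..`).
* `om_R1`: `min(1,x)^(4-a) ≤ min(1,x)^a ≤ x^a` for `x > 0`, `yv_ge`.
* `om_tail`: `R₁ < R`: if `V ≤ R₁` then `max V R₁ = R₁ < R`, both sides `1`; otherwise `max V R₁ = V`.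
-/

set_option autoImplicit false

open MeasureTheory Set Filter Topology Pool.Agent.H25.Kin Pool.Agent.H48.PL

namespace Pool.Agent.H48.PI

variable {d : ℕ} {a : ℝ}

private lemma om_base_nonneg {V R : ℝ} (hV : 0 < V) (hR : 0 ≤ R) : 0 ≤ min 1 (R / V) :=
  le_min zero_le_one (div_nonneg hR hV.le)

lemma om_nonneg {V R : ℝ} (hV : 0 < V) (hR : 0 ≤ R) : 0 ≤ om a V R :=
  Real.rpow_nonneg (om_base_nonneg hV hR) _

lemma om_le_one (ha1 : a ≤ 1) {V R : ℝ} (hV : 0 < V) (hR : 0 ≤ R) : om a V R ≤ 1 :=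
  Real.rpow_le_one (om_base_nonneg hV hR) (min_le_left _ _) (by linarith)

lemma om_meas (a V : ℝ) : Measurable (om a V) := by
  unfold om
  exact (measurable_const.min (measurable_id.div_const V)).pow_const _

lemma om_mono (ha1 : a ≤ 1) {V R R' : ℝ} (hV : 0 < V) (hR : 0 ≤ R) (h : R ≤ R') : om a V R ≤ om a V R' :=
  Real.rpow_le_rpow (om_base_nonneg hV hR)
    (min_le_min le_rfl (div_le_div_of_nonneg_right h hV.le)) (by linarith)

lemma om_anti (ha1 : a ≤ 1) {V V' R : ℝ} (hV : 0 < V) (hR : 0 ≤ R) (h : V ≤ V') : om a V' R ≤ om a V R :=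
  Real.rpow_le_rpow (om_base_nonneg (hV.trans_le h) hR)
    (min_le_min le_rfl (div_le_div_of_nonneg_left hR hV h)) (by linarith)

private lemma om_osc_aux (ha : 0 < a) (ha1 : a ≤ 1) {V V' R : ℝ} (hV : 0 < V) (h : V ≤ V') (hR : 0 ≤ R) :
    om a V R - om a V' R ≤ 4 * ((V' - V) / V') * om a V R := by
  have hV' : 0 < V' := hV.trans_le h
  obtain ⟨t, ht⟩ : ∃ t, t = V / V' := ⟨_, rfl⟩
  have ht0 : 0 < t := by rw [ht]; positivity
  have ht1 : t ≤ 1 := by rw [ht]; exact (div_le_one hV').2 h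
  have hx0 := om_base_nonneg hV hR
  have hx1 : min 1 (R / V) ≤ 1 := min_le_left _ _
  have h1 : t * min 1 (R / V) ≤ min 1 (R / V') := by
    refine le_min ?_ ?_
    · nlinarith
    · have h2 : t * min 1 (R / V) ≤ t * (R / V) := mul_le_mul_of_nonneg_left (min_le_right _ _) ht0.le
      have h3 : t * (R / V) = R / V' := by
        rw [ht]
        field_simp
      rw [h3] at h2
      exact h2
  have h4 : (t * min 1 (R / V)) ^ (4 - a) ≤ om a V' R :=
    Real.rpow_le_rpow (mul_nonneg ht0.le hx0) h1 (by linarith)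
  rw [Real.mul_rpow ht0.le hx0] at h4
  have h5 : 1 + (4 - a) * (t - 1) ≤ t ^ (4 - a) := by
    have h6 := one_add_mul_self_le_rpow_one_add (s := t - 1) (by linarith) (p := 4 - a) (by linarith)
    rw [add_sub_cancel] at h6
    exact h6
  have h7 : (V' - V) / V' = 1 - t := by
    rw [ht]
    field_simp
  have h8 : om a V R = min 1 (R / V) ^ (4 - a) := rfl
  have h9 : 0 ≤ om a V R := om_nonneg hV hR
  rw [h7]
  rw [← h8] at h4
  have h10 : 1 - t ^ (4 - a) ≤ 4 * (1 - t) := by nlinarith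
  have h11 : (1 - t ^ (4 - a)) * om a V R ≤ 4 * (1 - t) * om a V R := mul_le_mul_of_nonneg_right h10 h9
  nlinarith

lemma om_osc (ha : 0 < a) (ha1 : a ≤ 1) {V V' R : ℝ} (hV : 0 < V) (hV' : 0 < V') (hR : 0 ≤ R) :
    |om a V R - om a V' R| ≤ 4 * (|V - V'| / max V V') * om a (min V V') R := by
  rcases le_total V V' with h | h
  · rw [max_eq_right h, min_eq_left h, abs_sub_comm V V', abs_of_nonneg (sub_nonneg.2 h),
      abs_of_nonneg (sub_nonneg.2 (om_anti ha1 hV hR h))]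
    exact om_osc_aux ha ha1 hV h hR
  · rw [max_eq_left h, min_eq_right h, abs_of_nonneg (sub_nonneg.2 h), abs_sub_comm,
      abs_of_nonneg (sub_nonneg.2 (om_anti ha1 hV' hR h))]
    exact om_osc_aux ha ha1 hV' h hR

lemma om_R1 (ha : 0 < a) (ha1 : a ≤ 1) (e : Fin d) {R₁ : ℝ} (hR₁ : 1 ≤ R₁) (v : Vec d) :
    om a (jb v) R₁ ≤ R₁ ^ a * yv e a v := by
  have hj := jb_pos v
  have hR0 : 0 < R₁ := by linarith
  have hq : 0 < R₁ / jb v := div_pos hR0 hj
  have hx : 0 < min 1 (R₁ / jb v) := lt_min one_pos hq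
  have h1 : om a (jb v) R₁ ≤ min 1 (R₁ / jb v) ^ a :=
    Real.rpow_le_rpow_of_exponent_ge hx (min_le_left _ _) (by linarith)
  have h2 : min 1 (R₁ / jb v) ^ a ≤ (R₁ / jb v) ^ a :=
    Real.rpow_le_rpow hx.le (min_le_right _ _) ha.le
  have h3 : (R₁ / jb v) ^ a = R₁ ^ a * jb v ^ (-a) := by
    rw [Real.div_rpow hR0.le hj.le, Real.rpow_neg hj.le, div_eq_mul_inv]
  rw [h3] at h2
  exact h1.trans (h2.trans (mul_le_mul_of_nonneg_left (yv_ge ha e v) (Real.rpow_nonneg hR0.le _)))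

lemma om_tail {V R₁ R : ℝ} (hV : 0 < V) (hR₁ : 0 < R₁) (h : R₁ < R) : om a V R = om a (max V R₁) R := by
  rcases le_total V R₁ with h1 | h1
  · rw [max_eq_right h1]
    unfold om
    rw [min_eq_left ((one_le_div hV).2 (h1.trans h.le)), min_eq_left ((one_le_div hR₁).2 h.le)]
  · rw [max_eq_left h1]

end Pool.Agent.H48.PI
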