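import Pool.Agent.H48.PI.XWc

/-!
# Module TimW: the time weight

`nt` is the rate, `YY t v = ∫_0^t nt(τ,v) dτ - c₂ yv(v) t`. `Xt` is continuous on `[0,T)` (`XSt_cont` in H48/PL or `XS_cont` and dominated convergence), `Zt` is continuous (`Zt_cont`), `yv` continuous, `max (jb v) R₁ ≥ 1`.
* `nt_cont`: composition. `YY_eq`: linearity of the integral (interval integrability from continuity on `[0,t] ⊆ [0,T)`).
* `YY_deriv`: fundamental theorem of calculus (`intervalIntegral.integral_hasDerivAt_right`, `nt` continuous at `t ∈ (0,T)`).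
* `YY_cont`: on `[0,T₁]`, `T₁ < T`, replace `nt τ v` by `nt (max 0 (min τ T₁)) v`, jointly continuous everywhere, `intervalIntegral.continuous_parametric_intervalIntegral_of_continuous`; the two agree for `τ ∈ [0,T₁]`. A point of `[0,T)` has a neighbourhood in `[0,T)` contained in some `[0,T₁]`.
-/

set_option autoImplicit false

open MeasureTheory Set Filter Topology Pool.Agent.H25.Kin Pool.Agent.H48.PL

namespace Pool.Agent.H48.PI

variable {d : ℕ} {a T ε₁ K₁ R₁ c₂ : ℝ} {Q f : ℝ → Vec d → Vec d → ℝ} {e : Fin d}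

/-- the rate of the time weight -/
noncomputable def nt (e : Fin d) (a ε₁ K₁ R₁ : ℝ) (f : ℝ → Vec d → Vec d → ℝ) (t : ℝ) (v : Vec d) : ℝ :=
  ε₁ * yv e a v * Xt a f t + K₁ * Zt a f t (max (jb v) R₁)

/-- the time weight -/
noncomputable def YY (e : Fin d) (a ε₁ K₁ R₁ c₂ : ℝ) (f : ℝ → Vec d → Vec d → ℝ) (t : ℝ) (v : Vec d) : ℝ :=
  (∫ τ in (0 : ℝ)..t, nt e a ε₁ K₁ R₁ f τ v) - c₂ * yv e a v * t

private lemma timw_yv (e : Fin d) (a : ℝ) : Continuous (yv e a : Vec d → ℝ) := by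
  have h : Continuous fun v : Vec d => (1 + |v e|) / jb v :=
    (continuous_const.add (continuous_apply e).abs).div jb_cont fun v => (jb_pos v).ne'
  refine h.rpow_const fun v => Or.inl ?_
  have := jb_pos v
  positivity

lemma Xt_cont (ha : 0 < a) (ha1 : a ≤ 1) (hf : IsClassicalSol T Q f) : ContinuousOn (Xt a f) (Ico 0 T) :=
  XSt_cont ha.le ha1 hf univ

lemma nt_cont (ha : 0 < a) (ha1 : a ≤ 1) (hf : IsClassicalSol T Q f) (hR : 1 ≤ R₁) :
    ContinuousOn (fun q : ℝ × Vec d => nt e a ε₁ K₁ R₁ f q.1 q.2) (Ico 0 T ×ˢ univ) := by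
  unfold nt
  have h1 : ContinuousOn (fun q : ℝ × Vec d => Xt a f q.1) (Ico 0 T ×ˢ univ) :=
    (Xt_cont ha ha1 hf).comp continuous_fst.continuousOn fun q hq => hq.1
  have h2 : Continuous fun q : ℝ × Vec d => yv e a q.2 := (timw_yv e a).comp continuous_snd
  have h3 : Continuous fun q : ℝ × Vec d => ((q.1, max (jb q.2) R₁) : ℝ × ℝ) :=
    continuous_fst.prodMk ((jb_cont.comp continuous_snd).max continuous_const)
  have h4 : ContinuousOn (fun q : ℝ × Vec d => Zt a f q.1 (max (jb q.2) R₁)) (Ico 0 T ×ˢ univ) :=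
    (Zt_cont ha.le ha1 hf).comp h3.continuousOn fun q hq =>
      ⟨hq.1, (zero_lt_one.trans_le hR).trans_le (le_max_right _ _)⟩
  exact ((continuous_const.mul h2).continuousOn.mul h1).add (continuousOn_const.mul h4)

private lemma timw_X (ha : 0 < a) (ha1 : a ≤ 1) (hf : IsClassicalSol T Q f) {t : ℝ} (ht : t ∈ Ico 0 T) :
    IntervalIntegrable (Xt a f) volume 0 t :=
  ((Xt_cont ha ha1 hf).mono fun _ hτ => ⟨hτ.1, hτ.2.trans_lt ht.2⟩).intervalIntegrable_of_Icc ht.1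

private lemma timw_Z (ha : 0 < a) (ha1 : a ≤ 1) (hf : IsClassicalSol T Q f) {t : ℝ} (ht : t ∈ Ico 0 T)
    {V : ℝ} (hV : 0 < V) : IntervalIntegrable (fun τ => Zt a f τ V) volume 0 t := by
  have h1 : Continuous fun τ : ℝ => ((τ, V) : ℝ × ℝ) := by fun_prop
  have h2 : ContinuousOn (fun τ => Zt a f τ V) (Icc 0 t) :=
    (Zt_cont ha.le ha1 hf).comp h1.continuousOn fun τ hτ => ⟨⟨hτ.1, hτ.2.trans_lt ht.2⟩, hV⟩
  exact h2.intervalIntegrable_of_Icc ht.1

private lemma timw_n (ha : 0 < a) (ha1 : a ≤ 1) (hf : IsClassicalSol T Q f) (hR : 1 ≤ R₁) (v : Vec d) :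
    ContinuousOn (fun τ => nt e a ε₁ K₁ R₁ f τ v) (Ico 0 T) := by
  have hV : 0 < max (jb v) R₁ := (zero_lt_one.trans_le hR).trans_le (le_max_right _ _)
  have h1 : Continuous fun τ : ℝ => ((τ, max (jb v) R₁) : ℝ × ℝ) := by fun_prop
  have h2 : ContinuousOn (fun τ => Zt a f τ (max (jb v) R₁)) (Ico 0 T) :=
    (Zt_cont ha.le ha1 hf).comp h1.continuousOn fun _ hτ => ⟨hτ, hV⟩
  have h3 := Xt_cont ha ha1 hf
  unfold nt
  exact (continuousOn_const.mul h3).add (continuousOn_const.mul h2)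

lemma YY_eq (ha : 0 < a) (ha1 : a ≤ 1) (hf : IsClassicalSol T Q f) (hR : 1 ≤ R₁) {t : ℝ}
    (ht : t ∈ Ico 0 T) (v : Vec d) : YY e a ε₁ K₁ R₁ c₂ f t v =
      ε₁ * yv e a v * (∫ τ in (0 : ℝ)..t, Xt a f τ) + K₁ * (∫ τ in (0 : ℝ)..t, Zt a f τ (max (jb v) R₁)) -
        c₂ * yv e a v * t := by
  have hV : 0 < max (jb v) R₁ := lt_of_lt_of_le (by linarith) (le_max_right _ _)
  unfold YY nt
  rw [intervalIntegral.integral_add ((timw_X ha ha1 hf ht).const_mul _)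
    ((timw_Z ha ha1 hf ht hV).const_mul _), intervalIntegral.integral_const_mul,
    intervalIntegral.integral_const_mul]

lemma YY_deriv (ha : 0 < a) (ha1 : a ≤ 1) (hf : IsClassicalSol T Q f) (hR : 1 ≤ R₁) {t : ℝ}
    (ht : t ∈ Ioo 0 T) (v : Vec d) : HasDerivAt (fun r => YY e a ε₁ K₁ R₁ c₂ f r v)
      (nt e a ε₁ K₁ R₁ f t v - c₂ * yv e a v) t := by
  have hc := timw_n (e := e) (ε₁ := ε₁) (K₁ := K₁) ha ha1 hf hR v
  have hi : IntervalIntegrable (fun τ => nt e a ε₁ K₁ R₁ f τ v) volume 0 t :=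
    (hc.mono fun τ hτ => ⟨hτ.1, hτ.2.trans_lt ht.2⟩).intervalIntegrable_of_Icc ht.1.le
  have hco : ContinuousOn (fun τ => nt e a ε₁ K₁ R₁ f τ v) (Ioo 0 T) := hc.mono Ioo_subset_Ico_self
  have h1 := intervalIntegral.integral_hasDerivAt_right hi
    (hco.stronglyMeasurableAtFilter isOpen_Ioo t ht) (hco.continuousAt (Ioo_mem_nhds ht.1 ht.2))
  have h2 := h1.sub ((hasDerivAt_id t).const_mul (c₂ * yv e a v))
  rw [mul_one] at h2
  exact h2

lemma YY_cont (ha : 0 < a) (ha1 : a ≤ 1) (hf : IsClassicalSol T Q f) (hR : 1 ≤ R₁) :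
    ContinuousOn (unc fun t (_ : Vec d) v => YY e a ε₁ K₁ R₁ c₂ f t v) (Ico 0 T ×ˢ univ) := by
  intro p hp
  have hp1 : p.1 ∈ Ico 0 T := hp.1
  set T₁ : ℝ := (p.1 + T) / 2 with hT₁
  have hlt : T₁ < T := by rw [hT₁]; linarith [hp1.2]
  have hpl : p.1 < T₁ := by rw [hT₁]; linarith [hp1.2]
  have hT0 : 0 ≤ T₁ := hp1.1.trans hpl.le
  have hg : Continuous fun r : (ℝ × Vec d × Vec d) × ℝ =>
      nt e a ε₁ K₁ R₁ f (max 0 (min r.2 T₁)) r.1.2.2 := by
    have h1 : Continuous fun r : (ℝ × Vec d × Vec d) × ℝ =>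
        ((max 0 (min r.2 T₁), r.1.2.2) : ℝ × Vec d) := by fun_prop
    exact (nt_cont (e := e) (ε₁ := ε₁) (K₁ := K₁) ha ha1 hf hR).comp_continuous h1 fun r =>
      ⟨⟨le_max_left _ _, max_lt (hT0.trans_lt hlt) ((min_le_right _ _).trans_lt hlt)⟩, mem_univ _⟩
  have hI : Continuous fun q : ℝ × Vec d × Vec d =>
      ∫ τ in (0 : ℝ)..q.1, nt e a ε₁ K₁ R₁ f (max 0 (min τ T₁)) q.2.2 :=
    intervalIntegral.continuous_parametric_intervalIntegral_of_continuous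
      (f := fun (q : ℝ × Vec d × Vec d) (τ : ℝ) => nt e a ε₁ K₁ R₁ f (max 0 (min τ T₁)) q.2.2)
      hg continuous_fst
  have hy : Continuous fun q : ℝ × Vec d × Vec d => c₂ * yv e a q.2.2 * q.1 :=
    (continuous_const.mul ((timw_yv e a).comp (continuous_snd.comp continuous_snd))).mul
      continuous_fst
  have hG : ContinuousWithinAt (fun q : ℝ × Vec d × Vec d =>
      (∫ τ in (0 : ℝ)..q.1, nt e a ε₁ K₁ R₁ f (max 0 (min τ T₁)) q.2.2) - c₂ * yv e a q.2.2 * q.1)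
      (Ico 0 T ×ˢ univ) p := (hI.sub hy).continuousWithinAt
  have heq : ∀ q : ℝ × Vec d × Vec d, 0 ≤ q.1 → q.1 ≤ T₁ →
      unc (fun t (_ : Vec d) v => YY e a ε₁ K₁ R₁ c₂ f t v) q =
      (∫ τ in (0 : ℝ)..q.1, nt e a ε₁ K₁ R₁ f (max 0 (min τ T₁)) q.2.2) - c₂ * yv e a q.2.2 * q.1 := by
    intro q h0 h1
    change (∫ τ in (0 : ℝ)..q.1, nt e a ε₁ K₁ R₁ f τ q.2.2) - c₂ * yv e a q.2.2 * q.1 = _
    congr 1
    apply intervalIntegral.integral_congr
    intro τ hτ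
    rw [uIcc_of_le h0] at hτ
    have h2 : max 0 (min τ T₁) = τ := by
      rw [min_eq_left (hτ.2.trans h1), max_eq_right hτ.1]
    simp only [h2]
  refine hG.congr_of_eventuallyEq ?_ (heq p hp1.1 hpl.le)
  have hop : {q : ℝ × Vec d × Vec d | q.1 < T₁} ∈ 𝓝 p :=
    (isOpen_lt continuous_fst continuous_const).mem_nhds hpl
  filter_upwards [mem_nhdsWithin_of_mem_nhds hop, self_mem_nhdsWithin] with q hq hq2
  exact heq q hq2.1.1 (le_of_lt hq)

end Pool.Agent.H48.PI
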