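import Pool.Agent.H48.PI.OmA
import Pool.Agent.H48.PL.PhH

/-!
# Module Wg4B: the weight `Ph4` is Holder continuous in `w`

`Ph4 v w = μ(v,w)^4 h(v_e-w_e)`, `μ = min(1, jb w/jb v)`, `h = sp a`, `|h(x)-h(y)| ≤ 2|x-y|^a` (`sp_holder`), `|h(v_e-w_e)| ≤ (jb v + jb w)^a`. Compare H48/PL/PhH.lean (same proofs with the power 4).
`W = max(jb w, jb w')`, say `jb w ≤ jb w' = W`, `μ ≤ μ'`. `om a (jb v) W = μ'^(4-a)`. `|μ'^4 h' - μ^4 h| ≤ μ'^4 |h-h'| + (μ'^4-μ^4)|h|`; first `≤ 2 μ'^(4-a) len^a`; second: zero unless `jb w < jb v`, then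
`|h| ≤ (2 jb v)^a`, `μ'^4-μ^4 ≤ 4 μ'^3 (μ'-μ)` and `μ'-μ ≤ (len/jb v)^a μ'^(1-a)` since `μ'-μ ≤ min(μ', len/jb v)`: `≤ 8 μ'^(4-a) len^a`.
-/

set_option autoImplicit false

open MeasureTheory Set Filter Topology Pool.Agent.H25.Kin Pool.Agent.H48.PL

namespace Pool.Agent.H48.PI

variable {d : ℕ} {a : ℝ}

private lemma wg4b_len_symm (u v : Vec d) : len (u - v) = len (v - u) := by
  unfold len nsq
  congr 1
  apply Finset.sum_congr rfl
  intro i _
  simp only [Pi.sub_apply]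
  ring

private lemma wg4b_two {a c x : ℝ} (ha1 : a ≤ 1) (hc : 1 ≤ c) (hx : 0 ≤ x) :
    (c * x) ^ a ≤ c * x ^ a := by
  have hc0 : 0 ≤ c := zero_le_one.trans hc
  rw [Real.mul_rpow hc0 hx]
  have h1 : c ^ a ≤ c ^ (1 : ℝ) := Real.rpow_le_rpow_of_exponent_le hc ha1
  rw [Real.rpow_one] at h1
  exact mul_le_mul_of_nonneg_right h1 (Real.rpow_nonneg hx a)

private lemma wg4b_sub (e : Fin d) (v w : Vec d) : |v e - w e| ≤ len (v - w) := by
  have h1 := abs_coord_le (v - w) e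
  rwa [Pi.sub_apply] at h1

private lemma wg4b_coord (e : Fin d) (v w : Vec d) : |v e - w e| ≤ jb v + jb w := by
  have h1 := wg4b_sub e v w
  have h2 := len_sub_le v w
  have h3 := len_le_jb v
  have h4 := len_le_jb w
  linarith

private lemma wg4b_split {a x y z : ℝ} (ha : 0 < a) (ha1 : a ≤ 1) (hx : 0 ≤ x) (hy : x ≤ y) (hz : x ≤ z) :
    x ≤ y ^ a * z ^ (1 - a) := by
  rcases eq_or_lt_of_le hx with h0 | h0
  · rw [← h0]
    exact mul_nonneg (Real.rpow_nonneg (hx.trans hy) _) (Real.rpow_nonneg (hx.trans hz) _)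
  · have h1 : x = x ^ a * x ^ (1 - a) := by
      rw [← Real.rpow_add h0]
      have : a + (1 - a) = 1 := by ring
      rw [this, Real.rpow_one]
    calc x = x ^ a * x ^ (1 - a) := h1
      _ ≤ y ^ a * z ^ (1 - a) := mul_le_mul (Real.rpow_le_rpow hx hy ha.le)
          (Real.rpow_le_rpow hx hz (by linarith)) (Real.rpow_nonneg hx _)
          (Real.rpow_nonneg (hx.trans hy) _)

private lemma wg4b_aux (ha : 0 < a) (ha1 : a ≤ 1) (e : Fin d) (v w w' : Vec d)
    (hww : jb w ≤ jb w') :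
    |Ph4 e a v w - Ph4 e a v w'| ≤ 16 * (om a (jb v) (jb w') * len (w - w') ^ a) := by
  unfold Ph4 om
  have hv := jb_pos v
  have hw := jb_pos w
  have hw' := jb_pos w'
  set h := sp a (v e - w e) with hh
  set h' := sp a (v e - w' e) with hh'
  set μ := min 1 (jb w / jb v) with hμ
  set μ' := min 1 (jb w' / jb v) with hμ'
  have hL : 0 ≤ len (w - w') := Real.sqrt_nonneg _
  have hLa : 0 ≤ len (w - w') ^ a := Real.rpow_nonneg hL a
  have hμ0 : 0 < μ := lt_min one_pos (div_pos hw hv)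
  have hμ'0 : 0 < μ' := lt_min one_pos (div_pos hw' hv)
  have hμ'1 : μ' ≤ 1 := min_le_left _ _
  have hμμ : μ ≤ μ' := min_le_min le_rfl (div_le_div_of_nonneg_right hww hv.le)
  have hom : 0 ≤ μ' ^ (4 - a) := Real.rpow_nonneg hμ'0.le _
  have hpow4 : μ' ^ 4 ≤ μ' ^ (4 - a) := by
    have h1 : μ' ^ (4 : ℕ) = μ' ^ (4 : ℝ) := by
      rw [← Real.rpow_natCast]
      norm_num
    rw [h1]
    exact Real.rpow_le_rpow_of_exponent_ge hμ'0 hμ'1 (by linarith)
  have hpow3 : μ' ^ 3 * μ' ^ (1 - a) = μ' ^ (4 - a) := by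
    have h1 : μ' ^ (3 : ℕ) = μ' ^ (3 : ℝ) := by
      rw [← Real.rpow_natCast]
      norm_num
    rw [h1, ← Real.rpow_add hμ'0]
    congr 1
    ring
  have hdiff : |h - h'| ≤ 2 * len (w - w') ^ a := by
    have h1 := sp_holder ha ha1 (v e - w e) (v e - w' e)
    have h2 : |v e - w e - (v e - w' e)| ≤ len (w - w') := by
      have h3 := wg4b_sub e w w'
      have h4 : v e - w e - (v e - w' e) = -(w e - w' e) := by ring
      rw [h4, abs_neg]
      exact h3
    have h5 := Real.rpow_le_rpow (abs_nonneg _) h2 ha.le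
    linarith
  have e1 : μ ^ 4 * h - μ' ^ 4 * h' = μ' ^ 4 * (h - h') - (μ' ^ 4 - μ ^ 4) * h := by ring
  rw [e1]
  have b1 : |μ' ^ 4 * (h - h')| ≤ 2 * (μ' ^ (4 - a) * len (w - w') ^ a) := by
    rw [abs_mul, abs_of_nonneg (by positivity : (0 : ℝ) ≤ μ' ^ 4)]
    calc μ' ^ 4 * |h - h'| ≤ μ' ^ (4 - a) * (2 * len (w - w') ^ a) :=
          mul_le_mul hpow4 hdiff (abs_nonneg _) hom
      _ = 2 * (μ' ^ (4 - a) * len (w - w') ^ a) := by ring
  have b2 : |(μ' ^ 4 - μ ^ 4) * h| ≤ 8 * (μ' ^ (4 - a) * len (w - w') ^ a) := by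
    rcases le_total (jb v) (jb w) with hc | hc
    · have h1 : μ = 1 := min_eq_left ((one_le_div hv).2 hc)
      have h2 : μ' = 1 := le_antisymm hμ'1 (h1 ▸ hμμ)
      rw [h1, h2]
      simp only [sub_self, zero_mul, abs_zero]
      positivity
    · have h3 : |h| ≤ 2 * jb v ^ a := by
        rw [hh, abs_sp]
        have h4 : |v e - w e| ≤ 2 * jb v := by
          have := wg4b_coord e v w
          linarith
        exact (Real.rpow_le_rpow (abs_nonneg _) h4 ha.le).trans (wg4b_two ha1 one_le_two hv.le)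
      have h5 : μ = jb w / jb v := min_eq_right ((div_le_one hv).2 hc)
      have h6 : μ' - μ ≤ len (w - w') / jb v := by
        rw [h5]
        have h7 : μ' ≤ jb w' / jb v := min_le_right _ _
        have h8 : jb w' - jb w ≤ len (w - w') := by
          have h9 := jb_lip w w'
          rw [abs_sub_comm] at h9
          exact (le_abs_self _).trans h9
        have h10 : jb w' / jb v - jb w / jb v ≤ len (w - w') / jb v := by
          rw [← sub_div]
          exact div_le_div_of_nonneg_right h8 hv.le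
        linarith
      have h11 : μ' - μ ≤ (len (w - w') / jb v) ^ a * μ' ^ (1 - a) :=
        wg4b_split ha ha1 (by linarith) h6 (by linarith)
      have h12 : |μ' ^ 4 - μ ^ 4| ≤ 4 * μ' ^ 3 * ((len (w - w') / jb v) ^ a * μ' ^ (1 - a)) := by
        have h13 : μ' ^ 4 - μ ^ 4 = (μ' - μ) * (μ' ^ 3 + μ' ^ 2 * μ + μ' * μ ^ 2 + μ ^ 3) := by ring
        have h14 : μ' ^ 3 + μ' ^ 2 * μ + μ' * μ ^ 2 + μ ^ 3 ≤ 4 * μ' ^ 3 := by
          have i1 : μ' ^ 2 * μ ≤ μ' ^ 2 * μ' := mul_le_mul_of_nonneg_left hμμ (by positivity)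
          have i2 : μ' * μ ^ 2 ≤ μ' * μ' ^ 2 :=
            mul_le_mul_of_nonneg_left (pow_le_pow_left₀ hμ0.le hμμ 2) hμ'0.le
          have i3 : μ ^ 3 ≤ μ' ^ 3 := pow_le_pow_left₀ hμ0.le hμμ 3
          have i4 : μ' ^ 2 * μ' = μ' ^ 3 := by ring
          have i5 : μ' * μ' ^ 2 = μ' ^ 3 := by ring
          linarith
        have h15 : 0 ≤ μ' ^ 3 + μ' ^ 2 * μ + μ' * μ ^ 2 + μ ^ 3 := by positivity
        rw [h13, abs_of_nonneg (mul_nonneg (by linarith) h15)]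
        calc (μ' - μ) * (μ' ^ 3 + μ' ^ 2 * μ + μ' * μ ^ 2 + μ ^ 3)
            ≤ ((len (w - w') / jb v) ^ a * μ' ^ (1 - a)) * (4 * μ' ^ 3) :=
              mul_le_mul h11 h14 h15 (mul_nonneg (Real.rpow_nonneg (div_nonneg hL hv.le) _)
                (Real.rpow_nonneg hμ'0.le _))
          _ = 4 * μ' ^ 3 * ((len (w - w') / jb v) ^ a * μ' ^ (1 - a)) := by ring
      rw [abs_mul]
      have h15 : (len (w - w') / jb v) ^ a * jb v ^ a = len (w - w') ^ a := by
        rw [Real.div_rpow hL hv.le, div_mul_cancel₀]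
        exact (Real.rpow_pos_of_pos hv a).ne'
      calc |μ' ^ 4 - μ ^ 4| * |h|
          ≤ (4 * μ' ^ 3 * ((len (w - w') / jb v) ^ a * μ' ^ (1 - a))) * (2 * jb v ^ a) :=
            mul_le_mul h12 h3 (abs_nonneg _) (mul_nonneg (by positivity)
              (mul_nonneg (Real.rpow_nonneg (div_nonneg hL hv.le) _) (Real.rpow_nonneg hμ'0.le _)))
        _ = 8 * ((μ' ^ 3 * μ' ^ (1 - a)) * ((len (w - w') / jb v) ^ a * jb v ^ a)) := by ring
        _ = 8 * (μ' ^ (4 - a) * len (w - w') ^ a) := by rw [h15, hpow3]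
  have hfin : 0 ≤ μ' ^ (4 - a) * len (w - w') ^ a := mul_nonneg hom hLa
  calc |μ' ^ 4 * (h - h') - (μ' ^ 4 - μ ^ 4) * h|
      ≤ |μ' ^ 4 * (h - h')| + |(μ' ^ 4 - μ ^ 4) * h| := abs_sub _ _
    _ ≤ 16 * (μ' ^ (4 - a) * len (w - w') ^ a) := by linarith

lemma Ph4_holder (ha : 0 < a) (ha1 : a ≤ 1) (e : Fin d) (v w w' : Vec d) :
    |Ph4 e a v w - Ph4 e a v w'| ≤ 16 * (om a (jb v) (max (jb w) (jb w')) * len (w - w') ^ a) := by
  rcases le_total (jb w) (jb w') with h | h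
  · rw [max_eq_right h]
    exact wg4b_aux ha ha1 e v w w' h
  · rw [max_eq_left h, abs_sub_comm, wg4b_len_symm]
    exact wg4b_aux ha ha1 e v w' w h

end Pool.Agent.H48.PI
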