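import Pool.Agent.H48.PI.Wg4
import Pool.Agent.H48.PI.WgPa

/-!
# Module WgP: the weight `Psi` of the bounded part

`Psi v w = chi R w (K₀ Ph4 v w + A' Pg v w)`, `h = sp a`, `μ = min(1, jb w/jb v)`.
* `Psi_bd`: for `jb w ≤ 2R` (otherwise `chi = 0`, `chi_eq_zero`): `|v_e-w_e|^a ≤ (|v_e|+2R)^a ≤ (2R)^a (1+|v_e|)^a`, `μ^4 ≤ μ^a ≤ (2R/jb v)^a`: `|Ph4| ≤ (2R)^(2a) yv`, `|Pg| ≤ (2R)^a yv`.
* `Psi_holder`: both `jb ≤ 2R`: `Ph4_holder`, `om a (jb v) (2R) ≤ (2R)^a yv` (`om_R1`, `om_mono`); `|Pg v w - Pg v w'| ≤ jb v^(-a) 2 len^a ≤ 2 yv len^a` (`yv_ge`, `sp_holder`); `chi_holder` times the `Psi_bd`-bound of `K₀ Ph4 + A' Pg` at the point with `jb ≤ 2R`.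
  One point outside: `|Psi v w| = |chi w - chi w'| |(K₀ Ph4 + A' Pg) v w|`. Both outside: `0`.
-/

set_option autoImplicit false

open MeasureTheory Set Filter Topology Pool.Agent.H25.Kin Pool.Agent.H48.PL

namespace Pool.Agent.H48.PI

variable {d : ℕ} {a K₀ A' R : ℝ}

/-- the weight of the bounded part -/
noncomputable def Psi (e : Fin d) (a K₀ A' R : ℝ) (v w : Vec d) : ℝ :=
  chi R w * (K₀ * Ph4 e a v w + A' * Pg e a v w)

lemma Psi_PGW (ha : 0 < a) (e : Fin d) (K₀ A' R : ℝ) : PGW (Psi e a K₀ A' R) := by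
  obtain ⟨N1, C1, h1, H1⟩ := (Ph4_PGW ha e).le
  obtain ⟨N2, C2, h2, H2⟩ := (Pg_PGW ha e).le
  refine ⟨((chi_cont R).comp continuous_snd).mul
    ((continuous_const.mul (Ph4_PGW ha e).cont).add (continuous_const.mul (Pg_PGW ha e).cont)),
    N1 + N2, |K₀| * C1 + |A'| * C2, by positivity, fun v w => ?_⟩
  have hv : (1 : ℝ) ≤ 1 + ‖v‖ := by linarith [norm_nonneg v]
  have hw : (1 : ℝ) ≤ 1 + ‖w‖ := by linarith [norm_nonneg w]
  have hv0 : (0 : ℝ) ≤ 1 + ‖v‖ := by linarith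
  have hw0 : (0 : ℝ) ≤ 1 + ‖w‖ := by linarith
  have e1 : (1 + ‖v‖) ^ N1 * (1 + ‖w‖) ^ N1 ≤ (1 + ‖v‖) ^ (N1 + N2) * (1 + ‖w‖) ^ (N1 + N2) :=
    mul_le_mul (pow_le_pow_right₀ hv (Nat.le_add_right _ _))
      (pow_le_pow_right₀ hw (Nat.le_add_right _ _)) (pow_nonneg hw0 _) (pow_nonneg hv0 _)
  have e2 : (1 + ‖v‖) ^ N2 * (1 + ‖w‖) ^ N2 ≤ (1 + ‖v‖) ^ (N1 + N2) * (1 + ‖w‖) ^ (N1 + N2) :=
    mul_le_mul (pow_le_pow_right₀ hv (Nat.le_add_left _ _))
      (pow_le_pow_right₀ hw (Nat.le_add_left _ _)) (pow_nonneg hw0 _) (pow_nonneg hv0 _)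
  have g1 : |K₀ * Ph4 e a v w| ≤ |K₀| * (C1 * ((1 + ‖v‖) ^ (N1 + N2) * (1 + ‖w‖) ^ (N1 + N2))) := by
    rw [abs_mul]
    exact mul_le_mul_of_nonneg_left ((H1 v w).trans (mul_le_mul_of_nonneg_left e1 h1)) (abs_nonneg _)
  have g2 : |A' * Pg e a v w| ≤ |A'| * (C2 * ((1 + ‖v‖) ^ (N1 + N2) * (1 + ‖w‖) ^ (N1 + N2))) := by
    rw [abs_mul]
    exact mul_le_mul_of_nonneg_left ((H2 v w).trans (mul_le_mul_of_nonneg_left e2 h2)) (abs_nonneg _)
  have g3 := abs_add_le (K₀ * Ph4 e a v w) (A' * Pg e a v w)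
  have g4 : |Psi e a K₀ A' R v w| ≤ |K₀ * Ph4 e a v w + A' * Pg e a v w| := by
    unfold Psi
    rw [abs_mul, abs_of_nonneg (chi_nonneg R w)]
    exact mul_le_of_le_one_left (abs_nonneg _) (chi_le_one R w)
  refine g4.trans (g3.trans ((add_le_add g1 g2).trans (le_of_eq ?_)))
  ring

/-- the constant of `Psi_bd` -/
private noncomputable def Dc (a K₀ A' R : ℝ) : ℝ := K₀ * ((2 * R) ^ a * (2 * R) ^ a) + A' * (2 * R) ^ a

private lemma Dc_nonneg (hK : 0 ≤ K₀) (hA : 0 ≤ A') (hR : 1 ≤ R) : 0 ≤ Dc a K₀ A' R := by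
  unfold Dc
  have h2 : (0 : ℝ) ≤ 2 * R := by linarith
  have h : 0 ≤ (2 * R) ^ a := Real.rpow_nonneg h2 a
  positivity

private lemma Psi_base (ha : 0 < a) (ha1 : a ≤ 1) (hK : 0 ≤ K₀) (hA : 0 ≤ A') (hR : 1 ≤ R) (e : Fin d)
    (v : Vec d) {w : Vec d} (hw : jb w ≤ 2 * R) :
    |K₀ * Ph4 e a v w + A' * Pg e a v w| ≤ Dc a K₀ A' R * yv e a v := by
  have h2R : (0 : ℝ) < 2 * R := by linarith
  have hv := jb_pos v
  have hwp := jb_pos w
  have h0 : (0 : ℝ) ≤ 1 + |v e| := by linarith [abs_nonneg (v e)]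
  have hwe : |w e| ≤ 2 * R := (abs_coord_le w e).trans ((len_le_jb w).trans hw)
  have hx : |v e - w e| ≤ 2 * R * (1 + |v e|) := by
    have h := abs_sub (v e) (w e)
    nlinarith [abs_nonneg (v e)]
  have hxa : |v e - w e| ^ a ≤ (2 * R) ^ a * (1 + |v e|) ^ a := by
    rw [← Real.mul_rpow h2R.le h0]
    exact Real.rpow_le_rpow (abs_nonneg _) hx ha.le
  have hyv : yv e a v = (1 + |v e|) ^ a * jb v ^ (-a) := by
    unfold yv
    rw [Real.div_rpow h0 hv.le, Real.rpow_neg hv.le, div_eq_mul_inv]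
  have hja : 0 ≤ jb v ^ (-a) := Real.rpow_nonneg hv.le _
  have hRa : 0 ≤ (2 * R) ^ a := Real.rpow_nonneg h2R.le _
  have h0a : 0 ≤ (1 + |v e|) ^ a := Real.rpow_nonneg h0 _
  -- the weight Pg
  have hPg : |Pg e a v w| ≤ (2 * R) ^ a * yv e a v := by
    unfold Pg
    rw [abs_mul, abs_sp, abs_of_nonneg hja, hyv]
    calc jb v ^ (-a) * |v e - w e| ^ a ≤ jb v ^ (-a) * ((2 * R) ^ a * (1 + |v e|) ^ a) :=
          mul_le_mul_of_nonneg_left hxa hja
      _ = (2 * R) ^ a * ((1 + |v e|) ^ a * jb v ^ (-a)) := by ring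
  -- the weight Ph4
  have hPh : |Ph4 e a v w| ≤ (2 * R) ^ a * (2 * R) ^ a * yv e a v := by
    unfold Ph4
    have hmp : 0 < min 1 (jb w / jb v) := lt_min one_pos (by positivity)
    have hm1 : min 1 (jb w / jb v) ≤ 1 := min_le_left _ _
    have hm4 : min 1 (jb w / jb v) ^ 4 ≤ (2 * R) ^ a * jb v ^ (-a) := by
      calc min 1 (jb w / jb v) ^ 4 = min 1 (jb w / jb v) ^ (4 : ℝ) := by
            rw [← Real.rpow_natCast]; norm_num
        _ ≤ min 1 (jb w / jb v) ^ a :=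
            Real.rpow_le_rpow_of_exponent_ge hmp hm1 (by linarith)
        _ ≤ (2 * R / jb v) ^ a := by
            refine Real.rpow_le_rpow hmp.le ((min_le_right _ _).trans ?_) ha.le
            gcongr
        _ = (2 * R) ^ a * jb v ^ (-a) := by
            rw [Real.div_rpow h2R.le hv.le, Real.rpow_neg hv.le, div_eq_mul_inv]
    rw [abs_mul, abs_sp, abs_of_nonneg (pow_nonneg hmp.le 4), hyv]
    calc min 1 (jb w / jb v) ^ 4 * |v e - w e| ^ a
        ≤ ((2 * R) ^ a * jb v ^ (-a)) * ((2 * R) ^ a * (1 + |v e|) ^ a) :=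
          mul_le_mul hm4 hxa (Real.rpow_nonneg (abs_nonneg _) _) (by positivity)
      _ = (2 * R) ^ a * (2 * R) ^ a * ((1 + |v e|) ^ a * jb v ^ (-a)) := by ring
  have h3 := abs_add_le (K₀ * Ph4 e a v w) (A' * Pg e a v w)
  rw [abs_mul, abs_mul, abs_of_nonneg hK, abs_of_nonneg hA] at h3
  have h4 := mul_le_mul_of_nonneg_left hPh hK
  have h5 := mul_le_mul_of_nonneg_left hPg hA
  refine h3.trans ((add_le_add h4 h5).trans (le_of_eq ?_))
  unfold Dc
  ring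

lemma Psi_bd (ha : 0 < a) (ha1 : a ≤ 1) (hK : 0 ≤ K₀) (hA : 0 ≤ A') (hR : 1 ≤ R) :
    ∃ C : ℝ, 0 ≤ C ∧ ∀ (e : Fin d) (v w : Vec d), |Psi e a K₀ A' R v w| ≤ C * yv e a v := by
  refine ⟨Dc a K₀ A' R, Dc_nonneg hK hA hR, fun e v w => ?_⟩
  have hy := (yv_pos e a v).le
  unfold Psi
  rcases le_total (jb w) (2 * R) with h | h
  · rw [abs_mul, abs_of_nonneg (chi_nonneg R w)]
    exact (mul_le_of_le_one_left (abs_nonneg _) (chi_le_one R w)).trans
      (Psi_base ha ha1 hK hA hR e v h)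
  · rw [chi_eq_zero hR h, zero_mul, abs_zero]
    exact mul_nonneg (Dc_nonneg hK hA hR) hy

private lemma Psi_holder_in (ha : 0 < a) (ha1 : a ≤ 1) (hK : 0 ≤ K₀) (hA : 0 ≤ A') (hR : 1 ≤ R) (e : Fin d)
    (v : Vec d) {w w' : Vec d} (hw : jb w ≤ 2 * R) (hw' : jb w' ≤ 2 * R) :
    |(K₀ * Ph4 e a v w + A' * Pg e a v w) - (K₀ * Ph4 e a v w' + A' * Pg e a v w')| ≤
      (16 * K₀ * (2 * R) ^ a + 2 * A') * yv e a v * len (w - w') ^ a := by
  have h2R : (0 : ℝ) < 2 * R := by linarith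
  have hv := jb_pos v
  have hy := (yv_pos e a v).le
  have hl : 0 ≤ len (w - w') ^ a := Real.rpow_nonneg (len_nonneg _) _
  have h1 := Ph4_holder ha ha1 e v w w'
  have h2 : om a (jb v) (max (jb w) (jb w')) ≤ (2 * R) ^ a * yv e a v :=
    (om_mono ha1 hv ((jb_pos w).le.trans (le_max_left _ _)) (max_le hw hw')).trans
      (om_R1 ha ha1 e (by linarith) v)
  have h3 : |Ph4 e a v w - Ph4 e a v w'| ≤ 16 * ((2 * R) ^ a * yv e a v * len (w - w') ^ a) :=
    h1.trans (mul_le_mul_of_nonneg_left (mul_le_mul_of_nonneg_right h2 hl) (by norm_num))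
  have hja : 0 ≤ jb v ^ (-a) := Real.rpow_nonneg hv.le _
  have h4 : |Pg e a v w - Pg e a v w'| ≤ 2 * (yv e a v * len (w - w') ^ a) := by
    unfold Pg
    rw [← mul_sub, abs_mul, abs_of_nonneg hja]
    have hs := sp_holder ha ha1 (v e - w e) (v e - w' e)
    have hx : |v e - w e - (v e - w' e)| ≤ len (w - w') := by
      have h := abs_coord_le (w - w') e
      have e1 : v e - w e - (v e - w' e) = -((w - w') e) := by
        rw [Pi.sub_apply]; ring
      rwa [e1, abs_neg]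
    have hxa := Real.rpow_le_rpow (abs_nonneg _) hx ha.le
    calc jb v ^ (-a) * |sp a (v e - w e) - sp a (v e - w' e)|
        ≤ yv e a v * (2 * len (w - w') ^ a) :=
          mul_le_mul (yv_ge ha e v) (hs.trans (mul_le_mul_of_nonneg_left hxa (by norm_num)))
            (abs_nonneg _) hy
      _ = 2 * (yv e a v * len (w - w') ^ a) := by ring
  have e1 : (K₀ * Ph4 e a v w + A' * Pg e a v w) - (K₀ * Ph4 e a v w' + A' * Pg e a v w') =
      K₀ * (Ph4 e a v w - Ph4 e a v w') + A' * (Pg e a v w - Pg e a v w') := by ring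
  rw [e1]
  have h5 := abs_add_le (K₀ * (Ph4 e a v w - Ph4 e a v w')) (A' * (Pg e a v w - Pg e a v w'))
  rw [abs_mul, abs_mul, abs_of_nonneg hK, abs_of_nonneg hA] at h5
  refine h5.trans ((add_le_add (mul_le_mul_of_nonneg_left h3 hK)
    (mul_le_mul_of_nonneg_left h4 hA)).trans (le_of_eq ?_))
  ring

lemma Psi_holder (ha : 0 < a) (ha1 : a ≤ 1) (hK : 0 ≤ K₀) (hA : 0 ≤ A') (hR : 1 ≤ R) :
    ∃ C : ℝ, 0 ≤ C ∧ ∀ (e : Fin d) (v w w' : Vec d),
      |Psi e a K₀ A' R v w - Psi e a K₀ A' R v w'| ≤ C * yv e a v * len (w - w') ^ a := by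
  have h2R : (0 : ℝ) < 2 * R := by linarith
  have hRa : 0 ≤ (2 * R) ^ a := Real.rpow_nonneg h2R.le _
  have hD := Dc_nonneg (a := a) hK hA hR
  refine ⟨(16 * K₀ * (2 * R) ^ a + 2 * A') + Dc a K₀ A' R, by positivity, fun e v w w' => ?_⟩
  have hy := (yv_pos e a v).le
  have hl : 0 ≤ len (w - w') ^ a := Real.rpow_nonneg (len_nonneg _) _
  have hc := chi_holder hR ha ha1 w w'
  have hE : 0 ≤ (16 * K₀ * (2 * R) ^ a + 2 * A') := by positivity
  have hEt : 0 ≤ (16 * K₀ * (2 * R) ^ a + 2 * A') * yv e a v * len (w - w') ^ a := by positivity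
  have hDt : 0 ≤ Dc a K₀ A' R * yv e a v * len (w - w') ^ a := by positivity
  have key : ∀ G : ℝ, |G| ≤ Dc a K₀ A' R * yv e a v →
      |(chi R w - chi R w') * G| ≤ Dc a K₀ A' R * yv e a v * len (w - w') ^ a := by
    intro G hG
    rw [abs_mul, mul_comm]
    exact mul_le_mul hG hc (abs_nonneg _) (mul_nonneg hD hy)
  have e0 : ((16 * K₀ * (2 * R) ^ a + 2 * A') + Dc a K₀ A' R) * yv e a v * len (w - w') ^ a =
      (16 * K₀ * (2 * R) ^ a + 2 * A') * yv e a v * len (w - w') ^ a +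
        Dc a K₀ A' R * yv e a v * len (w - w') ^ a := by ring
  rw [e0]
  unfold Psi
  rcases le_total (jb w) (2 * R) with h | h
  · rcases le_total (jb w') (2 * R) with h' | h'
    · have h1 := Psi_holder_in ha ha1 hK hA hR e v h h'
      have h2 := key _ (Psi_base ha ha1 hK hA hR e v h')
      have e1 : chi R w * (K₀ * Ph4 e a v w + A' * Pg e a v w) -
          chi R w' * (K₀ * Ph4 e a v w' + A' * Pg e a v w') =
          chi R w * ((K₀ * Ph4 e a v w + A' * Pg e a v w) - (K₀ * Ph4 e a v w' + A' * Pg e a v w')) +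
          (chi R w - chi R w') * (K₀ * Ph4 e a v w' + A' * Pg e a v w') := by ring
      rw [e1]
      refine (abs_add_le _ _).trans (add_le_add ?_ h2)
      rw [abs_mul, abs_of_nonneg (chi_nonneg R w)]
      exact (mul_le_of_le_one_left (abs_nonneg _) (chi_le_one R w)).trans h1
    · have h2 := key _ (Psi_base ha ha1 hK hA hR e v h)
      rw [chi_eq_zero hR h', sub_zero] at h2
      rw [chi_eq_zero hR h', zero_mul, sub_zero]
      linarith
  · rcases le_total (jb w') (2 * R) with h' | h'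
    · have h2 := key _ (Psi_base ha ha1 hK hA hR e v h')
      rw [chi_eq_zero hR h, zero_sub, neg_mul, abs_neg] at h2
      rw [chi_eq_zero hR h, zero_mul, zero_sub, abs_neg]
      linarith
    · rw [chi_eq_zero hR h, chi_eq_zero hR h', zero_mul, zero_mul, sub_zero, abs_zero]
      linarith

end Pool.Agent.H48.PI
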