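import Pool.Agent.H48.PI.OmA
import Pool.Agent.H48.PL.XC
import Pool.Agent.H48.PL.PlI

/-!
# Module XWd: properties of `XW`

`0 ≤ om ≤ 1`, `XW = ∫ dens · om`; integrability of `dens` on slices: XB, XC in H48/PL. `XW_cont`: dominated convergence as in XC (`om` is continuous in `V > 0`, bounded by 1, constant in `f`; `RR > 0`). `XW_pl`: `f t x` depends on `x_e` only, periodic; continuity from `XW_cont`, resp. from XC.
-/

set_option autoImplicit false

open MeasureTheory Set Filter Topology Pool.Agent.H25.Kin Pool.Agent.H48.PL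

namespace Pool.Agent.H48.PI

variable {d : ℕ} {a T : ℝ} {Q f : ℝ → Vec d → Vec d → ℝ}

private lemma xc_kin (ha : 0 ≤ a) (ha1 : a ≤ 1) (v w : Vec d) :
    |len (v - w) ^ (1 + a) * RR v w ^ a| ≤
      32 * ((d : ℝ) + 1) ^ 6 * ((1 + ‖v‖) ^ 3 * (1 + ‖w‖) ^ 3) := by
  have hR := RR_pos v w
  have hR1 := one_le_RR v w
  have hl := len_nonneg (v - w)
  have h0 : 0 ≤ len (v - w) ^ (1 + a) * RR v w ^ a :=
    mul_nonneg (Real.rpow_nonneg hl _) (Real.rpow_nonneg hR.le _)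
  rw [abs_of_nonneg h0]
  have h1 : len (v - w) ^ (1 + a) ≤ (2 * RR v w) ^ (2 : ℕ) := by
    calc len (v - w) ^ (1 + a) ≤ (2 * RR v w) ^ (1 + a) :=
          Real.rpow_le_rpow hl (len_le_RR v w) (by linarith)
      _ ≤ (2 * RR v w) ^ ((2 : ℕ) : ℝ) :=
          Real.rpow_le_rpow_of_exponent_le (by linarith) (by push_cast; linarith)
      _ = (2 * RR v w) ^ (2 : ℕ) := Real.rpow_natCast _ _
  have h2 : RR v w ^ a ≤ RR v w := by
    calc RR v w ^ a ≤ RR v w ^ (1 : ℝ) := Real.rpow_le_rpow_of_exponent_le hR1 ha1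
      _ = RR v w := Real.rpow_one _
  have h3 : RR v w ≤ 2 * (jb v * jb w) := by
    have h4 := RR_le v w
    have h5 := one_le_jb v
    have h6 := one_le_jb w
    nlinarith
  have h4 : jb v * jb w ≤ (((d : ℝ) + 1) * (1 + ‖v‖)) * (((d : ℝ) + 1) * (1 + ‖w‖)) :=
    mul_le_mul (jb_le_w v) (jb_le_w w) (jb_pos w).le (by positivity)
  calc len (v - w) ^ (1 + a) * RR v w ^ a ≤ (2 * RR v w) ^ (2 : ℕ) * RR v w :=
        mul_le_mul h1 h2 (Real.rpow_nonneg hR.le _) (by positivity)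
    _ = 4 * RR v w ^ 3 := by ring
    _ ≤ 4 * (2 * ((((d : ℝ) + 1) * (1 + ‖v‖)) * (((d : ℝ) + 1) * (1 + ‖w‖)))) ^ 3 := by
        gcongr
        linarith
    _ = 32 * ((d : ℝ) + 1) ^ 6 * ((1 + ‖v‖) ^ 3 * (1 + ‖w‖) ^ 3) := by ring

private lemma xc_dens {C : ℝ} (ha : 0 ≤ a) (ha1 : a ≤ 1) (hC : 0 ≤ C) {g : Vec d → ℝ}
    (hg : ∀ v, |g v| ≤ C * ((1 + ‖v‖) ^ (3 + (d + 1)))⁻¹) (p : Vec d × Vec d) :
    |dens a g p| ≤ 32 * ((d : ℝ) + 1) ^ 6 * (C * C) * (wt d p.1 * wt d p.2) := by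
  unfold dens
  rw [abs_mul, abs_mul]
  have h1 := hg p.1
  have h2 := hg p.2
  have h3 := xc_kin ha ha1 p.1 p.2
  have w1 := w_pos p.1
  have w2 := w_pos p.2
  have e1 := wt_bound (d := d) (a := 1) (b := C) zero_le_one hC p.1 3
  have e2 := wt_bound (d := d) (a := 1) (b := C) zero_le_one hC p.2 3
  calc |g p.1| * |g p.2| * |len (p.1 - p.2) ^ (1 + a) * RR p.1 p.2 ^ a|
      ≤ (C * ((1 + ‖p.1‖) ^ (3 + (d + 1)))⁻¹) * (C * ((1 + ‖p.2‖) ^ (3 + (d + 1)))⁻¹) *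
        (32 * ((d : ℝ) + 1) ^ 6 * ((1 + ‖p.1‖) ^ 3 * (1 + ‖p.2‖) ^ 3)) := by
        refine mul_le_mul (mul_le_mul h1 h2 (abs_nonneg _) (by positivity)) h3 (abs_nonneg _)
          (by positivity)
    _ = 32 * ((d : ℝ) + 1) ^ 6 * (((1 * (1 + ‖p.1‖) ^ 3) * (C * ((1 + ‖p.1‖) ^ (3 + (d + 1)))⁻¹)) *
        ((1 * (1 + ‖p.2‖) ^ 3) * (C * ((1 + ‖p.2‖) ^ (3 + (d + 1)))⁻¹))) := by ring
    _ = 32 * ((d : ℝ) + 1) ^ 6 * (C * C) * (wt d p.1 * wt d p.2) := by rw [e1, e2]; ring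

private lemma xc_dens_cont (ha : 0 ≤ a) {g : Vec d → ℝ} (hg : Continuous g) :
    Continuous (dens a g) := by
  unfold dens
  have h1 : Continuous fun p : Vec d × Vec d => len (p.1 - p.2) ^ (1 + a) :=
    (continuous_len.comp (continuous_fst.sub continuous_snd)).rpow_const
      fun _ => Or.inr (by linarith)
  have h2 : Continuous fun p : Vec d × Vec d => RR p.1 p.2 ^ a :=
    RR_cont.rpow_const fun _ => Or.inr ha
  exact ((hg.comp continuous_fst).mul (hg.comp continuous_snd)).mul (h1.mul h2)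

private lemma xc_int : Integrable fun p : Vec d × Vec d => wt d p.1 * wt d p.2 :=
  (integrable_wt (d := d)).mul_prod (integrable_wt (d := d))

private lemma xc_slice (hf : IsClassicalSol T Q f) {t : ℝ} (ht : t ∈ Ico 0 T) (x : Vec d) :
    Continuous (f t x) :=
  (hf.cont_slice ht).comp (by fun_prop : Continuous fun v : Vec d => (x, v))

private lemma xc_bd (ha : 0 ≤ a) (ha1 : a ≤ 1) (hf : IsClassicalSol T Q f) {T₁ : ℝ} (h1 : T₁ < T) :
    ∃ K, 0 ≤ K ∧ ∀ t ∈ Icc 0 T₁, ∀ x, ∀ p : Vec d × Vec d,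
      |dens a (f t x) p| ≤ K * (wt d p.1 * wt d p.2) := by
  obtain ⟨C, hC0, hC⟩ := hf.f_le h1 (3 + (d + 1))
  exact ⟨32 * ((d : ℝ) + 1) ^ 6 * (C * C), by positivity,
    fun t ht x p => xc_dens ha ha1 hC0 (hC t ht x) p⟩

lemma XW_nonneg (ha : 0 ≤ a) (ha1 : a ≤ 1) (hf : IsClassicalSol T Q f) {t : ℝ} (ht : t ∈ Ico 0 T) {V : ℝ}
    (hV : 0 < V) (x : Vec d) : 0 ≤ XW a V (f t x) univ := by
  unfold XW
  exact integral_nonneg fun p => mul_nonneg (dens_nonneg (fun v => hf.nonneg t ht x v) p)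
    (om_nonneg hV (RR_pos _ _).le)

lemma XW_cont (ha : 0 ≤ a) (ha1 : a ≤ 1) (hf : IsClassicalSol T Q f) :
    ContinuousOn (fun q : (ℝ × Vec d) × ℝ => XW a q.2 (f q.1.1 q.1.2) univ) ((Ico 0 T ×ˢ univ) ×ˢ Ioi 0) := by
  intro q hq
  have hq1 : q.1.1 ∈ Ico 0 T := hq.1.1
  have hlt : (q.1.1 + T) / 2 < T := by linarith [hq1.2]
  obtain ⟨K, hK0, hK⟩ := xc_bd ha ha1 hf hlt
  have hsub : ∀ r ∈ Icc 0 ((q.1.1 + T) / 2), r ∈ Ico 0 T := fun r hr => ⟨hr.1, hr.2.trans_lt hlt⟩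
  have key : ContinuousOn (fun q : (ℝ × Vec d) × ℝ => XW a q.2 (f q.1.1 q.1.2) univ)
      ((Icc 0 ((q.1.1 + T) / 2) ×ˢ univ) ×ˢ Ioi 0) := by
    unfold XW
    refine continuousOn_of_dominated (bound := fun p => K * (wt d p.1 * wt d p.2)) ?_ ?_ ?_ ?_
    · intro r hr
      have h1 : Continuous (dens a (f r.1.1 r.1.2)) := xc_dens_cont ha (xc_slice hf (hsub _ hr.1.1) r.1.2)
      exact (h1.measurable.mul ((om_meas a r.2).comp RR_cont.measurable)).aestronglyMeasurable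
    · intro r hr
      refine Eventually.of_forall fun p => ?_
      have h1 := hK r.1.1 hr.1.1 r.1.2 p
      have h2 := om_nonneg (a := a) (V := r.2) hr.2 (RR_pos p.1 p.2).le
      have h3 := om_le_one ha1 (V := r.2) hr.2 (RR_pos p.1 p.2).le
      rw [Real.norm_eq_abs, abs_mul, abs_of_nonneg h2]
      calc |dens a (f r.1.1 r.1.2) p| * om a r.2 (RR p.1 p.2)
          ≤ |dens a (f r.1.1 r.1.2) p| * 1 := mul_le_mul_of_nonneg_left h3 (abs_nonneg _)
        _ = |dens a (f r.1.1 r.1.2) p| := mul_one _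
        _ ≤ _ := h1
    · exact (xc_int.const_mul K).restrict
    · refine Eventually.of_forall fun p => ?_
      have hc : ∀ v : Vec d, ContinuousOn (fun r : (ℝ × Vec d) × ℝ => f r.1.1 r.1.2 v)
          ((Icc 0 ((q.1.1 + T) / 2) ×ˢ univ) ×ˢ Ioi 0) := by
        intro v
        have h1 : Continuous fun r : (ℝ × Vec d) × ℝ => (r.1.1, r.1.2, v) := by fun_prop
        exact hf.isCont.comp h1.continuousOn fun r hr => ⟨hsub _ hr.1.1, mem_univ _⟩
      have ho : ContinuousOn (fun r : (ℝ × Vec d) × ℝ => om a r.2 (RR p.1 p.2))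
          ((Icc 0 ((q.1.1 + T) / 2) ×ˢ univ) ×ˢ Ioi 0) := by
        unfold om
        have h1 : ContinuousOn (fun r : (ℝ × Vec d) × ℝ => RR p.1 p.2 / r.2)
            ((Icc 0 ((q.1.1 + T) / 2) ×ˢ univ) ×ˢ Ioi 0) :=
          continuousOn_const.div continuous_snd.continuousOn fun r hr => (ne_of_gt hr.2 : r.2 ≠ 0)
        have h2 : ContinuousOn (fun r : (ℝ × Vec d) × ℝ => min 1 (RR p.1 p.2 / r.2))
            ((Icc 0 ((q.1.1 + T) / 2) ×ˢ univ) ×ˢ Ioi 0) :=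
          ContinuousOn.inf continuousOn_const h1
        exact h2.rpow_const fun r _ => Or.inr (by linarith)
      unfold dens
      exact (((hc p.1).mul (hc p.2)).mul continuousOn_const).mul ho
  refine (key q ⟨⟨⟨hq1.1, by linarith [hq1.2]⟩, mem_univ _⟩, hq.2⟩).mono_of_mem_nhdsWithin ?_
  have hop : {r : (ℝ × Vec d) × ℝ | r.1.1 < (q.1.1 + T) / 2} ∈ 𝓝 q :=
    (isOpen_lt (continuous_fst.comp continuous_fst) continuous_const).mem_nhds (by
      change q.1.1 < (q.1.1 + T) / 2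
      linarith [hq1.2])
  filter_upwards [mem_nhdsWithin_of_mem_nhds hop, self_mem_nhdsWithin] with r hr hr2
  exact ⟨⟨⟨hr2.1.1.1, le_of_lt hr⟩, mem_univ _⟩, hr2.2⟩

lemma XW_pl (ha : 0 ≤ a) (ha1 : a ≤ 1) (hf : IsClassicalSol T Q f) {e : Fin d} (hpl : Planar e T f)
    {t : ℝ} (ht : t ∈ Ico 0 T) {V : ℝ} (hV : 0 < V) :
    PlF e (fun x => XW a V (f t x) univ) ∧ PlF e (fun x => XS a (f t x) univ) := by
  have hper : ∀ (x : Vec d) (i : Fin d), f t (x + Pi.single i 1) = f t x := fun x i =>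
    funext fun v => hf.periodic t ht x v i
  have hpl' : ∀ x y : Vec d, x e = y e → f t x = f t y := fun x y hxy =>
    funext fun v => hpl t ht x y v hxy
  refine ⟨⟨?_, ?_, ?_⟩, ⟨?_, ?_, ?_⟩⟩
  · have h1 : Continuous fun x : Vec d => ((t, x), V) := by fun_prop
    exact (XW_cont ha ha1 hf).comp_continuous h1 fun x => ⟨⟨ht, mem_univ _⟩, hV⟩
  · intro x i
    simp only [hper x i]
  · intro x y hxy
    simp only [hpl' x y hxy]
  · have h1 : Continuous fun x : Vec d => (t, x) := by fun_prop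
    exact (XS_cont ha ha1 hf univ).comp_continuous h1 fun x => ⟨ht, mem_univ _⟩
  · intro x i
    simp only [hper x i]
  · intro x y hxy
    simp only [hpl' x y hxy]

end Pool.Agent.H48.PI
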