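import Pool.Agent.H48.PI.Defs

/-!
# Module YvA: the weight `yv`

`yv e a v = ((1+|v_e|)/jb v)^a`: `1 + |v_e| ≤ 2 jb v`; `yv_osc`: if `len(u-v) ≥ jb v/2`: `|yv u - yv v| ≤ 2` and `min(..)^a ≥ 1/2`. Otherwise `jb u ≥ jb v/2` (`jb_lip`),
and with `r v = (1+|v_e|)/jb v`, `|r u - r v| ≤ 3 len/jb u ≤ 6 len/jb v`, `|(r u)^a - (r v)^a| ≤ |r u - r v|^a`.
-/

set_option autoImplicit false

open MeasureTheory Set Filter Topology Pool.Agent.H25.Kin Pool.Agent.H48.PL

namespace Pool.Agent.H48.PI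

variable {d : ℕ} {a : ℝ}

private lemma yva_r (e : Fin d) (v : Vec d) : 0 < (1 + |v e|) / jb v ∧ (1 + |v e|) / jb v ≤ 2 := by
  have hv := jb_pos v
  have h1 := one_le_jb v
  have h2 := abs_coord_le v e
  have h3 := len_le_jb v
  have h0 := abs_nonneg (v e)
  refine ⟨by positivity, ?_⟩
  rw [div_le_iff₀ hv]
  linarith

private lemma yva_hold (ha : 0 < a) (ha1 : a ≤ 1) {x y : ℝ} (hx : 0 ≤ x) (hy : 0 ≤ y) :
    |x ^ a - y ^ a| ≤ |x - y| ^ a := by
  have key : ∀ x y : ℝ, 0 ≤ x → x ≤ y → |x ^ a - y ^ a| ≤ |x - y| ^ a := by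
    intro x y hx hxy
    have h1 : x ^ a ≤ y ^ a := Real.rpow_le_rpow hx hxy ha.le
    have h2 : (x + (y - x)) ^ a ≤ x ^ a + (y - x) ^ a :=
      Real.rpow_add_le_add_rpow hx (by linarith) ha.le ha1
    rw [add_sub_cancel] at h2
    rw [abs_of_nonpos (by linarith), abs_of_nonpos (by linarith : x - y ≤ 0)]
    have h3 : -(x - y) = y - x := by ring
    rw [h3]
    linarith
  rcases le_total x y with h | h
  · exact key x y hx h
  · rw [abs_sub_comm, abs_sub_comm x y]
    exact key y x hy h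

lemma yv_ge (ha : 0 < a) (e : Fin d) (v : Vec d) : jb v ^ (-a) ≤ yv e a v := by
  unfold yv
  have hv := jb_pos v
  have h0 := abs_nonneg (v e)
  rw [Real.rpow_neg hv.le, ← Real.inv_rpow hv.le]
  refine Real.rpow_le_rpow (inv_nonneg.2 hv.le) ?_ ha.le
  rw [inv_eq_one_div]
  exact div_le_div_of_nonneg_right (by linarith) hv.le

lemma yv_pos (e : Fin d) (a : ℝ) (v : Vec d) : 0 < yv e a v := Real.rpow_pos_of_pos (yva_r e v).1 a

lemma yv_le (ha : 0 < a) (ha1 : a ≤ 1) (e : Fin d) (v : Vec d) : yv e a v ≤ 2 := by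
  unfold yv
  obtain ⟨h1, h2⟩ := yva_r e v
  calc ((1 + |v e|) / jb v) ^ a ≤ 2 ^ a := Real.rpow_le_rpow h1.le h2 ha.le
    _ ≤ 2 ^ (1 : ℝ) := Real.rpow_le_rpow_of_exponent_le (by norm_num) ha1
    _ = 2 := Real.rpow_one 2

lemma yv_cont (e : Fin d) (a : ℝ) : Continuous (yv e a : Vec d → ℝ) := by
  have h1 : Continuous fun v : Vec d => (1 + |v e|) / jb v :=
    (continuous_const.add (continuous_apply e).abs).div jb_cont fun v => (jb_pos v).ne'
  exact h1.rpow_const fun v => Or.inl (yva_r e v).1.ne'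

lemma yv_osc (ha : 0 < a) (ha1 : a ≤ 1) (e : Fin d) (u v : Vec d) :
    |yv e a u - yv e a v| ≤ 16 * min 1 (len (u - v) / jb v) ^ a := by
  have hv := jb_pos v
  have hu := jb_pos u
  have hL : 0 ≤ len (u - v) := len_nonneg _
  have hu0 := yv_pos e a u
  have hv0 := yv_pos e a v
  have hu2 := yv_le ha ha1 e u
  have hv2 := yv_le ha ha1 e v
  rcases le_or_gt (1 / 2) (len (u - v) / jb v) with h | h
  · have h1 : |yv e a u - yv e a v| ≤ 2 := by
      rw [abs_le]; constructor <;> linarith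
    have h2 : (1 / 2 : ℝ) ≤ min 1 (len (u - v) / jb v) := le_min (by norm_num) h
    have h3 : (1 / 2 : ℝ) ≤ min 1 (len (u - v) / jb v) ^ a := by
      calc (1 / 2 : ℝ) = (1 / 2) ^ (1 : ℝ) := (Real.rpow_one _).symm
        _ ≤ (1 / 2) ^ a := Real.rpow_le_rpow_of_exponent_ge (by norm_num) (by norm_num) ha1
        _ ≤ _ := Real.rpow_le_rpow (by norm_num) h2 ha.le
    linarith
  · have hmin : min 1 (len (u - v) / jb v) = len (u - v) / jb v := min_eq_right (by linarith)
    rw [hmin]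
    have hlip := jb_lip u v
    rw [abs_le] at hlip
    have hLV : len (u - v) < jb v / 2 := by
      rw [div_lt_iff₀ hv] at h; linarith
    have hU : jb v / 2 ≤ jb u := by linarith [hlip.1]
    have hc := abs_coord_le (u - v) e
    rw [Pi.sub_apply] at hc
    have hX : |(1 + |u e|) - (1 + |v e|)| ≤ len (u - v) := by
      have h1 : (1 + |u e|) - (1 + |v e|) = |u e| - |v e| := by ring
      rw [h1]
      exact (abs_abs_sub_abs_le _ _).trans hc
    have hr : |(1 + |u e|) / jb u - (1 + |v e|) / jb v| ≤ 6 * (len (u - v) / jb v) := by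
      have e1 : (1 + |u e|) / jb u - (1 + |v e|) / jb v =
          ((1 + |u e|) - (1 + |v e|)) / jb u + (1 + |v e|) / jb v * ((jb v - jb u) / jb u) := by
        field_simp
        ring
      have e2 : |((1 + |u e|) - (1 + |v e|)) / jb u| ≤ len (u - v) / jb u := by
        rw [abs_div, abs_of_pos hu]
        exact div_le_div_of_nonneg_right hX hu.le
      have e3 : |(1 + |v e|) / jb v * ((jb v - jb u) / jb u)| ≤ 2 * (len (u - v) / jb u) := by
        obtain ⟨h1, h2⟩ := yva_r e v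
        rw [abs_mul, abs_of_pos h1, abs_div, abs_of_pos hu]
        refine mul_le_mul h2 ?_ (by positivity) (by norm_num)
        refine div_le_div_of_nonneg_right ?_ hu.le
        rw [abs_le]; constructor <;> linarith [hlip.1, hlip.2]
      have e4 : len (u - v) / jb u ≤ 2 * (len (u - v) / jb v) := by
        have : len (u - v) / jb u ≤ len (u - v) / (jb v / 2) :=
          div_le_div_of_nonneg_left hL (by linarith) hU
        have h5 : len (u - v) / (jb v / 2) = 2 * (len (u - v) / jb v) := by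
          field_simp
        linarith
      rw [e1]
      refine (abs_add_le _ _).trans ?_
      linarith
    have ht : 0 ≤ len (u - v) / jb v := div_nonneg hL hv.le
    have hta : 0 ≤ (len (u - v) / jb v) ^ a := Real.rpow_nonneg ht a
    unfold yv
    calc |((1 + |u e|) / jb u) ^ a - ((1 + |v e|) / jb v) ^ a|
        ≤ |(1 + |u e|) / jb u - (1 + |v e|) / jb v| ^ a :=
          yva_hold ha ha1 (yva_r e u).1.le (yva_r e v).1.le
      _ ≤ (6 * (len (u - v) / jb v)) ^ a := Real.rpow_le_rpow (abs_nonneg _) hr ha.le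
      _ = 6 ^ a * (len (u - v) / jb v) ^ a := Real.mul_rpow (by norm_num) ht
      _ ≤ 6 * (len (u - v) / jb v) ^ a := by
          refine mul_le_mul_of_nonneg_right ?_ hta
          calc (6 : ℝ) ^ a ≤ 6 ^ (1 : ℝ) := Real.rpow_le_rpow_of_exponent_le (by norm_num) ha1
            _ = 6 := Real.rpow_one 6
      _ ≤ 16 * (len (u - v) / jb v) ^ a := by linarith

end Pool.Agent.H48.PI
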